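import Pool.Agent.R498.MP.Str

/-!
Indices of the primes `p` with rough `f(p)`.
-/

set_option autoImplicit false

namespace Pool.Agent.R498.MP

open Finset Filter Polynomial

/-- the primes in a window, by index -/
theorem nth_in_window (n C : ℕ) (H : Finset ℕ) (hH : ∀ h ∈ H, h ≤ C)
    (hw : ∀ y ≤ C, (n + y).Prime ↔ y ∈ H) (i : ℕ) (h1 : Nat.count Nat.Prime n ≤ i)
    (h2 : i < Nat.count Nat.Prime n + H.card) : ∃ h ∈ H, Nat.nth Nat.Prime i = n + h := by
  classical
  have hinf := Nat.infinite_setOfPred_prime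
  have hcount : Nat.count Nat.Prime (n + (C + 1)) = Nat.count Nat.Prime n + H.card := by
    rw [Nat.count_add]
    congr 1
    rw [Nat.count_eq_card_filter_range]
    congr 1
    ext y
    rw [mem_filter, mem_range]
    constructor
    · rintro ⟨h3, h4⟩
      exact (hw y (by omega)).1 h4
    · intro h3
      have := hH y h3
      exact ⟨by omega, (hw y this).2 h3⟩
  have h3 : n ≤ Nat.nth Nat.Prime i := by
    by_contra hcon
    push Not at hcon
    have h4 : Nat.count Nat.Prime (Nat.nth Nat.Prime i) < Nat.count Nat.Prime n := by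
      have h5 := Nat.count_strict_mono (Nat.prime_nth_prime i) hcon
      exact h5
    rw [Nat.count_nth_of_infinite hinf] at h4
    omega
  have h4 : Nat.nth Nat.Prime i < n + (C + 1) := by
    apply Nat.nth_lt_of_lt_count
    rw [hcount]
    exact h2
  have h5 := Nat.prime_nth_prime i
  refine ⟨Nat.nth Nat.Prime i - n, ?_, by omega⟩
  apply (hw _ (by omega)).1
  have : n + (Nat.nth Nat.Prime i - n) = Nat.nth Nat.Prime i := by omega
  rw [this]
  exact h5

/-- Among the primes with index in any residue class there are arbitrarily long strings of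
consecutive terms at which `f` is rough. -/
theorem index_strings (f : ℤ[X]) (hz : ∀ n : ℤ, n ≠ 0 → f.eval n ≠ 0)
    (hadm : ∀ p : ℕ, p.Prime → ∃ n : ℤ, ¬ (p : ℤ) ∣ n * f.eval n) (q r : ℕ) (hq : 1 ≤ q) :
    ∃ δ : ℝ, 0 < δ ∧ ∀ a X : ℕ, ∃ k : ℕ, X ≤ k ∧ ∀ i < r, ∀ ℓ : ℕ, ℓ.Prime →
      (ℓ : ℤ) ∣ f.eval ((Nat.nth Nat.Prime (q * (k + i) + a) : ℕ) : ℤ) →
      ((Nat.nth Nat.Prime (q * (k + i) + a) : ℕ) : ℝ) ^ δ ≤ ℓ := by
  classical
  obtain ⟨K, δ, hδ, hmain⟩ := stringsS f hz hadm (q * (r + 1) + 1)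
  refine ⟨δ / 2, by positivity, fun a X => ?_⟩
  obtain ⟨B, hB⟩ := hmain (Finset.range K) (by rw [card_range]) 1
  have hinf := Nat.infinite_setOfPred_prime
  obtain ⟨N, hN, hN2, hN3⟩ := (hB.and ((eventually_ge_atTop 2).and
    (eventually_ge_atTop (Nat.nth Nat.Prime (q * X + a + q))))).exists
  obtain ⟨H, hH, hHm, n, d, h1, h2, h3, h4, h5⟩ := hN
  obtain ⟨g1, g2⟩ := h5 0 (by omega)
  simp only [zero_mul, add_zero] at g1 g2
  obtain ⟨C, hC⟩ : ∃ C, C = (Finset.range K).sup id := ⟨_, rfl⟩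
  rw [← hC] at g1 h2
  have hHC : ∀ h ∈ H, h ≤ C := fun h hh => by
    rw [hC]
    exact Finset.le_sup (f := id) (hH hh)
  obtain ⟨A, hA⟩ : ∃ A, A = Nat.count Nat.Prime n := ⟨_, rfl⟩
  have hw := nth_in_window n C H hHC g1
  rw [← hA] at hw
  -- the start
  have hA1 : q * X + a + q ≤ A := by
    by_contra hcon
    push Not at hcon
    rw [hA] at hcon
    have h6 : n ≤ Nat.nth Nat.Prime (q * X + a + q) := by
      by_contra h7
      push Not at h7
      have h8 := Nat.count_strict_mono (Nat.prime_nth_prime (q * X + a + q)) h7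
      rw [Nat.count_nth_of_infinite hinf] at h8
      omega
    omega
  obtain ⟨k, hk⟩ : ∃ k, k = (A - a) / q + 1 := ⟨_, rfl⟩
  have hk1 : q * ((A - a) / q) ≤ A - a := Nat.mul_div_le _ _
  have hk2 : A - a < q * ((A - a) / q + 1) := Nat.lt_mul_div_succ _ hq
  rw [← hk] at hk2
  have hk3 : q * k ≤ A - a + q := by
    rw [hk, mul_add, mul_one]
    omega
  have hXk : X ≤ k := by
    by_contra hcon
    push Not at hcon
    have : q * k ≤ q * X := Nat.mul_le_mul_left _ hcon.le
    omega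
  refine ⟨k, hXk, fun i hi ℓ hℓ hd => ?_⟩
  have hi1 : q * (k + i) + q ≤ A - a + q + q * r := by
    have h6 : q * (k + i) = q * k + q * i := by ring
    have h7 : q * (i + 1) ≤ q * r := Nat.mul_le_mul_left _ (by omega)
    have h8 : q * (i + 1) = q * i + q := by ring
    omega
  have hi2 : A ≤ q * (k + i) + a := by
    have h6 : q * (k + i) = q * k + q * i := by ring
    omega
  have e1 : q * (r + 1) + 1 = q * r + q + 1 := by ring
  obtain ⟨h, hh, he⟩ := hw (q * (k + i) + a) hi2 (by omega)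
  rw [he] at hd ⊢
  have h6 := g2 h hh ℓ hℓ hd
  refine le_trans ?_ h6
  have hNr : (2 : ℝ) ≤ N := by exact_mod_cast hN2
  have h7 : ((n + h : ℕ) : ℝ) ≤ (N : ℝ) * N := by
    have h8 : n + h ≤ 2 * N := by
      have := hHC h hh
      have h9 : n ≤ n + 1 * d := Nat.le_add_right _ _
      omega
    have h10 : ((n + h : ℕ) : ℝ) ≤ 2 * N := by exact_mod_cast h8
    nlinarith
  calc ((n + h : ℕ) : ℝ) ^ (δ / 2) ≤ ((N : ℝ) * N) ^ (δ / 2) :=
        Real.rpow_le_rpow (by positivity) h7 (by positivity)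
    _ = (N : ℝ) ^ δ := by
        rw [Real.mul_rpow (by positivity) (by positivity), ← Real.rpow_add (by linarith)]
        congr 1
        ring

end Pool.Agent.R498.MP
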