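import Pool.Agent.R498.MP.PU8
import Pool.Agent.R498.MP.Idx

/-!
Exact patterns and indices, uniformly in the polynomial.
-/

set_option autoImplicit false

namespace Pool.Agent.R498.MP

open Finset Filter Polynomial

/-- picking primes with index in a class from a window -/
theorem index_pick (n C : ℕ) (H : Finset ℕ) (hH : ∀ h ∈ H, h ≤ C)
    (hw : ∀ y ≤ C, (n + y).Prime ↔ y ∈ H) (u r a : ℕ) (hu : 1 ≤ u)
    (hcard : u * (r + 2) + 1 ≤ H.card) (hn : Nat.nth Nat.Prime (a + u) ≤ n) :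
    ∃ k : ℕ, ∀ i ≤ r, ∃ h ∈ H, Nat.nth Nat.Prime (u * (k + i) + a) = n + h := by
  have hinf := Nat.infinite_setOfPred_prime
  obtain ⟨A, hA⟩ : ∃ A, A = Nat.count Nat.Prime n := ⟨_, rfl⟩
  have hw' := nth_in_window n C H hH hw
  rw [← hA] at hw'
  have hA1 : a + u ≤ A := by
    by_contra hcon
    push Not at hcon
    rw [hA] at hcon
    have h6 : n ≤ Nat.nth Nat.Prime (a + u) := by
      by_contra h7
      push Not at h7
      have h8 := Nat.count_strict_mono (Nat.prime_nth_prime (a + u)) h7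
      rw [Nat.count_nth_of_infinite hinf] at h8
      omega
    have h7 : n = Nat.nth Nat.Prime (a + u) := le_antisymm h6 hn
    rw [h7, Nat.count_nth_of_infinite hinf] at hcon
    omega
  obtain ⟨k, hk⟩ : ∃ k, k = (A - a) / u + 1 := ⟨_, rfl⟩
  have hk1 : u * ((A - a) / u) ≤ A - a := Nat.mul_div_le _ _
  have hk2 : A - a < u * ((A - a) / u + 1) := Nat.lt_mul_div_succ _ hu
  rw [← hk] at hk2
  have hk3 : u * k ≤ A - a + u := by
    rw [hk, mul_add, mul_one]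
    omega
  refine ⟨k, fun i hi => ?_⟩
  have hi1 : u * (k + i) ≤ A - a + u + u * r := by
    have h6 : u * (k + i) = u * k + u * i := by ring
    have h7 : u * i ≤ u * r := Nat.mul_le_mul_left _ hi
    omega
  have hi2 : A ≤ u * (k + i) + a := by
    have h6 : u * (k + i) = u * k + u * i := by ring
    omega
  have e1 : u * (r + 2) + 1 = u * r + u + u + 1 := by ring
  exact hw' (u * (k + i) + a) hi2 (by omega)

/-- **Strings of consecutive primes in a residue class with almost prime values, uniformly in the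
polynomial.** -/
theorem stringsUR (D q : ℕ) (hq : Squarefree q) (m : ℕ) :
    ∃ (K B : ℕ) (δ : ℝ), 0 < δ ∧ ∀ A : ℕ, ∃ r : ℕ, ∀ S : Finset ℕ, K ≤ S.card →
      ∀ᶠ N : ℕ in atTop, ∀ f : ℤ[X], f.natDegree ≤ D →
      (∀ p : ℕ, p.Prime → ∃ n : ℤ, ¬ (p : ℤ) ∣ n * f.eval n) →
      (∀ x : ℤ, |x| ≤ 2 * N → |f.eval x| ≤ (N : ℤ) ^ A) →
      (∀ x : ℤ, x ≠ 0 → |x| ≤ S.sup id → f.eval x ≠ 0) →
      ∀ a : ℕ, (∀ p : ℕ, p.Prime → p ∣ q → ¬ (p : ℤ) ∣ (a : ℤ) * f.eval (a : ℤ)) →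
      ∃ H ⊆ S, m ≤ H.card ∧ ∃ T : Finset ℕ, (N : ℝ) ≤ Real.log N ^ B * T.card ∧
        ∀ n ∈ T, N < n ∧ n + S.sup id ≤ 2 * N ∧ (∀ y ≤ S.sup id, (n + y).Prime ↔ y ∈ H) ∧
          ∀ h ∈ H, n + h ≡ a [MOD q] ∧ APZ r ((N : ℝ) ^ δ) (f.eval ((n + h : ℕ) : ℤ)) := by
  obtain ⟨K, B, δ, hδ, hmain⟩ := stringsU D q hq m
  refine ⟨K, B, δ, hδ, fun A => ?_⟩
  obtain ⟨r, hr⟩ := hmain A
  refine ⟨r, fun S hS => ?_⟩
  filter_upwards [hr S hS] with N hN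
  intro f hD hadm hfA hz a ha
  obtain ⟨H, hH, hHm, T, hT, hmem⟩ := hN f hD hadm hfA a ha
  refine ⟨H, hH, hHm, T, hT, fun n hn => ?_⟩
  obtain ⟨h1, h2, h3, h4⟩ := hmem n hn
  refine ⟨h1, h2, fun y hy => ⟨fun hp => ?_, fun hyH => (h3 y hyH).1⟩, fun h hh => (h3 h hh).2⟩
  by_contra hcon
  refine h4 y hy hcon (fun h hh hhy => hz _ ?_ ?_) hp
  · intro h0
    apply hhy
    have : (h : ℤ) = y := by linarith
    exact_mod_cast this
  · have h5 : h ≤ S.sup id := Finset.le_sup (f := id) hh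
    rw [abs_le]
    constructor <;> omega

/-- **Primes with index in a residue class with almost prime values, uniformly in the polynomial.** -/
theorem indexU (D q : ℕ) (hq : Squarefree q) (u r : ℕ) (hu : 1 ≤ u) :
    ∃ (C : ℕ) (δ : ℝ), 0 < δ ∧ ∀ A : ℕ, ∃ R : ℕ, ∀ a : ℕ, ∀ᶠ N : ℕ in atTop,
      ∀ f : ℤ[X], f.natDegree ≤ D →
      (∀ p : ℕ, p.Prime → ∃ n : ℤ, ¬ (p : ℤ) ∣ n * f.eval n) →
      (∀ x : ℤ, |x| ≤ 2 * N → |f.eval x| ≤ (N : ℤ) ^ A) →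
      (∀ x : ℤ, x ≠ 0 → |x| ≤ C → f.eval x ≠ 0) →
      ∀ e : ℕ, (∀ p : ℕ, p.Prime → p ∣ q → ¬ (p : ℤ) ∣ (e : ℤ) * f.eval (e : ℤ)) →
      ∃ k : ℕ, N < Nat.nth Nat.Prime (u * k + a) ∧ Nat.nth Nat.Prime (u * (k + r) + a) ≤ 2 * N ∧
      Nat.nth Nat.Prime (u * (k + r) + a) ≤ Nat.nth Nat.Prime (u * k + a) + C ∧
      ∀ i ≤ r, Nat.nth Nat.Prime (u * (k + i) + a) ≡ e [MOD q] ∧
        APZ R ((N : ℝ) ^ δ) (f.eval ((Nat.nth Nat.Prime (u * (k + i) + a) : ℕ) : ℤ)) := by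
  obtain ⟨K, B, δ, hδ, hmain⟩ := stringsUR D q hq (u * (r + 2) + 1)
  obtain ⟨C, hC⟩ : ∃ C, C = (Finset.range K).sup id := ⟨_, rfl⟩
  refine ⟨C, δ, hδ, fun A => ?_⟩
  obtain ⟨R, hR⟩ := hmain A
  refine ⟨R, fun a => ?_⟩
  filter_upwards [hR (Finset.range K) (by rw [card_range]),
    eventually_ge_atTop (Nat.nth Nat.Prime (a + u)), eventually_ge_atTop 1] with N hN hN3 hN1
  intro f hD hadm hfA hz e he
  rw [← hC] at hN
  obtain ⟨H, hH, hHm, T, hT, hmem⟩ := hN f hD hadm hfA hz e he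
  have hne : T.Nonempty := by
    by_contra hcon
    rw [Finset.not_nonempty_iff_eq_empty] at hcon
    rw [hcon, card_empty, Nat.cast_zero, mul_zero] at hT
    have : (1 : ℝ) ≤ N := by exact_mod_cast hN1
    linarith
  obtain ⟨n, hn⟩ := hne
  obtain ⟨h1, h2, g1, g2⟩ := hmem n hn
  have hHC : ∀ h ∈ H, h ≤ C := fun h hh => by
    rw [hC]
    exact Finset.le_sup (f := id) (hH hh)
  obtain ⟨k, hk⟩ := index_pick n C H hHC g1 u r a hu hHm (by omega)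
  obtain ⟨h0, hh0, he0⟩ := hk 0 (by omega)
  rw [add_zero] at he0
  obtain ⟨hr0, hhr0, her0⟩ := hk r le_rfl
  have hb0 := hHC h0 hh0
  have hbr := hHC hr0 hhr0
  refine ⟨k, by omega, by omega, by omega, fun i hi => ?_⟩
  obtain ⟨h, hh, he'⟩ := hk i hi
  rw [he']
  exact g2 h hh

end Pool.Agent.R498.MP
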