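import Pool.Agent.R498.MP.Lin

/-!
Runs of primes `p` with almost prime `p + t_i`, in narrow progressions.
-/

set_option autoImplicit false

namespace Pool.Agent.R498.MP

open Finset Filter Polynomial

/-- `n` has at most `r` prime factors, counted with multiplicity, all of them at least `w` -/
def APN (r : ℕ) (w : ℝ) (n : ℕ) : Prop :=
  n.primeFactorsList.length ≤ r ∧ ∀ q : ℕ, q.Prime → q ∣ n → w ≤ q

theorem AP_nat (r : ℕ) (w : ℝ) (n : ℕ) (h : AP r w (n : ℤ)) : APN r w n := by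
  obtain ⟨-, h1, h2⟩ := h
  rw [Int.natAbs_natCast] at h1
  exact ⟨h1, fun q hq hqd => h2 q hq (by exact_mod_cast hqd)⟩

/-- tuples of shifts -/
theorem tup_runs (k : ℕ) (t : Fin k → ℕ)
    (ht : ∀ q : ℕ, q.Prime → ∃ n : ℕ, ¬ q ∣ n ∧ ∀ i, ¬ q ∣ n + t i) (m : ℕ) :
    ∃ (K r : ℕ) (δ : ℝ), 0 < δ ∧ ∀ S : Finset ℕ, K ≤ S.card → ∀ l : ℕ, ∃ B : ℕ,
      ∀ᶠ N : ℕ in atTop, ∃ H ⊆ S, m ≤ H.card ∧ ∃ n d : ℕ, 1 ≤ d ∧ (d : ℝ) ≤ Real.log N ^ B ∧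
      ∀ j < l, N < n + j * d ∧ n + j * d + S.sup id ≤ 2 * N ∧
        (∀ s ∈ H, (n + j * d + s).Prime ∧
          ∀ i, APN r ((N : ℝ) ^ δ) (n + j * d + s + t i)) ∧
        ∀ y ≤ S.sup id, y ∉ H → (∀ s ∈ S, ∀ i, y ≠ s + t i) → ¬ (n + j * d + y).Prime := by
  obtain ⟨K, r, δ, hδ, hmain⟩ := lin_runs k (fun _ => 1) (fun i => (t i : ℤ))
    (fun _ => one_ne_zero) (fun q hq => by
      obtain ⟨n, h1, h2⟩ := ht q hq
      have hqZ : Prime (q : ℤ) := Nat.prime_iff_prime_int.1 hq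
      refine ⟨n, fun h => ?_⟩
      rcases hqZ.dvd_or_dvd h with h3 | h3
      · exact h1 (by exact_mod_cast h3)
      · obtain ⟨i, _, h4⟩ := (hqZ.dvd_finsetProd_iff _).1 h3
        apply h2 i
        have e : (1 : ℤ) * (n : ℤ) + (t i : ℤ) = ((n + t i : ℕ) : ℤ) := by push_cast; ring
        rw [e] at h4
        exact_mod_cast h4) m
  refine ⟨K, r, δ, hδ, fun S hS l => ?_⟩
  obtain ⟨B, hB⟩ := hmain S hS l
  refine ⟨B, ?_⟩
  filter_upwards [hB] with N hN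
  obtain ⟨H, hH, hHm, n, d, h1, h2, h3⟩ := hN
  refine ⟨H, hH, hHm, n, d, h1, h2, fun j hj => ?_⟩
  obtain ⟨g1, g2, g3, g4⟩ := h3 j hj
  refine ⟨g1, g2, fun s hs => ?_, fun y hy hyH hyS => g4 y hy hyH ?_⟩
  · obtain ⟨g5, g6⟩ := g3 s hs
    refine ⟨g5, fun i => AP_nat _ _ _ ?_⟩
    have e : (1 : ℤ) * ((n + j * d + s : ℕ) : ℤ) + (t i : ℤ) = ((n + j * d + s + t i : ℕ) : ℤ) := by
      push_cast; ring
    have h7 := g6 i
    rwa [e] at h7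
  · intro s hs _ i h0
    apply hyS s hs i
    have : (y : ℤ) = s + t i := by linarith
    exact_mod_cast this

end Pool.Agent.R498.MP
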