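import Pool.Agent.R498.MP.PU9
import Pool.Agent.R498.MP.Tup

/-!
Representations of every large even number as a prime plus an almost prime, along strings of consecutive
primes.
-/

set_option autoImplicit false

namespace Pool.Agent.R498.MP

open Finset Filter Polynomial

/-- the linear form `M - x` -/
noncomputable def GLf (M : ℕ) : ℤ[X] := C (M : ℤ) - X

theorem GLf_eval (M : ℕ) (x : ℤ) : (GLf M).eval x = M - x := by simp [GLf]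

theorem GLf_deg (M : ℕ) : (GLf M).natDegree ≤ 1 := by
  unfold GLf
  refine (natDegree_sub_le _ _).trans ?_
  rw [natDegree_C, natDegree_X]
  omega

theorem GLf_adm (M : ℕ) (hM : Even M) (p : ℕ) (hp : p.Prime) :
    ∃ n : ℤ, ¬ (p : ℤ) ∣ n * (GLf M).eval n := by
  have hpZ : Prime (p : ℤ) := Nat.prime_iff_prime_int.1 hp
  have h1 : ¬ (p : ℤ) ∣ 1 := fun h => hp.one_lt.ne' (Nat.dvd_one.1 (by exact_mod_cast h))
  by_cases hp2 : p = 2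
  · subst hp2
    refine ⟨1, ?_⟩
    rw [GLf_eval]
    obtain ⟨k, rfl⟩ := hM
    push_cast
    omega
  · have h2 : ¬ (p : ℤ) ∣ 2 := by
      intro h
      have : p ∣ 2 := by exact_mod_cast h
      exact hp2 ((Nat.prime_dvd_prime_iff_eq hp Nat.prime_two).1 this)
    by_cases h3 : (p : ℤ) ∣ (M : ℤ) - 1
    · refine ⟨2, fun h => ?_⟩
      rw [GLf_eval] at h
      rcases hpZ.dvd_or_dvd h with h4 | h4
      · exact h2 h4
      · apply h1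
        have := dvd_sub h3 h4
        ring_nf at this
        exact this
    · refine ⟨1, fun h => ?_⟩
      rw [GLf_eval] at h
      rcases hpZ.dvd_or_dvd h with h4 | h4
      · exact h1 h4
      · exact h3 h4

theorem GLf_bd (M N A : ℕ) (hN : 3 ≤ N) (hM : M ≤ N ^ A) (x : ℤ) (hx : |x| ≤ 2 * N) :
    |(GLf M).eval x| ≤ (N : ℤ) ^ (A + 2) := by
  rw [GLf_eval]
  have h1 : |(M : ℤ) - x| ≤ M + 2 * N := by
    refine (abs_sub _ _).trans ?_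
    rw [Nat.abs_cast]
    linarith
  refine h1.trans ?_
  have h2 : (M : ℤ) ≤ (N : ℤ) ^ A := by exact_mod_cast hM
  have h3 : (1 : ℤ) ≤ (N : ℤ) ^ A := one_le_pow₀ (by exact_mod_cast (by omega : 1 ≤ N))
  have h4 : (3 : ℤ) ≤ N := by exact_mod_cast hN
  rw [pow_add]
  have h5 : (0 : ℤ) ≤ (N : ℤ) ^ 2 - 1 := by nlinarith
  have h6 : (2 : ℤ) * N ≤ (N : ℤ) ^ 2 - 1 := by nlinarith
  have h7 := mul_nonneg (sub_nonneg.2 h3) h5
  nlinarith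

theorem APZ_nat (r : ℕ) (w : ℝ) (n : ℕ) (h : APZ r w (n : ℤ)) : APN r w n := by
  obtain ⟨-, h1, h2⟩ := h
  rw [Int.natAbs_natCast] at h1
  exact ⟨h1, fun q hq hqd => h2 q hq (by exact_mod_cast hqd)⟩

/-- local conditions at the primes dividing `q` -/
theorem GLf_cop (M q c : ℕ) (hc : IsCoprime ((c : ℤ) * ((M : ℤ) - c)) (q : ℤ)) (p : ℕ)
    (hp : p.Prime) (hpq : p ∣ q) : ¬ (p : ℤ) ∣ (c : ℤ) * (GLf M).eval (c : ℤ) := by
  intro h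
  rw [GLf_eval] at h
  have h1 : (p : ℤ) ∣ (q : ℤ) := Int.natCast_dvd_natCast.2 hpq
  have h2 : IsUnit (p : ℤ) := hc.isUnit_of_dvd' h h1
  rw [Int.isUnit_iff] at h2
  have h3 := hp.one_lt
  omega

/-- a polynomially larger parameter -/
theorem swap_ev (A : ℕ) (P : ℕ → ℕ → Prop) (h : ∀ᶠ N : ℕ in atTop, ∀ M : ℕ, M ≤ N ^ A → P N M) :
    ∀ᶠ M : ℕ in atTop, ∀ N : ℕ, M ≤ N ^ A → P N M := by
  obtain ⟨N₀, hN₀⟩ := eventually_atTop.1 h
  filter_upwards [eventually_ge_atTop (N₀ ^ A + 1)] with M hM N hMN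
  apply hN₀ N _ M hMN
  by_contra hcon
  push Not at hcon
  have := Nat.pow_le_pow_left hcon.le A
  omega

/-- **Every large even number is a prime plus an almost prime along strings of consecutive primes.** -/
theorem gold_strings (q : ℕ) (hq : Squarefree q) (m : ℕ) :
    ∃ (K B : ℕ) (δ : ℝ), 0 < δ ∧ ∀ A : ℕ, ∃ r : ℕ, ∀ S : Finset ℕ, K ≤ S.card →
      ∀ᶠ N : ℕ in atTop, ∀ M : ℕ, Even M → 2 * N < M → M ≤ N ^ A →
      ∀ c : ℕ, IsCoprime ((c : ℤ) * ((M : ℤ) - c)) (q : ℤ) →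
      ∃ H ⊆ S, m ≤ H.card ∧ ∃ T : Finset ℕ, (N : ℝ) ≤ Real.log N ^ B * T.card ∧
        ∀ n ∈ T, N < n ∧ n + S.sup id ≤ 2 * N ∧ (∀ y ≤ S.sup id, (n + y).Prime ↔ y ∈ H) ∧
          ∀ h ∈ H, n + h ≡ c [MOD q] ∧ APN r ((N : ℝ) ^ δ) (M - (n + h)) := by
  obtain ⟨K, B, δ, hδ, hmain⟩ := stringsUR 1 q hq m
  refine ⟨K, B, δ, hδ, fun A => ?_⟩
  obtain ⟨r, hr⟩ := hmain (A + 2)
  refine ⟨r, fun S hS => ?_⟩
  filter_upwards [hr S hS, eventually_ge_atTop (S.sup id + 3)] with N hN hN3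
  intro M hM hNM hMA c hc
  obtain ⟨H, hH, hHm, T, hT, hmem⟩ := hN (GLf M) (GLf_deg M) (GLf_adm M hM)
    (GLf_bd M N A (by omega) hMA) (fun x hx0 hx => by
      rw [GLf_eval]
      intro h0
      rw [abs_le] at hx
      omega) c (GLf_cop M q c hc)
  refine ⟨H, hH, hHm, T, hT, fun n hn => ?_⟩
  obtain ⟨h1, h2, h3, h4⟩ := hmem n hn
  refine ⟨h1, h2, h3, fun h hh => ⟨(h4 h hh).1, ?_⟩⟩
  have h5 := (h4 h hh).2
  have h6 : h ≤ S.sup id := Finset.le_sup (f := id) (hH hh)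
  rw [GLf_eval] at h5
  have e : (M : ℤ) - ((n + h : ℕ) : ℤ) = ((M - (n + h) : ℕ) : ℤ) := by
    rw [Nat.cast_sub (by omega)]
  rw [e] at h5
  exact APZ_nat _ _ _ h5

/-- **Every large even number is a prime plus an almost prime along primes with index in a class.** -/
theorem gold_index (q : ℕ) (hq : Squarefree q) (u r : ℕ) (hu : 1 ≤ u) :
    ∃ (C : ℕ) (δ : ℝ), 0 < δ ∧ ∀ A : ℕ, ∃ R : ℕ, ∀ a : ℕ, ∀ᶠ N : ℕ in atTop,
      ∀ M : ℕ, Even M → 2 * N < M → M ≤ N ^ A →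
      ∀ c : ℕ, IsCoprime ((c : ℤ) * ((M : ℤ) - c)) (q : ℤ) →
      ∃ k : ℕ, N < Nat.nth Nat.Prime (u * k + a) ∧ Nat.nth Nat.Prime (u * (k + r) + a) ≤ 2 * N ∧
      Nat.nth Nat.Prime (u * (k + r) + a) ≤ Nat.nth Nat.Prime (u * k + a) + C ∧
      ∀ i ≤ r, Nat.nth Nat.Prime (u * (k + i) + a) ≡ c [MOD q] ∧
        APN R ((N : ℝ) ^ δ) (M - Nat.nth Nat.Prime (u * (k + i) + a)) := by
  obtain ⟨C, δ, hδ, hmain⟩ := indexU 1 q hq u r hu
  refine ⟨C, δ, hδ, fun A => ?_⟩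
  obtain ⟨R, hR⟩ := hmain (A + 2)
  refine ⟨R, fun a => ?_⟩
  filter_upwards [hR a, eventually_ge_atTop (C + 3)] with N hN hN3
  intro M hM hNM hMA c hc
  obtain ⟨k, h1, h2, h3, h4⟩ := hN (GLf M) (GLf_deg M) (GLf_adm M hM)
    (GLf_bd M N A (by omega) hMA) (fun x hx0 hx => by
      rw [GLf_eval]
      intro h0
      rw [abs_le] at hx
      omega) c (GLf_cop M q c hc)
  refine ⟨k, h1, h2, h3, fun i hi => ⟨(h4 i hi).1, ?_⟩⟩
  have h5 := (h4 i hi).2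
  have h6 : Nat.nth Nat.Prime (u * (k + i) + a) ≤ Nat.nth Nat.Prime (u * (k + r) + a) := by
    apply (Nat.nth_monotone Nat.infinite_setOfPred_prime)
    have : u * (k + i) ≤ u * (k + r) := Nat.mul_le_mul_left _ (by omega)
    omega
  rw [GLf_eval] at h5
  have e : (M : ℤ) - ((Nat.nth Nat.Prime (u * (k + i) + a) : ℕ) : ℤ) =
      ((M - Nat.nth Nat.Prime (u * (k + i) + a) : ℕ) : ℤ) := by
    rw [Nat.cast_sub (by omega)]
  rw [e] at h5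
  exact APZ_nat _ _ _ h5

/-- the strings, for every large even number -/
theorem gold_stringsM (q : ℕ) (hq : Squarefree q) (m : ℕ) :
    ∃ (K B : ℕ) (δ : ℝ), 0 < δ ∧ ∀ A : ℕ, ∃ r : ℕ, ∀ S : Finset ℕ, K ≤ S.card →
      ∀ᶠ M : ℕ in atTop, ∀ N : ℕ, M ≤ N ^ A → Even M → 2 * N < M →
      ∀ c : ℕ, IsCoprime ((c : ℤ) * ((M : ℤ) - c)) (q : ℤ) →
      ∃ H ⊆ S, m ≤ H.card ∧ ∃ T : Finset ℕ, (N : ℝ) ≤ Real.log N ^ B * T.card ∧
        ∀ n ∈ T, N < n ∧ n + S.sup id ≤ 2 * N ∧ (∀ y ≤ S.sup id, (n + y).Prime ↔ y ∈ H) ∧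
          ∀ h ∈ H, n + h ≡ c [MOD q] ∧ APN r ((N : ℝ) ^ δ) (M - (n + h)) := by
  obtain ⟨K, B, δ, hδ, hmain⟩ := gold_strings q hq m
  refine ⟨K, B, δ, hδ, fun A => ?_⟩
  obtain ⟨r, hr⟩ := hmain A
  refine ⟨r, fun S hS => ?_⟩
  apply swap_ev A (fun N M => Even M → 2 * N < M →
      ∀ c : ℕ, IsCoprime ((c : ℤ) * ((M : ℤ) - c)) (q : ℤ) →
      ∃ H ⊆ S, m ≤ H.card ∧ ∃ T : Finset ℕ, (N : ℝ) ≤ Real.log N ^ B * T.card ∧
        ∀ n ∈ T, N < n ∧ n + S.sup id ≤ 2 * N ∧ (∀ y ≤ S.sup id, (n + y).Prime ↔ y ∈ H) ∧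
          ∀ h ∈ H, n + h ≡ c [MOD q] ∧ APN r ((N : ℝ) ^ δ) (M - (n + h)))
  filter_upwards [hr S hS] with N hN M hMA hM hNM
  exact hN M hM hNM hMA

/-- the `j`-th prime -/
noncomputable def pr' (j : ℕ) : ℕ := Nat.nth Nat.Prime (j - 1)

/-- the indices, for every large even number -/
theorem gold_indexM (q : ℕ) (hq : Squarefree q) (u r : ℕ) (hu : 1 ≤ u) :
    ∃ (C : ℕ) (δ : ℝ), 0 < δ ∧ ∀ A : ℕ, ∃ R : ℕ, ∀ b : ℕ, ∀ᶠ M : ℕ in atTop,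
      ∀ N : ℕ, M ≤ N ^ A → Even M → 2 * N < M →
      ∀ c : ℕ, IsCoprime ((c : ℤ) * ((M : ℤ) - c)) (q : ℤ) →
      ∃ t : ℕ, 0 < t ∧ N < pr' (u * t + b) ∧ pr' (u * (t + r) + b) ≤ 2 * N ∧
      pr' (u * (t + r) + b) ≤ pr' (u * t + b) + C ∧
      ∀ i ≤ r, pr' (u * (t + i) + b) ≡ c [MOD q] ∧
        APN R ((N : ℝ) ^ δ) (M - pr' (u * (t + i) + b)) := by
  obtain ⟨C, δ, hδ, hmain⟩ := gold_index q hq u r hu
  refine ⟨C, δ, hδ, fun A => ?_⟩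
  obtain ⟨R, hR⟩ := hmain A
  refine ⟨R, fun b => ?_⟩
  apply swap_ev A (fun N M => Even M → 2 * N < M →
      ∀ c : ℕ, IsCoprime ((c : ℤ) * ((M : ℤ) - c)) (q : ℤ) →
      ∃ t : ℕ, 0 < t ∧ N < pr' (u * t + b) ∧ pr' (u * (t + r) + b) ≤ 2 * N ∧
      pr' (u * (t + r) + b) ≤ pr' (u * t + b) + C ∧
      ∀ i ≤ r, pr' (u * (t + i) + b) ≡ c [MOD q] ∧
        APN R ((N : ℝ) ^ δ) (M - pr' (u * (t + i) + b)))
  filter_upwards [hR (u + b - 1)] with N hN M hMA hM hNM c hc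
  obtain ⟨k, h1, h2, h3, h4⟩ := hN M hM hNM hMA c hc
  have e : ∀ i, pr' (u * (k + 1 + i) + b) = Nat.nth Nat.Prime (u * (k + i) + (u + b - 1)) := by
    intro i
    unfold pr'
    congr 1
    have : u * (k + 1 + i) = u * (k + i) + u := by ring
    omega
  have e0 : pr' (u * (k + 1) + b) = Nat.nth Nat.Prime (u * k + (u + b - 1)) := by
    have := e 0
    simpa using this
  refine ⟨k + 1, by omega, ?_, ?_, ?_, fun i hi => ?_⟩
  · rw [e0]; exact h1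
  · rw [e r]; exact h2
  · rw [e0, e r]; exact h3
  · rw [e i]
    exact h4 i hi

end Pool.Agent.R498.MP
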