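import Pool.Agent.R498.MP.StrR
import Pool.Agent.R498.MP.Idx

/-!
Indices of the primes `p` with almost prime `f(p)`.
-/

set_option autoImplicit false

namespace Pool.Agent.R498.MP

open Finset Filter Polynomial

/-- the values at the prime with index `i` (starting from `0`) -/
def GoodIdx (f : ℤ[X]) (R : ℕ) (w : ℝ) (i : ℕ) : Prop :=
  (f.eval ((Nat.nth Nat.Prime i : ℕ) : ℤ)).natAbs.primeFactorsList.length ≤ R ∧
    ∀ ℓ : ℕ, ℓ.Prime → (ℓ : ℤ) ∣ f.eval ((Nat.nth Nat.Prime i : ℕ) : ℤ) → w ≤ ℓ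

/-- Among the primes with index in any residue class there are arbitrarily long strings of
consecutive terms, in bounded intervals, at which `f` is almost prime. -/
theorem index_runs (f : ℤ[X]) (hz : ∀ n : ℤ, n ≠ 0 → f.eval n ≠ 0)
    (hadm : ∀ p : ℕ, p.Prime → ∃ n : ℤ, ¬ (p : ℤ) ∣ n * f.eval n) (q r : ℕ) (hq : 1 ≤ q) :
    ∃ (C R : ℕ) (δ : ℝ), 0 < δ ∧ ∀ a : ℕ, ∀ᶠ N : ℕ in atTop, ∃ k : ℕ,
      N < Nat.nth Nat.Prime (q * k + a) ∧ Nat.nth Nat.Prime (q * (k + r) + a) ≤ 2 * N ∧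
      Nat.nth Nat.Prime (q * (k + r) + a) ≤ Nat.nth Nat.Prime (q * k + a) + C ∧
      ∀ i ≤ r, GoodIdx f R ((N : ℝ) ^ δ) (q * (k + i) + a) := by
  classical
  obtain ⟨K, R, δ, hδ, hmain⟩ := stringsR f hz hadm (q * (r + 2) + 1)
  obtain ⟨C, hC⟩ : ∃ C, C = (Finset.range K).sup id := ⟨_, rfl⟩
  refine ⟨C, R, δ, by positivity, fun a => ?_⟩
  obtain ⟨B, hB⟩ := hmain (Finset.range K) (by rw [card_range]) 1
  have hinf := Nat.infinite_setOfPred_prime
  filter_upwards [hB, eventually_ge_atTop (Nat.nth Nat.Prime (a + q))] with N hN hN3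
  obtain ⟨H, hH, hHm, n, d, h1, h2, h3, h4, h5⟩ := hN
  obtain ⟨g1, g2⟩ := h5 0 (by omega)
  simp only [zero_mul, add_zero] at g1 g2
  rw [← hC] at g1 h2
  have hHC : ∀ h ∈ H, h ≤ C := fun h hh => by
    rw [hC]
    exact Finset.le_sup (f := id) (hH hh)
  obtain ⟨A, hA⟩ : ∃ A, A = Nat.count Nat.Prime n := ⟨_, rfl⟩
  have hw := nth_in_window n C H hHC g1
  rw [← hA] at hw
  -- the start
  have hA1 : a + q ≤ A := by
    by_contra hcon
    push Not at hcon
    rw [hA] at hcon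
    have h6 : n ≤ Nat.nth Nat.Prime (a + q) := by
      by_contra h7
      push Not at h7
      have h8 := Nat.count_strict_mono (Nat.prime_nth_prime (a + q)) h7
      rw [Nat.count_nth_of_infinite hinf] at h8
      omega
    omega
  obtain ⟨k, hk⟩ : ∃ k, k = (A - a) / q + 1 := ⟨_, rfl⟩
  have hk1 : q * ((A - a) / q) ≤ A - a := Nat.mul_div_le _ _
  have hk2 : A - a < q * ((A - a) / q + 1) := Nat.lt_mul_div_succ _ hq
  rw [← hk] at hk2
  have hk3 : q * k ≤ A - a + q := by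
    rw [hk, mul_add, mul_one]
    omega
  have hin : ∀ i ≤ r, ∃ h ∈ H, Nat.nth Nat.Prime (q * (k + i) + a) = n + h := by
    intro i hi
    have hi1 : q * (k + i) ≤ A - a + q + q * r := by
      have h6 : q * (k + i) = q * k + q * i := by ring
      have h7 : q * i ≤ q * r := Nat.mul_le_mul_left _ hi
      omega
    have hi2 : A ≤ q * (k + i) + a := by
      have h6 : q * (k + i) = q * k + q * i := by ring
      omega
    have e1 : q * (r + 2) + 1 = q * r + q + q + 1 := by ring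
    exact hw (q * (k + i) + a) hi2 (by omega)
  obtain ⟨h0, hh0, he0⟩ := hin 0 (by omega)
  rw [add_zero] at he0
  obtain ⟨hr0, hhr0, her0⟩ := hin r le_rfl
  have hb0 := hHC h0 hh0
  have hbr := hHC hr0 hhr0
  refine ⟨k, by omega, by omega, by omega, fun i hi => ?_⟩
  obtain ⟨h, hh, he⟩ := hin i hi
  unfold GoodIdx
  rw [he]
  exact g2 h hh

end Pool.Agent.R498.MP
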