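import Pool.Agent.R498.MP.Lin
import Pool.Agent.R498.MP.Idx2

/-!
Cunningham chains: primes `p` with almost prime `2 ^ i (p + e) - e`.
-/

set_option autoImplicit false

namespace Pool.Agent.R498.MP

open Finset Filter Polynomial

/-- the product of the further members of the chain -/
noncomputable def CU (e : ℤ) (k : ℕ) : ℤ[X] :=
  ∏ i ∈ Finset.range k, (C (2 ^ (i + 1) : ℤ) * (X + C e) - C e)

theorem CU_eval (e : ℤ) (k : ℕ) (n : ℤ) :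
    (CU e k).eval n = ∏ i ∈ Finset.range k, ((2 : ℤ) ^ (i + 1) * (n + e) - e) := by
  unfold CU
  rw [eval_prod]
  apply prod_congr rfl
  intro i _
  simp

theorem CU_nz (e : ℤ) (he : e = 1 ∨ e = -1) (k : ℕ) (n : ℤ) : (CU e k).eval n ≠ 0 := by
  rw [CU_eval, prod_ne_zero_iff]
  intro i _ h
  have h1 : (2 : ℤ) ∣ e := by
    refine ⟨2 ^ i * (n + e), ?_⟩
    have : (2 : ℤ) ^ (i + 1) = 2 * 2 ^ i := by ring
    rw [this] at h
    linarith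
  rcases he with rfl | rfl <;> omega

theorem CU_adm (e : ℤ) (he : e = 1 ∨ e = -1) (k : ℕ) (p : ℕ) (hp : p.Prime) :
    ∃ n : ℤ, ¬ (p : ℤ) ∣ n * (CU e k).eval n := by
  refine ⟨-e, fun h => ?_⟩
  rw [CU_eval] at h
  have e1 : ∏ i ∈ Finset.range k, ((2 : ℤ) ^ (i + 1) * (-e + e) - e) = (-e) ^ k := by
    rw [← Finset.card_range k, ← prod_const, Finset.card_range]
    apply prod_congr rfl
    intro i _
    ring
  rw [e1] at h
  have hu : IsUnit (-e * (-e) ^ k) := by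
    have : IsUnit (-e) := by
      rcases he with rfl | rfl
      · exact isUnit_one.neg
      · simp
    exact this.mul (this.pow k)
  have h2 : IsUnit (p : ℤ) := isUnit_of_dvd_unit h hu
  rw [Int.isUnit_iff] at h2
  have := hp.one_lt
  omega

theorem cun_of (e : ℤ) (he : e = 1 ∨ e = -1) (k r : ℕ) (w : ℝ) (x : ℤ)
    (h1 : ((CU e k).eval x).natAbs.primeFactorsList.length ≤ r)
    (h2 : ∀ p : ℕ, p.Prime → (p : ℤ) ∣ (CU e k).eval x → w ≤ p) (i : ℕ) (hi1 : 1 ≤ i)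
    (hi : i ≤ k) : AP r w (2 ^ i * (x + e) - e) := by
  refine AP_dvd r w _ _ ⟨CU_nz e he k x, h1, h2⟩ ?_
  rw [CU_eval]
  have h3 := dvd_prod_of_mem (fun i => (2 : ℤ) ^ (i + 1) * (x + e) - e)
    (show i - 1 ∈ Finset.range k from Finset.mem_range.2 (by omega))
  have h4 : i - 1 + 1 = i := by omega
  simp only [h4] at h3
  exact h3

theorem cun_strings (e : ℤ) (he : e = 1 ∨ e = -1) (k m : ℕ) :
    ∃ (K r : ℕ) (δ : ℝ), 0 < δ ∧ ∀ S : Finset ℕ, K ≤ S.card → ∀ l : ℕ, ∃ B : ℕ,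
      ∀ᶠ N : ℕ in atTop, ∃ H ⊆ S, m ≤ H.card ∧ ∃ n d : ℕ, 1 ≤ d ∧ (d : ℝ) ≤ Real.log N ^ B ∧
      ∀ j < l, N < n + j * d ∧ n + j * d + S.sup id ≤ 2 * N ∧
        (∀ y ≤ S.sup id, (n + j * d + y).Prime ↔ y ∈ H) ∧
        ∀ s ∈ H, ∀ i, 1 ≤ i → i ≤ k →
          AP r ((N : ℝ) ^ δ) (2 ^ i * (((n + j * d + s : ℕ) : ℤ) + e) - e) := by
  obtain ⟨K, r, δ, hδ, hmain⟩ := stringsR (CU e k) (fun n _ => CU_nz e he k n) (CU_adm e he k) m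
  refine ⟨K, r, δ, hδ, fun S hS l => ?_⟩
  obtain ⟨B, hB⟩ := hmain S hS l
  refine ⟨B, ?_⟩
  filter_upwards [hB] with N hN
  obtain ⟨H, hH, hHm, n, d, h1, h2, h3, h4, h5⟩ := hN
  refine ⟨H, hH, hHm, n, d, h3, h4, fun j hj => ?_⟩
  obtain ⟨g1, g2⟩ := h5 j hj
  have h6 : j * d ≤ l * d := Nat.mul_le_mul_right _ hj.le
  refine ⟨by omega, by omega, g1, fun s hs i hi1 hi => ?_⟩
  obtain ⟨g3, g4⟩ := g2 s hs
  exact cun_of e he k r _ _ g3 g4 i hi1 hi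

theorem cun_index (e : ℤ) (he : e = 1 ∨ e = -1) (k q r : ℕ) (hq : 1 ≤ q) :
    ∃ (C R : ℕ) (δ : ℝ), 0 < δ ∧ ∀ a : ℕ, ∀ᶠ N : ℕ in atTop, ∃ t : ℕ,
      N < Nat.nth Nat.Prime (q * t + a) ∧ Nat.nth Nat.Prime (q * (t + r) + a) ≤ 2 * N ∧
      Nat.nth Nat.Prime (q * (t + r) + a) ≤ Nat.nth Nat.Prime (q * t + a) + C ∧
      ∀ j ≤ r, ∀ i, 1 ≤ i → i ≤ k →
        AP R ((N : ℝ) ^ δ) (2 ^ i * (((Nat.nth Nat.Prime (q * (t + j) + a) : ℕ) : ℤ) + e) - e) := by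
  obtain ⟨C, R, δ, hδ, hmain⟩ := index_runs (CU e k) (fun n _ => CU_nz e he k n) (CU_adm e he k)
    q r hq
  refine ⟨C, R, δ, hδ, fun a => ?_⟩
  filter_upwards [hmain a] with N hN
  obtain ⟨t, h1, h2, h3, h4⟩ := hN
  refine ⟨t, h1, h2, h3, fun j hj i hi1 hi => ?_⟩
  obtain ⟨g1, g2⟩ := h4 j hj
  exact cun_of e he k R _ _ g1 g2 i hi1 hi

end Pool.Agent.R498.MP
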