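import Pool.Agent.R498.MP.StrE

/-!
Runs of primes `p` with almost prime linear forms `a_i p + b_i`, in narrow progressions.
-/

set_option autoImplicit false

namespace Pool.Agent.R498.MP

open Finset Filter Polynomial

/-- `n ≠ 0` is up to the sign a product of at most `r` primes, all of them at least `w` -/
def AP (r : ℕ) (w : ℝ) (n : ℤ) : Prop :=
  n ≠ 0 ∧ n.natAbs.primeFactorsList.length ≤ r ∧ ∀ q : ℕ, q.Prime → (q : ℤ) ∣ n → w ≤ q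

theorem AP_dvd (r : ℕ) (w : ℝ) (a b : ℤ) (h : AP r w b) (hab : a ∣ b) : AP r w a := by
  obtain ⟨h0, h1, h2⟩ := h
  refine ⟨fun h => h0 (by rw [h] at hab; exact zero_dvd_iff.1 hab), ?_,
    fun q hq hd => h2 q hq (hd.trans hab)⟩
  refine le_trans ?_ h1
  exact (Nat.primeFactorsList_sublist_of_dvd (Int.natAbs_dvd_natAbs.2 hab)
    (Int.natAbs_ne_zero.2 h0)).length_le

/-- linear forms at primes in runs -/
theorem lin_runs (k : ℕ) (a b : Fin k → ℤ) (ha : ∀ i, a i ≠ 0)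
    (hadm : ∀ p : ℕ, p.Prime → ∃ n : ℤ, ¬ (p : ℤ) ∣ n * ∏ i, (a i * n + b i)) (m : ℕ) :
    ∃ (K r : ℕ) (δ : ℝ), 0 < δ ∧ ∀ S : Finset ℕ, K ≤ S.card → ∀ l : ℕ,
      ∃ B : ℕ, ∀ᶠ N : ℕ in atTop, ∃ H ⊆ S, m ≤ H.card ∧ ∃ n d : ℕ, 1 ≤ d ∧
        (d : ℝ) ≤ Real.log N ^ B ∧ ∀ j < l, N < n + j * d ∧ n + j * d + S.sup id ≤ 2 * N ∧
          (∀ h ∈ H, (n + j * d + h).Prime ∧
            ∀ i, AP r ((N : ℝ) ^ δ) (a i * ((n + j * d + h : ℕ) : ℤ) + b i)) ∧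
          ∀ y ≤ S.sup id, y ∉ H → (∀ h ∈ S, h ≠ y → ∀ i, a i * ((h : ℤ) - y) + b i ≠ 0) →
            ¬ (n + j * d + y).Prime := by
  classical
  obtain ⟨f, hf⟩ : ∃ f : ℤ[X], f = ∏ i, (C (a i) * X + C (b i)) := ⟨_, rfl⟩
  have hev : ∀ n : ℤ, f.eval n = ∏ i, (a i * n + b i) := by
    intro n
    rw [hf, eval_prod]
    apply prod_congr rfl
    intro i _
    simp
  have hf0 : f ≠ 0 := by
    rw [hf, prod_ne_zero_iff]
    intro i _ h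
    have h1 := congrArg (fun Q : ℤ[X] => Q.eval 1) h
    have h0 := congrArg (fun Q : ℤ[X] => Q.eval 0) h
    simp at h1 h0
    rw [h0, add_zero] at h1
    exact ha i h1
  obtain ⟨K, r, δ, hδ, hmain⟩ := stringsE f hf0 (fun p hp => by
    obtain ⟨n, hn⟩ := hadm p hp
    exact ⟨n, by rwa [hev]⟩) m
  obtain ⟨n₀, hn₀⟩ := Pool.Agent.Y677.RSZ.ne_zero_ev f hf0
  refine ⟨K, r, δ, hδ, fun S hS l => ?_⟩
  obtain ⟨B, hB⟩ := hmain S hS l
  refine ⟨B, ?_⟩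
  filter_upwards [hB, eventually_ge_atTop n₀] with N hN hNn
  obtain ⟨H, hH, hHm, n, d, h1, h2, h3, h4, h5⟩ := hN
  refine ⟨H, hH, hHm, n, d, h3, h4, fun j hj => ?_⟩
  obtain ⟨g1, g2⟩ := h5 j hj
  have h6 : j * d ≤ l * d := Nat.mul_le_mul_right _ hj.le
  refine ⟨by omega, by omega, fun h hh => ?_, fun y hy hyH hyf => g2 y hy hyH ?_⟩
  · obtain ⟨g3, g4, g5⟩ := g1 h hh
    refine ⟨g3, fun i => ?_⟩
    refine AP_dvd r _ _ (f.eval ((n + j * d + h : ℕ) : ℤ)) ⟨hn₀ _ (by omega), g4, g5⟩ ?_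
    rw [hev]
    exact dvd_prod_of_mem _ (mem_univ i)
  · intro h hh hhy
    rw [hev, prod_ne_zero_iff]
    intro i _
    exact hyf h hh hhy i

end Pool.Agent.R498.MP
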