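import Pool.Agent.R498.MP.StrR
import Pool.Agent.R498.MP.Lin
import Pool.Agent.R498.MP.Idx
import Pool.Agent.R498.MP.PA14

/-!
Runs of primes `p` in a residue class with almost prime `f(p)`, in narrow progressions.
-/

set_option autoImplicit false

namespace Pool.Agent.R498.MP

open Finset Filter Polynomial
open Pool.Agent.Y677.RSZ (Sys poly_all)

/-- **Runs of primes in a residue class with almost prime values in narrow progressions**, the shifts being taken from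
an arbitrary large set; the only further primes allowed are those forced by integer zeros of `f`. -/
theorem stringsC (f : ℤ[X]) (hf : f ≠ 0)
    (hadm : ∀ p : ℕ, p.Prime → ∃ n : ℤ, ¬ (p : ℤ) ∣ n * f.eval n)
    (q a : ℕ) (hq : Squarefree q)
    (ha : ∀ p : ℕ, p.Prime → p ∣ q → ¬ (p : ℤ) ∣ (a : ℤ) * f.eval (a : ℤ)) (m : ℕ) :
    ∃ (K r : ℕ) (δ : ℝ), 0 < δ ∧ ∀ S : Finset ℕ, K ≤ S.card → ∀ l : ℕ,
      ∃ B : ℕ, ∀ᶠ N : ℕ in atTop, ∃ H ⊆ S, m ≤ H.card ∧ ∃ n d : ℕ, N < n ∧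
        n + l * d + S.sup id ≤ 2 * N ∧ 1 ≤ d ∧ (d : ℝ) ≤ Real.log N ^ B ∧ ∀ j < l,
          (∀ h ∈ H, (n + j * d + h).Prime ∧ n + j * d + h ≡ a [MOD q] ∧
            (f.eval ((n + j * d + h : ℕ) : ℤ)).natAbs.primeFactorsList.length ≤ r ∧
            ∀ p : ℕ, p.Prime → (p : ℤ) ∣ f.eval ((n + j * d + h : ℕ) : ℤ) →
            (N : ℝ) ^ δ ≤ p) ∧
          ∀ y ≤ S.sup id, y ∉ H → (∀ h ∈ S, h ≠ y → f.eval ((h : ℤ) - y) ≠ 0) →
            ¬ (n + j * d + y).Prime := by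
  classical
  have hP : (X * f : ℤ[X]) ≠ 0 := mul_ne_zero X_ne_zero hf
  have hev : ∀ n : ℤ, (X * f : ℤ[X]).eval n = n * f.eval n := fun n => by
    rw [eval_mul, eval_X]
  obtain ⟨g, hg⟩ := poly_all (X * f) hP (fun p hp => by
    obtain ⟨n, hn⟩ := hadm p hp
    exact ⟨n, by rwa [hev]⟩)
  obtain ⟨K, δ, hδ, hmain⟩ := prime_runs_cls (X * f) hP (g + q + 1) (by omega)
    (Pool.Agent.Y677.RSZ.Sys.mono hg (by omega)) (fun p _ n hd => by
      rw [hev]
      exact hd.mul_right _) q a hq (by omega) (fun p hp hpq => by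
      rw [hev]
      exact ha p hp hpq) m
  obtain ⟨Kf, D, hKD⟩ := Pool.Agent.W123.RU.Poly.eval_bound f
  obtain ⟨n₀, hn₀⟩ := Pool.Agent.Y677.RSZ.ne_zero_ev f hf
  obtain ⟨r, hr⟩ := exists_nat_ge ((2 * D + 1 : ℝ) / δ)
  refine ⟨K, r, δ, hδ, fun S hS l => ?_⟩
  obtain ⟨B, hB⟩ := hmain S hS ((Finset.range (S.sup id + 1)).filter
    (fun y => ∀ h ∈ S, h ≠ y → f.eval ((h : ℤ) - y) ≠ 0)) (by
    intro h hh y hy hyh
    rw [hev]
    rw [mem_filter] at hy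
    have h1 : (h : ℤ) - y ≠ 0 := by
      intro h2
      apply hyh
      have : (h : ℤ) = y := by linarith
      exact_mod_cast this.symm
    exact mul_ne_zero h1 (hy.2 h hh hyh.symm)) (S.sup id) (l + 2) (by omega)
  refine ⟨B, ?_⟩
  filter_upwards [hB, eventually_ge_atTop (Kf + n₀ + 3)] with N hN hNK
  obtain ⟨H, hH, hHm, n, d, h1, h2, h3, h4, h5⟩ := hN
  have e : l + 2 - 1 = l + 1 := by omega
  rw [e] at h2
  have e2 : (l + 1) * d = l * d + d := by ring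
  refine ⟨H, hH, hHm.le, n, d, h1, by omega, h3, h4, fun j hj => ?_⟩
  obtain ⟨g1, g2, g3⟩ := h5 j (by omega)
  refine ⟨fun h hh => ?_, fun y hy hyH hyf => g3 y ?_ hyH⟩
  · have h9' : ∀ p : ℕ, p.Prime → (p : ℤ) ∣ f.eval ((n + j * d + h : ℕ) : ℤ) →
        (N : ℝ) ^ δ ≤ p := by
      intro p hp hpd
      apply g2 h hh p hp
      rw [hev]
      exact hpd.mul_left _
    refine ⟨(g1 h hh).1, (g1 h hh).2, ?_, h9'⟩
    have hx : n + j * d + h ≤ 2 * N := by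
      have h6 : h ≤ S.sup id := Finset.le_sup (f := id) (hH hh)
      have h7 : j * d ≤ l * d := Nat.mul_le_mul_right _ hj.le
      omega
    have hNr : (3 : ℝ) ≤ N := by
      have : 3 ≤ N := by omega
      exact_mod_cast this
    have hKr : (Kf : ℝ) ≤ N := by
      have : Kf ≤ N := by omega
      exact_mod_cast this
    have hxr : ((n + j * d + h : ℕ) : ℝ) ≤ 2 * N := by exact_mod_cast hx
    have h8 := hKD ((n + j * d + h : ℕ) : ℤ)
    have h9 : ((f.eval ((n + j * d + h : ℕ) : ℤ)).natAbs : ℝ) =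
        |((f.eval ((n + j * d + h : ℕ) : ℤ) : ℤ) : ℝ)| := by
      rw [← Int.cast_abs, Int.abs_eq_natAbs]
      simp
    have h10 : ((f.eval ((n + j * d + h : ℕ) : ℤ)).natAbs : ℝ) ≤
        (N : ℝ) ^ ((2 * D + 1 : ℕ) : ℝ) := by
      rw [h9]
      refine h8.trans ?_
      rw [Real.rpow_natCast, pow_succ, pow_mul, mul_comm]
      have h11 : 1 + |(((n + j * d + h : ℕ) : ℤ) : ℝ)| ≤ (N : ℝ) ^ 2 := by
        rw [Int.cast_natCast, abs_of_nonneg (Nat.cast_nonneg _)]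
        nlinarith
      have h12 : (0 : ℝ) ≤ 1 + |(((n + j * d + h : ℕ) : ℤ) : ℝ)| := by positivity
      gcongr
    have h13 := Pool.Agent.R498.MT.omega_le N (f.eval ((n + j * d + h : ℕ) : ℤ)).natAbs δ
      ((2 * D + 1 : ℕ) : ℝ) (by omega) hδ (by
        rw [Int.natAbs_ne_zero]
        exact hn₀ _ (by omega)) (fun p hp hpd => h9' p hp (Int.natCast_dvd.2 hpd)) h10
    have h14 : ((2 * D + 1 : ℕ) : ℝ) / δ ≤ r := by
      push_cast
      exact hr
    exact_mod_cast h13.trans h14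
  · rw [mem_filter]
    exact ⟨Finset.mem_range.2 (by omega), hyf⟩

/-- strings of consecutive primes in a residue class -/
theorem stringsCR (f : ℤ[X]) (hz : ∀ n : ℤ, n ≠ 0 → f.eval n ≠ 0)
    (hadm : ∀ p : ℕ, p.Prime → ∃ n : ℤ, ¬ (p : ℤ) ∣ n * f.eval n)
    (q a : ℕ) (hq : Squarefree q)
    (ha : ∀ p : ℕ, p.Prime → p ∣ q → ¬ (p : ℤ) ∣ (a : ℤ) * f.eval (a : ℤ)) (m : ℕ) :
    ∃ (K r : ℕ) (δ : ℝ), 0 < δ ∧ ∀ S : Finset ℕ, K ≤ S.card → ∀ l : ℕ,
      ∃ B : ℕ, ∀ᶠ N : ℕ in atTop, ∃ H ⊆ S, m ≤ H.card ∧ ∃ n d : ℕ, 1 ≤ d ∧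
        (d : ℝ) ≤ Real.log N ^ B ∧ ∀ j < l, N < n + j * d ∧ n + j * d + S.sup id ≤ 2 * N ∧
          (∀ y ≤ S.sup id, (n + j * d + y).Prime ↔ y ∈ H) ∧
          ∀ h ∈ H, n + j * d + h ≡ a [MOD q] ∧
            AP r ((N : ℝ) ^ δ) (f.eval ((n + j * d + h : ℕ) : ℤ)) := by
  have hf : f ≠ 0 := by
    intro h
    apply hz 1 one_ne_zero
    rw [h, eval_zero]
  obtain ⟨K, r, δ, hδ, hmain⟩ := stringsC f hf hadm q a hq ha m
  refine ⟨K, r, δ, hδ, fun S hS l => ?_⟩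
  obtain ⟨B, hB⟩ := hmain S hS l
  refine ⟨B, ?_⟩
  filter_upwards [hB] with N hN
  obtain ⟨H, hH, hHm, n, d, h1, h2, h3, h4, h5⟩ := hN
  refine ⟨H, hH, hHm, n, d, h3, h4, fun j hj => ?_⟩
  obtain ⟨g1, g2⟩ := h5 j hj
  have h6 : j * d ≤ l * d := Nat.mul_le_mul_right _ hj.le
  refine ⟨by omega, by omega, fun y hy => ⟨fun hp => ?_, fun hyH => (g1 y hyH).1⟩, fun h hh => ?_⟩
  · by_contra hcon
    refine g2 y hy hcon (fun h _ hhy => hz _ ?_) hp
    intro h0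
    apply hhy
    have : (h : ℤ) = y := by linarith
    exact_mod_cast this
  · obtain ⟨-, g3, g4, g5⟩ := g1 h hh
    refine ⟨g3, hz _ ?_, g4, g5⟩
    have : 0 < n + j * d + h := by omega
    exact_mod_cast this.ne'

/-- Among the primes with index in any residue class there are arbitrarily long strings of
consecutive terms, in bounded intervals, all in a given class, at which `f` is almost prime. -/
theorem index_runsC (f : ℤ[X]) (hz : ∀ n : ℤ, n ≠ 0 → f.eval n ≠ 0)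
    (hadm : ∀ p : ℕ, p.Prime → ∃ n : ℤ, ¬ (p : ℤ) ∣ n * f.eval n)
    (q e : ℕ) (hq : Squarefree q)
    (he : ∀ p : ℕ, p.Prime → p ∣ q → ¬ (p : ℤ) ∣ (e : ℤ) * f.eval (e : ℤ))
    (u r : ℕ) (hu : 1 ≤ u) :
    ∃ (C R : ℕ) (δ : ℝ), 0 < δ ∧ ∀ a : ℕ, ∀ᶠ N : ℕ in atTop, ∃ k : ℕ,
      N < Nat.nth Nat.Prime (u * k + a) ∧ Nat.nth Nat.Prime (u * (k + r) + a) ≤ 2 * N ∧
      Nat.nth Nat.Prime (u * (k + r) + a) ≤ Nat.nth Nat.Prime (u * k + a) + C ∧
      ∀ i ≤ r, Nat.nth Nat.Prime (u * (k + i) + a) ≡ e [MOD q] ∧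
        AP R ((N : ℝ) ^ δ) (f.eval ((Nat.nth Nat.Prime (u * (k + i) + a) : ℕ) : ℤ)) := by
  classical
  obtain ⟨K, R, δ, hδ, hmain⟩ := stringsCR f hz hadm q e hq he (u * (r + 2) + 1)
  obtain ⟨C, hC⟩ : ∃ C, C = (Finset.range K).sup id := ⟨_, rfl⟩
  refine ⟨C, R, δ, by positivity, fun a => ?_⟩
  obtain ⟨B, hB⟩ := hmain (Finset.range K) (by rw [card_range]) 1
  have hinf := Nat.infinite_setOfPred_prime
  filter_upwards [hB, eventually_ge_atTop (Nat.nth Nat.Prime (a + u))] with N hN hN3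
  obtain ⟨H, hH, hHm, n, d, h3, h4, h5⟩ := hN
  obtain ⟨h1, h2, g1, g2⟩ := h5 0 (by omega)
  simp only [zero_mul, add_zero] at h1 h2 g1 g2
  rw [← hC] at g1 h2
  have hHC : ∀ h ∈ H, h ≤ C := fun h hh => by
    rw [hC]
    exact Finset.le_sup (f := id) (hH hh)
  obtain ⟨A, hA⟩ : ∃ A, A = Nat.count Nat.Prime n := ⟨_, rfl⟩
  have hw := nth_in_window n C H hHC g1
  rw [← hA] at hw
  -- the start
  have hA1 : a + u ≤ A := by
    by_contra hcon
    push Not at hcon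
    rw [hA] at hcon
    have h6 : n ≤ Nat.nth Nat.Prime (a + u) := by
      by_contra h7
      push Not at h7
      have h8 := Nat.count_strict_mono (Nat.prime_nth_prime (a + u)) h7
      rw [Nat.count_nth_of_infinite hinf] at h8
      omega
    omega
  obtain ⟨k, hk⟩ : ∃ k, k = (A - a) / u + 1 := ⟨_, rfl⟩
  have hk1 : u * ((A - a) / u) ≤ A - a := Nat.mul_div_le _ _
  have hk2 : A - a < u * ((A - a) / u + 1) := Nat.lt_mul_div_succ _ hu
  rw [← hk] at hk2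
  have hk3 : u * k ≤ A - a + u := by
    rw [hk, mul_add, mul_one]
    omega
  have hin : ∀ i ≤ r, ∃ h ∈ H, Nat.nth Nat.Prime (u * (k + i) + a) = n + h := by
    intro i hi
    have hi1 : u * (k + i) ≤ A - a + u + u * r := by
      have h6 : u * (k + i) = u * k + u * i := by ring
      have h7 : u * i ≤ u * r := Nat.mul_le_mul_left _ hi
      omega
    have hi2 : A ≤ u * (k + i) + a := by
      have h6 : u * (k + i) = u * k + u * i := by ring
      omega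
    have e1 : u * (r + 2) + 1 = u * r + u + u + 1 := by ring
    exact hw (u * (k + i) + a) hi2 (by omega)
  obtain ⟨h0, hh0, he0⟩ := hin 0 (by omega)
  rw [add_zero] at he0
  obtain ⟨hr0, hhr0, her0⟩ := hin r le_rfl
  have hb0 := hHC h0 hh0
  have hbr := hHC hr0 hhr0
  refine ⟨k, by omega, by omega, by omega, fun i hi => ?_⟩
  obtain ⟨h, hh, he⟩ := hin i hi
  rw [he]
  exact g2 h hh

end Pool.Agent.R498.MP
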