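import Pool.Agent.R498.MP.Cun
import Pool.Agent.R498.MP.StrC

/-!
Cunningham chains: primes `p` in a residue class with almost prime `2 ^ i (p + e) - e`.
-/

set_option autoImplicit false

namespace Pool.Agent.R498.MP

open Finset Filter Polynomial

theorem cun_ofAP (e : ℤ) (k r : ℕ) (w : ℝ) (x : ℤ) (h : AP r w ((CU e k).eval x)) (i : ℕ)
    (hi1 : 1 ≤ i) (hi : i ≤ k) : AP r w (2 ^ i * (x + e) - e) := by
  refine AP_dvd r w _ _ h ?_
  rw [CU_eval]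
  have h3 := dvd_prod_of_mem (fun i => (2 : ℤ) ^ (i + 1) * (x + e) - e)
    (show i - 1 ∈ Finset.range k from Finset.mem_range.2 (by omega))
  have h4 : i - 1 + 1 = i := by omega
  simp only [h4] at h3
  exact h3

/-- a class in which the member number `k` of the chain has the prime factor `q` and the previous
ones do not -/
theorem cun_class (e : ℤ) (he : e = 1 ∨ e = -1) (k : ℕ) (hk : 1 ≤ k) :
    ∃ q a : ℕ, q.Prime ∧ (∀ p : ℕ, p.Prime → p ∣ q → ¬ (p : ℤ) ∣ (a : ℤ) * (CU e (k - 1)).eval (a : ℤ)) ∧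
      (q : ℤ) ∣ 2 ^ k * ((a : ℤ) + e) - e := by
  obtain ⟨q, hqk, hq⟩ := Nat.exists_infinite_primes (2 ^ k + 1)
  have hqZ : Prime (q : ℤ) := Nat.prime_iff_prime_int.1 hq
  have hk2 : 2 ≤ 2 ^ k := by
    calc 2 = 2 ^ 1 := by norm_num
      _ ≤ 2 ^ k := Nat.pow_le_pow_right (by norm_num) hk
  have hq2 : 3 ≤ q := by omega
  have hcop : Nat.Coprime (2 ^ k) q := by
    apply Nat.Coprime.pow_left
    rw [Nat.coprime_primes Nat.prime_two hq]
    omega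
  -- the inverse of `2 ^ k`
  obtain ⟨u, v, huv⟩ : IsCoprime (((2 ^ k : ℕ) : ℤ)) (q : ℤ) := Nat.isCoprime_iff_coprime.2 hcop
  have hu : (q : ℤ) ∣ u * 2 ^ k - 1 := ⟨-v, by push_cast at huv; linarith⟩
  have hsmall : ∀ j : ℕ, 1 ≤ j → j ≤ k → ¬ (q : ℤ) ∣ 2 ^ j - 1 := by
    intro j hj1 hjk hd
    have h1 : 2 ≤ 2 ^ j := by
      calc 2 = 2 ^ 1 := by norm_num
        _ ≤ 2 ^ j := Nat.pow_le_pow_right (by norm_num) hj1
    have h2 : 2 ^ j ≤ 2 ^ k := Nat.pow_le_pow_right (by norm_num) hjk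
    have h3 : ((2 : ℤ) ^ j - 1) = ((2 ^ j - 1 : ℕ) : ℤ) := by
      rw [Nat.cast_sub (by omega)]
      push_cast
      ring
    rw [h3] at hd
    have h4 : q ∣ 2 ^ j - 1 := by exact_mod_cast hd
    have h5 := Nat.le_of_dvd (by omega) h4
    omega
  have hq0 : (q : ℤ) ≠ 0 := by exact_mod_cast hq.ne_zero
  obtain ⟨a, ha⟩ : ∃ a : ℕ, (a : ℤ) = (e * (u - 1)) % q := by
    refine ⟨((e * (u - 1)) % q).toNat, ?_⟩
    rw [Int.toNat_of_nonneg (Int.emod_nonneg _ hq0)]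
  have ha' : (q : ℤ) ∣ (a : ℤ) - e * (u - 1) := by
    rw [ha]
    exact (Int.dvd_self_sub_emod).neg_right.trans (by rw [neg_sub])
  -- the members modulo `q`
  have hmem : ∀ i : ℕ, (q : ℤ) ∣ (2 ^ i * ((a : ℤ) + e) - e) - (e * (2 ^ i * u) - e) := by
    intro i
    have h1 : (2 ^ i * ((a : ℤ) + e) - e) - (e * (2 ^ i * u) - e) =
      2 ^ i * ((a : ℤ) - e * (u - 1)) := by ring
    rw [h1]
    exact ha'.mul_left _
  have hnot : ∀ i : ℕ, i < k → ¬ (q : ℤ) ∣ 2 ^ i * ((a : ℤ) + e) - e := by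
    intro i hi hd
    have h1 := dvd_sub hd (hmem i)
    have h2 : (2 ^ i * ((a : ℤ) + e) - e) - ((2 ^ i * ((a : ℤ) + e) - e) - (e * (2 ^ i * u) - e)) =
      e * (2 ^ i * u - 1) := by ring
    rw [h2] at h1
    have h3 : (q : ℤ) ∣ 2 ^ i * u - 1 := by
      rcases he with rfl | rfl
      · simpa using h1
      · have h5 : (-1 : ℤ) * (2 ^ i * u - 1) = -(2 ^ i * u - 1) := by ring
        rw [h5] at h1
        exact (dvd_neg).1 h1
    -- multiply by `2 ^ (k - i)`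
    have h4 : (q : ℤ) ∣ 2 ^ (k - i) - 1 := by
      have h5 := dvd_sub hu (h3.mul_left (2 ^ (k - i)))
      have h6 : u * 2 ^ k - 1 - 2 ^ (k - i) * (2 ^ i * u - 1) = 2 ^ (k - i) - 1 := by
        have h7 : (2 : ℤ) ^ k = 2 ^ (k - i) * 2 ^ i := by
          rw [← pow_add]
          congr 1
          omega
        rw [h7]
        ring
      rwa [h6] at h5
    exact hsmall (k - i) (by omega) (by omega) h4
  refine ⟨q, a, hq, ?_, ?_⟩
  · intro p hp hpq hd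
    have : p = q := (Nat.prime_dvd_prime_iff_eq hp hq).1 hpq
    subst this
    rcases hqZ.dvd_or_dvd hd with h | h
    · apply hnot 0 (by omega)
      have h1 : (2 : ℤ) ^ 0 * ((a : ℤ) + e) - e = a := by ring
      rw [h1]
      exact h
    · rw [CU_eval] at h
      obtain ⟨i, hi, h1⟩ := (hqZ.dvd_finsetProd_iff _).1 h
      rw [Finset.mem_range] at hi
      exact hnot (i + 1) (by omega) h1
  · have h1 := hmem k
    have h2 : (q : ℤ) ∣ e * (2 ^ k * u) - e := by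
      have h3 : e * (2 ^ k * u) - e = e * (u * 2 ^ k - 1) := by ring
      rw [h3]
      exact hu.mul_left _
    have h3 := dvd_add h1 h2
    have h4 : (2 ^ k * ((a : ℤ) + e) - e) - (e * (2 ^ k * u) - e) + (e * (2 ^ k * u) - e) =
      2 ^ k * ((a : ℤ) + e) - e := by ring
    rwa [h4] at h3

/-- strings of consecutive primes starting almost prime chains of exact length `k` -/
theorem cun_exact (e : ℤ) (he : e = 1 ∨ e = -1) (k : ℕ) (hk : 1 ≤ k) (m : ℕ) :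
    ∃ (K r : ℕ) (δ : ℝ), 0 < δ ∧ ∀ S : Finset ℕ, K ≤ S.card → ∀ l : ℕ, ∃ B : ℕ,
      ∀ᶠ N : ℕ in atTop, ∃ H ⊆ S, m ≤ H.card ∧ ∃ n d : ℕ, 1 ≤ d ∧ (d : ℝ) ≤ Real.log N ^ B ∧
      ∀ j < l, N < n + j * d ∧ n + j * d + S.sup id ≤ 2 * N ∧
        (∀ y ≤ S.sup id, (n + j * d + y).Prime ↔ y ∈ H) ∧
        ∀ s ∈ H, (∀ i, 1 ≤ i → i < k →
          AP r ((N : ℝ) ^ δ) (2 ^ i * (((n + j * d + s : ℕ) : ℤ) + e) - e)) ∧
          ¬ (2 ^ k * (((n + j * d + s : ℕ) : ℤ) + e) - e).natAbs.Prime := by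
  obtain ⟨q, a, hq, ha, hqk⟩ := cun_class e he k hk
  obtain ⟨K, r, δ, hδ, hmain⟩ := stringsCR (CU e (k - 1)) (fun n _ => CU_nz e he (k - 1) n)
    (CU_adm e he (k - 1)) q a hq.prime.squarefree ha m
  refine ⟨K, r, δ, hδ, fun S hS l => ?_⟩
  obtain ⟨B, hB⟩ := hmain S hS l
  refine ⟨B, ?_⟩
  filter_upwards [hB, eventually_ge_atTop (q + 3)] with N hN hNq
  obtain ⟨H, hH, hHm, n, d, h3, h4, h5⟩ := hN
  refine ⟨H, hH, hHm, n, d, h3, h4, fun j hj => ?_⟩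
  obtain ⟨g1, g2, g3, g4⟩ := h5 j hj
  refine ⟨g1, g2, g3, fun s hs => ⟨fun i hi1 hi => ?_, fun hp => ?_⟩⟩
  · exact cun_ofAP e (k - 1) r _ _ (g4 s hs).2 i hi1 (by omega)
  · have h6 := (g4 s hs).1
    obtain ⟨x, hx⟩ : ∃ x : ℕ, x = n + j * d + s := ⟨_, rfl⟩
    rw [← hx] at h6 hp
    have h7 : (q : ℤ) ∣ (a : ℤ) - x := Nat.modEq_iff_dvd.1 h6
    have h8 : (q : ℤ) ∣ 2 ^ k * ((x : ℤ) + e) - e := by
      have h9 := dvd_sub hqk (h7.mul_left (2 ^ k))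
      have h10 : 2 ^ k * ((a : ℤ) + e) - e - 2 ^ k * ((a : ℤ) - x) = 2 ^ k * ((x : ℤ) + e) - e := by
        ring
      rwa [h10] at h9
    have h9 : q ∣ (2 ^ k * ((x : ℤ) + e) - e).natAbs := Int.natCast_dvd.1 h8
    have h10 := (Nat.prime_dvd_prime_iff_eq hq hp).1 h9
    have h11 : (q : ℤ) < 2 ^ k * ((x : ℤ) + e) - e := by
      have h12 : (1 : ℤ) ≤ 2 ^ k := one_le_pow₀ (by norm_num)
      have h13 : (N : ℤ) < x := by
        rw [hx]
        push_cast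
        have : (N : ℤ) < n + j * d := by exact_mod_cast g1
        linarith [(Nat.cast_nonneg s : (0 : ℤ) ≤ s)]
      have h14 : (q : ℤ) + 3 ≤ N := by exact_mod_cast hNq
      rcases he with rfl | rfl <;> nlinarith
    have h12 : ((2 ^ k * ((x : ℤ) + e) - e).natAbs : ℤ) = 2 ^ k * ((x : ℤ) + e) - e := by
      rw [Int.natAbs_of_nonneg]
      linarith [(Nat.cast_nonneg q : (0 : ℤ) ≤ q)]
    rw [← h12, ← h10] at h11
    exact lt_irrefl _ h11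

/-- primes with index in a class starting almost prime chains of exact length `k` -/
theorem cun_exact_index (e : ℤ) (he : e = 1 ∨ e = -1) (k : ℕ) (hk : 1 ≤ k) (u r : ℕ)
    (hu : 1 ≤ u) :
    ∃ (C R : ℕ) (δ : ℝ), 0 < δ ∧ ∀ a : ℕ, ∀ᶠ N : ℕ in atTop, ∃ t : ℕ,
      N < Nat.nth Nat.Prime (u * t + a) ∧ Nat.nth Nat.Prime (u * (t + r) + a) ≤ 2 * N ∧
      Nat.nth Nat.Prime (u * (t + r) + a) ≤ Nat.nth Nat.Prime (u * t + a) + C ∧
      ∀ j ≤ r, (∀ i, 1 ≤ i → i < k →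
        AP R ((N : ℝ) ^ δ) (2 ^ i * (((Nat.nth Nat.Prime (u * (t + j) + a) : ℕ) : ℤ) + e) - e)) ∧
        ¬ (2 ^ k * (((Nat.nth Nat.Prime (u * (t + j) + a) : ℕ) : ℤ) + e) - e).natAbs.Prime := by
  obtain ⟨q, c, hq, hc, hqk⟩ := cun_class e he k hk
  obtain ⟨C, R, δ, hδ, hmain⟩ := index_runsC (CU e (k - 1)) (fun n _ => CU_nz e he (k - 1) n)
    (CU_adm e he (k - 1)) q c hq.prime.squarefree hc u r hu
  refine ⟨C, R, δ, hδ, fun a => ?_⟩
  filter_upwards [hmain a, eventually_ge_atTop (q + 3)] with N hN hNq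
  obtain ⟨t, h1, h2, h3, h4⟩ := hN
  refine ⟨t, h1, h2, h3, fun j hj => ?_⟩
  obtain ⟨h6, h7⟩ := h4 j hj
  refine ⟨fun i hi1 hi => cun_ofAP e (k - 1) R _ _ h7 i hi1 (by omega), fun hp => ?_⟩
  obtain ⟨x, hx⟩ : ∃ x : ℕ, x = Nat.nth Nat.Prime (u * (t + j) + a) := ⟨_, rfl⟩
  have hNx : N < x := by
    rw [hx]
    refine h1.trans_le ?_
    apply (Nat.nth_monotone Nat.infinite_setOfPred_prime)
    have : u * t ≤ u * (t + j) := Nat.mul_le_mul_left _ (by omega)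
    omega
  rw [← hx] at h6 hp
  have h7 : (q : ℤ) ∣ (c : ℤ) - x := Nat.modEq_iff_dvd.1 h6
  have h8 : (q : ℤ) ∣ 2 ^ k * ((x : ℤ) + e) - e := by
    have h9 := dvd_sub hqk (h7.mul_left (2 ^ k))
    have h10 : 2 ^ k * ((c : ℤ) + e) - e - 2 ^ k * ((c : ℤ) - x) = 2 ^ k * ((x : ℤ) + e) - e := by
      ring
    rwa [h10] at h9
  have h9 : q ∣ (2 ^ k * ((x : ℤ) + e) - e).natAbs := Int.natCast_dvd.1 h8
  have h10 := (Nat.prime_dvd_prime_iff_eq hq hp).1 h9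
  have h11 : (q : ℤ) < 2 ^ k * ((x : ℤ) + e) - e := by
    have h12 : (1 : ℤ) ≤ 2 ^ k := one_le_pow₀ (by norm_num)
    have h13 : (N : ℤ) < x := by exact_mod_cast hNx
    have h14 : (q : ℤ) + 3 ≤ N := by exact_mod_cast hNq
    rcases he with rfl | rfl <;> nlinarith
  have h12 : ((2 ^ k * ((x : ℤ) + e) - e).natAbs : ℤ) = 2 ^ k * ((x : ℤ) + e) - e := by
    rw [Int.natAbs_of_nonneg]
    linarith [(Nat.cast_nonneg q : (0 : ℤ) ≤ q)]
  rw [← h12, ← h10] at h11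
  exact lt_irrefl _ h11

end Pool.Agent.R498.MP
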