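import Pool.Agent.R498.MP.StrR

/-!
Runs of primes `p` with almost prime `f(p)`, in narrow progressions: general `f`.
-/

set_option autoImplicit false

namespace Pool.Agent.R498.MP

open Finset Filter Polynomial
open Pool.Agent.Y677.RSZ (Sys poly_all)

/-- **Runs of primes with almost prime values in narrow progressions**, the shifts being taken from
an arbitrary large set; the only further primes allowed are those forced by integer zeros of `f`. -/
theorem stringsE (f : ℤ[X]) (hf : f ≠ 0)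
    (hadm : ∀ p : ℕ, p.Prime → ∃ n : ℤ, ¬ (p : ℤ) ∣ n * f.eval n) (m : ℕ) :
    ∃ (K r : ℕ) (δ : ℝ), 0 < δ ∧ ∀ S : Finset ℕ, K ≤ S.card → ∀ l : ℕ,
      ∃ B : ℕ, ∀ᶠ N : ℕ in atTop, ∃ H ⊆ S, m ≤ H.card ∧ ∃ n d : ℕ, N < n ∧
        n + l * d + S.sup id ≤ 2 * N ∧ 1 ≤ d ∧ (d : ℝ) ≤ Real.log N ^ B ∧ ∀ j < l,
          (∀ h ∈ H, (n + j * d + h).Prime ∧
            (f.eval ((n + j * d + h : ℕ) : ℤ)).natAbs.primeFactorsList.length ≤ r ∧
            ∀ p : ℕ, p.Prime → (p : ℤ) ∣ f.eval ((n + j * d + h : ℕ) : ℤ) →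
            (N : ℝ) ^ δ ≤ p) ∧
          ∀ y ≤ S.sup id, y ∉ H → (∀ h ∈ S, h ≠ y → f.eval ((h : ℤ) - y) ≠ 0) →
            ¬ (n + j * d + y).Prime := by
  classical
  have hP : (X * f : ℤ[X]) ≠ 0 := mul_ne_zero X_ne_zero hf
  have hev : ∀ n : ℤ, (X * f : ℤ[X]).eval n = n * f.eval n := fun n => by
    rw [eval_mul, eval_X]
  obtain ⟨g, hg⟩ := poly_all (X * f) hP (fun p hp => by
    obtain ⟨n, hn⟩ := hadm p hp
    exact ⟨n, by rwa [hev]⟩)
  obtain ⟨K, δ, hδ, hmain⟩ := prime_runs (X * f) hP (g + 1) (by omega)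
    (Pool.Agent.Y677.RSZ.Sys.mono hg (by omega)) (fun p _ n hd => by
      rw [hev]
      exact hd.mul_right _) m
  obtain ⟨Kf, D, hKD⟩ := Pool.Agent.W123.RU.Poly.eval_bound f
  obtain ⟨n₀, hn₀⟩ := Pool.Agent.Y677.RSZ.ne_zero_ev f hf
  obtain ⟨r, hr⟩ := exists_nat_ge ((2 * D + 1 : ℝ) / δ)
  refine ⟨K, r, δ, hδ, fun S hS l => ?_⟩
  obtain ⟨B, hB⟩ := hmain S hS ((Finset.range (S.sup id + 1)).filter
    (fun y => ∀ h ∈ S, h ≠ y → f.eval ((h : ℤ) - y) ≠ 0)) (by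
    intro h hh y hy hyh
    rw [hev]
    rw [mem_filter] at hy
    have h1 : (h : ℤ) - y ≠ 0 := by
      intro h2
      apply hyh
      have : (h : ℤ) = y := by linarith
      exact_mod_cast this.symm
    exact mul_ne_zero h1 (hy.2 h hh hyh.symm)) (S.sup id) (l + 2) (by omega)
  refine ⟨B, ?_⟩
  filter_upwards [hB, eventually_ge_atTop (Kf + n₀ + 3)] with N hN hNK
  obtain ⟨H, hH, hHm, n, d, h1, h2, h3, h4, h5⟩ := hN
  have e : l + 2 - 1 = l + 1 := by omega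
  rw [e] at h2
  have e2 : (l + 1) * d = l * d + d := by ring
  refine ⟨H, hH, hHm.le, n, d, h1, by omega, h3, h4, fun j hj => ?_⟩
  obtain ⟨g1, g2, g3⟩ := h5 j (by omega)
  refine ⟨fun h hh => ?_, fun y hy hyH hyf => g3 y ?_ hyH⟩
  · have h9' : ∀ p : ℕ, p.Prime → (p : ℤ) ∣ f.eval ((n + j * d + h : ℕ) : ℤ) →
        (N : ℝ) ^ δ ≤ p := by
      intro p hp hpd
      apply g2 h hh p hp
      rw [hev]
      exact hpd.mul_left _
    refine ⟨g1 h hh, ?_, h9'⟩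
    have hx : n + j * d + h ≤ 2 * N := by
      have h6 : h ≤ S.sup id := Finset.le_sup (f := id) (hH hh)
      have h7 : j * d ≤ l * d := Nat.mul_le_mul_right _ hj.le
      omega
    have hNr : (3 : ℝ) ≤ N := by
      have : 3 ≤ N := by omega
      exact_mod_cast this
    have hKr : (Kf : ℝ) ≤ N := by
      have : Kf ≤ N := by omega
      exact_mod_cast this
    have hxr : ((n + j * d + h : ℕ) : ℝ) ≤ 2 * N := by exact_mod_cast hx
    have h8 := hKD ((n + j * d + h : ℕ) : ℤ)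
    have h9 : ((f.eval ((n + j * d + h : ℕ) : ℤ)).natAbs : ℝ) =
        |((f.eval ((n + j * d + h : ℕ) : ℤ) : ℤ) : ℝ)| := by
      rw [← Int.cast_abs, Int.abs_eq_natAbs]
      simp
    have h10 : ((f.eval ((n + j * d + h : ℕ) : ℤ)).natAbs : ℝ) ≤
        (N : ℝ) ^ ((2 * D + 1 : ℕ) : ℝ) := by
      rw [h9]
      refine h8.trans ?_
      rw [Real.rpow_natCast, pow_succ, pow_mul, mul_comm]
      have h11 : 1 + |(((n + j * d + h : ℕ) : ℤ) : ℝ)| ≤ (N : ℝ) ^ 2 := by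
        rw [Int.cast_natCast, abs_of_nonneg (Nat.cast_nonneg _)]
        nlinarith
      have h12 : (0 : ℝ) ≤ 1 + |(((n + j * d + h : ℕ) : ℤ) : ℝ)| := by positivity
      gcongr
    have h13 := Pool.Agent.R498.MT.omega_le N (f.eval ((n + j * d + h : ℕ) : ℤ)).natAbs δ
      ((2 * D + 1 : ℕ) : ℝ) (by omega) hδ (by
        rw [Int.natAbs_ne_zero]
        exact hn₀ _ (by omega)) (fun p hp hpd => h9' p hp (Int.natCast_dvd.2 hpd)) h10
    have h14 : ((2 * D + 1 : ℕ) : ℝ) / δ ≤ r := by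
      push_cast
      exact hr
    exact_mod_cast h13.trans h14
  · rw [mem_filter]
    exact ⟨Finset.mem_range.2 (by omega), hyf⟩

end Pool.Agent.R498.MP
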