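import Pool.Agent.R498.MP.Idx2
import Pool.Agent.R498.MP.StrE

/-!
The polynomial `(h x) ^ 2 + a` at prime arguments.
-/

set_option autoImplicit false

namespace Pool.Agent.R498.MP

open Finset Filter Polynomial

/-- the polynomial `(h x) ^ 2 + a` -/
noncomputable def HX (h : ℕ) (a : ℤ) : ℤ[X] := (C (h : ℤ) * X) ^ 2 + C a

theorem HX_eval (h : ℕ) (a n : ℤ) : (HX h a).eval n = ((h : ℤ) * n) ^ 2 + a := by
  simp [HX]

/-- the admissible multipliers -/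
structure MulOK (h : ℕ) (a : ℤ) : Prop where
  cop : ∀ p : ℕ, p.Prime → p ∣ h → ¬ (p : ℤ) ∣ a
  two : ¬ (2 : ℤ) ∣ (h : ℤ) ^ 2 + a
  three : ¬ (3 : ℤ) ∣ (h : ℤ) ^ 2 + a

theorem HX_adm (h : ℕ) (a : ℤ) (ok : MulOK h a) (p : ℕ) (hp : p.Prime) :
    ∃ n : ℤ, ¬ (p : ℤ) ∣ n * (HX h a).eval n := by
  have hpZ : Prime (p : ℤ) := Nat.prime_iff_prime_int.1 hp
  by_cases h1 : (p : ℤ) ∣ (h : ℤ) ^ 2 + a
  · have hp2 : p ≠ 2 := by
      rintro rfl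
      exact ok.two (by exact_mod_cast h1)
    have hp3 : p ≠ 3 := by
      rintro rfl
      exact ok.three (by exact_mod_cast h1)
    refine ⟨2, fun hd => ?_⟩
    rw [HX_eval] at hd
    have e : (2 : ℤ) * (((h : ℤ) * 2) ^ 2 + a) = 2 * ((h : ℤ) ^ 2 + a) + 6 * (h : ℤ) ^ 2 := by ring
    rw [e] at hd
    have h2 : (p : ℤ) ∣ 6 * (h : ℤ) ^ 2 := by
      have := dvd_sub hd (h1.mul_left 2)
      have e2 : 2 * ((h : ℤ) ^ 2 + a) + 6 * (h : ℤ) ^ 2 - 2 * ((h : ℤ) ^ 2 + a) =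
        6 * (h : ℤ) ^ 2 := by ring
      rwa [e2] at this
    rcases hpZ.dvd_or_dvd h2 with h3 | h3
    · have h4 : p ∣ 2 * 3 := by exact_mod_cast h3
      rcases (hp.dvd_mul).1 h4 with h5 | h5
      · exact hp2 ((Nat.prime_dvd_prime_iff_eq hp Nat.prime_two).1 h5)
      · exact hp3 ((Nat.prime_dvd_prime_iff_eq hp Nat.prime_three).1 h5)
    · have h4 : (p : ℤ) ∣ (h : ℤ) := hpZ.dvd_of_dvd_pow h3
      have h5 : p ∣ h := by exact_mod_cast h4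
      apply ok.cop p hp h5
      have h6 := dvd_sub h1 h3
      have e2 : (h : ℤ) ^ 2 + a - (h : ℤ) ^ 2 = a := by ring
      rwa [e2] at h6
  · refine ⟨1, fun hd => h1 ?_⟩
    rw [HX_eval] at hd
    have e : (1 : ℤ) * (((h : ℤ) * 1) ^ 2 + a) = (h : ℤ) ^ 2 + a := by ring
    rwa [e] at hd

theorem HX_nz (h : ℕ) (a : ℤ) (ha : ¬ IsSquare (-a)) (n : ℤ) : (HX h a).eval n ≠ 0 := by
  rw [HX_eval]
  intro h1
  exact ha ⟨(h : ℤ) * n, by linarith [h1, sq ((h : ℤ) * n)]⟩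

theorem one_ok (h : ℕ) (hh : Even h) : MulOK h 1 := by
  obtain ⟨k, rfl⟩ := hh
  refine ⟨fun p hp _ h1 => ?_, ?_, ?_⟩
  · have h2 : p ∣ 1 := by exact_mod_cast h1
    exact hp.one_lt.ne' (Nat.dvd_one.1 h2)
  · push_cast
    have e : ((k : ℤ) + k) ^ 2 + 1 = 2 * (2 * (k : ℤ) ^ 2) + 1 := by ring
    omega
  · intro h1
    have h2 : ((k + k : ℕ) : ℤ) % 3 = 0 ∨ ((k + k : ℕ) : ℤ) % 3 = 1 ∨
      ((k + k : ℕ) : ℤ) % 3 = 2 := by omega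
    have h3 : (((k + k : ℕ) : ℤ) ^ 2 + 1) % 3 = 0 := Int.emod_eq_zero_of_dvd h1
    rw [sq, Int.add_emod, Int.mul_emod] at h3
    rcases h2 with h2 | h2 | h2 <;> rw [h2] at h3 <;> norm_num at h3

end Pool.Agent.R498.MP
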