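import Pool.Agent.R498.MP.Idx2
import Pool.Agent.R498.MP.StrE

/-!
Quadratic polynomials `a (h x) ^ 2 + b (h x) + c` at prime arguments.
-/

set_option autoImplicit false

namespace Pool.Agent.R498.MP

open Finset Filter Polynomial

/-- the polynomial `a (h x) ^ 2 + b (h x) + c` -/
noncomputable def HQ (h : ℕ) (a b c : ℤ) : ℤ[X] :=
  C a * (C (h : ℤ) * X) ^ 2 + C b * (C (h : ℤ) * X) + C c

theorem HQ_eval (h : ℕ) (a b c n : ℤ) :
    (HQ h a b c).eval n = a * ((h : ℤ) * n) ^ 2 + b * ((h : ℤ) * n) + c := by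
  simp [HQ]

theorem HQ_nz (h : ℕ) (a b c : ℤ) (hΔ : ¬ IsSquare (b ^ 2 - 4 * a * c)) (n : ℤ) :
    (HQ h a b c).eval n ≠ 0 := by
  rw [HQ_eval]
  intro h1
  apply hΔ
  refine ⟨2 * a * ((h : ℤ) * n) + b, ?_⟩
  linear_combination (-4 * a) * h1

/-- the multiplier -/
def mul6 (c : ℤ) : ℕ := (if (2 : ℤ) ∣ c then 1 else 2) * (if (3 : ℤ) ∣ c then 1 else 3)

theorem mul6_mem (c : ℤ) : mul6 c ∈ ({1, 2, 3, 6} : Finset ℕ) := by
  unfold mul6
  split_ifs <;> simp

theorem HQ_adm (a b c : ℤ)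
    (hg : ∀ p : ℕ, p.Prime → (p : ℤ) ∣ a → (p : ℤ) ∣ b → ¬ (p : ℤ) ∣ c)
    (h2 : ¬ ((2 : ℤ) ∣ a + b ∧ (2 : ℤ) ∣ c)) (p : ℕ) (hp : p.Prime) :
    ∃ n : ℤ, ¬ (p : ℤ) ∣ n * (HQ (mul6 c) a b c).eval n := by
  have hpZ : Prime (p : ℤ) := Nat.prime_iff_prime_int.1 hp
  by_contra hcon
  push Not at hcon
  have h1 := hcon 1
  have hm1 := hcon (-1)
  have h22 := hcon 2
  rw [HQ_eval] at h1 hm1 h22
  by_cases hp2 : p = 2
  · subst hp2
    unfold mul6 at h1
    split_ifs at h1 with h3 h4 h4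
    · apply h2
      refine ⟨?_, h3⟩
      push_cast at h1
      omega
    · apply h2
      refine ⟨?_, h3⟩
      push_cast at h1
      omega
    · apply h3
      push_cast at h1
      omega
    · apply h3
      push_cast at h1
      omega
  by_cases hp3 : p = 3
  · subst hp3
    unfold mul6 at h1 hm1
    split_ifs at h1 hm1 with h3 h4 h4
    · apply hg 3 hp _ _ (by exact_mod_cast h4)
      · push_cast at h1 hm1 ⊢; omega
      · push_cast at h1 hm1 ⊢; omega
    · apply h4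
      push_cast at h1
      omega
    · apply hg 3 hp _ _ (by exact_mod_cast h4)
      · push_cast at h1 hm1 ⊢; omega
      · push_cast at h1 hm1 ⊢; omega
    · apply h4
      push_cast at h1
      omega
  -- `p ≥ 5`
  have hnd2 : ¬ (p : ℤ) ∣ 2 := by
    intro h
    have h3 : p ∣ 2 := by exact_mod_cast h
    exact hp2 ((Nat.prime_dvd_prime_iff_eq hp Nat.prime_two).1 h3)
  have hnd3 : ¬ (p : ℤ) ∣ 3 := by
    intro h
    have h3 : p ∣ 3 := by exact_mod_cast h
    exact hp3 ((Nat.prime_dvd_prime_iff_eq hp Nat.prime_three).1 h3)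
  have hndh : ¬ (p : ℤ) ∣ (mul6 c : ℤ) := by
    intro h
    unfold mul6 at h
    rw [Nat.cast_mul] at h
    rcases hpZ.dvd_or_dvd h with h | h
    · split_ifs at h with h3
      · exact hp.one_lt.ne' (Nat.dvd_one.1 (by exact_mod_cast h))
      · exact hnd2 (by exact_mod_cast h)
    · split_ifs at h with h3
      · exact hp.one_lt.ne' (Nat.dvd_one.1 (by exact_mod_cast h))
      · exact hnd3 (by exact_mod_cast h)
  obtain ⟨k, hk⟩ : ∃ k : ℤ, k = (mul6 c : ℤ) := ⟨_, rfl⟩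
  rw [← hk] at h1 hm1 h22 hndh
  have e1 : (p : ℤ) ∣ a * k ^ 2 + b * k + c := by
    have e : 1 * (a * (k * 1) ^ 2 + b * (k * 1) + c) = a * k ^ 2 + b * k + c := by ring
    rwa [e] at h1
  have e2 : (p : ℤ) ∣ a * k ^ 2 - b * k + c := by
    have e : -1 * (a * (k * -1) ^ 2 + b * (k * -1) + c) = -(a * k ^ 2 - b * k + c) := by ring
    rw [e] at hm1
    exact (dvd_neg).1 hm1
  have e3 : (p : ℤ) ∣ 4 * a * k ^ 2 + 2 * b * k + c := by
    have e : 2 * (a * (k * 2) ^ 2 + b * (k * 2) + c) = 2 * (4 * a * k ^ 2 + 2 * b * k + c) := by ring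
    rw [e] at h22
    exact (hpZ.dvd_or_dvd h22).resolve_left hnd2
  have hb : (p : ℤ) ∣ b := by
    have h3 := dvd_sub e1 e2
    have e : a * k ^ 2 + b * k + c - (a * k ^ 2 - b * k + c) = 2 * (b * k) := by ring
    rw [e] at h3
    have h4 := (hpZ.dvd_or_dvd h3).resolve_left hnd2
    exact (hpZ.dvd_or_dvd h4).resolve_right hndh
  have ha : (p : ℤ) ∣ a := by
    have h3 := dvd_sub (dvd_sub e3 e1) (hb.mul_right k)
    have e : 4 * a * k ^ 2 + 2 * b * k + c - (a * k ^ 2 + b * k + c) - b * k = 3 * (a * k ^ 2) := by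
      ring
    rw [e] at h3
    have h4 := (hpZ.dvd_or_dvd h3).resolve_left hnd3
    rcases hpZ.dvd_or_dvd h4 with h5 | h5
    · exact h5
    · exact absurd (hpZ.dvd_of_dvd_pow h5) hndh
  apply hg p hp ha hb
  have h3 := dvd_sub (dvd_sub e1 (ha.mul_right (k ^ 2))) (hb.mul_right k)
  have e : a * k ^ 2 + b * k + c - a * k ^ 2 - b * k = c := by ring
  rwa [e] at h3

end Pool.Agent.R498.MP
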