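import Pool.Agent.R498.MP.StrC
import Pool.Agent.R498.MP.Tup
import Pool.Agent.R498.MP.Sq1
import Pool.Agent.R498.MP.Sq2

/-!
Runs of primes `p` in a residue class with almost prime companions: linear forms, tools.
-/

set_option autoImplicit false

namespace Pool.Agent.R498.MP

open Finset Filter Polynomial

theorem cop_to (x : ℤ) (q : ℕ) (h : IsCoprime x (q : ℤ)) (p : ℕ) (hp : p.Prime) (hpq : p ∣ q) :
    ¬ (p : ℤ) ∣ x := by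
  intro hd
  have h1 : (p : ℤ) ∣ (q : ℤ) := by exact_mod_cast hpq
  have h2 : IsUnit (p : ℤ) := h.isUnit_of_dvd' hd h1
  rw [Int.isUnit_iff] at h2
  have := hp.one_lt
  omega

/-- linear forms at primes in a class, in runs -/
theorem lin_runsC (k : ℕ) (a b : Fin k → ℤ) (ha : ∀ i, a i ≠ 0)
    (hadm : ∀ p : ℕ, p.Prime → ∃ n : ℤ, ¬ (p : ℤ) ∣ n * ∏ i, (a i * n + b i))
    (q c : ℕ) (hq : Squarefree q) (hc : IsCoprime ((c : ℤ) * ∏ i, (a i * (c : ℤ) + b i)) (q : ℤ))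
    (m : ℕ) :
    ∃ (K r : ℕ) (δ : ℝ), 0 < δ ∧ ∀ S : Finset ℕ, K ≤ S.card → ∀ l : ℕ,
      ∃ B : ℕ, ∀ᶠ N : ℕ in atTop, ∃ H ⊆ S, m ≤ H.card ∧ ∃ n d : ℕ, 1 ≤ d ∧
        (d : ℝ) ≤ Real.log N ^ B ∧ ∀ j < l, N < n + j * d ∧ n + j * d + S.sup id ≤ 2 * N ∧
          (∀ h ∈ H, (n + j * d + h).Prime ∧ n + j * d + h ≡ c [MOD q] ∧
            ∀ i, AP r ((N : ℝ) ^ δ) (a i * ((n + j * d + h : ℕ) : ℤ) + b i)) ∧
          ∀ y ≤ S.sup id, y ∉ H → (∀ h ∈ S, h ≠ y → ∀ i, a i * ((h : ℤ) - y) + b i ≠ 0) →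
            ¬ (n + j * d + y).Prime := by
  classical
  obtain ⟨f, hf⟩ : ∃ f : ℤ[X], f = ∏ i, (C (a i) * X + C (b i)) := ⟨_, rfl⟩
  have hev : ∀ n : ℤ, f.eval n = ∏ i, (a i * n + b i) := by
    intro n
    rw [hf, eval_prod]
    apply prod_congr rfl
    intro i _
    simp
  have hf0 : f ≠ 0 := by
    rw [hf, prod_ne_zero_iff]
    intro i _ h
    have h1 := congrArg (fun Q : ℤ[X] => Q.eval 1) h
    have h0 := congrArg (fun Q : ℤ[X] => Q.eval 0) h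
    simp at h1 h0
    rw [h0, add_zero] at h1
    exact ha i h1
  obtain ⟨K, r, δ, hδ, hmain⟩ := stringsC f hf0 (fun p hp => by
    obtain ⟨n, hn⟩ := hadm p hp
    exact ⟨n, by rwa [hev]⟩) q c hq (fun p hp hpq => by
      rw [hev]
      exact cop_to _ q hc p hp hpq) m
  obtain ⟨n₀, hn₀⟩ := Pool.Agent.Y677.RSZ.ne_zero_ev f hf0
  refine ⟨K, r, δ, hδ, fun S hS l => ?_⟩
  obtain ⟨B, hB⟩ := hmain S hS l
  refine ⟨B, ?_⟩
  filter_upwards [hB, eventually_ge_atTop n₀] with N hN hNn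
  obtain ⟨H, hH, hHm, n, d, h1, h2, h3, h4, h5⟩ := hN
  refine ⟨H, hH, hHm, n, d, h3, h4, fun j hj => ?_⟩
  obtain ⟨g1, g2⟩ := h5 j hj
  have h6 : j * d ≤ l * d := Nat.mul_le_mul_right _ hj.le
  refine ⟨by omega, by omega, fun h hh => ?_, fun y hy hyH hyf => g2 y hy hyH ?_⟩
  · obtain ⟨g3, gc, g4, g5⟩ := g1 h hh
    refine ⟨g3, gc, fun i => ?_⟩
    refine AP_dvd r _ _ (f.eval ((n + j * d + h : ℕ) : ℤ)) ⟨hn₀ _ (by omega), g4, g5⟩ ?_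
    rw [hev]
    exact dvd_prod_of_mem _ (mem_univ i)
  · intro h hh hhy
    rw [hev, prod_ne_zero_iff]
    intro i _
    exact hyf h hh hhy i

/-- tuples of shifts -/
theorem tup_runsC (k : ℕ) (t : Fin k → ℕ)
    (ht : ∀ q : ℕ, q.Prime → ∃ n : ℕ, ¬ q ∣ n ∧ ∀ i, ¬ q ∣ n + t i)
    (q c : ℕ) (hq : Squarefree q) (hc : Nat.Coprime (c * ∏ i, (c + t i)) q) (m : ℕ) :
    ∃ (K r : ℕ) (δ : ℝ), 0 < δ ∧ ∀ S : Finset ℕ, K ≤ S.card → ∀ l : ℕ, ∃ B : ℕ,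
      ∀ᶠ N : ℕ in atTop, ∃ H ⊆ S, m ≤ H.card ∧ ∃ n d : ℕ, 1 ≤ d ∧ (d : ℝ) ≤ Real.log N ^ B ∧
      ∀ j < l, N < n + j * d ∧ n + j * d + S.sup id ≤ 2 * N ∧
        (∀ s ∈ H, (n + j * d + s).Prime ∧ n + j * d + s ≡ c [MOD q] ∧
          ∀ i, APN r ((N : ℝ) ^ δ) (n + j * d + s + t i)) ∧
        ∀ y ≤ S.sup id, y ∉ H → (∀ s ∈ S, ∀ i, y ≠ s + t i) → ¬ (n + j * d + y).Prime := by
  obtain ⟨K, r, δ, hδ, hmain⟩ := lin_runsC k (fun _ => 1) (fun i => (t i : ℤ))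
    (fun _ => one_ne_zero) (fun q hq => by
      obtain ⟨n, h1, h2⟩ := ht q hq
      have hqZ : Prime (q : ℤ) := Nat.prime_iff_prime_int.1 hq
      refine ⟨n, fun h => ?_⟩
      rcases hqZ.dvd_or_dvd h with h3 | h3
      · exact h1 (by exact_mod_cast h3)
      · obtain ⟨i, _, h4⟩ := (hqZ.dvd_finsetProd_iff _).1 h3
        apply h2 i
        have e : (1 : ℤ) * (n : ℤ) + (t i : ℤ) = ((n + t i : ℕ) : ℤ) := by push_cast; ring
        rw [e] at h4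
        exact_mod_cast h4) q c hq (by
      have e : (c : ℤ) * ∏ i, (1 * (c : ℤ) + (t i : ℤ)) = ((c * ∏ i, (c + t i) : ℕ) : ℤ) := by
        push_cast
        congr 1
        exact prod_congr rfl fun i _ => by ring
      rw [e]
      exact Nat.isCoprime_iff_coprime.2 hc) m
  refine ⟨K, r, δ, hδ, fun S hS l => ?_⟩
  obtain ⟨B, hB⟩ := hmain S hS l
  refine ⟨B, ?_⟩
  filter_upwards [hB] with N hN
  obtain ⟨H, hH, hHm, n, d, h1, h2, h3⟩ := hN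
  refine ⟨H, hH, hHm, n, d, h1, h2, fun j hj => ?_⟩
  obtain ⟨g1, g2, g3, g4⟩ := h3 j hj
  refine ⟨g1, g2, fun s hs => ?_, fun y hy hyH hyS => g4 y hy hyH ?_⟩
  · obtain ⟨g5, gc, g6⟩ := g3 s hs
    refine ⟨g5, gc, fun i => AP_nat _ _ _ ?_⟩
    have e : (1 : ℤ) * ((n + j * d + s : ℕ) : ℤ) + (t i : ℤ) = ((n + j * d + s + t i : ℕ) : ℤ) := by
      push_cast; ring
    have h7 := g6 i
    rwa [e] at h7
  · intro s hs _ i h0
    apply hyS s hs i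
    have : (y : ℤ) = s + t i := by linarith
    exact_mod_cast this

end Pool.Agent.R498.MP
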