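import Pool.Agent.R498.MP.Cun2
import Pool.Agent.R498.MP.LinC

/-!
Cunningham chains of the first kind in natural numbers.
-/

set_option autoImplicit false

namespace Pool.Agent.R498.MP

open Finset Filter Polynomial

/-- the `i`-th member of the Cunningham sequence of the first kind starting at `p` -/
def m1 (i p : ℕ) : ℕ := 2 ^ i * (p + 1) - 1

theorem cast_m1 (i p : ℕ) : (2 : ℤ) ^ i * ((p : ℤ) + 1) - 1 = ((m1 i p : ℕ) : ℤ) := by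
  unfold m1
  have h : 1 ≤ 2 ^ i * (p + 1) := Nat.mul_pos (by positivity) (by omega)
  rw [Nat.cast_sub h]
  push_cast
  ring

/-- the `i`-th member of the Cunningham sequence of the second kind starting at `p` -/
def m2 (i p : ℕ) : ℕ := 2 ^ i * (p - 1) + 1

theorem cast_m2 (i p : ℕ) (hp : 1 ≤ p) :
    (2 : ℤ) ^ i * ((p : ℤ) + (-1)) - (-1) = ((m2 i p : ℕ) : ℤ) := by
  unfold m2
  rw [Nat.cast_add, Nat.cast_mul, Nat.cast_sub hp]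
  push_cast
  ring

theorem cop_m1 (k q c : ℕ) (hc : ∀ i ≤ k, Nat.Coprime (m1 i c) q) (p : ℕ) (hp : p.Prime)
    (hpq : p ∣ q) : ¬ (p : ℤ) ∣ (c : ℤ) * (CU 1 k).eval (c : ℤ) := by
  intro h
  have hpZ : Prime (p : ℤ) := Nat.prime_iff_prime_int.1 hp
  have key : ∀ i ≤ k, ¬ (p : ℤ) ∣ 2 ^ i * ((c : ℤ) + 1) - 1 := by
    intro i hi hd
    rw [cast_m1] at hd
    have h1 : p ∣ m1 i c := by exact_mod_cast hd
    have h2 := Nat.dvd_gcd h1 hpq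
    rw [hc i hi] at h2
    exact hp.one_lt.ne' (Nat.dvd_one.1 h2)
  rcases hpZ.dvd_or_dvd h with h1 | h1
  · apply key 0 (Nat.zero_le _)
    have e : (2 : ℤ) ^ 0 * ((c : ℤ) + 1) - 1 = c := by ring
    rw [e]
    exact h1
  · rw [CU_eval] at h1
    obtain ⟨i, hi, h2⟩ := (hpZ.dvd_finsetProd_iff _).1 h1
    rw [Finset.mem_range] at hi
    exact key (i + 1) (by omega) h2

/-- strings of consecutive primes in a class starting almost prime chains of the first kind -/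
theorem cun1_strings (k q c : ℕ) (hq : Squarefree q) (hc : ∀ i ≤ k, Nat.Coprime (m1 i c) q)
    (m : ℕ) :
    ∃ (K r : ℕ) (δ : ℝ), 0 < δ ∧ ∀ S : Finset ℕ, K ≤ S.card → ∀ l : ℕ, ∃ B : ℕ,
      ∀ᶠ N : ℕ in atTop, ∃ H ⊆ S, m ≤ H.card ∧ ∃ n d : ℕ, 1 ≤ d ∧ (d : ℝ) ≤ Real.log N ^ B ∧
      ∀ j < l, N < n + j * d ∧ n + j * d + S.sup id ≤ 2 * N ∧
        (∀ y ≤ S.sup id, (n + j * d + y).Prime ↔ y ∈ H) ∧
        ∀ s ∈ H, n + j * d + s ≡ c [MOD q] ∧ ∀ i, 1 ≤ i → i ≤ k →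
          APN r ((N : ℝ) ^ δ) (m1 i (n + j * d + s)) := by
  obtain ⟨K, r, δ, hδ, hmain⟩ := stringsCR (CU 1 k) (fun n _ => CU_nz 1 (Or.inl rfl) k n)
    (CU_adm 1 (Or.inl rfl) k) q c hq (cop_m1 k q c hc) m
  refine ⟨K, r, δ, hδ, fun S hS l => ?_⟩
  obtain ⟨B, hB⟩ := hmain S hS l
  refine ⟨B, ?_⟩
  filter_upwards [hB] with N hN
  obtain ⟨H, hH, hHm, n, d, h3, h4, h5⟩ := hN
  refine ⟨H, hH, hHm, n, d, h3, h4, fun j hj => ?_⟩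
  obtain ⟨g1, g2, g3, g4⟩ := h5 j hj
  refine ⟨g1, g2, g3, fun s hs => ⟨(g4 s hs).1, fun i hi1 hi => ?_⟩⟩
  have h := cun_ofAP 1 k r _ _ (g4 s hs).2 i hi1 hi
  rw [cast_m1] at h
  exact AP_nat _ _ _ h

/-- primes with index in a class starting almost prime chains of the first kind -/
theorem cun1_index (k q c : ℕ) (hq : Squarefree q) (hc : ∀ i ≤ k, Nat.Coprime (m1 i c) q)
    (u r : ℕ) (hu : 1 ≤ u) :
    ∃ (C R : ℕ) (δ : ℝ), 0 < δ ∧ ∀ a : ℕ, ∀ᶠ N : ℕ in atTop, ∃ t : ℕ,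
      N < Nat.nth Nat.Prime (u * t + a) ∧ Nat.nth Nat.Prime (u * (t + r) + a) ≤ 2 * N ∧
      Nat.nth Nat.Prime (u * (t + r) + a) ≤ Nat.nth Nat.Prime (u * t + a) + C ∧
      ∀ j ≤ r, Nat.nth Nat.Prime (u * (t + j) + a) ≡ c [MOD q] ∧ ∀ i, 1 ≤ i → i ≤ k →
        APN R ((N : ℝ) ^ δ) (m1 i (Nat.nth Nat.Prime (u * (t + j) + a))) := by
  obtain ⟨C, R, δ, hδ, hmain⟩ := index_runsC (CU 1 k) (fun n _ => CU_nz 1 (Or.inl rfl) k n)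
    (CU_adm 1 (Or.inl rfl) k) q c hq (cop_m1 k q c hc) u r hu
  refine ⟨C, R, δ, hδ, fun a => ?_⟩
  filter_upwards [hmain a] with N hN
  obtain ⟨t, h1, h2, h3, h4⟩ := hN
  refine ⟨t, h1, h2, h3, fun j hj => ⟨(h4 j hj).1, fun i hi1 hi => ?_⟩⟩
  have h := cun_ofAP 1 k R _ _ (h4 j hj).2 i hi1 hi
  rw [cast_m1] at h
  exact AP_nat _ _ _ h

/-- exact length, first kind -/
theorem cun1_exact (k : ℕ) (hk : 1 ≤ k) (m : ℕ) :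
    ∃ (K r : ℕ) (δ : ℝ), 0 < δ ∧ ∀ S : Finset ℕ, K ≤ S.card → ∀ l : ℕ, ∃ B : ℕ,
      ∀ᶠ N : ℕ in atTop, ∃ H ⊆ S, m ≤ H.card ∧ ∃ n d : ℕ, 1 ≤ d ∧ (d : ℝ) ≤ Real.log N ^ B ∧
      ∀ j < l, N < n + j * d ∧ n + j * d + S.sup id ≤ 2 * N ∧
        (∀ y ≤ S.sup id, (n + j * d + y).Prime ↔ y ∈ H) ∧
        ∀ s ∈ H, (∀ i, 1 ≤ i → i < k → APN r ((N : ℝ) ^ δ) (m1 i (n + j * d + s))) ∧
          ¬ (m1 k (n + j * d + s)).Prime := by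
  obtain ⟨K, r, δ, hδ, hmain⟩ := cun_exact 1 (Or.inl rfl) k hk m
  refine ⟨K, r, δ, hδ, fun S hS l => ?_⟩
  obtain ⟨B, hB⟩ := hmain S hS l
  refine ⟨B, ?_⟩
  filter_upwards [hB] with N hN
  obtain ⟨H, hH, hHm, n, d, h3, h4, h5⟩ := hN
  refine ⟨H, hH, hHm, n, d, h3, h4, fun j hj => ?_⟩
  obtain ⟨g1, g2, g3, g4⟩ := h5 j hj
  refine ⟨g1, g2, g3, fun s hs => ⟨fun i hi1 hi => ?_, ?_⟩⟩
  · have h := (g4 s hs).1 i hi1 hi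
    rw [cast_m1] at h
    exact AP_nat _ _ _ h
  · have h := (g4 s hs).2
    rw [cast_m1, Int.natAbs_natCast] at h
    exact h

theorem cun1_exact_index (k : ℕ) (hk : 1 ≤ k) (u r : ℕ) (hu : 1 ≤ u) :
    ∃ (C R : ℕ) (δ : ℝ), 0 < δ ∧ ∀ a : ℕ, ∀ᶠ N : ℕ in atTop, ∃ t : ℕ,
      N < Nat.nth Nat.Prime (u * t + a) ∧ Nat.nth Nat.Prime (u * (t + r) + a) ≤ 2 * N ∧
      Nat.nth Nat.Prime (u * (t + r) + a) ≤ Nat.nth Nat.Prime (u * t + a) + C ∧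
      ∀ j ≤ r, (∀ i, 1 ≤ i → i < k →
        APN R ((N : ℝ) ^ δ) (m1 i (Nat.nth Nat.Prime (u * (t + j) + a)))) ∧
        ¬ (m1 k (Nat.nth Nat.Prime (u * (t + j) + a))).Prime := by
  obtain ⟨C, R, δ, hδ, hmain⟩ := cun_exact_index 1 (Or.inl rfl) k hk u r hu
  refine ⟨C, R, δ, hδ, fun a => ?_⟩
  filter_upwards [hmain a] with N hN
  obtain ⟨t, h1, h2, h3, h4⟩ := hN
  refine ⟨t, h1, h2, h3, fun j hj => ⟨fun i hi1 hi => ?_, ?_⟩⟩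
  · have h := (h4 j hj).1 i hi1 hi
    rw [cast_m1] at h
    exact AP_nat _ _ _ h
  · have h := (h4 j hj).2
    rw [cast_m1, Int.natAbs_natCast] at h
    exact h

/-- exact length, second kind -/
theorem cun2_exact (k : ℕ) (hk : 1 ≤ k) (m : ℕ) :
    ∃ (K r : ℕ) (δ : ℝ), 0 < δ ∧ ∀ S : Finset ℕ, K ≤ S.card → ∀ l : ℕ, ∃ B : ℕ,
      ∀ᶠ N : ℕ in atTop, ∃ H ⊆ S, m ≤ H.card ∧ ∃ n d : ℕ, 1 ≤ d ∧ (d : ℝ) ≤ Real.log N ^ B ∧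
      ∀ j < l, N < n + j * d ∧ n + j * d + S.sup id ≤ 2 * N ∧
        (∀ y ≤ S.sup id, (n + j * d + y).Prime ↔ y ∈ H) ∧
        ∀ s ∈ H, (∀ i, 1 ≤ i → i < k → APN r ((N : ℝ) ^ δ) (m2 i (n + j * d + s))) ∧
          ¬ (m2 k (n + j * d + s)).Prime := by
  obtain ⟨K, r, δ, hδ, hmain⟩ := cun_exact (-1) (Or.inr rfl) k hk m
  refine ⟨K, r, δ, hδ, fun S hS l => ?_⟩
  obtain ⟨B, hB⟩ := hmain S hS l
  refine ⟨B, ?_⟩
  filter_upwards [hB] with N hN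
  obtain ⟨H, hH, hHm, n, d, h3, h4, h5⟩ := hN
  refine ⟨H, hH, hHm, n, d, h3, h4, fun j hj => ?_⟩
  obtain ⟨g1, g2, g3, g4⟩ := h5 j hj
  refine ⟨g1, g2, g3, fun s hs => ⟨fun i hi1 hi => ?_, ?_⟩⟩
  · have h := (g4 s hs).1 i hi1 hi
    rw [cast_m2 _ _ (by omega)] at h
    exact AP_nat _ _ _ h
  · have h := (g4 s hs).2
    rw [cast_m2 _ _ (by omega), Int.natAbs_natCast] at h
    exact h

theorem cun2_exact_index (k : ℕ) (hk : 1 ≤ k) (u r : ℕ) (hu : 1 ≤ u) :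
    ∃ (C R : ℕ) (δ : ℝ), 0 < δ ∧ ∀ a : ℕ, ∀ᶠ N : ℕ in atTop, ∃ t : ℕ,
      N < Nat.nth Nat.Prime (u * t + a) ∧ Nat.nth Nat.Prime (u * (t + r) + a) ≤ 2 * N ∧
      Nat.nth Nat.Prime (u * (t + r) + a) ≤ Nat.nth Nat.Prime (u * t + a) + C ∧
      ∀ j ≤ r, (∀ i, 1 ≤ i → i < k →
        APN R ((N : ℝ) ^ δ) (m2 i (Nat.nth Nat.Prime (u * (t + j) + a)))) ∧
        ¬ (m2 k (Nat.nth Nat.Prime (u * (t + j) + a))).Prime := by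
  obtain ⟨C, R, δ, hδ, hmain⟩ := cun_exact_index (-1) (Or.inr rfl) k hk u r hu
  refine ⟨C, R, δ, hδ, fun a => ?_⟩
  filter_upwards [hmain a] with N hN
  obtain ⟨t, h1, h2, h3, h4⟩ := hN
  refine ⟨t, h1, h2, h3, fun j hj => ⟨fun i hi1 hi => ?_, ?_⟩⟩
  · have h := (h4 j hj).1 i hi1 hi
    rw [cast_m2 _ _ (Nat.prime_nth_prime _).one_lt.le] at h
    exact AP_nat _ _ _ h
  · have h := (h4 j hj).2
    rw [cast_m2 _ _ (Nat.prime_nth_prime _).one_lt.le, Int.natAbs_natCast] at h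
    exact h

end Pool.Agent.R498.MP
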