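import Pool.Agent.R498.MT.Asm

set_option autoImplicit false
set_option linter.unusedSectionVars false

/-! Counts with an additive error. -/

namespace Pool.Agent.R498.MP

open Finset
open Pool.Agent.R498.MT

section base
variable {S J : Type} [Fintype S] [DecidableEq S] [Fintype J] [DecidableEq J]

/-- the number of `n` in the classes, with an additive error -/
def CntA (N : Finset ℕ) (ν : ℕ → ℝ) (ξ : ℕ → S → Option J) (r : S → J → ℝ) (X E : ℝ)
    (R : (S → Option J) → ℝ) (Good : (S → Option J) → Prop) : Prop :=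
  ∀ T, Good T → |∑ n ∈ N, ν n * (if Sub T (ξ n) then 1 else 0) - X * ∏ t, rr (r t) (T t)| ≤
    E * X * (∏ t, rr (r t) (T t)) + R T

theorem cnt_prod_add {N : Finset ℕ} {ν : ℕ → ℝ} {ξ : ℕ → S → Option J} {r : S → J → ℝ} {X E : ℝ}
    {R : (S → Option J) → ℝ}
    {Good : (S → Option J) → Prop} (h : CntA N ν ξ r X E R Good)
    (φ : S → Option J → ℝ) (hφ : ∀ T : S → Option J, (∀ t, co (φ t) (T t) ≠ 0) → Good T) :
    |∑ n ∈ N, ν n * ∏ t, φ t (ξ n t) - X * ∏ t, Ex (r t) (φ t)| ≤ E * X * (∏ t, Nm (r t) (φ t)) +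
      ∑ T, |∏ t, co (φ t) (T t)| * R T := by
  have h1 : ∑ n ∈ N, ν n * ∏ t, φ t (ξ n t) =
      ∑ T : S → Option J, (∏ t, co (φ t) (T t)) * ∑ n ∈ N, ν n * (if Sub T (ξ n) then 1 else 0) := by
    rw [sum_congr rfl (fun n _ => by rw [expand φ (ξ n), mul_sum])]
    rw [sum_comm]
    refine sum_congr rfl fun T _ => ?_
    rw [mul_sum]
    refine sum_congr rfl fun n _ => ?_
    ring
  have h2 : X * ∏ t, Ex (r t) (φ t) =
      ∑ T : S → Option J, (∏ t, co (φ t) (T t)) * (X * ∏ t, rr (r t) (T t)) := by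
    simp_rw [← Ex_eq]
    rw [← sum_prod (fun t v => co (φ t) v * rr (r t) v), mul_sum]
    refine sum_congr rfl fun T _ => ?_
    rw [prod_mul_distrib]
    ring
  have h3 : E * X * ∏ t, Nm (r t) (φ t) =
      ∑ T : S → Option J, |∏ t, co (φ t) (T t)| * (E * X * ∏ t, rr (r t) (T t)) := by
    simp_rw [← Nm_eq]
    rw [← sum_prod (fun t v => |co (φ t) v| * rr (r t) v), mul_sum]
    refine sum_congr rfl fun T _ => ?_
    rw [prod_mul_distrib, abs_prod]
    ring
  rw [h1, h2, h3, ← sum_sub_distrib, ← sum_add_distrib]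
  refine (abs_sum_le_sum_abs _ _).trans (sum_le_sum fun T _ => ?_)
  rw [← mul_sub, abs_mul, ← mul_add]
  by_cases h4 : ∏ t, co (φ t) (T t) = 0
  · rw [h4]; simp
  · apply mul_le_mul_of_nonneg_left _ (abs_nonneg _)
    apply h T
    apply hφ
    intro t ht
    exact h4 (prod_eq_zero (mem_univ t) ht)

/-- the local factor of the additive error -/
def kap (i : Option J) (q μ : ℝ) (v : Option J) : ℝ :=
  ∑ a, ∑ b, |cf μ a| * |cf μ b| * |co (lc2 i q false a b) v|

theorem hv_sum (i : Option J) (q μ : ℝ) (hq : 2 ≤ q) (hμ : 0 ≤ μ) (hμq : μ * (q - 1) ≤ 1)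
    (v : Option J) : ∑ a, |cf μ a| * |hv i q a v| ≤
      (if v = none then 1 + (Fintype.card J : ℝ) * μ else 2 * (1 + (Fintype.card J : ℝ) * μ)) := by
  rw [Fintype.sum_option]
  have e0 : |cf μ (none : Option J)| * |hv i q none v| = 1 := by simp [cf, hv]
  have hcf : ∀ j : J, |cf μ (some j)| = μ := fun j => by
    simp [cf, abs_of_nonneg hμ]
  rw [e0]
  have e1 : ∀ j : J, |cf μ (some j)| * |hv i q (some j) v| ≤
      μ + (if v = some j then 1 else 0) := by
    intro j
    rw [hcf j]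
    by_cases hij : i = some j
    · rw [hv_i i q j v hij]
      have : (0 : ℝ) ≤ (if v = some j then 1 else 0) := by split_ifs <;> norm_num
      simp only [abs_neg, abs_one, mul_one]
      linarith
    · by_cases hx : v = some j
      · rw [if_pos hx]
        simp only [hv, if_neg hij, if_pos hx]
        rw [abs_of_nonneg (by linarith)]
        linarith
      · rw [if_neg hx]
        simp only [hv, if_neg hij, if_neg hx, abs_neg, abs_one, mul_one, add_zero]
        exact le_rfl
  have e2 : ∑ j : J, |cf μ (some j)| * |hv i q (some j) v| ≤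
      (Fintype.card J : ℝ) * μ + (if v ≠ none then 1 else 0) := by
    refine (sum_le_sum fun j _ => e1 j).trans ?_
    rw [sum_add_distrib, sum_const, card_univ, nsmul_eq_mul]
    rcases v with _ | k
    · simp
    · simp
  have h5 : 0 ≤ (Fintype.card J : ℝ) * μ := by positivity
  by_cases hv : v = none
  · rw [if_pos hv]
    rw [if_neg (not_not.2 hv)] at e2
    linarith
  · rw [if_neg hv]
    rw [if_pos hv] at e2
    linarith

theorem kap_le (i : Option J) (q μ : ℝ) (hq : 2 ≤ q) (hμ : 0 ≤ μ) (hμq : μ * (q - 1) ≤ 1)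
    (v : Option J) : kap i q μ v ≤ (1 + (Fintype.card J : ℝ) * μ) ^ 2 *
      (if v = none then 1 else 5) := by
  have hlc : ∀ a b x : Option J, lc2 i q false a b x = hv i q a x * hv i q b x := by
    intro a b x
    simp [lc2]
  have hsq : ∀ x : Option J, ∑ a, ∑ b, |cf μ a| * |cf μ b| * |hv i q a x * hv i q b x| =
      (∑ a, |cf μ a| * |hv i q a x|) ^ 2 := by
    intro x
    rw [sq, sum_mul_sum]
    refine sum_congr rfl fun a _ => sum_congr rfl fun b _ => ?_
    rw [abs_mul]
    ring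
  have h0 : ∀ x : Option J, 0 ≤ ∑ a, |cf μ a| * |hv i q a x| := fun x =>
    sum_nonneg fun a _ => mul_nonneg (abs_nonneg _) (abs_nonneg _)
  have hn := hv_sum i q μ hq hμ hμq none
  rw [if_pos rfl] at hn
  have hn2 := pow_le_pow_left₀ (h0 none) hn 2
  rcases v with _ | j
  · rw [if_pos rfl, mul_one]
    unfold kap
    have e : ∀ a b : Option J, co (lc2 i q false a b) none = hv i q a none * hv i q b none := by
      intro a b
      simp [co, hlc]
    simp_rw [e]
    rw [hsq none]
    exact hn2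
  · have hj := hv_sum i q μ hq hμ hμq (some j)
    rw [if_neg (by simp)] at hj
    have hj2 := pow_le_pow_left₀ (h0 (some j)) hj 2
    rw [if_neg (by simp)]
    unfold kap
    have e : ∀ a b : Option J, |cf μ a| * |cf μ b| * |co (lc2 i q false a b) (some j)| ≤
        |cf μ a| * |cf μ b| * |hv i q a (some j) * hv i q b (some j)| +
        |cf μ a| * |cf μ b| * |hv i q a none * hv i q b none| := by
      intro a b
      rw [← mul_add]
      apply mul_le_mul_of_nonneg_left _ (mul_nonneg (abs_nonneg _) (abs_nonneg _))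
      have : co (lc2 i q false a b) (some j) =
        hv i q a (some j) * hv i q b (some j) - hv i q a none * hv i q b none := by
        simp [co, hlc]
      rw [this]
      exact abs_sub _ _
    calc ∑ a, ∑ b, |cf μ a| * |cf μ b| * |co (lc2 i q false a b) (some j)| ≤
        ∑ a, ∑ b, (|cf μ a| * |cf μ b| * |hv i q a (some j) * hv i q b (some j)| +
        |cf μ a| * |cf μ b| * |hv i q a none * hv i q b none|) :=
          sum_le_sum fun a _ => sum_le_sum fun b _ => e a b
      _ = (∑ a, |cf μ a| * |hv i q a (some j)|) ^ 2 + (∑ a, |cf μ a| * |hv i q a none|) ^ 2 := by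
          rw [← hsq, ← hsq, ← sum_add_distrib]
          refine sum_congr rfl fun a _ => ?_
          rw [sum_add_distrib]
      _ ≤ (2 * (1 + (Fintype.card J : ℝ) * μ)) ^ 2 + (1 + (Fintype.card J : ℝ) * μ) ^ 2 :=
          add_le_add hj2 hn2
      _ = _ := by ring

theorem kap_nonneg (i : Option J) (q μ : ℝ) (v : Option J) : 0 ≤ kap i q μ v :=
  sum_nonneg fun _ _ => sum_nonneg fun _ _ =>
    mul_nonneg (mul_nonneg (abs_nonneg _) (abs_nonneg _)) (abs_nonneg _)

/-- the sum of the squares over the classes, with an additive error -/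
theorem quad_add {N : Finset ℕ} {ν : ℕ → ℝ} {ξ : ℕ → S → Option J} {X E : ℝ}
    {R : (S → Option J) → ℝ} (hR : ∀ T, 0 ≤ R T)
    {Good : (S → Option J) → Prop} (i : Option J) (q γ μ : S → ℝ) (hq : ∀ t, 2 ≤ q t)
    (hγ : ∀ t, 0 ≤ γ t) (y : (S → Option J) → ℝ) (hy : ∀ σ, |y σ| ≤ 1)
    (hX : 0 ≤ X) (hE : 0 ≤ E)
    (hC : CntA N ν ξ (fun t => rd i (q t) (γ t)) X E R Good)
    (hG : ∀ σ τ, y σ ≠ 0 → y τ ≠ 0 → ∀ U : S → Option J,
      (∀ t, co (lc2 i (q t) false (σ t) (τ t)) (U t) ≠ 0) → Good U) :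
    |∑ n ∈ N, ν n * Lam i q μ y (ξ n) ^ 2 -
      X * ∑ σ, ∑ τ, cw μ y σ * cw μ y τ * ∏ t, HH i (q t) false (σ t) (τ t)| ≤
    E * X * (∏ t, ∑ a : Option J, ∑ b : Option J, |cf (μ t) a| * |cf (μ t) b| * NM (q t) false a b) +
      ∑ U, R U * ∏ t, kap i (q t) (μ t) (U t) := by
  have h1 : ∀ x : S → Option J, Lam i q μ y x ^ 2 =
      ∑ σ, ∑ τ, cw μ y σ * cw μ y τ * ∏ t, lc2 i (q t) false (σ t) (τ t) (x t) := by
    intro x
    unfold Lam
    rw [sq, sum_mul_sum]
    refine sum_congr rfl fun σ _ => sum_congr rfl fun τ _ => ?_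
    unfold lc2
    rw [prod_mul_distrib, prod_mul_distrib]
    simp only [Bool.false_eq_true, if_false, prod_const_one]
    ring
  have h2 : ∑ n ∈ N, ν n * Lam i q μ y (ξ n) ^ 2 =
      ∑ σ, ∑ τ, cw μ y σ * cw μ y τ *
        ∑ n ∈ N, ν n * ∏ t, lc2 i (q t) false (σ t) (τ t) (ξ n t) := by
    rw [sum_congr rfl (fun n _ => by rw [h1 (ξ n), mul_sum])]
    rw [sum_comm]
    refine sum_congr rfl fun σ _ => ?_
    rw [sum_congr rfl (fun n _ => mul_sum _ _ _), sum_comm]
    refine sum_congr rfl fun τ _ => ?_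
    rw [mul_sum]
    refine sum_congr rfl fun n _ => ?_
    ring
  have h3 : X * ∑ σ, ∑ τ, cw μ y σ * cw μ y τ * ∏ t, HH i (q t) false (σ t) (τ t) =
      ∑ σ, ∑ τ, cw μ y σ * cw μ y τ *
        (X * ∏ t, Ex (rd i (q t) (γ t)) (lc2 i (q t) false (σ t) (τ t))) := by
    rw [mul_sum]
    refine sum_congr rfl fun σ _ => ?_
    rw [mul_sum]
    refine sum_congr rfl fun τ _ => ?_
    have e : ∀ t, Ex (rd i (q t) (γ t)) (lc2 i (q t) false (σ t) (τ t)) =
        HH i (q t) false (σ t) (τ t) := fun t => by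
      rw [Ex_HH i (q t) (γ t) (hq t) false (fun h => by simp at h)]
      simp
    rw [prod_congr rfl (fun t _ => e t)]
    ring
  have h10 : ∑ U, R U * ∏ t, kap i (q t) (μ t) (U t) =
      ∑ σ : S → Option J, ∑ τ : S → Option J, ∑ U : S → Option J,
        (∏ t, (|cf (μ t) (σ t)| * |cf (μ t) (τ t)|)) *
          (|∏ t, co (lc2 i (q t) false (σ t) (τ t)) (U t)| * R U) := by
    have e1 : ∀ U : S → Option J, R U * ∏ t, kap i (q t) (μ t) (U t) =
        ∑ σ : S → Option J, ∑ τ : S → Option J,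
        (∏ t, (|cf (μ t) (σ t)| * |cf (μ t) (τ t)|)) *
          (|∏ t, co (lc2 i (q t) false (σ t) (τ t)) (U t)| * R U) := by
      intro U
      unfold kap
      rw [← sum_prod2 (fun t a b => |cf (μ t) a| * |cf (μ t) b| *
        |co (lc2 i (q t) false a b) (U t)|), mul_sum]
      refine sum_congr rfl fun σ _ => ?_
      rw [mul_sum]
      refine sum_congr rfl fun τ _ => ?_
      rw [prod_mul_distrib, abs_prod]
      ring
    rw [sum_congr rfl (fun U _ => e1 U), sum_comm]
    refine sum_congr rfl fun σ _ => ?_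
    rw [sum_comm]
  rw [h2, h3, h10, ← sum_sub_distrib]
  refine (abs_sum_le_sum_abs _ _).trans ?_
  have h4 : ∀ σ τ : S → Option J, |cw μ y σ * cw μ y τ *
        (∑ n ∈ N, ν n * ∏ t, lc2 i (q t) false (σ t) (τ t) (ξ n t)) -
      cw μ y σ * cw μ y τ *
        (X * ∏ t, Ex (rd i (q t) (γ t)) (lc2 i (q t) false (σ t) (τ t)))| ≤
      E * X * (∏ t, (|cf (μ t) (σ t)| * |cf (μ t) (τ t)| * NM (q t) false (σ t) (τ t))) +
      ∑ U : S → Option J, (∏ t, (|cf (μ t) (σ t)| * |cf (μ t) (τ t)|)) *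
          (|∏ t, co (lc2 i (q t) false (σ t) (τ t)) (U t)| * R U) := by
    intro σ τ
    rw [← mul_sub, abs_mul]
    have hNM : ∀ t, 0 ≤ NM (q t) false (σ t) (τ t) := by
      intro t
      unfold NM NN
      have := hq t
      simp only [Bool.false_eq_true, if_false]
      split <;> try split_ifs
      all_goals linarith
    have hr1 : 0 ≤ E * X * (∏ t, (|cf (μ t) (σ t)| * |cf (μ t) (τ t)| *
        NM (q t) false (σ t) (τ t))) := by
      apply mul_nonneg (mul_nonneg hE hX)
      apply prod_nonneg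
      intro t _
      exact mul_nonneg (mul_nonneg (abs_nonneg _) (abs_nonneg _)) (hNM t)
    have hr2 : 0 ≤ ∑ U : S → Option J, (∏ t, (|cf (μ t) (σ t)| * |cf (μ t) (τ t)|)) *
          (|∏ t, co (lc2 i (q t) false (σ t) (τ t)) (U t)| * R U) := by
      apply sum_nonneg
      intro U _
      exact mul_nonneg (prod_nonneg fun t _ => mul_nonneg (abs_nonneg _) (abs_nonneg _))
        (mul_nonneg (abs_nonneg _) (hR U))
    by_cases hσ : y σ = 0
    · have e : cw μ y σ = 0 := by unfold cw; rw [hσ, mul_zero]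
      rw [e]
      simp only [zero_mul, abs_zero]
      exact add_nonneg hr1 hr2
    by_cases hτ : y τ = 0
    · have e : cw μ y τ = 0 := by unfold cw; rw [hτ, mul_zero]
      rw [e]
      simp only [mul_zero, abs_zero, zero_mul]
      exact add_nonneg hr1 hr2
    have h5 := cnt_prod_add hC (fun t => lc2 i (q t) false (σ t) (τ t)) (hG σ τ hσ hτ)
    have h6 : |cw μ y σ * cw μ y τ| ≤ ∏ t, (|cf (μ t) (σ t)| * |cf (μ t) (τ t)|) := by
      unfold cw
      rw [abs_mul, abs_mul, abs_mul, abs_prod, abs_prod, prod_mul_distrib]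
      have p1 : 0 ≤ ∏ t, |cf (μ t) (σ t)| := prod_nonneg fun _ _ => abs_nonneg _
      have p2 : 0 ≤ ∏ t, |cf (μ t) (τ t)| := prod_nonneg fun _ _ => abs_nonneg _
      have p3 := hy σ
      have p4 := hy τ
      calc (∏ t, |cf (μ t) (σ t)|) * |y σ| * ((∏ t, |cf (μ t) (τ t)|) * |y τ|) ≤
          (∏ t, |cf (μ t) (σ t)|) * 1 * ((∏ t, |cf (μ t) (τ t)|) * 1) := by
            gcongr
        _ = _ := by ring
    have h7 : ∏ t, Nm (rd i (q t) (γ t)) (lc2 i (q t) false (σ t) (τ t)) ≤
        ∏ t, NM (q t) false (σ t) (τ t) := by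
      apply prod_le_prod
      · intro t _
        exact Nm_nonneg i (q t) (γ t) (hq t) (hγ t) _
      · intro t _
        have := Nm_NM i (q t) (γ t) (hq t) false (fun h => by simp at h) (σ t) (τ t)
        simpa using this
    have h8 : E * X * ∏ t, Nm (rd i (q t) (γ t)) (lc2 i (q t) false (σ t) (τ t)) ≤
        E * X * ∏ t, NM (q t) false (σ t) (τ t) :=
      mul_le_mul_of_nonneg_left h7 (mul_nonneg hE hX)
    have h9 : |∑ n ∈ N, ν n * ∏ t, lc2 i (q t) false (σ t) (τ t) (ξ n t) -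
        X * ∏ t, Ex (rd i (q t) (γ t)) (lc2 i (q t) false (σ t) (τ t))| ≤
        E * X * (∏ t, NM (q t) false (σ t) (τ t)) +
          ∑ U, |∏ t, co (lc2 i (q t) false (σ t) (τ t)) (U t)| * R U := by
      refine h5.trans ?_
      linarith
    calc _ ≤ (∏ t, (|cf (μ t) (σ t)| * |cf (μ t) (τ t)|)) *
          (E * X * (∏ t, NM (q t) false (σ t) (τ t)) +
          ∑ U, |∏ t, co (lc2 i (q t) false (σ t) (τ t)) (U t)| * R U) :=
          mul_le_mul h6 h9 (abs_nonneg _)
            (prod_nonneg fun _ _ => mul_nonneg (abs_nonneg _) (abs_nonneg _))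
      _ = _ := by
          rw [prod_mul_distrib (f := fun t => |cf (μ t) (σ t)| * |cf (μ t) (τ t)|), mul_add,
            mul_sum]
          ring
  calc ∑ σ, |∑ τ, cw μ y σ * cw μ y τ *
        (∑ n ∈ N, ν n * ∏ t, lc2 i (q t) false (σ t) (τ t) (ξ n t)) -
      ∑ τ, cw μ y σ * cw μ y τ *
        (X * ∏ t, Ex (rd i (q t) (γ t)) (lc2 i (q t) false (σ t) (τ t)))|
      ≤ ∑ σ : S → Option J, ∑ τ : S → Option J, (E * X *
        (∏ t, (|cf (μ t) (σ t)| * |cf (μ t) (τ t)| * NM (q t) false (σ t) (τ t))) +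
        ∑ U : S → Option J, (∏ t, (|cf (μ t) (σ t)| * |cf (μ t) (τ t)|)) *
          (|∏ t, co (lc2 i (q t) false (σ t) (τ t)) (U t)| * R U)) := by
        apply sum_le_sum
        intro σ _
        rw [← sum_sub_distrib]
        exact (abs_sum_le_sum_abs _ _).trans (sum_le_sum fun τ _ => h4 σ τ)
    _ = _ := by
        rw [← sum_prod2 (fun t a b => |cf (μ t) a| * |cf (μ t) b| * NM (q t) false a b),
          mul_sum]
        rw [← sum_add_distrib]
        refine sum_congr rfl fun σ _ => ?_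
        rw [sum_add_distrib, mul_sum]

end base

end Pool.Agent.R498.MP
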