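import Pool.Agent.R498.MP.PA11
import Pool.Agent.R498.MT.Fin2

/-!
Strings of primes `p` with rough `f(p)`, in narrow progressions.
-/

set_option autoImplicit false
set_option linter.unusedSectionVars false

namespace Pool.Agent.R498.MP

open Finset Filter Polynomial
open Pool.Agent.R498.MT
open Pool.Agent.Y677.RSZ (rt Sys rhoT per_mod ev_log V eng_all)
open Pool.Agent.TH423.SH (PS PIj)
open Pool.Agent.W23.DC
open Pool.Agent.Y882
open Pool.Agent.Y882.PX
open Pool.Agent.Y882.KW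

open Classical in
/-- the exact set of the slots -/
theorem pigE (n m : ℕ) (A : Finset ℕ) (I : ℕ → Finset (Fin n)) (hA : A.Nonempty)
    (h : ∀ K ∈ A, m < (I K).card) : ∃ Hs : Finset (Fin n), m < Hs.card ∧
      A.card ≤ 2 ^ n * (A.filter (fun K => I K = Hs)).card := by
  by_contra hcon
  push Not at hcon
  obtain ⟨K₀, hK₀⟩ := hA
  have h1 : A.card = ∑ Hs : Finset (Fin n), (A.filter (fun K => I K = Hs)).card :=
    card_eq_sum_card_fiberwise (fun K _ => mem_univ (I K))
  have h2 : ∀ Hs : Finset (Fin n), (A.filter (fun K => I K = Hs)).card * 2 ^ n ≤ A.card := by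
    intro Hs
    by_cases hm : m < Hs.card
    · have := hcon Hs hm
      rw [mul_comm]
      exact this.le
    · have : A.filter (fun K => I K = Hs) = ∅ := by
        rw [filter_eq_empty_iff]
        intro K hK hKH
        apply hm
        rw [← hKH]
        exact h K hK
      rw [this, card_empty, zero_mul]
      exact Nat.zero_le _
  have h3 : A.card * 2 ^ n < 2 ^ n * A.card := by
    conv_lhs => rw [h1]
    rw [sum_mul]
    calc ∑ Hs : Finset (Fin n), (A.filter (fun K => I K = Hs)).card * 2 ^ n <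
        ∑ _Hs : Finset (Fin n), A.card := by
          apply sum_lt_sum (fun Hs _ => h2 Hs)
          refine ⟨I K₀, mem_univ _, ?_⟩
          rw [mul_comm]
          exact hcon _ (h K₀ hK₀)
      _ = 2 ^ n * A.card := by
          rw [sum_const, card_univ, Fintype.card_finset, Fintype.card_fin, smul_eq_mul]
  have h4 : A.card * 2 ^ n = 2 ^ n * A.card := mul_comm _ _
  omega

/-- removal of the arguments with other primes -/
theorem discard_sets (A : Finset ℕ) (E : Finset ℕ) (D : ℕ → Finset ℕ) (c X : ℝ)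
    (hX : 0 ≤ X) (hA : c * X ≤ A.card)
    (hE : ∀ y ∈ E, ((D y).card : ℝ) ≤ c / (2 * (E.card + 1)) * X) (hc : 0 < c) :
    c / 2 * X ≤ ((A \ E.biUnion D).card : ℝ) := by
  have h1 : A.card ≤ (A \ E.biUnion D).card + ∑ y ∈ E, (D y).card := by
    have h2 : A ⊆ (A \ E.biUnion D) ∪ E.biUnion D := by
      intro K hK
      by_cases h : K ∈ E.biUnion D
      · exact mem_union_right _ h
      · exact mem_union_left _ (mem_sdiff.2 ⟨hK, h⟩)
    exact (card_le_card h2).trans ((card_union_le _ _).trans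
      (Nat.add_le_add_left card_biUnion_le _))
  have h2 : (A.card : ℝ) ≤ ((A \ E.biUnion D).card : ℝ) +
      ∑ y ∈ E, ((D y).card : ℝ) := by exact_mod_cast h1
  have h3 : ∑ y ∈ E, ((D y).card : ℝ) ≤ c / 2 * X := by
    calc ∑ y ∈ E, ((D y).card : ℝ) ≤
        ∑ _y ∈ E, c / (2 * (E.card + 1)) * X := sum_le_sum hE
      _ = E.card * (c / (2 * (E.card + 1)) * X) := by rw [sum_const, nsmul_eq_mul]
      _ = c / 2 * X * (E.card / (E.card + 1)) := by
          field_simp
      _ ≤ c / 2 * X * 1 := by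
          apply mul_le_mul_of_nonneg_left _ (by positivity)
          rw [div_le_one (by positivity)]
          linarith
      _ = _ := mul_one _
  linarith

/-- the numerical conditions -/
theorem numsE (W r b Y₀ n₀ KP H₀ C₀ : ℕ) (hW : 2 ≤ W) (hr : r < W) :
    ∀ᶠ N : ℕ in atTop, Y₀ ≤ N ∧ 16 ≤ N ∧ n₀ + W ≤ N ∧ KP ≤ N ∧
      Win W N ((N + r) / W) (N / (2 * W)) ∧ H₀ ≤ W * (N / (2 * W)) ∧
      (N : ℝ) ^ (1 / 2 : ℝ) ≤ ((W * (N / (2 * W)) : ℕ) : ℝ) ∧ W * (N / (2 * W)) ≤ N ∧
      N + r + W * (N / (2 * W)) + b + C₀ ≤ 2 * N ∧ 3 * N + b + C₀ + 1 ≤ N ^ 2 := by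
  filter_upwards [eventually_ge_atTop Y₀, eventually_ge_atTop (n₀ + W), eventually_ge_atTop KP,
    eventually_ge_atTop (8 * W + 16 + 4 * r + 2 * b + 2 * C₀ + 2 * H₀)] with N e1 e2 e3 e4
  have hW0 : 0 < W := by omega
  have h1 : W * ((N + r) / W) ≤ N + r := Nat.mul_div_le _ _
  have h2 : N + r < W * ((N + r) / W) + W := by
    have := Nat.lt_mul_div_succ (N + r) hW0
    rw [Nat.mul_add, Nat.mul_one] at this
    exact this
  have h3 : 2 * W * (N / (2 * W)) ≤ N := Nat.mul_div_le _ _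
  have h4 : N < 2 * W * (N / (2 * W)) + 2 * W := by
    have := Nat.lt_mul_div_succ N (show 0 < 2 * W by omega)
    rw [Nat.mul_add, Nat.mul_one] at this
    exact this
  have h5 : 2 * W * (N / (2 * W)) = 2 * (W * (N / (2 * W))) := by ring
  have h6 : W * ((N + r) / W + N / (2 * W)) = W * ((N + r) / W) + W * (N / (2 * W)) := by ring
  have h7 : 2 * ((N + r) / W) ≤ W * ((N + r) / W) := Nat.mul_le_mul_right _ hW
  have h8 : 2 * (N / (2 * W)) ≤ W * (N / (2 * W)) := Nat.mul_le_mul_right _ hW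
  refine ⟨e1, by omega, e2, e3, ⟨by omega, by omega, by omega, by omega, by omega⟩, by omega, ?_,
    by omega, by omega, ?_⟩
  · have h9 : N ≤ 4 * (W * (N / (2 * W))) := by omega
    have h10 : (N : ℝ) ≤ 4 * ((W * (N / (2 * W)) : ℕ) : ℝ) := by exact_mod_cast h9
    have hN0 : (0 : ℝ) < N := by
      have : (16 : ℝ) ≤ N := by exact_mod_cast (by omega : 16 ≤ N)
      linarith
    have h11 : (N : ℝ) = (N : ℝ) ^ (1 / 2 : ℝ) * (N : ℝ) ^ (1 / 2 : ℝ) := by
      rw [← Real.rpow_add hN0]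
      norm_num
    have h12 : (4 : ℝ) ≤ (N : ℝ) ^ (1 / 2 : ℝ) := by
      have h13 : (16 : ℝ) ≤ N := by exact_mod_cast (by omega : 16 ≤ N)
      calc (4 : ℝ) = (16 : ℝ) ^ (1 / 2 : ℝ) := by
            rw [← Real.sqrt_eq_rpow]
            rw [show (16 : ℝ) = 4 ^ 2 by norm_num, Real.sqrt_sq (by norm_num)]
        _ ≤ _ := Real.rpow_le_rpow (by norm_num) h13 (by norm_num)
    have h14 : (0 : ℝ) < (N : ℝ) ^ (1 / 2 : ℝ) := by positivity
    nlinarith
  · have h9 : 16 ≤ N := by omega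
    nlinarith

end Pool.Agent.R498.MP
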