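import Pool.Agent.R498.MP.PA12

/-!
Strings of primes `p` with rough `f(p)`, in narrow progressions: the theorem.
-/

set_option autoImplicit false
set_option linter.unusedSectionVars false

namespace Pool.Agent.R498.MP

open Finset Filter Polynomial
open Pool.Agent.R498.MT
open Pool.Agent.Y677.RSZ (rt Sys rhoT per_mod ev_log V eng_all)
open Pool.Agent.TH423.SH (PS PIj)
open Pool.Agent.W23.DC
open Pool.Agent.Y882
open Pool.Agent.Y882.PX
open Pool.Agent.Y882.KW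

open Classical in
/-- the arguments with a given set of prime slots, and without the other primes -/
theorem manyP (F : ℤ → ℤ) (W b M L z N k m a : ℕ) (ε₁ c V : ℝ) (t : Fin (2 ^ k) → ℕ)
    (E : Finset ℕ) (β : ℕ → ℕ) (hc : 0 < c) (hV : 0 < V) (hL : (0 : ℝ) < L)
    (hz1 : (z : ℝ) < (N : ℝ) ^ ε₁)
    (hgd : c * (L * V) ≤ ((gp F N ε₁ W b t m M L).card : ℝ))
    (hE : ∀ y ∈ E, ∀ s : Finset ℕ, (∀ K ∈ s, K ∈ Ioc M (M + L) ∧ (W * K + β y).Prime ∧
          ∀ p ∈ PS W z, ∀ i, ¬ (p : ℤ) ∣ F ((W * (K + t i) + b : ℕ) : ℤ)) →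
        (s.card : ℝ) ≤ c / (2 * (E.card + 1)) * (L * V)) :
    ∃ (Hs : Finset (Fin (2 ^ k))) (A : Finset ℕ), m < Hs.card ∧
      c / (2 * 2 ^ 2 ^ k) * (L * V) ≤ A.card ∧
      ∀ K ∈ A, K ∈ Ioc M (M + L) ∧ (∀ p : ℕ, p.Prime → (p : ℝ) < (N : ℝ) ^ ε₁ → ∀ i,
          ¬ (p : ℤ) ∣ F ((W * (K + t i) + b : ℕ) : ℤ)) ∧
        (∀ i, (W * (K + t i) + b).Prime ↔ i ∈ Hs) ∧ ∀ y ∈ E, ¬ (W * K + β y).Prime := by
  have hX : 0 ≤ (L : ℝ) * V := by positivity
  obtain ⟨Gd, hGd⟩ : ∃ Gd, Gd = gp F N ε₁ W b t m M L := ⟨_, rfl⟩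
  rw [← hGd] at hgd
  have hmem : ∀ K ∈ Gd, K ∈ Ioc M (M + L) ∧ (∀ p : ℕ, p.Prime → (p : ℝ) < (N : ℝ) ^ ε₁ → ∀ i,
      ¬ (p : ℤ) ∣ F ((W * (K + t i) + b : ℕ) : ℤ)) ∧
      m < (univ.filter (fun i => (W * (K + t i) + b).Prime)).card := by
    intro K hK
    rw [hGd] at hK
    unfold gp at hK
    rw [mem_filter] at hK
    refine ⟨hK.1, hK.2.1, ?_⟩
    have h3 := hK.2.2
    convert h3
  have h1 := discard_sets Gd E (fun y => Gd.filter (fun K => (W * K + β y).Prime)) c (L * V) hX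
    hgd (by
    intro y hy
    apply hE y hy
    intro K hK
    have hK' := mem_filter.1 hK
    obtain ⟨g1, g2, -⟩ := hmem K hK'.1
    refine ⟨g1, hK'.2, ?_⟩
    intro p hp i
    unfold PS at hp
    rw [mem_filter, mem_Icc] at hp
    apply g2 p hp.2.1 _ i
    have : (p : ℝ) ≤ z := by exact_mod_cast hp.1.2
    linarith) hc
  obtain ⟨G', hG'⟩ : ∃ G', G' = Gd \ E.biUnion (fun y => Gd.filter (fun K =>
    (W * K + β y).Prime)) := ⟨_, rfl⟩
  have h1' : c / 2 * (L * V) ≤ (G'.card : ℝ) := by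
    rw [hG']
    exact h1
  have hG'2 : ∀ K ∈ G', K ∈ Gd ∧ ∀ y ∈ E, ¬ (W * K + β y).Prime := by
    intro K hK
    have hK := Finset.mem_sdiff.1 (hG' ▸ hK)
    refine ⟨hK.1, fun y hy h => hK.2 ?_⟩
    rw [mem_biUnion]
    exact ⟨y, hy, mem_filter.2 ⟨hK.1, h⟩⟩
  have hpos : 0 < c / 2 * (L * V) := by positivity
  have hne : G'.Nonempty := by
    rw [← card_pos]
    have : (0 : ℝ) < (G'.card : ℝ) := hpos.trans_le h1'
    exact_mod_cast this
  obtain ⟨Hs, hHs, hle⟩ := pigE (2 ^ k) m G' (fun K => univ.filter (fun i =>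
      (W * (K + t i) + b).Prime)) hne (by
    intro K hK
    exact (hmem K (hG'2 K hK).1).2.2)
  refine ⟨Hs, G'.filter (fun K => univ.filter (fun i => (W * (K + t i) + b).Prime) = Hs), hHs,
    ?_, ?_⟩
  · rw [div_mul_eq_mul_div, div_le_iff₀ (by positivity)]
    have h3 : ((G'.card : ℕ) : ℝ) ≤ 2 ^ 2 ^ k *
        ((G'.filter (fun K => univ.filter (fun i => (W * (K + t i) + b).Prime) = Hs)).card : ℝ) := by
      exact_mod_cast hle
    have h4 : c / 2 * (L * V) * 2 = c * (L * V) := by ring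
    linarith
  · intro K hK
    rw [mem_filter] at hK
    have hK1 := hG'2 K hK.1
    obtain ⟨g1, g2, -⟩ := hmem K hK1.1
    refine ⟨g1, g2, fun i => ?_, hK1.2⟩
    rw [← hK.2, mem_filter]
    simp only [mem_univ, true_and]

open Classical in
/-- **Strings of primes with rough values in narrow progressions.** -/
theorem prime_runs (P : ℤ[X]) (hP : P ≠ 0) (g : ℕ) (hg1 : 1 ≤ g) (hF : Sys g (fun n => P.eval n))
    (hFid : ∀ p : ℕ, p.Prime → ∀ n : ℤ, (p : ℤ) ∣ n → (p : ℤ) ∣ P.eval n) (m : ℕ) :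
    ∃ (K₀ : ℕ) (δ : ℝ), 0 < δ ∧ ∀ HH : Finset ℕ, K₀ ≤ HH.card → ∀ E : Finset ℕ,
      (∀ h ∈ HH, ∀ y ∈ E, y ≠ h → P.eval ((h : ℤ) - y) ≠ 0) → ∀ C₀ l : ℕ, 2 ≤ l →
      ∃ B : ℕ, ∀ᶠ N : ℕ in atTop, ∃ H ⊆ HH, m < H.card ∧ ∃ n d : ℕ, N < n ∧
        n + (l - 1) * d + C₀ ≤ 2 * N ∧ 1 ≤ d ∧ (d : ℝ) ≤ Real.log N ^ B ∧ ∀ j < l,
          (∀ h ∈ H, (n + j * d + h).Prime) ∧
          (∀ h ∈ H, ∀ p : ℕ, p.Prime → (p : ℤ) ∣ P.eval ((n + j * d + h : ℕ) : ℤ) →
            (N : ℝ) ^ δ ≤ p) ∧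
          ∀ y ∈ E, y ∉ H → ¬ (n + j * d + y).Prime := by
  obtain ⟨k, W, hW0, hWsq, hWp, hgW, ε₁, c, hε, hε24, hc, hcore⟩ :=
    coreP (fun n => P.eval n) g hF hFid m
  have hW2 : 2 ≤ W := by
    have h1 : 2 ∣ W := hWp 2 Nat.prime_two (by
      have : 1 ≤ g * 2 ^ k := Nat.mul_pos hg1 (by positivity)
      omega)
    exact Nat.le_of_dvd hW0 h1
  refine ⟨W * 2 ^ k, ε₁, hε, ?_⟩
  intro HH hHH E hEH C₀ l hl
  obtain ⟨r, t, hrW, ht, hmem⟩ := shifts W (2 ^ k) hW0 HH hHH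
  obtain ⟨b₁, hb₁W, hb₁⟩ := exb' hF W hW0 hWsq
  obtain ⟨b, hbd⟩ : ∃ b, b = W + b₁ := ⟨_, rfl⟩
  have hb : ∀ p : ℕ, p.Prime → p ∣ W → ¬ (p : ℤ) ∣ (fun n : ℤ => P.eval n) b := by
    intro p hp hpW h
    apply hb₁ p hp hpW
    refine (per_mod (F := fun n => P.eval n) hF.per hp b b₁ ?_).1 h
    rw [hbd]
    have : W ≡ 0 [MOD p] := (Nat.modEq_zero_iff_dvd).2 hpW
    simpa using this.add_right b₁
  obtain ⟨⟨Y₀, hcore1⟩, hcore2⟩ := hcore t ht b hb
  obtain ⟨g', hS⟩ := PP_sys P hP g hF W b t hWp hb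
  obtain ⟨KP, DP, hKD⟩ := Pool.Agent.W123.RU.Poly.eval_bound (PP P W t)
  obtain ⟨n₀, hn₀⟩ := Pool.Agent.Y677.RSZ.ne_zero_ev (PP P W t) (PP_ne P hP W t)
  obtain ⟨κ, hκ⟩ : ∃ κ : ℝ, κ = c / (2 * 2 ^ 2 ^ k) / W := ⟨_, rfl⟩
  have hW0r : (0 : ℝ) < W := by exact_mod_cast hW0
  have hκ0 : 0 < κ := by rw [hκ]; positivity
  obtain ⟨B, H₀, hB⟩ := eng_all l (g' + 4 * (DP + 1)) (ε₁ / 2) κ hl (by positivity) hκ0
  -- the other primes
  obtain ⟨E', hE'⟩ : ∃ E', E' = E.filter (fun y => ∀ i, W * t i + r ≠ y) := ⟨_, rfl⟩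
  have hdisc : ∀ᶠ N : ℕ in atTop, ∀ y ∈ E', ∀ M L z : ℕ, Win W N M L → (z : ℝ) < (N : ℝ) ^ ε₁ →
        0 < Vp (fun n => P.eval n) W b z t →
        1 ≤ Real.log N ^ (2 * (g * 2 ^ k) + 1) * Vp (fun n => P.eval n) W b z t →
        ∀ s : Finset ℕ,
        (∀ K ∈ s, K ∈ Ioc M (M + L) ∧ (W * K + (b - r + y)).Prime ∧
          ∀ p ∈ PS W z, ∀ i, ¬ (p : ℤ) ∣ P.eval ((W * (K + t i) + b : ℕ) : ℤ)) →
        (s.card : ℝ) ≤ c / (2 * (E'.card + 1)) * (L * Vp (fun n => P.eval n) W b z t) := by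
    rw [Finset.eventually_all]
    intro y hy
    rw [hE', mem_filter] at hy
    obtain ⟨Y₁, hY₁⟩ := hcore2 (b - r + y) (by
      intro j
      have e : ((W * t j + b : ℕ) : ℤ) - ((b - r + y : ℕ) : ℤ) = ((W * t j + r : ℕ) : ℤ) - y := by
        have : r ≤ b := by omega
        push_cast [this]
        ring
      show P.eval _ ≠ 0
      rw [e]
      exact hEH _ (hmem j) y hy.1 (fun h => hy.2 j h.symm)) (c / (2 * (E'.card + 1)))
      (by positivity)
    filter_upwards [eventually_ge_atTop Y₁] with N hN M L z h1 h2 h3 h4 s hs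
    exact hY₁ N hN M L z h1 h2 h3 h4 s hs
  refine ⟨B, ?_⟩
  filter_upwards [hdisc, numsE W r b Y₀ n₀ KP H₀ C₀ hW2 hrW] with N hN1 hN2
  obtain ⟨n1, n2, n3, n4, n5, n6, n7, n8, n9, n10⟩ := hN2
  obtain ⟨M, hM⟩ : ∃ M : ℕ, M = (N + r) / W := ⟨_, rfl⟩
  obtain ⟨L, hL⟩ : ∃ L : ℕ, L = N / (2 * W) := ⟨_, rfl⟩
  rw [← hM, ← hL] at n5
  rw [← hL] at n6 n7 n8 n9
  have hNr : (16 : ℝ) ≤ N := by exact_mod_cast n2
  have hN0 : (0 : ℝ) < N := by linarith
  have hN1r : (1 : ℝ) ≤ N := by linarith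
  obtain ⟨z, hz⟩ : ∃ z : ℕ, z + 1 = ⌈(N : ℝ) ^ ε₁⌉₊ := by
    have : 1 ≤ ⌈(N : ℝ) ^ ε₁⌉₊ := Nat.ceil_pos.2 (by positivity)
    exact ⟨⌈(N : ℝ) ^ ε₁⌉₊ - 1, by omega⟩
  have hz1 : (z : ℝ) < (N : ℝ) ^ ε₁ := by
    have h1 := Nat.ceil_lt_add_one (show 0 ≤ (N : ℝ) ^ ε₁ by positivity)
    rw [← hz] at h1
    push_cast at h1
    linarith
  have hz2 : (N : ℝ) ^ ε₁ ≤ z + 1 := by
    have h1 := Nat.le_ceil ((N : ℝ) ^ ε₁)
    rw [← hz] at h1
    push_cast at h1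
    exact h1
  obtain ⟨hgd, hV0, hV1⟩ := hcore1 N n1 M L z n5 hz1 hz2
  have hWL1 : 1 ≤ W * L := by
    have h1 : (1 : ℝ) ≤ ((W * L : ℕ) : ℝ) := le_trans (Real.one_le_rpow hN1r (by norm_num)) n7
    exact_mod_cast h1
  have hL1 : 1 ≤ L := by
    rcases Nat.eq_zero_or_pos L with h | h
    · rw [h, mul_zero] at hWL1
      omega
    · exact h
  have hLr : (0 : ℝ) < L := by exact_mod_cast hL1
  obtain ⟨Hs, A, hHs, hA1, hA2⟩ := manyP (fun n => P.eval n) W b M L z N k m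
    (2 * (g * 2 ^ k) + 1) ε₁ c (Vp (fun n => P.eval n) W b z t) t E' (fun y => b - r + y) hc hV0
    hLr hz1 hgd (fun y hy s hs => hN1 y hy M L z n5 hz1 hV0 hV1 s hs)
  -- the progression
  have hWM : W * M ≤ N + r := by rw [hM]; exact Nat.mul_div_le _ _
  have hWM1 : N + r < W * (M + 1) := by
    rw [hM]
    exact Nat.lt_mul_div_succ (N + r) hW0
  have hWM2 : W * (M + 1) = W * M + W := by ring
  have hWML : W * (M + L) = W * M + W * L := by ring
  have hbds : ∀ K ∈ Ioc M (M + L), N + r < W * K ∧ W * K + b ≤ N + r + W * L + b := by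
    intro K hK
    rw [mem_Ioc] at hK
    have h2 : W * (M + 1) ≤ W * K := Nat.mul_le_mul_left _ (by omega)
    have h3 : W * K ≤ W * (M + L) := Nat.mul_le_mul_left _ hK.2
    exact ⟨by omega, by omega⟩
  have hWLr : (1 : ℝ) ≤ ((W * L : ℕ) : ℝ) := by exact_mod_cast hWL1
  have hWLN : ((W * L : ℕ) : ℝ) ≤ N := by exact_mod_cast n8
  have hKPr : (KP : ℝ) ≤ N := by exact_mod_cast n4
  obtain ⟨a, d, hd1, hd2, had⟩ := hB (fun n => (PP P W t).eval n) (W * M + b) (W * L)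
    (A.image (fun K => W * K + b)) (Pool.Agent.Y677.RSZ.Sys.mono hS (by omega)) n6
    (by
      intro n hn
      rw [mem_Ioc] at hn
      have hn1 : n ≤ 3 * N + b := by omega
      have hn2 : N ≤ n + W := by omega
      refine ⟨?_, ?_⟩
      · exact hn₀ n (by omega)
      · have h8 := size_P (PP P W t) KP DP N (W * L) hKD (by omega) hKPr n7 n (by
          have : n + 1 ≤ N ^ 2 := by omega
          exact_mod_cast this)
        refine h8.trans ?_
        exact pow_le_pow_right₀ (by exact_mod_cast hWL1) (by omega))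
    (by
      intro x hx
      rw [mem_image] at hx
      obtain ⟨K, hK, rfl⟩ := hx
      have h1 := (hA2 K hK).1
      rw [mem_Ioc] at h1 ⊢
      have h2 : W * (M + 1) ≤ W * K := Nat.mul_le_mul_left _ (by omega)
      have h3 : W * K ≤ W * (M + L) := Nat.mul_le_mul_left _ h1.2
      constructor <;> omega)
    (by
      intro x hx p hp hpH hdvd
      rw [mem_image] at hx
      obtain ⟨K, hK, rfl⟩ := hx
      obtain ⟨i, hi⟩ := (PP_dvd P W b t p hp K).1 hdvd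
      refine (hA2 K hK).2.1 p hp ?_ i hi
      refine hpH.trans_lt ?_
      calc ((W * L : ℕ) : ℝ) ^ (ε₁ / 2) ≤ (N : ℝ) ^ (ε₁ / 2) :=
            Real.rpow_le_rpow (by positivity) hWLN (by positivity)
        _ < (N : ℝ) ^ ε₁ := Real.rpow_lt_rpow_of_exponent_lt (by linarith) (by linarith))
    (by
      rw [card_image_of_injective _ (fun K K' hKK => by
        have h1 : W * K + b = W * K' + b := hKK
        have h2 : W * K = W * K' := by omega
        exact Nat.eq_of_mul_eq_mul_left hW0 h2)]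
      refine le_trans ?_ hA1
      have hzWL : z ≤ W * L := by
        have h1 : (z : ℝ) ≤ ((W * L : ℕ) : ℝ) := by
          refine hz1.le.trans (le_trans ?_ n7)
          exact Real.rpow_le_rpow_of_exponent_le hN1r (by linarith)
        exact_mod_cast h1
      have h1 := PP_V P g hF W b z (W * L) t hzWL
      calc κ * ((W * L : ℕ) * V (fun n => (PP P W t).eval n) 1 (W * L)) ≤
          κ * ((W * L : ℕ) * Vp (fun n => P.eval n) W b z t) := by gcongr
        _ = c / (2 * 2 ^ 2 ^ k) * (L * Vp (fun n => P.eval n) W b z t) := by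
            rw [hκ]
            push_cast
            field_simp)
  have hpt : ∀ j < l, ∃ K ∈ A, W * K + b = a + j * d := by
    intro j hj
    have h1 := had j hj
    rw [mem_image] at h1
    obtain ⟨K, hK, h2⟩ := h1
    exact ⟨K, hK, h2⟩
  obtain ⟨K0, hK0, hK0a⟩ := hpt 0 (by omega)
  rw [zero_mul, add_zero] at hK0a
  obtain ⟨K1, hK1, hK1a⟩ := hpt (l - 1) (by omega)
  have hb0 := hbds K0 (hA2 K0 hK0).1
  have hb1 := hbds K1 (hA2 K1 hK1).1
  rw [hK1a] at hb1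
  have hra : r ≤ a := by omega
  refine ⟨Hs.image (fun i => W * t i + r), ?_, ?_, a - r, d, by omega, by omega, hd1, ?_, ?_⟩
  · intro h hh
    rw [mem_image] at hh
    obtain ⟨i, _, rfl⟩ := hh
    exact hmem i
  · rw [card_image_of_injective _ (fun i j hij => by
      have h1 : W * t i + r = W * t j + r := hij
      have h2 : W * t i = W * t j := by omega
      exact ht (Nat.eq_of_mul_eq_mul_left hW0 h2))]
    exact hHs
  · refine hd2.trans ?_
    apply pow_le_pow_left₀ (Real.log_nonneg hWLr)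
    exact Real.log_le_log (by linarith) hWLN
  · intro j hj
    obtain ⟨K, hK, hKa⟩ := hpt j hj
    obtain ⟨hK1', hK2', hK3', hK4'⟩ := hA2 K hK
    have e : ∀ i, a - r + j * d + (W * t i + r) = W * (K + t i) + b := by
      intro i
      have h1 := pt_eq W b r K (t i) (a + j * d) hKa (by omega)
      omega
    refine ⟨?_, ?_, ?_⟩
    · intro h hh
      rw [mem_image] at hh
      obtain ⟨i, hi, rfl⟩ := hh
      rw [e i]
      exact (hK3' i).2 hi
    · intro h hh p hp hpd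
      rw [mem_image] at hh
      obtain ⟨i, hi, rfl⟩ := hh
      rw [e i] at hpd
      by_contra hcon
      push Not at hcon
      exact hK2' p hp hcon i hpd
    · intro y hy hyH
      by_cases hyE : y ∈ E'
      · have h1 := hK4' y hyE
        have e2 : a - r + j * d + y = W * K + (b - r + y) := by
          have : r ≤ b := by omega
          omega
        rw [e2]
        exact h1
      · rw [hE', mem_filter] at hyE
        push Not at hyE
        obtain ⟨i, hi⟩ := hyE hy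
        rw [← hi, e i]
        intro hpr
        apply hyH
        rw [mem_image]
        exact ⟨i, (hK3' i).1 hpr, hi⟩

end Pool.Agent.R498.MP
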