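import Pool.Agent.R498.MP.PA1

set_option autoImplicit false
set_option linter.unusedSectionVars false

/-! The second sum with an additive error. -/

namespace Pool.Agent.R498.MP

open Finset
open Pool.Agent.R498.MT

section par
variable {S : Type} [Fintype S] [DecidableEq S]

/-- the number of the conditions -/
def nc {J : Type} [DecidableEq J] (U : S → Option J) : ℕ := (univ.filter (fun t => U t ≠ none)).card

theorem kap_prod {J : Type} [Fintype J] [DecidableEq J] [Nonempty J] (i : Option J) (q μ : S → ℝ)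
    (hq : ∀ t, 2 ≤ q t) (hμ : ∀ t, 0 ≤ μ t) (hμ1 : ∀ t, μ t ≤ 1) (hμq : ∀ t, μ t * (q t - 1) ≤ 1)
    (U : S → Option J) :
    ∏ t, kap i (q t) (μ t) (U t) ≤ AA J μ * 5 ^ nc U := by
  have h2 : (5 : ℝ) ^ nc U = ∏ t, (if U t = none then (1 : ℝ) else 5) := by
    unfold nc
    rw [prod_ite]
    simp
  rw [h2]
  unfold AA
  rw [← prod_mul_distrib]
  apply prod_le_prod
  · intro t _; exact kap_nonneg _ _ _ _
  · intro t _
    refine (kap_le i (q t) (μ t) (hq t) (hμ t) (hμq t) (U t)).trans ?_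
    apply mul_le_mul_of_nonneg_right
    · have h3 := hμ t
      have h4 := hμ1 t
      have hK : (1 : ℝ) ≤ Fintype.card J := by exact_mod_cast Fintype.card_pos
      set K : ℝ := (Fintype.card J : ℝ)
      have h5 : K * μ t ≤ K ^ 2 * μ t := by
        apply mul_le_mul_of_nonneg_right _ h3
        nlinarith
      have h6 : (K * μ t) ^ 2 ≤ K ^ 2 * μ t := by
        have : μ t ^ 2 ≤ μ t := by nlinarith
        nlinarith [sq_nonneg K]
      nlinarith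
    · split_ifs <;> norm_num

theorem err_num2 (k : ℕ) (X X₀ I A E ee : ℝ) (hX : 0 ≤ X) (hXX : X ≤ 2 * X₀) (hX₀ : 0 ≤ X₀)
    (hI1 : 1 ≤ I) (hA1 : 1 ≤ A) (hE : 0 ≤ E) (hee : 0 ≤ ee)
    (hEb : (1 + 1) * A ^ 2 * E ≤ 1 / (4 * 2 ^ k)) (o5 : (1 + 1) * A ^ 2 * ee ≤ 1 / (8 * 2 ^ k)) :
    X * (A * (E + ee)) ≤ 1 / 2 ^ k * (X₀ * I) := by
  have q1 : A ≤ A ^ 2 := by nlinarith
  have q2 : A * E ≤ 1 / (8 * 2 ^ k) := by
    have h1 : A * E ≤ A ^ 2 * E := mul_le_mul_of_nonneg_right q1 hE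
    have e : (1 : ℝ) / (4 * 2 ^ k) = 2 * (1 / (8 * 2 ^ k)) := by field_simp; norm_num
    linarith
  have q3 : A * ee ≤ 1 / (16 * 2 ^ k) := by
    have h1 : A * ee ≤ A ^ 2 * ee := mul_le_mul_of_nonneg_right q1 hee
    have e : (1 : ℝ) / (8 * 2 ^ k) = 2 * (1 / (16 * 2 ^ k)) := by field_simp; norm_num
    linarith
  have r0 : (0 : ℝ) < 1 / 2 ^ k := by positivity
  have r2 : (1 : ℝ) / (8 * 2 ^ k) + 1 / (16 * 2 ^ k) = 3 / 16 * (1 / 2 ^ k) := by
    field_simp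
    norm_num
  calc X * (A * (E + ee)) = X * (A * E + A * ee) := by ring
    _ ≤ X * (3 / 16 * (1 / 2 ^ k)) := by
        apply mul_le_mul_of_nonneg_left _ hX
        linarith
    _ ≤ (2 * X₀) * (3 / 16 * (1 / 2 ^ k)) := by
        apply mul_le_mul_of_nonneg_right hXX
        positivity
    _ = (1 / 2 ^ k) * (3 / 8 * X₀) := by ring
    _ ≤ 1 / 2 ^ k * (X₀ * I) := by
        apply mul_le_mul_of_nonneg_left _ r0.le
        nlinarith

/-- **The second sum**, for a plain slot and with an additive error. -/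
theorem S2_add (k : ℕ) (R c₀ : ℝ) (hR : 0 < R) (hc₀ : 0 < c₀) (m : ℕ)
    (hk : 3 * ((m : ℝ) + 1) * 1474560 ≤ c₀ * R * k) (ε₁ : ℝ) (hε : 0 < ε₁)
    (hε1 : ε₁ ≤ e0 k 1 R) (w : ℝ) (q μ l : S → ℝ) (hd : Dat q μ l ε₁ R w (om k 1 ε₁))
    (i : Fin (2 ^ k)) (γ : S → ℝ) (hγ : ∀ t, 0 ≤ γ t)
    {N : Finset ℕ} {ν : ℕ → ℝ} {ξ : ℕ → S → Option (Fin (2 ^ k))} {X X₀ E : ℝ} (hX : 0 ≤ X)
    (hXX : X ≤ 2 * X₀) (hcV : c₀ * ε₁ * X₀ ≤ X)
    (hE : 0 ≤ E) (hE1 : E ≤ ε₁ ^ (16 * (2 ^ k) ^ 2 + 1))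
    (Rr : (S → Option (Fin (2 ^ k))) → ℝ) (hRr : ∀ T, 0 ≤ Rr T)
    (hC1 : CntA N ν ξ (fun t => rd (some i) (q t) (γ t)) X E Rr (fun T => lt l T ≤ 2 * R)) :
    2 * ((m : ℝ) + 1) / 2 ^ k * (X₀ * If μ l R k) ≤
      ∑ n ∈ N, ν n * Lam (some i) q μ (yf l R k) (ξ n) ^ 2 +
        Ab k ε₁ * ∑ U, 5 ^ nc U * Rr U := by
  classical
  have hl0 : ∀ t, 0 ≤ l t := fun t => hε.le.trans (hd.l1 t)
  have hε11 : ε₁ ≤ 1 := hε1.trans (e0_le k 1 R).2
  have hp0 : (0 : ℝ) < 2 ^ k := by positivity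
  have hp1 : (1 : ℝ) ≤ 2 ^ k := one_le_pow₀ (by norm_num)
  obtain ⟨o1, o2, o3, o4, o5⟩ := om_bd k 1 ε₁ (by norm_num) hε hε11
  have hA1 := Ab_one k ε₁ hε hε11
  have hEb := Ab_E k 1 R ε₁ E (by norm_num) hε hε1 hE1
  have hX₀ : 0 ≤ X₀ := by linarith
  have hI21 : 1 ≤ ∑ a, ms μ a * Gf l R k a ^ 2 := I2_one hd hε hR k
  have hI1 : 1 ≤ If μ l R k := one_le_pow₀ hI21
  obtain ⟨hHl, hI2u, -, -, -⟩ := sums_one k 1 R (by norm_num) hR ε₁ hε hε1 w q μ l hd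
  have hMl := Mt_lower k 1 R (by norm_num) hR ε₁ hε hε1 w q μ l hd i
  have hM0 : 0 ≤ Mt k (some i) q μ l R := by
    refine le_trans ?_ hMl
    have : 0 ≤ ∑ a, ms μ a * Gf l R k a ^ 2 := by linarith
    have h2 : 0 ≤ If μ l R k := by linarith
    exact mul_nonneg (div_nonneg (sq_nonneg _) (by linarith)) h2
  have hmain := main_num k m R c₀ ε₁ X X₀ 1 (Mt k (some i) q μ l R) (If μ l R k) _ _ hR hc₀ hk hε
    hI1 hI21 hX₀ (by rw [mul_one]; exact hcV) hHl hI2u hMl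
  rw [mul_one] at hmain
  haveI : Nonempty (Fin (2 ^ k)) := ⟨⟨0, by positivity⟩⟩
  have hu0 := u0_pos R hR k
  have hεw : ε₁ ≤ w := by
    have h1 := (e0_le k 1 R).1
    have h4 := hd.Rw
    have hUR := u0_le R hR k
    nlinarith
  have hmq : ∀ t, μ t * (q t - 1) ≤ 1 := by
    intro t
    rcases hd.mq t with h | h
    · rw [h]; norm_num
    · exact h.le
  have hAA := AA_Ab hd hε hεw k
  have hy1 : ∀ σ, |yf l R k σ| ≤ 1 := fun σ => by
      have := yf_facts l hl0 R hR k σ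
      rw [abs_of_nonneg this.1]
      exact this.2.1
  have h1 := quad_add (J := Fin (2 ^ k)) hRr (some i) q γ μ hd.q2 hγ (yf l R k) hy1 hX hE hC1
    (by
      intro σ τ' hσ hτ' U hU
      have h2 := good_of (some i) q l hl0 ∅ σ τ' U (by simpa using hU)
      have h3 := (yf_facts l hl0 R hR k σ).2.2 hσ
      have h4 := (yf_facts l hl0 R hR k τ').2.2 hτ'
      have h5 : lz l ∅ = 0 := by simp [lz]
      show lt l U ≤ 2 * R
      linarith)
  have h2 := qf_diff (J := Fin (2 ^ k)) μ (yf l R k) hy1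
    (fun t a b => HH (some i) (q t) false a b)
    (fun t a b => VM (some i) (q t) a b)
    (fun t a b => |HH (some i) (q t) false a b - VM (some i) (q t) a b|) (fun t a b => le_rfl)
    (fun t => (alpha_bd (some i) (q t) (μ t) (hd.q2 t) (hd.m0 t) (hd.m1 t) (hmq t)).1)
    (fun t => ((2 ^ k : ℕ) : ℝ) ^ 2 * μ t ^ 2)
    (fun t => by
      have := w_bd (J := Fin (2 ^ k)) (some i) (q t) (μ t) (hd.q2 t) (hd.m0 t) (hd.m1 t) (hmq t)
        false (fun h => by simp)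
      rw [Fintype.card_fin] at this
      simpa using this) (AA (Fin (2 ^ k)) μ)
    (prod_le_prod (fun t _ => by
      linarith [(alpha_bd (J := Fin (2 ^ k)) (some i) (q t) (μ t) (hd.q2 t) (hd.m0 t) (hd.m1 t)
        (hmq t)).1])
      (fun t _ => (alpha_bd (some i) (q t) (μ t) (hd.q2 t) (hd.m0 t) (hd.m1 t) (hmq t)).2))
  rw [← mul_sum] at h2
  have h4 : ∏ t, ∑ a : Option (Fin (2 ^ k)), ∑ b : Option (Fin (2 ^ k)),
      |cf (μ t) a| * |cf (μ t) b| * NM (q t) false a b ≤ AA (Fin (2 ^ k)) μ := by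
    apply prod_le_prod
    · intro t _
      apply sum_nonneg
      intro a _
      apply sum_nonneg
      intro b _
      apply mul_nonneg (mul_nonneg (abs_nonneg _) (abs_nonneg _))
      unfold NM NN
      have := hd.q2 t
      simp only [Bool.false_eq_true, if_false]
      split <;> try split_ifs
      all_goals linarith
    · intro t _
      exact norm_bd (q t) (μ t) (hd.q2 t) (hd.m0 t) (hd.m1 t) (hmq t) _
  have h5 : E * X * (∏ t, ∑ a : Option (Fin (2 ^ k)), ∑ b : Option (Fin (2 ^ k)),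
      |cf (μ t) a| * |cf (μ t) b| * NM (q t) false a b) ≤ E * X * Ab k ε₁ :=
    mul_le_mul_of_nonneg_left (h4.trans hAA) (mul_nonneg hE hX)
  have h6 : ∑ U, Rr U * ∏ t, kap (some i) (q t) (μ t) (U t) ≤ Ab k ε₁ * ∑ U, 5 ^ nc U * Rr U := by
    rw [mul_sum]
    apply sum_le_sum
    intro U _
    have h7 := kap_prod (some i) q μ hd.q2 hd.m0 hd.m1 hmq U
    have h8 : (0 : ℝ) ≤ 5 ^ nc U := by positivity
    calc Rr U * ∏ t, kap (some i) (q t) (μ t) (U t) ≤ Rr U * (AA (Fin (2 ^ k)) μ * 5 ^ nc U) :=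
          mul_le_mul_of_nonneg_left h7 (hRr U)
      _ ≤ Rr U * (Ab k ε₁ * 5 ^ nc U) := by
          apply mul_le_mul_of_nonneg_left _ (hRr U)
          exact mul_le_mul_of_nonneg_right hAA h8
      _ = _ := by ring
  have p2 : 0 ≤ Real.exp (((2 ^ k : ℕ) : ℝ) ^ 2 * ∑ t, μ t ^ 2) - 1 := by
    have := Real.one_le_exp (show 0 ≤ ((2 ^ k : ℕ) : ℝ) ^ 2 * ∑ t, μ t ^ 2 from
      mul_nonneg (sq_nonneg _) (sum_nonneg fun t _ => sq_nonneg _))
    linarith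
  have p3 : Real.exp (((2 ^ k : ℕ) : ℝ) ^ 2 * ∑ t, μ t ^ 2) - 1 ≤
      Real.exp (6 * ((2 ^ k : ℕ) : ℝ) ^ 2 * om k 1 ε₁) - 1 := by
    have b1 := mul_le_mul_of_nonneg_left hd.sq (sq_nonneg (((2 ^ k : ℕ) : ℝ)))
    have : Real.exp (((2 ^ k : ℕ) : ℝ) ^ 2 * ∑ t, μ t ^ 2) ≤
      Real.exp (6 * ((2 ^ k : ℕ) : ℝ) ^ 2 * om k 1 ε₁) := by
      apply Real.exp_le_exp.2
      have : 0 ≤ ((2 ^ k : ℕ) : ℝ) ^ 2 * om k 1 ε₁ := by positivity
      linarith
    linarith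
  have h9 : AA (Fin (2 ^ k)) μ * (Real.exp (((2 ^ k : ℕ) : ℝ) ^ 2 * ∑ t, μ t ^ 2) - 1) ≤
      Ab k ε₁ * (Real.exp (6 * ((2 ^ k : ℕ) : ℝ) ^ 2 * om k 1 ε₁) - 1) :=
    mul_le_mul hAA p3 p2 (by linarith)
  have h10 := h2.trans h9
  change |_ - Mt k (some i) q μ l R| ≤ _ at h10
  rw [abs_le] at h1 h10
  have h11 := mul_le_mul_of_nonneg_left h10.1 hX
  have h12 := h1.1
  generalize (∑ σ, ∑ τ, cw μ (yf l R k) σ * cw μ (yf l R k) τ *
    ∏ t, HH (some i) (q t) false (σ t) (τ t)) = Q at *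
  generalize ∑ n ∈ N, ν n * Lam (some i) q μ (yf l R k) (ξ n) ^ 2 = ST at *
  generalize ∑ U, Rr U * ∏ t, kap (some i) (q t) (μ t) (U t) = KK at *
  generalize Ab k ε₁ * ∑ U, 5 ^ nc U * Rr U = KA at *
  generalize (E * X * ∏ t, ∑ a : Option (Fin (2 ^ k)), ∑ b : Option (Fin (2 ^ k)),
      |cf (μ t) a| * |cf (μ t) b| * NM (q t) false a b) = EX at *
  generalize Real.exp (6 * ((2 ^ k : ℕ) : ℝ) ^ 2 * om k 1 ε₁) - 1 = ee at *
  generalize Mt k (some i) q μ l R = M at *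
  generalize If μ l R k = I at *
  generalize Ab k ε₁ = A at *
  have hee : 0 ≤ ee := p2.trans p3
  -- the errors
  have h13 := err_num2 k X X₀ I A E ee hX hXX hX₀ hI1 hA1 hE hee hEb o5
  have hfin := fin_num k m (X₀ * I) (mul_nonneg hX₀ (by linarith))
  linarith

end par

end Pool.Agent.R498.MP
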