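import Pool.Agent.R498.MT.C1z
import Pool.Agent.TH423.SH.PSUP

/-!
The fundamental lemma count for the `K` of a class with `W K + β` prime and all `F (W (K + t_i) + b)` free of
small prime factors.
-/

set_option autoImplicit false

namespace Pool.Agent.R498.MP

open Finset
open Pool.Agent.TH423.SH Pool.Agent.TH423.SH.FLIP Pool.Agent.TH423.SH.PSUa
open Pool.Agent.Y677.RSZ Pool.Agent.Y852.RSZ

/-- the forbidden classes for which `W c + β` can be a prime -/
def OmP (F : ℤ → ℤ) (W b β : ℕ) {m : ℕ} (t : Fin m → ℕ) (p : ℕ) : Finset ℕ :=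
  (OmC F W b t p).filter (fun c => ¬ p ∣ W * c + β)

theorem crt_p (W β D a : ℕ) (hW : 1 ≤ W) (hD : 1 ≤ D) (hDW : D.Coprime W) (hβW : β.Coprime W)
    (haD : (W * a + β).Coprime D) (c : ℕ → ℕ) (T : Finset ℕ)
    (hT : ∀ p ∈ T, p.Prime ∧ ¬ p ∣ D ∧ ¬ p ∣ W) (hc : ∀ p ∈ T, c p < p ∧ ¬ p ∣ W * c p + β)
    (M L : ℕ) : ∃ r, r < W * D * ∏ p ∈ T, p ∧ r.Coprime (W * D * ∏ p ∈ T, p) ∧
      ((((Ioc M (M + L)).filter (fun K => K % D = a % D ∧ (W * K + β).Prime)).filter
        (fun K => ∀ p ∈ T, K % p = c p)).card : ℝ) =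
      H343E.piAP (W * (M + L) + β) (W * D * ∏ p ∈ T, p) r -
        H343E.piAP (W * M + β) (W * D * ∏ p ∈ T, p) r := by
  classical
  obtain ⟨v, hv⟩ := crt_set D a c T (fun p hp => ⟨(hT p hp).1, (hT p hp).2.1⟩)
    (fun p hp => (hc p hp).1)
  obtain ⟨Q, hQ⟩ : ∃ Q, Q = D * ∏ p ∈ T, p := ⟨_, rfl⟩
  have hQpos : 0 < Q := by
    rw [hQ]
    exact Nat.mul_pos hD (Finset.prod_pos fun p hp => (hT p hp).1.pos)
  have hWQ : W * D * ∏ p ∈ T, p = W * Q := by rw [hQ, mul_assoc]
  rw [hWQ]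
  rw [← hQ] at hv
  have hvv := (hv v).2 (Nat.ModEq.refl v)
  have hWQpos : 0 < W * Q := Nat.mul_pos hW hQpos
  have hcop : (W * v + β).Coprime (W * Q) := by
    apply Nat.Coprime.mul_right
    · unfold Nat.Coprime at hβW ⊢
      rw [Nat.gcd_comm] at hβW ⊢
      rw [Nat.gcd_mul_left_add_right]
      exact hβW
    · rw [hQ]
      apply Nat.Coprime.mul_right
      · have h1 : W * v + β ≡ W * a + β [MOD D] :=
          (Nat.ModEq.mul_left W (show v ≡ a [MOD D] from hvv.1)).add_right β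
        unfold Nat.Coprime at haD ⊢
        rw [h1.gcd_eq]
        exact haD
      · apply Nat.Coprime.prod_right
        intro p hp
        rw [Nat.coprime_comm, (hT p hp).1.coprime_iff_not_dvd]
        intro h
        apply (hc p hp).2
        have h1 : W * v + β ≡ W * c p + β [MOD p] := by
          apply Nat.ModEq.add_right
          apply Nat.ModEq.mul_left
          have := hvv.2 p hp
          unfold Nat.ModEq
          rw [this, Nat.mod_eq_of_lt (hc p hp).1]
        exact (h1.dvd_iff (dvd_refl p)).1 h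
  refine ⟨(W * v + β) % (W * Q), Nat.mod_lt _ hWQpos, ?_, ?_⟩
  · unfold Nat.Coprime at hcop ⊢
    rw [← Nat.gcd_rec, Nat.gcd_comm]
    exact hcop
  · unfold H343E.piAP
    rw [← cnt _ (W * M + β) (W * (M + L) + β) (by
      have : W * M ≤ W * (M + L) := Nat.mul_le_mul_left _ (by omega)
      omega)]
    congr 1
    rw [filter_filter]
    have hr : ∀ K, (W * K + β ≡ (W * v + β) % (W * Q) [MOD W * Q]) ↔ K ≡ v [MOD Q] := by
      intro K
      have h1 : (W * v + β) % (W * Q) ≡ W * v + β [MOD W * Q] := Nat.mod_modEq _ _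
      constructor
      · intro h
        have h2 := Nat.ModEq.add_right_cancel' β (h.trans h1)
        exact Nat.ModEq.mul_left_cancel' (by omega) h2
      · intro h
        exact ((Nat.ModEq.mul_left' W h).add_right β).trans h1.symm
    apply card_bij' (i := fun K _ => W * K + β) (j := fun n _ => (n - β) / W)
    · intro K hK
      rw [mem_filter, mem_Ioc] at hK ⊢
      obtain ⟨⟨h1, h2⟩, ⟨h3, h4⟩, h5⟩ := hK
      refine ⟨⟨?_, ?_⟩, h4, ?_⟩
      · have : W * M < W * K := Nat.mul_lt_mul_of_pos_left h1 hW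
        omega
      · have : W * K ≤ W * (M + L) := Nat.mul_le_mul_left _ h2
        omega
      · exact (hr K).2 ((hv K).1 ⟨h3, h5⟩)
    · intro n hn
      rw [mem_filter, mem_Ioc] at hn ⊢
      obtain ⟨⟨h1, h2⟩, h3, h4⟩ := hn
      have h5 : n ≡ W * v + β [MOD W] := by
        have h6 : n ≡ W * v + β [MOD W * Q] := h4.trans (Nat.mod_modEq _ _)
        exact h6.of_mul_right Q
      have h6 : W * v + β ≡ β [MOD W] := by
        have : W * v ≡ 0 [MOD W] := (Nat.modEq_zero_iff_dvd).2 (dvd_mul_right _ _)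
        simpa only [Nat.zero_add] using this.add_right β
      have h7 : W ∣ n - β := (Nat.modEq_iff_dvd' (by omega)).1 (h5.trans h6).symm
      obtain ⟨K, hK⟩ := h7
      have hK2 : (n - β) / W = K := by rw [hK]; exact Nat.mul_div_cancel_left _ hW
      have hK3 : W * K + β = n := by omega
      rw [hK2]
      rw [← hK3] at h4 h3 h1 h2
      have h8 := (hv K).2 ((hr K).1 h4)
      refine ⟨⟨?_, ?_⟩, ⟨h8.1, h3⟩, h8.2⟩
      · by_contra hcon
        have : W * K ≤ W * M := Nat.mul_le_mul_left _ (not_lt.1 hcon)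
        omega
      · by_contra hcon
        have : W * (M + L + 1) ≤ W * K := Nat.mul_le_mul_left _ (by omega)
        have h9 : W * (M + L + 1) = W * (M + L) + W := by ring
        omega
    · intro K hK
      simp only [Nat.add_sub_cancel]
      exact Nat.mul_div_cancel_left _ hW
    · intro n hn
      rw [mem_filter, mem_Ioc] at hn
      obtain ⟨⟨h1, h2⟩, h3, h4⟩ := hn
      have h5 : n ≡ W * v + β [MOD W] := by
        have h6 : n ≡ W * v + β [MOD W * Q] := h4.trans (Nat.mod_modEq _ _)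
        exact h6.of_mul_right Q
      have h6 : W * v + β ≡ β [MOD W] := by
        have : W * v ≡ 0 [MOD W] := (Nat.modEq_zero_iff_dvd).2 (dvd_mul_right _ _)
        simpa only [Nat.zero_add] using this.add_right β
      have h7 : W ∣ n - β := (Nat.modEq_iff_dvd' (by omega)).1 (h5.trans h6).symm
      rw [Nat.mul_div_cancel' h7]
      omega

/-- the additive error of the count -/
noncomputable def erP (κ C b₀ W J z D x₁ x₂ : ℕ) : ℝ :=
  ((J : ℝ) + 2) * ∑ T ∈ (PS W z).powerset.filter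
    (fun T : Finset ℕ => ∏ p ∈ T, p ≤ (2 ^ 2 ^ J) ^ (C * b₀)),
    (κ : ℝ) ^ T.card * (ee x₂ (W * D * ∏ p ∈ T, p) + ee x₁ (W * D * ∏ p ∈ T, p))

/-- the product of the densities -/
noncomputable def VpP (F : ℤ → ℤ) (W b β z : ℕ) {m : ℕ} (t : Fin m → ℕ) : ℝ :=
  ∏ p ∈ PS W z, (1 - ((OmP F W b β t p).card : ℝ) / ((p : ℝ) - 1))

theorem cP : ∃ C : ℕ, 1 ≤ C ∧ ∀ g m b₀ W : ℕ, C * (g * m + 1) ≤ b₀ → 1 ≤ W →
  (∀ p : ℕ, p.Prime → p ≤ C * (g * m + 1) → p ∣ W) → ∀ F : ℤ → ℤ, Sys g F →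
  ∀ (t : Fin m → ℕ) (b J z D a M L β : ℕ), z ≤ 2 ^ 2 ^ J → 1 ≤ D → (∀ p ∈ PS W z, ¬ p ∣ D) →
  D.Coprime W → β.Coprime W → (W * a + β).Coprime D → z < W * M + β →
  ∀ s : Finset ℕ, (∀ K, K ∈ s ↔ (K ∈ Ioc M (M + L) ∧ (K % D = a % D ∧ (W * K + β).Prime ∧
        ∀ p ∈ PS W z, ∀ i, ¬ (p : ℤ) ∣ F ((W * (K + t i) + b : ℕ) : ℤ)))) →
  |(s.card : ℝ) - (H343E.pi1 (W * (M + L) + β) - H343E.pi1 (W * M + β)) /
      ((Nat.totient W : ℝ) * Nat.totient D) * VpP F W b β z t| ≤
    (1 / 2 : ℝ) ^ b₀ * ((H343E.pi1 (W * (M + L) + β) - H343E.pi1 (W * M + β)) /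
      ((Nat.totient W : ℝ) * Nat.totient D) * VpP F W b β z t) +
      erP (g * m) C b₀ W J z D (W * M + β) (W * (M + L) + β) := by
  classical
  obtain ⟨C0, hC0, hF⟩ := fll
  refine ⟨C0, hC0, ?_⟩
  intro g m b W hb hW hWp F hSys t b' J z q a M L β hzJ hq hPq hqW hβW haD hzM s hs
  set κ := g * m with hκ
  set P := PS W z with hP
  have hPmem0 : ∀ p ∈ P, ¬ p ∣ W := by
    intro p hp
    rw [hP, PS, mem_filter, mem_Icc] at hp
    exact hp.2.2
  have hPmem : ∀ p ∈ P, p.Prime ∧ C0 * (κ + 1) < p ∧ p ≤ 2 ^ 2 ^ J := by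
    intro p hp
    rw [hP, PS, mem_filter, mem_Icc] at hp
    refine ⟨hp.2.1, ?_, hp.1.2.trans hzJ⟩
    by_contra hcon
    exact hp.2.2 (hWp p hp.2.1 (not_lt.1 hcon))
  have hPz : ∀ p ∈ P, p ≤ z := by
    intro p hp
    rw [hP, PS, mem_filter, mem_Icc] at hp
    exact hp.1.2
  have hOm : ∀ p ∈ P, (OmP F W b' β t p).card ≤ κ ∧ ∀ c ∈ OmP F W b' β t p,
      c < p ∧ ¬ p ∣ W * c + β := by
    intro p hp
    refine ⟨(card_le_card (filter_subset _ _)).trans
      (card_OmC_le hSys W b' t (hPmem p hp).1 (hPmem0 p hp)), ?_⟩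
    intro c hc
    unfold OmP OmC at hc
    rw [mem_filter, mem_filter] at hc
    exact ⟨mem_range.1 hc.1.1, hc.2⟩
  have hpi : 0 ≤ H343E.pi1 (W * (M + L) + β) - H343E.pi1 (W * M + β) := by
    unfold H343E.pi1
    rw [← cnt _ (W * M + β) (W * (M + L) + β) (by
      have : W * M ≤ W * (M + L) := Nat.mul_le_mul_left _ (by omega)
      omega)]
    exact Nat.cast_nonneg _
  have hA : 0 ≤ (H343E.pi1 (W * (M + L) + β) - H343E.pi1 (W * M + β)) /
      ((Nat.totient W : ℝ) * Nat.totient q) := by positivity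
  have h1 := hF κ b J (C0 * (κ + 1)) P (fun p => 1 / ((p : ℝ) - 1)) (OmP F W b' β t)
    hb le_rfl hPmem (fun p hp => (hOm p hp).1)
    (by
      intro p hp
      have hp2 : (2 : ℝ) ≤ p := by exact_mod_cast (hPmem p hp).1.two_le
      exact ⟨by apply div_nonneg <;> linarith, le_rfl⟩)
    ((Ioc M (M + L)).filter (fun K => K % q = a % q ∧ (W * K + β).Prime)) (fun _ => 1)
    ((H343E.pi1 (W * (M + L) + β) - H343E.pi1 (W * M + β)) /
      ((Nat.totient W : ℝ) * Nat.totient q))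
    (fun D => ee (W * (M + L) + β) (W * q * D) + ee (W * M + β) (W * q * D))
    (fun _ _ => zero_le_one) hA (fun D => add_nonneg (ee_nonneg _ _) (ee_nonneg _ _))
    (by
      intro T hT _ c hc
      obtain ⟨r, hr1, hr2, hr3⟩ := crt_p W β q a hW hq hqW hβW haD c T
        (fun p hp => ⟨(hPmem p (hT hp)).1, hPq p (hT hp), hPmem0 p (hT hp)⟩)
        (fun p hp => (hOm p (hT hp)).2 _ (hc p hp)) M L
      beta_reduce
      rw [sum_const, nsmul_eq_mul, mul_one]
      rw [hr3]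
      have htot := tot (W * q) T (fun p hp => ⟨(hPmem p (hT hp)).1, by
        rw [(hPmem p (hT hp)).1.dvd_mul]
        rintro (h | h)
        · exact hPmem0 p (hT hp) h
        · exact hPq p (hT hp) h⟩)
      rw [Nat.totient_mul hqW.symm] at htot
      push_cast at htot
      have e1 : (H343E.pi1 (W * (M + L) + β) - H343E.pi1 (W * M + β)) /
          ((Nat.totient W : ℝ) * Nat.totient q) * ∏ p ∈ T, 1 / ((p : ℝ) - 1) =
          (H343E.pi1 (W * (M + L) + β) - H343E.pi1 (W * M + β)) /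
            (Nat.totient (W * q * ∏ p ∈ T, p) : ℝ) := by
        rw [htot, prod_div_distrib, prod_const_one, div_mul_div_comm, mul_one]
      rw [e1]
      have g1 := FF_le_ee (W * (M + L) + β) _ r hr1 hr2
      have g2 := FF_le_ee (W * M + β) _ r hr1 hr2
      unfold FF at g1 g2
      rw [sub_div]
      rw [sub_sub_sub_comm]
      exact (abs_sub _ _).trans (add_le_add g1 g2))
  have e3 : ∏ p ∈ P, (1 - ((OmP F W b' β t p).card : ℝ) * (1 / ((p : ℝ) - 1))) =
      VpP F W b' β z t := by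
    unfold VpP
    apply prod_congr rfl
    intro p _
    rw [mul_one_div]
  rw [e3, sum_const, nsmul_eq_mul, mul_one, filter_filter] at h1
  have e5 : s = (Ioc M (M + L)).filter (fun K => (K % q = a % q ∧ (W * K + β).Prime) ∧
      ∀ p ∈ P, K % p ∉ OmP F W b' β t p) := by
    ext K
    rw [hs K, mem_filter]
    constructor
    · rintro ⟨g1, g2, g3, g4⟩
      refine ⟨g1, ⟨g2, g3⟩, ?_⟩
      intro p hp h
      unfold OmP at h
      rw [mem_filter] at h
      exact (mod_OmC hSys W b' t (hPmem p hp).1 K).2 (g4 p hp) h.1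
    · rintro ⟨g1, ⟨g2, g3⟩, g4⟩
      refine ⟨g1, g2, g3, ?_⟩
      intro p hp
      apply (mod_OmC hSys W b' t (hPmem p hp).1 K).1
      intro h
      apply g4 p hp
      unfold OmP
      rw [mem_filter]
      refine ⟨h, ?_⟩
      intro h5
      have h6 : p ∣ W * K + β := by
        have h7 : W * (K % p) + β ≡ W * K + β [MOD p] :=
          (Nat.ModEq.mul_left W (Nat.mod_modEq K p)).add_right β
        exact (h7.dvd_iff (dvd_refl p)).1 h5
      have h7 := (Nat.prime_dvd_prime_iff_eq (hPmem p hp).1 g3).1 h6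
      have h8 := hPz p hp
      rw [mem_Ioc] at g1
      have h9 : W * M < W * K := Nat.mul_lt_mul_of_pos_left g1.1 hW
      omega
  rw [e5]
  exact h1

end Pool.Agent.R498.MP
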