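import Pool.Agent.R498.MP.PA3
import Pool.Agent.R498.MP.PA2
import Pool.Agent.R498.MT.Count

/-!
The sum of the additive errors.
-/

set_option autoImplicit false

namespace Pool.Agent.R498.MP

open Finset
open Pool.Agent.R498.MT
open Pool.Agent.TH423.SH (PS)

section comb
variable {S : Type} [Fintype S] [DecidableEq S]

theorem DT_supp (pp : S → ℕ) {m : ℕ} (T : S → Option (Fin m)) :
    DT pp T = ∏ s ∈ univ.filter (fun t => T t ≠ none), pp s := by
  unfold DT
  rw [prod_filter]
  refine prod_congr rfl fun s _ => ?_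
  by_cases h : T s = none
  · simp [h]
  · simp [h]

/-- grouping by the support -/
theorem sum_supp (m : ℕ) (f : Finset S → ℝ) (hf : ∀ A, 0 ≤ f A) :
    ∑ T : S → Option (Fin m), f (univ.filter (fun t => T t ≠ none)) ≤
      ∑ A : Finset S, (m : ℝ) ^ A.card * f A := by
  rw [← Finset.sum_fiberwise (s := (univ : Finset (S → Option (Fin m))))
    (g := fun T => univ.filter (fun t => T t ≠ none))]
  apply sum_le_sum
  intro A _
  have h1 : ∀ T ∈ (univ : Finset (S → Option (Fin m))).filter
      (fun T => univ.filter (fun t => T t ≠ none) = A), f (univ.filter (fun t => T t ≠ none)) = f A := by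
    intro T hT
    rw [(mem_filter.1 hT).2]
  rw [sum_congr rfl h1, sum_const, nsmul_eq_mul]
  apply mul_le_mul_of_nonneg_right _ (hf A)
  have h2 : (univ : Finset (S → Option (Fin m))).filter
      (fun T => univ.filter (fun t => T t ≠ none) = A) ⊆
      Fintype.piFinset (fun t => if t ∈ A then (univ : Finset (Fin m)).image some else {none}) := by
    intro T hT
    have h3 := (mem_filter.1 hT).2
    rw [Fintype.mem_piFinset]
    intro t
    split_ifs with h
    · rw [← h3, mem_filter] at h
      rcases hT' : T t with _ | j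
      · exact absurd hT' h.2
      · rw [mem_image]
        exact ⟨j, mem_univ j, rfl⟩
    · rw [mem_singleton]
      by_contra hcon
      apply h
      rw [← h3, mem_filter]
      exact ⟨mem_univ t, hcon⟩
  have h3 := card_le_card h2
  rw [Fintype.card_piFinset] at h3
  have h4 : ∏ t, (if t ∈ A then (univ : Finset (Fin m)).image some else {none}).card = m ^ A.card := by
    have h5 : ∀ t : S, (if t ∈ A then (univ : Finset (Fin m)).image some else
        ({none} : Finset (Option (Fin m)))).card = if t ∈ A then m else 1 := by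
      intro t
      split_ifs
      · rw [card_image_of_injective _ (Option.some_injective _), card_univ, Fintype.card_fin]
      · rw [card_singleton]
    rw [prod_congr rfl (fun t _ => h5 t), prod_ite_mem]
    simp
  rw [h4] at h3
  exact_mod_cast h3

open Classical in
theorem sum_err (pp : S → ℕ) (hpr : ∀ s, (pp s).Prime) (hinj : Function.Injective pp)
    (W z m κ κ' A B : ℕ) (hW : 1 ≤ W) (hz : ∀ s, z < pp s) (h1 : 5 * m ≤ κ') (h2 : κ ≤ κ')
    (h3 : 1 ≤ κ') (e : ℕ → ℝ) (he : ∀ q, 0 ≤ e q) :
    ∑ T : S → Option (Fin m), 5 ^ nc T * (if DT pp T ≤ A then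
      ∑ U ∈ (PS W z).powerset.filter (fun U : Finset ℕ => ∏ p ∈ U, p ≤ B),
        (κ : ℝ) ^ U.card * e (W * DT pp T * ∏ p ∈ U, p) else 0) ≤
    ∑ q ∈ Icc 1 (W * A * B), (κ' : ℝ) ^ q.primeFactors.card * e q := by
  set PU := (PS W z).powerset.filter (fun U : Finset ℕ => ∏ p ∈ U, p ≤ B) with hPU
  have hUm : ∀ U ∈ PU, (∀ p ∈ U, p.Prime ∧ p ≤ z) ∧ ∏ p ∈ U, p ≤ B := by
    intro U hU
    rw [hPU, mem_filter, mem_powerset] at hU
    refine ⟨fun p hp => ?_, hU.2⟩
    have := hU.1 hp
    unfold PS at this
    rw [mem_filter, mem_Icc] at this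
    exact ⟨this.2.1, this.1.2⟩
  have e1 : ∀ T : S → Option (Fin m), 5 ^ nc T * (if DT pp T ≤ A then
      ∑ U ∈ PU, (κ : ℝ) ^ U.card * e (W * DT pp T * ∏ p ∈ U, p) else 0) =
      (fun X : Finset S => 5 ^ X.card * (if ∏ s ∈ X, pp s ≤ A then
      ∑ U ∈ PU, (κ : ℝ) ^ U.card * e (W * (∏ s ∈ X, pp s) * ∏ p ∈ U, p) else 0))
        (univ.filter (fun t => T t ≠ none)) := by
    intro T
    beta_reduce
    rw [← DT_supp]
    rfl
  rw [sum_congr rfl (fun T _ => e1 T)]
  refine (sum_supp (S := S) m (fun X : Finset S => 5 ^ X.card * (if ∏ s ∈ X, pp s ≤ A then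
      ∑ U ∈ PU, (κ : ℝ) ^ U.card * e (W * (∏ s ∈ X, pp s) * ∏ p ∈ U, p) else 0))
      (fun X => ?_)).trans ?_
  · apply mul_nonneg (by positivity)
    split_ifs
    · exact sum_nonneg fun U _ => mul_nonneg (by positivity) (he _)
    · exact le_rfl
  -- pairs
  set XX := ((univ : Finset (Finset S)).filter (fun X => ∏ s ∈ X, pp s ≤ A)) ×ˢ PU with hXX
  have e2 : ∑ X : Finset S, (m : ℝ) ^ X.card * (5 ^ X.card * (if ∏ s ∈ X, pp s ≤ A then
      ∑ U ∈ PU, (κ : ℝ) ^ U.card * e (W * (∏ s ∈ X, pp s) * ∏ p ∈ U, p) else 0)) =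
      ∑ x ∈ XX, ((5 * m : ℕ) : ℝ) ^ x.1.card * ((κ : ℝ) ^ x.2.card *
        e (W * (∏ s ∈ x.1, pp s) * ∏ p ∈ x.2, p)) := by
    rw [hXX, sum_product, sum_filter]
    refine sum_congr rfl fun X _ => ?_
    split_ifs
    · rw [mul_sum, mul_sum]
      refine sum_congr rfl fun U _ => ?_
      push_cast
      rw [mul_pow]
      ring
    · simp
  rw [e2]
  set qf : Finset S × Finset ℕ → ℕ := fun x => W * (∏ s ∈ x.1, pp s) * ∏ p ∈ x.2, p with hqf
  have hpf : ∀ x ∈ XX, (∏ s ∈ x.1, pp s) * ∏ p ∈ x.2, p = ∏ p ∈ (x.1.image pp ∪ x.2), p := by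
    intro x hx
    rw [hXX, mem_product] at hx
    rw [prod_union, prod_image (fun a _ b _ h => hinj h)]
    rw [disjoint_left]
    intro p hp hp'
    rw [mem_image] at hp
    obtain ⟨s, _, rfl⟩ := hp
    have h4 := ((hUm _ hx.2).1 _ hp').2
    have h5 := hz s
    omega
  have hpp : ∀ x ∈ XX, ∀ p ∈ (x.1.image pp ∪ x.2), p.Prime := by
    intro x hx p hp
    rw [hXX, mem_product] at hx
    rw [mem_union] at hp
    rcases hp with hp | hp
    · rw [mem_image] at hp
      obtain ⟨s, _, rfl⟩ := hp
      exact hpr s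
    · exact ((hUm _ hx.2).1 _ hp).1
  have hqeq : ∀ x ∈ XX, qf x = W * ∏ p ∈ (x.1.image pp ∪ x.2), p := by
    intro x hx
    rw [← hpf x hx, hqf]
    ring
  have hq0 : ∀ x ∈ XX, 1 ≤ qf x := by
    intro x hx
    rw [hqeq x hx]
    exact Nat.mul_pos hW (Finset.prod_pos fun p hp => (hpp x hx p hp).pos)
  have hinj2 : Set.InjOn qf (XX : Set (Finset S × Finset ℕ)) := by
    intro x hx y hy hxy
    rw [mem_coe] at hx hy
    rw [hqeq x hx, hqeq y hy] at hxy
    have h4 : ∏ p ∈ (x.1.image pp ∪ x.2), p = ∏ p ∈ (y.1.image pp ∪ y.2), p :=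
      Nat.eq_of_mul_eq_mul_left (by omega) hxy
    have h5 : x.1.image pp ∪ x.2 = y.1.image pp ∪ y.2 := by
      rw [← Nat.primeFactors_prod (fun p hp => hpp x hx p hp),
        ← Nat.primeFactors_prod (fun p hp => hpp y hy p hp), h4]
    have hx' := hx
    have hy' := hy
    rw [hXX, mem_product] at hx' hy'
    have k1 : ∀ w ∈ XX, w.2 = (w.1.image pp ∪ w.2).filter (fun p => p ≤ z) := by
      intro w hw
      rw [hXX, mem_product] at hw
      ext p
      rw [mem_filter, mem_union, mem_image]
      constructor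
      · intro h
        exact ⟨Or.inr h, ((hUm _ hw.2).1 _ h).2⟩
      · rintro ⟨⟨s, _, rfl⟩ | h, h'⟩
        · have := hz s
          omega
        · exact h
    have k2 : ∀ w ∈ XX, w.1.image pp = (w.1.image pp ∪ w.2).filter (fun p => z < p) := by
      intro w hw
      rw [hXX, mem_product] at hw
      ext p
      rw [mem_filter, mem_union]
      constructor
      · intro h
        refine ⟨Or.inl h, ?_⟩
        rw [mem_image] at h
        obtain ⟨s, _, rfl⟩ := h
        exact hz s
      · rintro ⟨h | h, h'⟩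
        · exact h
        · have := ((hUm _ hw.2).1 _ h).2
          omega
    apply Prod.ext
    · apply image_injective hinj
      rw [k2 x hx, k2 y hy, h5]
    · rw [k1 x hx, k1 y hy, h5]
  calc ∑ x ∈ XX, ((5 * m : ℕ) : ℝ) ^ x.1.card * ((κ : ℝ) ^ x.2.card * e (qf x)) ≤
      ∑ x ∈ XX, (κ' : ℝ) ^ (qf x).primeFactors.card * e (qf x) := by
        apply sum_le_sum
        intro x hx
        rw [← mul_assoc]
        apply mul_le_mul_of_nonneg_right _ (he _)
        have h4 : x.1.card + x.2.card ≤ (qf x).primeFactors.card := by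
          have h5 : (x.1.image pp ∪ x.2) ⊆ (qf x).primeFactors := by
            intro p hp
            rw [Nat.mem_primeFactors]
            refine ⟨hpp x hx p hp, ?_, by have := hq0 x hx; omega⟩
            rw [hqeq x hx]
            exact (dvd_prod_of_mem (fun p => p) hp).mul_left W
          have h6 := card_le_card h5
          rw [card_union_of_disjoint, card_image_of_injective _ hinj] at h6
          · exact h6
          · rw [disjoint_left]
            intro p hp hp'
            rw [mem_image] at hp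
            obtain ⟨s, _, rfl⟩ := hp
            rw [hXX, mem_product] at hx
            have h4 := ((hUm _ hx.2).1 _ hp').2
            have h5 := hz s
            omega
        have hκ' : (1 : ℝ) ≤ κ' := by exact_mod_cast h3
        calc ((5 * m : ℕ) : ℝ) ^ x.1.card * (κ : ℝ) ^ x.2.card ≤
            (κ' : ℝ) ^ x.1.card * (κ' : ℝ) ^ x.2.card := by
              apply mul_le_mul
              · exact pow_le_pow_left₀ (Nat.cast_nonneg _) (by exact_mod_cast h1) _
              · exact pow_le_pow_left₀ (Nat.cast_nonneg _) (by exact_mod_cast h2) _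
              · positivity
              · positivity
          _ = (κ' : ℝ) ^ (x.1.card + x.2.card) := by rw [pow_add]
          _ ≤ _ := pow_le_pow_right₀ hκ' h4
    _ = ∑ q ∈ XX.image qf, (κ' : ℝ) ^ q.primeFactors.card * e q := by
        rw [sum_image hinj2]
    _ ≤ _ := by
        apply sum_le_sum_of_subset_of_nonneg
        · intro q hq
          rw [mem_image] at hq
          obtain ⟨x, hx, rfl⟩ := hq
          rw [mem_Icc]
          refine ⟨hq0 x hx, ?_⟩
          rw [hXX, mem_product, mem_filter] at hx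
          exact Nat.mul_le_mul (Nat.mul_le_mul_left _ hx.1.2) (hUm _ hx.2).2
        · intro q _ _
          exact mul_nonneg (by positivity) (he _)

end comb

end Pool.Agent.R498.MP
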