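import Pool.Agent.R498.MP.PA4
import Pool.Agent.R498.MT.Real2

/-!
The counts for a slot with a prime.
-/

set_option autoImplicit false
set_option linter.unusedSectionVars false

namespace Pool.Agent.R498.MP

open Finset
open Pool.Agent.R498.MT
open Pool.Agent.Y677.RSZ (rt Sys rhoT per_mod)
open Pool.Agent.TH423.SH (PS)
open Pool.Agent.W23.DC
open Pool.Agent.Y882
open Pool.Agent.Y882.PX
open Pool.Agent.Y882.KW

/-- the identity -/
def Gi (n : ℤ) : ℤ := n

theorem Gi_sys : Sys 1 Gi where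
  per := fun p _ n => by simp [Gi]
  root := fun p hp => by
    have h1 : rt Gi p ≤ 1 := by
      unfold rt
      rw [card_le_one]
      intro a ha b hb
      rw [mem_filter, mem_range] at ha hb
      have h2 : p ∣ a := Int.natCast_dvd_natCast.1 ha.2
      have h3 : p ∣ b := Int.natCast_dvd_natCast.1 hb.2
      rw [Nat.eq_zero_of_dvd_of_lt h2 ha.1, Nat.eq_zero_of_dvd_of_lt h3 hb.1]
    exact ⟨h1, by have := hp.two_le; omega⟩
  coll := ⟨fun h => h, fun h hh => ⟨hh, by rw [pow_one], fun p _ n h1 h2 => by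
    have h3 : (p : ℤ) ∣ (n + h) - n := dvd_sub h2 h1
    rw [add_sub_cancel_left] at h3
    exact_mod_cast h3⟩⟩

theorem Gi_rt (p : ℕ) (hp : p.Prime) : rt Gi p = 1 := by
  have h1 := (Gi_sys.root p hp).1
  have h2 : 1 ≤ rt Gi p := by
    unfold rt
    rw [Nat.one_le_iff_ne_zero, Ne, card_eq_zero]
    intro h
    have h3 : (0 : ℕ) ∈ (range p).filter (fun r : ℕ => (p : ℤ) ∣ Gi r) := by
      rw [mem_filter, mem_range]
      exact ⟨hp.pos, by simp [Gi]⟩
    rw [h] at h3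
    exact notMem_empty _ h3
  omega

theorem qs_Gi (Y : ℕ) (hY : 2 ≤ Y) (ε₁ υ : ℝ) (t : Pg Gi Y ε₁ υ) : qs Gi Y ε₁ υ t = ((t : ℕ) : ℝ) := by
  unfold qs
  rw [Gi_rt _ (Pg_mem Gi Y ε₁ υ hY t).1]
  simp

/-- the products of the `1 - 1 / p` -/
theorem prod_low {ι : Type} (A : Finset ι) (x : ι → ℝ) (h0 : ∀ i ∈ A, 0 ≤ x i)
    (h1 : ∀ i ∈ A, x i ≤ 1) : 1 - ∑ i ∈ A, x i ≤ ∏ i ∈ A, (1 - x i) := by
  classical
  induction A using Finset.induction_on with
  | empty => simp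
  | insert a A ha ih =>
    rw [sum_insert ha, prod_insert ha]
    have h2 := ih (fun i hi => h0 i (mem_insert_of_mem hi)) (fun i hi => h1 i (mem_insert_of_mem hi))
    have h3 := h0 a (mem_insert_self a A)
    have h4 := h1 a (mem_insert_self a A)
    have h5 : 0 ≤ ∑ i ∈ A, x i := sum_nonneg fun i hi => h0 i (mem_insert_of_mem hi)
    have h6 : (1 - x a) * (1 - ∑ i ∈ A, x i) ≤ (1 - x a) * ∏ i ∈ A, (1 - x i) :=
      mul_le_mul_of_nonneg_left h2 (by linarith)
    nlinarith [mul_nonneg h3 h5]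

/-- the totient of the modulus of the conditions -/
theorem tot_DT {S : Type} [Fintype S] [DecidableEq S] (pp : S → ℕ) (hpr : ∀ s, (pp s).Prime)
    (hinj : Function.Injective pp) {m : ℕ} (T : S → Option (Fin m)) (Z N₁ : ℝ) (hZ : 0 < Z)
    (hpZ : ∀ s, Z ≤ pp s) (hN : (nc T : ℝ) ≤ N₁) (hx : N₁ / Z ≤ 1 / 2) :
    (DT pp T : ℝ) ≤ (1 + 2 * (N₁ / Z)) * Nat.totient (DT pp T) := by
  classical
  set A := univ.filter (fun t => T t ≠ none) with hA
  have h1 : DT pp T = 1 * ∏ p ∈ A.image pp, p := by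
    rw [DT_supp, prod_image (fun a _ b _ h => hinj h), one_mul]
  have h2 : (Nat.totient (DT pp T) : ℝ) = ∏ s ∈ A, ((pp s : ℝ) - 1) := by
    rw [h1, Pool.Agent.TH423.SH.PSUa.tot 1 (A.image pp) (fun p hp => by
      rw [mem_image] at hp
      obtain ⟨s, _, rfl⟩ := hp
      exact ⟨hpr s, fun h => (hpr s).one_lt.ne' (Nat.dvd_one.1 h)⟩)]
    rw [prod_image (fun a _ b _ h => hinj h)]
    simp
  have h3 : (DT pp T : ℝ) = ∏ s ∈ A, (pp s : ℝ) := by
    rw [DT_supp]
    push_cast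
    rfl
  have hp0 : ∀ s, (0 : ℝ) < pp s := fun s => by exact_mod_cast (hpr s).pos
  have h4 : (Nat.totient (DT pp T) : ℝ) = (DT pp T : ℝ) * ∏ s ∈ A, (1 - 1 / (pp s : ℝ)) := by
    rw [h2, h3, ← prod_mul_distrib]
    refine prod_congr rfl fun s _ => ?_
    have := hp0 s
    field_simp
  have h5 := prod_low A (fun s => 1 / (pp s : ℝ)) (fun s _ => by have := hp0 s; positivity)
    (fun s _ => by
      rw [div_le_one (hp0 s)]
      exact_mod_cast (hpr s).one_le)
  have h6 : ∑ s ∈ A, 1 / (pp s : ℝ) ≤ N₁ / Z := by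
    calc ∑ s ∈ A, 1 / (pp s : ℝ) ≤ ∑ _s ∈ A, 1 / Z :=
          sum_le_sum fun s _ => one_div_le_one_div_of_le hZ (hpZ s)
      _ = (nc T : ℝ) * (1 / Z) := by
          rw [sum_const, nsmul_eq_mul]
          rfl
      _ ≤ N₁ * (1 / Z) := mul_le_mul_of_nonneg_right hN (by positivity)
      _ = N₁ / Z := by rw [mul_one_div]
  have hD0 : (0 : ℝ) < DT pp T := by
    rw [h3]
    exact prod_pos fun s _ => hp0 s
  set x := N₁ / Z with hxd
  have hnc0 : (0 : ℝ) ≤ nc T := Nat.cast_nonneg _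
  have hx0 : 0 ≤ x := by
    rw [hxd]
    exact div_nonneg (hnc0.trans hN) hZ.le
  have h7 : 1 - x ≤ ∏ s ∈ A, (1 - 1 / (pp s : ℝ)) := by linarith
  have h8 : 1 ≤ (1 + 2 * x) * (1 - x) := by nlinarith
  rw [h4]
  have h9 : (1 + 2 * x) * (1 - x) ≤ (1 + 2 * x) * ∏ s ∈ A, (1 - 1 / (pp s : ℝ)) :=
    mul_le_mul_of_nonneg_left h7 (by linarith)
  calc (DT pp T : ℝ) = DT pp T * 1 := (mul_one _).symm
    _ ≤ DT pp T * ((1 + 2 * x) * ∏ s ∈ A, (1 - 1 / (pp s : ℝ))) :=
        mul_le_mul_of_nonneg_left (h8.trans h9) hD0.le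
    _ = _ := by ring

open Classical in
theorem cntA_of (b₀ W z m b M L : ℕ) (F : ℤ → ℤ) (t : Fin m → ℕ) (Y : ℕ) (hY : 2 ≤ Y)
    (ε₁ υ R : ℝ) (i : Fin m) (hW1 : 1 ≤ W) (hW : W ≤ z) (hz : (z : ℝ) < (Y : ℝ) ^ ε₁) (X : ℝ)
    (hX : 0 ≤ X) (er : ℕ → ℝ) (her : ∀ D, 0 ≤ er D)
    (hC : ∀ (D a : ℕ), 1 ≤ D → (∀ p ∈ PS W z, ¬ p ∣ D) → D.Coprime W →
      (W * a + (W * t i + b)).Coprime D →
      ∀ s : Finset ℕ, (∀ K, K ∈ s ↔ (K ∈ Ioc M (M + L) ∧ (K % D = a % D ∧
        (W * K + (W * t i + b)).Prime ∧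
        ∀ p ∈ PS W z, ∀ j, ¬ (p : ℤ) ∣ F ((W * (K + t j) + b : ℕ) : ℤ)))) →
      |(s.card : ℝ) - X / (Nat.totient D : ℝ)| ≤
        (1 / 2 : ℝ) ^ b₀ * (X / (Nat.totient D : ℝ)) + er D)
    (hU : ∀ (K : ℕ) (s : Pg Gi Y ε₁ υ) i j, ((s : ℕ) : ℤ) ∣ Gi ((W * (K + t i) + b : ℕ) : ℤ) →
      ((s : ℕ) : ℤ) ∣ Gi ((W * (K + t j) + b : ℕ) : ℤ) → i = j)
    (hφ : ∀ T : Pg Gi Y ε₁ υ → Option (Fin m), lt (ls Gi Y ε₁ υ) T ≤ 2 * R →
      (DT (fun s : Pg Gi Y ε₁ υ => (s : ℕ)) T : ℝ) ≤ (1 + (1 / 2 : ℝ) ^ b₀ / 2) *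
        Nat.totient (DT (fun s : Pg Gi Y ε₁ υ => (s : ℕ)) T))
    (hbig : (Y : ℝ) ^ υ ≤ ((W * M + b : ℕ) : ℝ)) :
    CntA (Ioc M (M + L)) (fun K => nuI F W b z t K * (if (W * (K + t i) + b).Prime then 1 else 0))
      (xi Gi W b t (fun s : Pg Gi Y ε₁ υ => (s : ℕ)))
      (fun s => rd (some i) (qs Gi Y ε₁ υ s) 0) X (2 * (1 / 2 : ℝ) ^ b₀)
      (fun T => if lt (ls Gi Y ε₁ υ) T ≤ 2 * R then er (DT (fun s : Pg Gi Y ε₁ υ => (s : ℕ)) T)
        else 0)
      (fun T => lt (ls Gi Y ε₁ υ) T ≤ 2 * R) := by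
  intro T hT
  beta_reduce
  rw [if_pos (show lt (ls Gi Y ε₁ υ) T ≤ 2 * R from hT)]
  set pp : Pg Gi Y ε₁ υ → ℕ := fun s => (s : ℕ) with hpp
  have hpr : ∀ s, (pp s).Prime := fun s => (Pg_mem Gi Y ε₁ υ hY s).1
  have hinj : Function.Injective pp := Subtype.val_injective
  have hξ : ∀ K s j, xi Gi W b t pp K s = some j ↔
      (pp s : ℤ) ∣ Gi ((W * (K + t j) + b : ℕ) : ℤ) :=
    fun K s j => xi_iff Gi W b t _ K s (hU K s) j
  have hzp : ∀ s, z < pp s := fun s => by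
    have h2 := (Pg_mem Gi Y ε₁ υ hY s).2.1
    have h3 := hz.trans_le h2
    exact_mod_cast h3
  have hpos2 : (0 : ℝ) < (1 / 2 : ℝ) ^ b₀ := by positivity
  by_cases hi : ∃ s, T s = some i
  · -- the colour `i` occurs
    obtain ⟨s, hs⟩ := hi
    have e1 : ∏ s, MT.rr (rd (some i) (qs Gi Y ε₁ υ s) 0) (T s) = 0 := by
      apply prod_eq_zero (mem_univ s)
      rw [hs]
      simp [MT.rr, rd]
    have e2 : ∑ K ∈ Ioc M (M + L), (nuI F W b z t K *
        (if (W * (K + t i) + b).Prime then 1 else 0)) * (if Sub T (xi Gi W b t pp K) then 1 else 0) =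
        0 := by
      apply sum_eq_zero
      intro K hK
      by_cases h1 : Sub T (xi Gi W b t pp K)
      swap
      · rw [if_neg h1, mul_zero]
      by_cases h2 : (W * (K + t i) + b).Prime
      swap
      · rw [if_neg h2, mul_zero, zero_mul]
      exfalso
      have h3 : xi Gi W b t pp K s = some i := by
        rcases h1 s with h | h
        · rw [hs] at h; simp at h
        · rw [← h, hs]
      have h4 := (hξ K s i).1 h3
      have h5 : pp s ∣ W * (K + t i) + b := by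
        unfold Gi at h4
        exact_mod_cast h4
      have h6 := (Nat.prime_dvd_prime_iff_eq (hpr s) h2).1 h5
      have h7 := (Pg_mem Gi Y ε₁ υ hY s).2.2.2.1
      have h8 := (tt_lt Y (pp s) υ hY (hpr s).pos).1 h7
      rw [h6] at h8
      have h9 := hbig.trans_lt' h8
      have h10 : W * (K + t i) + b < W * M + b := by exact_mod_cast h9
      rw [mem_Ioc] at hK
      have h11 : W * M ≤ W * (K + t i) := Nat.mul_le_mul_left _ (by omega)
      omega
    rw [e1, e2]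
    simp only [mul_zero, sub_zero, abs_zero, zero_add]
    exact her _
  push Not at hi
  set D := DT pp T with hD
  have hD0 : 0 < D := DT_pos pp hpr T
  have hDr : (0 : ℝ) < D := by exact_mod_cast hD0
  have hnW : ∀ s, ¬ pp s ∣ W := fun s h => by
    have := Nat.le_of_dvd hW1 h
    have := hzp s
    omega
  have hDp : ∀ p : ℕ, p.Prime → p ∣ D → ∃ s, T s ≠ none ∧ pp s = p := by
    intro p hp hpd
    rw [hD, DT_supp] at hpd
    obtain ⟨s, hs, hs2⟩ := (hp.prime.dvd_finsetProd_iff _).1 hpd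
    rw [mem_filter] at hs
    exact ⟨s, hs.2, ((Nat.prime_dvd_prime_iff_eq hp (hpr s)).1 hs2).symm⟩
  -- the class
  have hcard := CT_card pp hpr hinj Gi Gi_sys.per W b hnW t T
  have hone : ∏ s, (if T s = none then 1 else rt Gi (pp s)) = 1 := by
    apply prod_eq_one
    intro s _
    split_ifs
    · rfl
    · exact Gi_rt _ (hpr s)
  rw [hone, card_eq_one] at hcard
  obtain ⟨r, hr⟩ := hcard
  have hrm : r ∈ CT pp Gi W b t T := by rw [hr]; exact mem_singleton_self r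
  have hrD : r % D = r := by
    unfold CT at hrm
    rw [mem_filter, mem_range] at hrm
    exact Nat.mod_eq_of_lt hrm.1
  have hrr := (CT_iff pp hpr hinj Gi Gi_sys.per W b t T r).1 (by rw [← hD, hrD]; exact hrm)
  have hsub : ∀ K, Sub T (xi Gi W b t pp K) ↔ K % D = r % D := by
    intro K
    rw [hrD]
    have h1 : K % D = r ↔ K % D ∈ CT pp Gi W b t T := by rw [hr, mem_singleton]
    rw [h1, hD, CT_iff pp hpr hinj Gi Gi_sys.per W b t T K]
    constructor
    · intro h s j hs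
      rcases h s with h2 | h2
      · rw [hs] at h2; simp at h2
      · rw [hs] at h2
        exact (hξ K s j).1 h2.symm
    · intro h s
      rcases hs : T s with _ | j
      · exact Or.inl rfl
      · exact Or.inr ((hξ K s j).2 (h s j hs)).symm
  have hcW : D.Coprime W := by
    apply Nat.Coprime.symm
    apply Nat.coprime_of_dvd
    intro p hp h1 h2
    obtain ⟨s, _, rfl⟩ := hDp p hp h2
    exact hnW s h1
  have hcD : (W * r + (W * t i + b)).Coprime D := by
    apply Nat.coprime_of_dvd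
    intro p hp h1 h2
    obtain ⟨s, hs, rfl⟩ := hDp p hp h2
    rcases hj : T s with _ | j
    · exact hs hj
    have h3 := hrr s j hj
    have h4 : (pp s : ℤ) ∣ Gi ((W * (r + t i) + b : ℕ) : ℤ) := by
      unfold Gi
      have e : W * (r + t i) + b = W * r + (W * t i + b) := by ring
      rw [e]
      exact_mod_cast h1
    have h5 := hU r s i j h4 h3
    exact hi s (by rw [hj, h5])
  have hcP := hC D r hD0 (by
      intro p hp hpd
      unfold PS at hp
      rw [mem_filter, mem_Icc] at hp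
      obtain ⟨s, _, hs⟩ := hDp p hp.2.1 hpd
      have := hzp s
      omega) hcW hcD
    ((Ioc M (M + L)).filter (fun K => K % D = r % D ∧ (W * K + (W * t i + b)).Prime ∧
        ∀ p ∈ PS W z, ∀ j, ¬ (p : ℤ) ∣ F ((W * (K + t j) + b : ℕ) : ℤ)))
    (fun K => by rw [mem_filter])
  have e3 : ∑ K ∈ Ioc M (M + L), (nuI F W b z t K *
        (if (W * (K + t i) + b).Prime then 1 else 0)) * (if Sub T (xi Gi W b t pp K) then 1 else 0) =
      (((Ioc M (M + L)).filter (fun K => K % D = r % D ∧ (W * K + (W * t i + b)).Prime ∧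
        ∀ p ∈ PS W z, ∀ j, ¬ (p : ℤ) ∣ F ((W * (K + t j) + b : ℕ) : ℤ))).card : ℝ) := by
    have e4 : ∀ K ∈ Ioc M (M + L), (nuI F W b z t K *
        (if (W * (K + t i) + b).Prime then (1 : ℝ) else 0)) *
          (if Sub T (xi Gi W b t pp K) then 1 else 0) =
        if (K % D = r % D ∧ (W * K + (W * t i + b)).Prime ∧
        ∀ p ∈ PS W z, ∀ j, ¬ (p : ℤ) ∣ F ((W * (K + t j) + b : ℕ) : ℤ)) then 1 else 0 := by
      intro K _
      have e : W * (K + t i) + b = W * K + (W * t i + b) := by ring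
      have hs := hsub K
      unfold nuI
      by_cases h1 : Sub T (xi Gi W b t pp K)
      · rw [if_pos h1, mul_one]
        have h1' := hs.1 h1
        by_cases h2 : (W * (K + t i) + b).Prime
        · rw [if_pos h2, mul_one]
          rw [e] at h2
          apply if_congr _ rfl rfl
          constructor
          · exact fun h => ⟨h1', h2, h⟩
          · exact fun h => h.2.2
        · rw [if_neg h2, mul_zero]
          rw [e] at h2
          rw [if_neg (fun h => h2 h.2.1)]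
      · rw [if_neg h1, mul_zero]
        rw [if_neg (fun h => h1 (hs.2 h.1))]
    rw [sum_congr rfl e4, ← sum_filter]
    simp
  have e5 : ∏ s, MT.rr (rd (some i) (qs Gi Y ε₁ υ s) 0) (T s) = 1 / (D : ℝ) := by
    rw [hD, DT_supp]
    push_cast
    rw [one_div, ← prod_inv_distrib, prod_filter]
    refine prod_congr rfl fun s _ => ?_
    rcases hj : T s with _ | j
    · simp [MT.rr]
    · have hij : i ≠ j := fun h => hi s (by rw [hj, h])
      simp [MT.rr, rd, hij, qs_Gi Y hY, hpp]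
  rw [e3, e5]
  have hφ' := hφ T hT
  rw [← hD] at hφ'
  obtain ⟨φD, hφD⟩ : ∃ φD : ℝ, φD = Nat.totient D := ⟨_, rfl⟩
  rw [← hφD] at hφ' hcP
  have hφ0 : 0 < φD := by
    rw [hφD]
    exact_mod_cast Nat.totient_pos.2 hD0
  have hφle : φD ≤ D := by
    rw [hφD]
    exact_mod_cast Nat.totient_le D
  set c : ℝ := (((Ioc M (M + L)).filter (fun K => K % D = r % D ∧ (W * K + (W * t i + b)).Prime ∧
        ∀ p ∈ PS W z, ∀ j, ¬ (p : ℤ) ∣ F ((W * (K + t j) + b : ℕ) : ℤ))).card : ℝ) with hc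
  set β : ℝ := (1 / 2 : ℝ) ^ b₀ with hβ
  have hβ1 : β ≤ 1 := pow_le_one₀ (by norm_num) (by norm_num)
  have k1 : X / φD ≤ (1 + β / 2) * (X * (1 / D)) := by
    rw [div_le_iff₀ hφ0]
    have : X * D ≤ X * ((1 + β / 2) * φD) := mul_le_mul_of_nonneg_left hφ' hX
    calc X = X * D / D := by field_simp
      _ ≤ X * ((1 + β / 2) * φD) / D := div_le_div_of_nonneg_right this hDr.le
      _ = _ := by ring
  have k2 : X * (1 / D) ≤ X / φD := by
    rw [mul_one_div]
    exact div_le_div_of_nonneg_left hX hφ0 hφle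
  have k3 : 0 ≤ X * (1 / D) := by positivity
  set x := X * (1 / (D : ℝ)) with hx
  have k4 : 2 * β * X * (1 / (D : ℝ)) = 2 * β * x := by rw [hx]; ring
  rw [k4]
  rw [abs_le] at hcP ⊢
  obtain ⟨p1, p2⟩ := hcP
  have k5 : β * (X / φD) ≤ β * ((1 + β / 2) * x) := mul_le_mul_of_nonneg_left k1 hpos2.le
  have k6 : β * ((1 + β / 2) * x) + β / 2 * x ≤ 2 * β * x := by nlinarith [mul_nonneg hpos2.le k3]
  have k7 : 0 ≤ β / 2 * x := by positivity
  constructor
  · linarith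
  · linarith

end Pool.Agent.R498.MP
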