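import Pool.Agent.R498.MP.PA5
import Pool.Agent.TH423.SH.PRDP
import Pool.Agent.TH423.SH.PAIP

/-!
The sizes of the main terms, and the sum of the errors.
-/

set_option autoImplicit false
set_option linter.unusedSectionVars false

namespace Pool.Agent.R498.MP

open Finset Filter
open Pool.Agent.R498.MT
open Pool.Agent.Y677.RSZ (rt Sys rhoT per_mod)
open Pool.Agent.Y852.RSZ (OmC)
open Pool.Agent.TH423.SH (PS PIj)
open Pool.Agent.W23.DC
open Pool.Agent.Y882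
open Pool.Agent.Y882.PX
open Pool.Agent.Y882.KW
open Pool.Agent.TH423.SH.PSUa (ee ee_nonneg)

theorem OmP_card (F : ℤ → ℤ) (hFid : ∀ p : ℕ, p.Prime → ∀ n : ℤ, (p : ℤ) ∣ n → (p : ℤ) ∣ F n)
    (W b : ℕ) {m : ℕ} (t : Fin m → ℕ) (i : Fin m) (p : ℕ) (hp : p.Prime) (hW : ¬ p ∣ W) :
    (OmP F W b (W * t i + b) t p).card + 1 = rhoT F W b t p := by
  classical
  have h1 := Pool.Agent.Y833.RSZ.card_shift (F := Gi) hp (Gi_sys.per p hp) W b (t i) hW
  rw [Gi_rt p hp] at h1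
  have h2 : (range p).filter (fun r : ℕ => (p : ℤ) ∣ Gi ((W * (r + t i) + b : ℕ) : ℤ)) =
      (OmC F W b t p).filter (fun c => p ∣ W * c + (W * t i + b)) := by
    ext c
    unfold OmC Gi
    rw [mem_filter, mem_filter, mem_filter, mem_range]
    have e : W * (c + t i) + b = W * c + (W * t i + b) := by ring
    constructor
    · rintro ⟨h3, h4⟩
      refine ⟨⟨h3, i, hFid p hp _ h4⟩, ?_⟩
      rw [e] at h4
      exact Int.natCast_dvd_natCast.1 h4
    · rintro ⟨⟨h3, _⟩, h5⟩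
      refine ⟨h3, ?_⟩
      rw [e]
      exact Int.natCast_dvd_natCast.2 h5
  have h3 : (OmC F W b t p).card = rhoT F W b t p := by
    unfold OmC rhoT
    rfl
  rw [← h3, ← card_filter_add_card_filter_not (s := OmC F W b t p)
    (fun c => p ∣ W * c + (W * t i + b)), ← h2, h1]
  unfold OmP
  ring

theorem VpP_eq (F : ℤ → ℤ) (hFid : ∀ p : ℕ, p.Prime → ∀ n : ℤ, (p : ℤ) ∣ n → (p : ℤ) ∣ F n)
    (W b z : ℕ) {m : ℕ} (t : Fin m → ℕ) (i : Fin m) :
    VpP F W b (W * t i + b) z t * PIj W z 1 = Vp F W b z t := by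
  unfold VpP PIj Vp
  rw [← prod_mul_distrib]
  refine prod_congr rfl fun p hp => ?_
  unfold PS at hp
  rw [mem_filter] at hp
  have h1 := OmP_card F hFid W b t i p hp.2.1 hp.2.2
  have h2 : ((OmP F W b (W * t i + b) t p).card : ℝ) + 1 = rhoT F W b t p := by exact_mod_cast h1
  have h3 : (2 : ℝ) ≤ p := by exact_mod_cast hp.2.1.two_le
  have h4 : (p : ℝ) - 1 ≠ 0 := by linarith
  have h5 : (p : ℝ) ≠ 0 := by linarith
  rw [← h2]
  field_simp
  push_cast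
  ring

/-- primes in a long interval -/
theorem pi_low : ∃ Y₀ : ℕ, ∀ Y : ℕ, Y₀ ≤ Y → ∀ u v : ℕ, Y ≤ 2 * u → v ≤ 3 * Y →
    8 * u + Y ≤ 8 * v → ((v : ℝ) - u) / (2 * Real.log Y) ≤ H343E.pi1 v - H343E.pi1 u := by
  classical
  obtain ⟨x₀, h⟩ := Pool.Agent.TH423.SH.pai 1 le_rfl (1 / 2) (1 / 8) (by norm_num) (by norm_num)
  obtain ⟨Y₀, hY₀⟩ := exists_nat_ge (max x₀ 2)
  refine ⟨Y₀, fun Y hY u v h1 h2 h3 => ?_⟩
  have hYr : (Y₀ : ℝ) ≤ Y := by exact_mod_cast hY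
  have h4 := h Y (((le_max_left _ _).trans hY₀).trans hYr) u v 0
    (by
      have : (Y : ℝ) ≤ 2 * u := by exact_mod_cast h1
      linarith)
    (by exact_mod_cast h2)
    (by
      have : (8 * u + Y : ℝ) ≤ 8 * v := by exact_mod_cast h3
      linarith) (Nat.coprime_one_right 0)
  have hlog : 0 < Real.log Y := Real.log_pos (by
    have := ((le_max_right x₀ 2).trans hY₀).trans hYr
    linarith)
  have h5 : (((Ioc u v).filter (fun q => q.Prime ∧ q % 1 = 0 % 1)).card : ℝ) =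
      H343E.pi1 v - H343E.pi1 u := by
    unfold H343E.pi1
    rw [← Pool.Agent.TH423.SH.PSUa.cnt _ u v (by omega)]
    congr 2
    apply filter_congr
    intro q _
    simp [Nat.mod_one]
  rw [abs_le] at h4
  have h6 := h4.1
  have h7 : (((Ioc u v).filter (fun q => q.Prime ∧ q % 1 = 0 % 1)).card : ℝ) ≥
      1 / 2 * (((v : ℝ) - u) / ((Nat.totient 1 : ℝ) * Real.log Y)) := by
    have h8 : (((Ioc u v).filter (fun q => q.Prime ∧ q % 1 = 0 % 1)).card : ℝ) =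
      (((Ioc u v).filter (fun q => q.Prime ∧ q % 1 = 0 % 1)).card : ℝ) := rfl
    linarith
  rw [h5] at h7
  refine le_trans (le_of_eq ?_) h7
  rw [Nat.totient_one]
  push_cast
  field_simp

/-- the main term of a slot is large -/
theorem X_low (F : ℤ → ℤ) (hFid : ∀ p : ℕ, p.Prime → ∀ n : ℤ, (p : ℤ) ∣ n → (p : ℤ) ∣ F n)
    (W b z Y L : ℕ) {m : ℕ} (t : Fin m → ℕ) (i : Fin m) (ε₁ Δ : ℝ) (hW : 1 ≤ W) (hz : 2 ≤ z)
    (hε : 0 < ε₁) (hY : 2 ≤ Y)
    (hVp : 0 < Vp F W b z t) (hz2 : (Y : ℝ) ^ ε₁ ≤ z + 1) (hbig : 2 ≤ (Y : ℝ) ^ (ε₁ / 2))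
    (hΔ : ((W * L : ℕ) : ℝ) / (2 * Real.log Y) ≤ Δ) :
    1 / 4 * ε₁ * (L * Vp F W b z t) ≤
      Δ / (Nat.totient W : ℝ) * VpP F W b (W * t i + b) z t := by
  have hYr : (2 : ℝ) ≤ Y := by exact_mod_cast hY
  have hY0 : (0 : ℝ) < Y := by linarith
  have hlY : 0 < Real.log Y := Real.log_pos (by linarith)
  have hWr : (1 : ℝ) ≤ W := by exact_mod_cast hW
  have hφ : (0 : ℝ) < Nat.totient W := by exact_mod_cast Nat.totient_pos.2 (by omega)
  have hP := Pool.Agent.TH423.SH.prb W z hW hz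
  have hP0 : 0 < PIj W z 1 := by
    unfold PIj
    apply prod_pos
    intro p hp
    unfold PS at hp
    rw [mem_filter] at hp
    have h3 : (2 : ℝ) ≤ p := by exact_mod_cast hp.2.1.two_le
    rw [sub_pos, div_lt_one (by linarith)]
    push_cast
    linarith
  have hlz : ε₁ / 2 * Real.log Y ≤ Real.log z := by
    rw [← Real.log_rpow hY0]
    apply Real.log_le_log (by positivity)
    have h1 : (Y : ℝ) ^ ε₁ = (Y : ℝ) ^ (ε₁ / 2) * (Y : ℝ) ^ (ε₁ / 2) := by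
      rw [← Real.rpow_add hY0]
      ring_nf
    nlinarith
  have hlz0 : 0 < Real.log z := lt_of_lt_of_le (by positivity) hlz
  have hV := VpP_eq F hFid W b z t i
  set VP := VpP F W b (W * t i + b) z t with hVP
  set P1 := PIj W z 1 with hP1
  set V := Vp F W b z t with hVd
  have hVP0 : 0 < VP := by
    have h1 : 0 < VP * P1 := by rw [hV]; exact hVp
    exact pos_of_mul_pos_left h1 hP0.le
  -- `V log z / W ≤ VP / φ(W)`
  have h1 : V * Real.log z / W ≤ VP / (Nat.totient W : ℝ) := by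
    rw [div_le_div_iff₀ (by linarith) hφ, ← hV]
    calc VP * P1 * Real.log z * (Nat.totient W : ℝ) = VP * (P1 * Real.log z * Nat.totient W) := by
          ring
      _ ≤ VP * W := mul_le_mul_of_nonneg_left hP hVP0.le
  have hL0 : (0 : ℝ) ≤ L := Nat.cast_nonneg L
  calc 1 / 4 * ε₁ * (L * V) = ((W * L : ℝ) / (2 * Real.log Y)) * (V * (ε₁ / 2 * Real.log Y) / W) := by
        field_simp
        ring
    _ ≤ ((W * L : ℝ) / (2 * Real.log Y)) * (V * Real.log z / W) := by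
        apply mul_le_mul_of_nonneg_left _ (by positivity)
        apply div_le_div_of_nonneg_right _ (by linarith)
        exact mul_le_mul_of_nonneg_left hlz hVp.le
    _ ≤ ((W * L : ℝ) / (2 * Real.log Y)) * (VP / (Nat.totient W : ℝ)) :=
        mul_le_mul_of_nonneg_left h1 (by positivity)
    _ ≤ Δ * (VP / (Nat.totient W : ℝ)) := by
        apply mul_le_mul_of_nonneg_right _ (by positivity)
        push_cast at hΔ
        exact hΔ
    _ = _ := by ring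

/-- the sum of the errors of a slot -/
theorem err_slot (W κ κ' C b₀ m U : ℕ) (hW : 1 ≤ W) (hκ1 : 5 * m ≤ κ') (hκ2 : κ ≤ κ')
    (hκ3 : 1 ≤ κ') (hCb : 1 ≤ C * b₀) (ε₁ υ R : ℝ) (hR0 : 0 ≤ R) (hε : 2 * ε₁ * (C * b₀) ≤ 1 / 12)
    (hR : R ≤ 1 / 8) : ∃ Y₀ : ℕ, ∀ Y : ℕ, Y₀ ≤ Y → ∀ z J x₁ x₂ : ℕ, x₁ ≤ x₂ → Y ≤ x₂ →
      x₂ ≤ 3 * Y → (z : ℝ) < (Y : ℝ) ^ ε₁ → (2 : ℝ) ^ 2 ^ J ≤ (Y : ℝ) ^ (2 * ε₁) →
      ∑ T : Pg Gi Y ε₁ υ → Option (Fin m), 5 ^ nc T * (if lt (ls Gi Y ε₁ υ) T ≤ 2 * R then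
        erP κ C b₀ W J z (DT (fun s : Pg Gi Y ε₁ υ => (s : ℕ)) T) x₁ x₂ else 0) ≤
      Y / Real.log Y ^ U := by
  classical
  obtain ⟨X₁, hX₁⟩ := Pool.Agent.TH423.SH.PSUa.wsum W κ' (U + 2) hκ3
  obtain ⟨X₂, hX₂⟩ := eventually_atTop.1
    ((Real.tendsto_log_atTop.comp (tendsto_natCast_atTop_atTop (R := ℝ))).eventually_ge_atTop
      (48 : ℝ))
  refine ⟨max (max X₁ X₂) 2, ?_⟩
  intro Y hY z J x₁ x₂ hx12 hYx hx3 hzY hJ
  simp only [max_le_iff] at hY
  obtain ⟨⟨hY1, hY2⟩, hY3⟩ := hY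
  have hL48 : 48 ≤ Real.log Y := hX₂ Y hY2
  have hYr : (2 : ℝ) ≤ Y := by exact_mod_cast hY3
  have hY0 : (0 : ℝ) < Y := by linarith
  have hY1r : (1 : ℝ) ≤ Y := by linarith
  set pp : Pg Gi Y ε₁ υ → ℕ := fun s => (s : ℕ) with hpp
  have hpr : ∀ s, (pp s).Prime := fun s => (Pg_mem Gi Y ε₁ υ hY3 s).1
  have hinj : Function.Injective pp := Subtype.val_injective
  have hzp : ∀ s, z < pp s := fun s => by
    have h2 := (Pg_mem Gi Y ε₁ υ hY3 s).2.1
    have h3 := hzY.trans_le h2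
    exact_mod_cast h3
  obtain ⟨A, hA⟩ : ∃ A : ℕ, A = ⌊(Y : ℝ) ^ (2 * R)⌋₊ := ⟨_, rfl⟩
  obtain ⟨B, hB⟩ : ∃ B : ℕ, B = (2 ^ 2 ^ J) ^ (C * b₀) := ⟨_, rfl⟩
  have hAr : (A : ℝ) ≤ (Y : ℝ) ^ (2 * R) := by
    rw [hA]
    exact Nat.floor_le (by positivity)
  have hBr : (B : ℝ) ≤ (Y : ℝ) ^ (1 / 12 : ℝ) := by
    rw [hB]
    push_cast
    calc ((2 : ℝ) ^ 2 ^ J) ^ (C * b₀) ≤ ((Y : ℝ) ^ (2 * ε₁)) ^ (C * b₀) :=
          pow_le_pow_left₀ (by positivity) hJ _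
      _ = (Y : ℝ) ^ (2 * ε₁ * (C * b₀)) := by
          rw [← Real.rpow_natCast, ← Real.rpow_mul hY0.le]
          push_cast
          ring_nf
      _ ≤ _ := Real.rpow_le_rpow_of_exponent_le hY1r hε
  have hAB3 : (A * B) ^ 3 ≤ Y := by
    have h1 : ((A * B : ℕ) : ℝ) ^ 3 ≤ Y := by
      push_cast
      calc ((A : ℝ) * B) ^ 3 ≤ ((Y : ℝ) ^ (2 * R) * (Y : ℝ) ^ (1 / 12 : ℝ)) ^ 3 := by
            apply pow_le_pow_left₀ (by positivity)
            exact mul_le_mul hAr hBr (Nat.cast_nonneg _) (by positivity)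
        _ = (Y : ℝ) ^ ((2 * R + 1 / 12) * 3) := by
            rw [← Real.rpow_add hY0, ← Real.rpow_natCast, ← Real.rpow_mul hY0.le]
            norm_num
        _ ≤ (Y : ℝ) ^ (1 : ℝ) := Real.rpow_le_rpow_of_exponent_le hY1r (by linarith)
        _ = Y := Real.rpow_one _
    exact_mod_cast h1
  have hQ : (W * A * B) ^ 3 ≤ W ^ 3 * x₂ := by
    calc (W * A * B) ^ 3 = W ^ 3 * (A * B) ^ 3 := by ring
      _ ≤ W ^ 3 * x₂ := Nat.mul_le_mul_left _ (hAB3.trans hYx)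
  have w1 := hX₁ x₂ (hY1.trans hYx) x₂ le_rfl _ hQ
  have w2 := hX₁ x₂ (hY1.trans hYx) x₁ hx12 _ hQ
  have s1 := sum_err pp hpr hinj W z m κ κ' A B hW hzp hκ1 hκ2 hκ3 (fun q => ee x₂ q)
    (fun q => ee_nonneg _ _)
  have s2 := sum_err pp hpr hinj W z m κ κ' A B hW hzp hκ1 hκ2 hκ3 (fun q => ee x₁ q)
    (fun q => ee_nonneg _ _)
  have hlogx : Real.log Y ≤ Real.log x₂ := Real.log_le_log hY0 (by exact_mod_cast hYx)
  have hx3r : (x₂ : ℝ) ≤ 3 * Y := by exact_mod_cast hx3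
  have hl0 : 0 < Real.log Y := by linarith
  have w3 : (x₂ : ℝ) / Real.log x₂ ^ (U + 2) ≤ 3 * Y / Real.log Y ^ (U + 2) :=
    div_le_div₀ (by positivity) hx3r (by positivity) (pow_le_pow_left₀ hl0.le hlogx _)
  -- the factor `J + 2`
  have hJ3 : (J : ℝ) + 2 ≤ 3 * Real.log Y := by
    have h1 : (2 : ℝ) ^ 2 ^ J ≤ Y := by
      have hBJ : 2 ^ 2 ^ J ≤ B := by
        rw [hB]
        exact Nat.le_self_pow (by omega) _
      have h2 : ((2 : ℝ) ^ 2 ^ J) ≤ B := by exact_mod_cast hBJ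
      refine h2.trans (hBr.trans ?_)
      calc (Y : ℝ) ^ (1 / 12 : ℝ) ≤ (Y : ℝ) ^ (1 : ℝ) :=
            Real.rpow_le_rpow_of_exponent_le hY1r (by norm_num)
        _ = Y := Real.rpow_one _
    have h2 := Real.log_le_log (by positivity) h1
    rw [Real.log_pow] at h2
    push_cast at h2
    have h3 : J + 1 ≤ 2 ^ J := Nat.lt_two_pow_self
    have h4 : ((J:ℝ) + 1) ≤ 2 ^ J := by exact_mod_cast h3
    have h5 := Real.log_two_gt_d9
    nlinarith
  have hmain : ∑ T : Pg Gi Y ε₁ υ → Option (Fin m), 5 ^ nc T *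
      (if lt (ls Gi Y ε₁ υ) T ≤ 2 * R then erP κ C b₀ W J z (DT pp T) x₁ x₂ else 0) ≤
      ((J : ℝ) + 2) * (∑ q ∈ Icc 1 (W * A * B), (κ' : ℝ) ^ q.primeFactors.card * ee x₂ q +
        ∑ q ∈ Icc 1 (W * A * B), (κ' : ℝ) ^ q.primeFactors.card * ee x₁ q) := by
    refine le_trans ?_ (mul_le_mul_of_nonneg_left (add_le_add s1 s2) (by positivity))
    rw [← sum_add_distrib, mul_sum]
    apply sum_le_sum
    intro T _
    have h5 : (0 : ℝ) ≤ 5 ^ nc T := by positivity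
    by_cases hT : lt (ls Gi Y ε₁ υ) T ≤ 2 * R
    · have hDA : DT pp T ≤ A := by
        rw [hA]
        apply Nat.le_floor
        rw [hpp, DT_rpow Gi Y ε₁ υ hY3 T]
        exact Real.rpow_le_rpow_of_exponent_le hY1r hT
      rw [if_pos hT, if_pos hDA, if_pos hDA]
      unfold erP
      rw [← hB]
      apply le_of_eq
      rw [← mul_add, ← sum_add_distrib]
      simp_rw [← mul_add]
      ring
    · rw [if_neg hT, mul_zero]
      apply mul_nonneg (by positivity)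
      apply add_nonneg
      · apply mul_nonneg h5
        split_ifs
        · exact sum_nonneg fun _ _ => mul_nonneg (by positivity) (ee_nonneg _ _)
        · exact le_rfl
      · apply mul_nonneg h5
        split_ifs
        · exact sum_nonneg fun _ _ => mul_nonneg (by positivity) (ee_nonneg _ _)
        · exact le_rfl
  refine hmain.trans ?_
  have h6 : ∑ q ∈ Icc 1 (W * A * B), (κ' : ℝ) ^ q.primeFactors.card * ee x₂ q +
        ∑ q ∈ Icc 1 (W * A * B), (κ' : ℝ) ^ q.primeFactors.card * ee x₁ q ≤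
      2 * (3 * Y / Real.log Y ^ (U + 2)) := by linarith
  calc ((J : ℝ) + 2) * (∑ q ∈ Icc 1 (W * A * B), (κ' : ℝ) ^ q.primeFactors.card * ee x₂ q +
        ∑ q ∈ Icc 1 (W * A * B), (κ' : ℝ) ^ q.primeFactors.card * ee x₁ q) ≤
      (3 * Real.log Y) * (2 * (3 * Y / Real.log Y ^ (U + 2))) := by
        apply mul_le_mul hJ3 h6 _ (by positivity)
        apply add_nonneg
        · exact sum_nonneg fun _ _ => mul_nonneg (by positivity) (ee_nonneg _ _)
        · exact sum_nonneg fun _ _ => mul_nonneg (by positivity) (ee_nonneg _ _)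
    _ = Y / Real.log Y ^ U * (18 / Real.log Y) := by
        rw [pow_add]
        field_simp
        ring
    _ ≤ Y / Real.log Y ^ U * 1 := by
        apply mul_le_mul_of_nonneg_left _ (by positivity)
        rw [div_le_one hl0]
        linarith
    _ = _ := mul_one _

end Pool.Agent.R498.MP
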