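import Pool.Agent.R498.MP.PA6
import Pool.Agent.R498.MT.Core0

/-!
Assembly of the two sums for slots with primes.
-/

set_option autoImplicit false
set_option linter.unusedSectionVars false

namespace Pool.Agent.R498.MP

open Finset Filter
open Pool.Agent.R498.MT
open Pool.Agent.Y677.RSZ (rt Sys rhoT per_mod ev_log)
open Pool.Agent.TH423.SH (PS PIj)
open Pool.Agent.W23.DC
open Pool.Agent.Y882
open Pool.Agent.Y882.PX
open Pool.Agent.Y882.KW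
open Pool.Agent.TH423.SH.PSUa (ee ee_nonneg)

section asm
variable {S : Type} [Fintype S] [DecidableEq S]

/-- **The weighted count of the arguments with many primes is large.** -/
theorem asmP (k : ℕ) (R c₀ : ℝ) (hR : 0 < R) (hc₀ : 0 < c₀) (m : ℕ)
    (hk : 3 * ((m : ℝ) + 1) * 1474560 ≤ c₀ * R * k) (ε₁ : ℝ) (hε : 0 < ε₁)
    (hε1 : ε₁ ≤ e0 k 1 R) (w : ℝ) (q μ l : S → ℝ) (hd : Dat q μ l ε₁ R w (om k 1 ε₁))
    {N : Finset ℕ} {ν : ℕ → ℝ} {ξ : ℕ → S → Option (Fin (2 ^ k))} {X E : ℝ} (hX : 0 ≤ X)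
    (hE : 0 ≤ E) (hE1 : E ≤ ε₁ ^ (16 * (2 ^ k) ^ 2 + 1))
    (hC1 : Cnt N ν ξ (fun t _ => 1 / q t) X E (fun T => lt l T ≤ 2 * R))
    (hν : ∀ n ∈ N, 0 ≤ ν n) (pr : Fin (2 ^ k) → ℕ → ℝ) (hpr : ∀ i n, 0 ≤ pr i n)
    (Xi : Fin (2 ^ k) → ℝ) (hXi0 : ∀ i, 0 ≤ Xi i) (hXi1 : ∀ i, c₀ * ε₁ * X ≤ Xi i)
    (hXi2 : ∀ i, Xi i ≤ 2 * X) (Rr : Fin (2 ^ k) → (S → Option (Fin (2 ^ k))) → ℝ)
    (hRr : ∀ i T, 0 ≤ Rr i T)
    (hC2 : ∀ i, CntA N (fun n => ν n * pr i n) ξ (fun t => rd (some i) (q t) 0) (Xi i) E (Rr i)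
      (fun T => lt l T ≤ 2 * R))
    (hs : ∀ n ∈ N, ν n ≠ 0 → ∀ i, pr i n ≠ 0 → ∀ t, ξ n t = some i → R < l t) :
    2 * (X * If μ l R k) ≤
      ∑ n ∈ N, ν n * (Lam none q μ (yf l R k) (ξ n) ^ 2 * (∑ i, pr i n - m)) +
        ∑ i, Ab k ε₁ * ∑ U, 5 ^ nc U * Rr i U := by
  have hl0 : ∀ t, 0 ≤ l t := fun t => hε.le.trans (hd.l1 t)
  have h1 := S1_fin k 1 R (by norm_num) hR ε₁ hε hε1 w q μ l hd hX hE hE1 hC1
  have h2 : ∀ i : Fin (2 ^ k), 2 * ((m : ℝ) + 1) / 2 ^ k * (X * If μ l R k) ≤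
      ∑ n ∈ N, ν n * (Lam none q μ (yf l R k) (ξ n) ^ 2 * pr i n) +
        Ab k ε₁ * ∑ U, 5 ^ nc U * Rr i U := by
    intro i
    have h3 := S2_add k R c₀ hR hc₀ m hk ε₁ hε hε1 w q μ l hd i (fun _ => 0) (fun _ => le_rfl)
      (N := N) (ν := fun n => ν n * pr i n) (ξ := ξ) (X := Xi i) (X₀ := X) (E := E) (hXi0 i)
      (hXi2 i) (hXi1 i) hE hE1 (Rr i) (hRr i) (hC2 i)
    refine h3.trans (add_le_add (sum_le_sum fun n hn => ?_) le_rfl)
    by_cases hn0 : ν n = 0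
    · rw [hn0]; simp
    by_cases hp0 : pr i n = 0
    · rw [hp0]; simp
    rw [Lam_slot q μ l R (yf l R k) (fun σ hσ => (yf_facts l hl0 R hR k σ).2.2 hσ) hl0 i (ξ n)
        (hs n hn hn0 i hp0)]
    apply le_of_eq
    ring
  have h3 := sum_le_sum (s := (univ : Finset (Fin (2 ^ k)))) fun i _ => h2 i
  rw [sum_const, card_univ, Fintype.card_fin, nsmul_eq_mul, sum_add_distrib] at h3
  have h4 : ∑ i : Fin (2 ^ k), ∑ n ∈ N, ν n * (Lam none q μ (yf l R k) (ξ n) ^ 2 * pr i n) =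
      ∑ n ∈ N, ν n * (Lam none q μ (yf l R k) (ξ n) ^ 2 * ∑ i, pr i n) := by
    rw [sum_comm]
    refine sum_congr rfl fun n _ => ?_
    rw [mul_sum, mul_sum]
  rw [h4] at h3
  have h5 : ((2 ^ k : ℕ) : ℝ) * (2 * ((m : ℝ) + 1) / 2 ^ k * (X * If μ l R k)) =
      2 * ((m : ℝ) + 1) * (X * If μ l R k) := by
    push_cast
    have : (2 : ℝ) ^ k ≠ 0 := by positivity
    field_simp
  rw [h5] at h3
  have h6 : ∑ n ∈ N, ν n * (Lam none q μ (yf l R k) (ξ n) ^ 2 * (∑ i, pr i n - m)) =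
      ∑ n ∈ N, ν n * (Lam none q μ (yf l R k) (ξ n) ^ 2 * ∑ i, pr i n) -
        m * ∑ n ∈ N, ν n * Lam none q μ (yf l R k) (ξ n) ^ 2 := by
    rw [mul_sum, ← sum_sub_distrib]
    refine sum_congr rfl fun n _ => ?_
    ring
  rw [h6]
  have h7 := mul_le_mul_of_nonneg_left h1 (Nat.cast_nonneg (α := ℝ) m)
  linarith

end asm

open Classical in
/-- the arguments with more than `m` primes -/
noncomputable def gp (F : ℤ → ℤ) (Y : ℕ) (ε₁ : ℝ) (W b : ℕ) {n : ℕ} (t : Fin n → ℕ)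
    (m M L : ℕ) : Finset ℕ :=
  (Ioc M (M + L)).filter (fun K =>
    (∀ p : ℕ, p.Prime → (p : ℝ) < (Y : ℝ) ^ ε₁ → ∀ i,
      ¬ (p : ℤ) ∣ F ((W * (K + t i) + b : ℕ) : ℤ)) ∧
    m < (univ.filter (fun i => (W * (K + t i) + b).Prime)).card)

open Classical in
/-- the contribution of one argument -/
theorem pt_upP (F : ℤ → ℤ) (g : ℕ) (hF : Sys g F)
    (Y : ℕ) (ε₁ B Λ : ℝ) (W b z k m M L : ℕ) (t : Fin (2 ^ k) → ℕ)
    (hbW : ∀ p : ℕ, p.Prime → p ∣ W → ¬ (p : ℤ) ∣ F b)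
    (hz2 : (Y : ℝ) ^ ε₁ ≤ z + 1) (K : ℕ) (hK : K ∈ Ioc M (M + L)) (hΛ0 : 0 ≤ Λ) (hΛ : Λ ≤ B) :
    nuI F W b z t K * (Λ * (∑ i, (if (W * (K + t i) + b).Prime then (1 : ℝ) else 0) - m)) ≤
      if K ∈ gp F Y ε₁ W b t m M L then B * 2 ^ k else 0 := by
  have hB0 : 0 ≤ B := hΛ0.trans hΛ
  have hB2 : 0 ≤ B * 2 ^ k := by positivity
  by_cases hν : ∀ p ∈ PS W z, ∀ i, ¬ (p : ℤ) ∣ F ((W * (K + t i) + b : ℕ) : ℤ)
  swap
  · have : nuI F W b z t K = 0 := by unfold nuI; rw [if_neg hν]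
    rw [this, zero_mul]
    split_ifs
    · exact hB2
    · exact le_rfl
  have hν1 : nuI F W b z t K = 1 := by unfold nuI; rw [if_pos hν]
  rw [hν1, one_mul]
  have hcard : ∑ i : Fin (2 ^ k), (if (W * (K + t i) + b).Prime then (1 : ℝ) else 0) =
      ((univ.filter (fun i => (W * (K + t i) + b).Prime)).card : ℝ) := by
    rw [← sum_filter]
    simp
  rw [hcard]
  by_cases hs : ((univ.filter (fun i => (W * (K + t i) + b).Prime)).card : ℝ) - m ≤ 0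
  · have h2 := mul_nonpos_of_nonneg_of_nonpos hΛ0 hs
    refine h2.trans ?_
    split_ifs
    · exact hB2
    · exact le_rfl
  push Not at hs
  have hsmall : ∀ p : ℕ, p.Prime → (p : ℝ) < (Y : ℝ) ^ ε₁ → ∀ i,
      ¬ (p : ℤ) ∣ F ((W * (K + t i) + b : ℕ) : ℤ) := by
    intro p hp hpY i hdvd
    by_cases hpW : p ∣ W
    · apply hbW p hp hpW
      refine (per_mod hF.per hp (W * (K + t i) + b) b ?_).1 hdvd
      have : W * (K + t i) ≡ 0 [MOD p] := (Nat.modEq_zero_iff_dvd).2 (hpW.mul_right _)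
      simpa using this.add_right b
    · have hpz : p ≤ z := by
        have : (p : ℝ) < z + 1 := hpY.trans_le hz2
        have : p < z + 1 := by exact_mod_cast this
        omega
      refine hν p ?_ i hdvd
      unfold PS
      rw [mem_filter, mem_Icc]
      exact ⟨⟨hp.one_lt.le, hpz⟩, hp, hpW⟩
  have hmem : K ∈ gp F Y ε₁ W b t m M L := by
    unfold gp
    rw [mem_filter]
    refine ⟨hK, hsmall, ?_⟩
    have h5 : (m : ℝ) < ((univ.filter (fun i => (W * (K + t i) + b).Prime)).card : ℝ) := by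
      linarith
    have h6 : m < (univ.filter (fun i => (W * (K + t i) + b).Prime)).card := by exact_mod_cast h5
    convert h6
  rw [if_pos hmem]
  have hs2 : ((univ.filter (fun i => (W * (K + t i) + b).Prime)).card : ℝ) - m ≤ 2 ^ k := by
    have h3 : (univ.filter (fun i : Fin (2 ^ k) => (W * (K + t i) + b).Prime)).card ≤ 2 ^ k := by
      refine (card_filter_le _ _).trans ?_
      rw [card_univ, Fintype.card_fin]
    have h4 : ((univ.filter (fun i : Fin (2 ^ k) => (W * (K + t i) + b).Prime)).card : ℝ) ≤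
        2 ^ k := by exact_mod_cast h3
    have : (0 : ℝ) ≤ m := Nat.cast_nonneg m
    linarith
  exact mul_le_mul hΛ hs2 hs.le hB0

open Classical in
/-- the number of the coloured primes -/
theorem few_P (W b N k c' Y K : ℕ) (ε₁ υ : ℝ) (hε : 0 < ε₁) (t : Fin (2 ^ k) → ℕ)
    (hN : ∀ i, t i ≤ N) (hW : 0 < W) (hc' : ((2 ^ k : ℕ) : ℝ) * (2 / ε₁) ≤ c')
    (e4 : W * (N + 1) + b + 3 ≤ Y) (hK : K ≤ Y) (hK1 : 1 ≤ K)
    (ξ : Pg Gi Y ε₁ υ → Option (Fin (2 ^ k)))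
    (hξ : ∀ s j, ξ s = some j ↔ ((s : ℕ) : ℤ) ∣ Gi ((W * (K + t j) + b : ℕ) : ℤ)) :
    (univ.filter (fun s => ξ s ≠ none)).card ≤ c' := by
  have hY2' : 2 ≤ Y := by omega
  have h3 : univ.filter (fun s => ξ s ≠ none) ⊆ univ.biUnion (fun i : Fin (2 ^ k) =>
      univ.filter (fun s : Pg Gi Y ε₁ υ => ((s : ℕ) : ℤ) ∣ Gi ((W * (K + t i) + b : ℕ) : ℤ))) := by
    intro s hs
    rw [mem_filter] at hs
    rw [mem_biUnion]
    rcases h4 : ξ s with _ | i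
    · exact absurd h4 hs.2
    · exact ⟨i, mem_univ i, mem_filter.2 ⟨mem_univ s, (hξ s i).1 h4⟩⟩
  have h4 := (card_le_card h3).trans card_biUnion_le
  have h5 : ∀ i : Fin (2 ^ k), ((univ.filter (fun s : Pg Gi Y ε₁ υ =>
      ((s : ℕ) : ℤ) ∣ Gi ((W * (K + t i) + b : ℕ) : ℤ))).card : ℝ) ≤ 2 / ε₁ := by
    intro i
    have h9 : 1 ≤ W * (K + t i) + b := by
      have : 1 ≤ W * (K + t i) := Nat.mul_pos hW (by omega)
      omega
    apply few_t Gi Y ε₁ υ hY2' hε _ (by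
      unfold Gi
      exact_mod_cast (by omega : W * (K + t i) + b ≠ 0))
    have h7 : W * (K + t i) + b ≤ Y ^ 2 := by
      have h8 : W * (K + t i) ≤ W * (Y + N) := Nat.mul_le_mul_left _ (by
        have := hN i
        omega)
      have h11 : (W * (N + 1) + b + 3) * Y ≤ Y * Y := Nat.mul_le_mul_right _ e4
      have h12 : (W * (N + 1) + b + 3) * Y = W * N * Y + W * Y + b * Y + 3 * Y := by ring
      have h13 : W * (Y + N) = W * Y + W * N := by ring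
      have h14 : W * N ≤ W * N * Y := Nat.le_mul_of_pos_right _ (by omega)
      have h15 : b ≤ b * Y := Nat.le_mul_of_pos_right _ (by omega)
      rw [sq]
      omega
    have h8 : ((Gi ((W * (K + t i) + b : ℕ) : ℤ)).natAbs : ℝ) ≤ (Y : ℝ) ^ 2 := by
      unfold Gi
      rw [Int.natAbs_natCast]
      exact_mod_cast h7
    refine h8.trans (le_of_eq ?_)
    norm_cast
  have h6 : (((univ.filter (fun s => ξ s ≠ none)).card : ℕ) : ℝ) ≤ c' := by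
    refine le_trans ?_ hc'
    calc (((univ.filter (fun s => ξ s ≠ none)).card : ℕ) : ℝ) ≤
        ∑ i : Fin (2 ^ k), ((univ.filter (fun s : Pg Gi Y ε₁ υ =>
          ((s : ℕ) : ℤ) ∣ Gi ((W * (K + t i) + b : ℕ) : ℤ))).card : ℝ) := by exact_mod_cast h4
      _ ≤ ∑ _i : Fin (2 ^ k), 2 / ε₁ := sum_le_sum fun i _ => h5 i
      _ = _ := by rw [sum_const, card_univ, Fintype.card_fin, nsmul_eq_mul]
  exact_mod_cast h6

end Pool.Agent.R498.MP
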