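import Pool.Agent.R498.MP.PA7

/-!
The core for slots with primes: one place.
-/

set_option autoImplicit false
set_option linter.unusedSectionVars false

namespace Pool.Agent.R498.MP

open Finset Filter
open Pool.Agent.R498.MT
open Pool.Agent.Y677.RSZ (rt Sys rhoT per_mod ev_log)
open Pool.Agent.TH423.SH (PS PIj)
open Pool.Agent.W23.DC
open Pool.Agent.Y882
open Pool.Agent.Y882.PX
open Pool.Agent.Y882.KW
open Pool.Agent.TH423.SH.PSUa (ee ee_nonneg)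

/-- comparison of the main terms -/
theorem X_up {S : Type} [Fintype S] [DecidableEq S] {m : ℕ} (N : Finset ℕ) (ν pr : ℕ → ℝ)
    (ξ : ℕ → S → Option (Fin m)) (r r' : S → Fin m → ℝ) (X X' E : ℝ) (l : S → ℝ) (R : ℝ)
    (hR : 0 ≤ R)
    (Rr : (S → Option (Fin m)) → ℝ) (hX : 0 ≤ X) (hX' : 0 ≤ X') (hE1 : E ≤ 1 / 8)
    (hν : ∀ n ∈ N, 0 ≤ ν n) (hpr : ∀ n, 0 ≤ pr n ∧ pr n ≤ 1)
    (h1 : Cnt N ν ξ r X E (fun T => lt l T ≤ 2 * R))
    (h2 : CntA N (fun n => ν n * pr n) ξ r' X' E Rr (fun T => lt l T ≤ 2 * R))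
    (hRr : Rr (fun _ => none) ≤ X / 8) : X' ≤ 2 * X := by
  have hl0 : lt l (fun _ : S => (none : Option (Fin m))) = 0 := by simp [lt]
  have g1 := h1 (fun _ => none) (by show lt l _ ≤ 2 * R; rw [hl0]; linarith)
  have g2 := h2 (fun _ => none) (by show lt l _ ≤ 2 * R; rw [hl0]; linarith)
  have hsub : ∀ n, MT.Sub (fun _ : S => (none : Option (Fin m))) (ξ n) := fun n t => Or.inl rfl
  have e1 : ∀ n, (if MT.Sub (fun _ : S => (none : Option (Fin m))) (ξ n) then (1 : ℝ) else 0) = 1 :=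
    fun n => if_pos (hsub n)
  simp_rw [e1] at g1 g2
  simp only [MT.rr, prod_const_one, mul_one] at g1 g2
  have h3 : ∑ n ∈ N, ν n * pr n ≤ ∑ n ∈ N, ν n := by
    apply sum_le_sum
    intro n hn
    exact mul_le_of_le_one_right (hν n hn) (hpr n).2
  rw [abs_le] at g1 g2
  have h4 : E * X ≤ 1 / 8 * X := mul_le_mul_of_nonneg_right hE1 hX
  have h5 : E * X' ≤ 1 / 8 * X' := mul_le_mul_of_nonneg_right hE1 hX'
  linarith [g1.1, g1.2, g2.1, g2.2]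

open Classical in
/-- the two sums at one place -/
theorem core1P (F : ℤ → ℤ) (g : ℕ) (hF : Sys g F)
    (m k W c' N b₀ Y b M L z : ℕ) (υ R ε₁ : ℝ) (hυ : ε₁ ≤ υ) (hR : 0 < R) (hW : 0 < W)
    (hk : 3 * ((m : ℝ) + 1) * 1474560 ≤ 1 / 4 * R * k) (hε : 0 < ε₁) (hε8 : ε₁ ≤ 1 / 8)
    (hεe : ε₁ ≤ e0 k 1 R) (hbE : 2 * (1 / 2 : ℝ) ^ b₀ ≤ ε₁ ^ (16 * (2 ^ k) ^ 2 + 1))
    (hc' : ((2 ^ k : ℕ) : ℝ) * (2 / ε₁) ≤ c') (t : Fin (2 ^ k) → ℕ) (hN : ∀ i, t i ≤ N)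
    (e4 : W * (N + 1) + b + 3 ≤ Y) (hMY : M + L ≤ Y)
    (hbW : ∀ p : ℕ, p.Prime → p ∣ W → ¬ (p : ℤ) ∣ F b) (hz2 : (Y : ℝ) ^ ε₁ ≤ z + 1)
    (hd : Dat (qs Gi Y ε₁ υ) (mus Gi Y ε₁ υ) (ls Gi Y ε₁ υ) ε₁ R υ (om k 1 ε₁))
    (hU : ∀ (K : ℕ) (s : Pg Gi Y ε₁ υ) i j, ((s : ℕ) : ℤ) ∣ Gi ((W * (K + t i) + b : ℕ) : ℤ) →
      ((s : ℕ) : ℤ) ∣ Gi ((W * (K + t j) + b : ℕ) : ℤ) → i = j)
    (hV0 : 0 < Vp F W b z t)
    (hcnt : Cnt (Ioc M (M + L)) (nuI F W b z t) (xi Gi W b t (fun s : Pg Gi Y ε₁ υ => (s : ℕ)))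
      (fun s _ => 1 / qs Gi Y ε₁ υ s) (L * Vp F W b z t) (2 * (1 / 2 : ℝ) ^ b₀)
      (fun T => lt (ls Gi Y ε₁ υ) T ≤ 2 * R))
    (hbig : (Y : ℝ) ^ υ ≤ ((W * M + b : ℕ) : ℝ)) (Xi : Fin (2 ^ k) → ℝ) (hXi0 : ∀ i, 0 ≤ Xi i)
    (hXi1 : ∀ i, 1 / 4 * ε₁ * (L * Vp F W b z t) ≤ Xi i)
    (Rr : Fin (2 ^ k) → (Pg Gi Y ε₁ υ → Option (Fin (2 ^ k))) → ℝ) (hRr : ∀ i T, 0 ≤ Rr i T)
    (hC2 : ∀ i, CntA (Ioc M (M + L))
      (fun K => nuI F W b z t K * (if (W * (K + t i) + b).Prime then 1 else 0))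
      (xi Gi W b t (fun s : Pg Gi Y ε₁ υ => (s : ℕ)))
      (fun s => rd (some i) (qs Gi Y ε₁ υ s) 0) (Xi i) (2 * (1 / 2 : ℝ) ^ b₀) (Rr i)
      (fun T => lt (ls Gi Y ε₁ υ) T ≤ 2 * R))
    (herr : ∀ i, ∑ T, 5 ^ nc T * Rr i T ≤ L * Vp F W b z t / (8 * 2 ^ k * Ab k ε₁)) :
    1 / (2 ^ k * (Ab k ε₁ * 2 ^ c') ^ 2) * (L * Vp F W b z t) ≤
      ((gp F Y ε₁ W b t m M L).card : ℝ) := by
  have hY2' : 2 ≤ Y := by omega
  have hξ : ∀ K (s : Pg Gi Y ε₁ υ) j,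
      xi Gi W b t (fun s : Pg Gi Y ε₁ υ => (s : ℕ)) K s = some j ↔
        ((s : ℕ) : ℤ) ∣ Gi ((W * (K + t j) + b : ℕ) : ℤ) :=
    fun K s j => xi_iff Gi W b t _ K s (hU K s) j
  obtain ⟨X, hXd⟩ : ∃ X : ℝ, X = (L : ℝ) * Vp F W b z t := ⟨_, rfl⟩
  have hX : 0 ≤ X := by rw [hXd]; positivity
  rw [← hXd] at hcnt hXi1 herr ⊢
  have hAb1 := Ab_one k ε₁ hε (by linarith)
  have hAb0 : 0 < Ab k ε₁ := by linarith
  have hp1 : (1 : ℝ) ≤ 2 ^ k := one_le_pow₀ (by norm_num)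
  have hE8 : 2 * (1 / 2 : ℝ) ^ b₀ ≤ 1 / 8 := by
    refine hbE.trans ((pow_le_of_le_one hε.le (by linarith) (by omega)).trans hε8)
  have hXi2 : ∀ i, Xi i ≤ 2 * X := by
    intro i
    apply X_up (Ioc M (M + L)) (nuI F W b z t)
      (fun K => if (W * (K + t i) + b).Prime then 1 else 0) _ _ _ X (Xi i)
      (2 * (1 / 2 : ℝ) ^ b₀) (ls Gi Y ε₁ υ) R hR.le (Rr i) hX (hXi0 i) hE8
      (fun K _ => by unfold nuI; split_ifs <;> norm_num)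
      (fun K => by split_ifs <;> norm_num) hcnt (hC2 i)
    have h1 : Rr i (fun _ => none) ≤ ∑ T, 5 ^ nc T * Rr i T := by
      have h2 := single_le_sum (f := fun T => 5 ^ nc T * Rr i T) (s := univ)
        (fun T _ => mul_nonneg (by positivity) (hRr i T))
        (mem_univ (fun _ : Pg Gi Y ε₁ υ => (none : Option (Fin (2 ^ k)))))
      have h3 : nc (fun _ : Pg Gi Y ε₁ υ => (none : Option (Fin (2 ^ k)))) = 0 := by simp [nc]
      simp only [h3, pow_zero, one_mul] at h2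
      exact h2
    refine h1.trans ((herr i).trans ?_)
    apply div_le_div_of_nonneg_left hX (by norm_num)
    nlinarith
  have hasm := asmP k R (1 / 4) hR (by norm_num) m hk ε₁ hε hεe υ
    (qs Gi Y ε₁ υ) (mus Gi Y ε₁ υ) (ls Gi Y ε₁ υ) hd
    (N := Ioc M (M + L)) (ν := nuI F W b z t)
    (ξ := xi Gi W b t (fun s : Pg Gi Y ε₁ υ => (s : ℕ))) (X := X)
    (E := 2 * (1 / 2 : ℝ) ^ b₀) hX (by positivity) hbE hcnt
    (fun K _ => by unfold nuI; split_ifs <;> norm_num)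
    (fun i K => if (W * (K + t i) + b).Prime then 1 else 0)
    (fun i K => by split_ifs <;> norm_num) Xi hXi0 hXi1 hXi2 Rr hRr hC2
    (fun K hK _ i hp s hs => by
      exfalso
      have h1 := (hξ K s i).1 hs
      have h2 : (W * (K + t i) + b).Prime := by
        by_contra h
        exact hp (if_neg h)
      have h5 : (s : ℕ) ∣ W * (K + t i) + b := by
        unfold Gi at h1
        exact Int.natCast_dvd_natCast.1 h1
      have h0 := Pg_mem Gi Y ε₁ υ hY2' s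
      have h6 := (Nat.prime_dvd_prime_iff_eq h0.1 h2).1 h5
      have h7 := h0.2.2.2.1
      have h8 := (tt_lt Y (s : ℕ) υ hY2' h0.1.pos).1 h7
      rw [h6] at h8
      have h9 := hbig.trans_lt' h8
      have h10 : W * (K + t i) + b < W * M + b := by exact_mod_cast h9
      rw [mem_Ioc] at hK
      have h11 : W * M ≤ W * (K + t i) := Nat.mul_le_mul_left _ (by omega)
      omega)
  have hIf : 1 ≤ If (mus Gi Y ε₁ υ) (ls Gi Y ε₁ υ) R k :=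
    one_le_pow₀ (I2_one hd hε hR k)
  have hB0 : 0 < (Ab k ε₁ * 2 ^ c') ^ 2 := by positivity
  have hup := sum_le_sum (s := Ioc M (M + L)) fun K hK =>
    pt_upP F g hF Y ε₁ ((Ab k ε₁ * 2 ^ c') ^ 2)
      (Lam none (qs Gi Y ε₁ υ) (mus Gi Y ε₁ υ) (yf (ls Gi Y ε₁ υ) R k)
        (xi Gi W b t (fun s : Pg Gi Y ε₁ υ => (s : ℕ)) K) ^ 2) W b z k m M L t hbW hz2 K
        hK (sq_nonneg _)
      (Lam_fin k 1 R hR ε₁ hε υ hυ (qs Gi Y ε₁ υ) (mus Gi Y ε₁ υ)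
        (ls Gi Y ε₁ υ) _ hd _ c' (few_P W b N k c' Y K ε₁ υ hε t hN hW hc' e4 (by
          rw [mem_Ioc] at hK
          omega) (by
          rw [mem_Ioc] at hK
          omega) _ (fun s j => hξ K s j)))
  have hsum : ∑ K ∈ Ioc M (M + L), (if K ∈ gp F Y ε₁ W b t m M L then
      (Ab k ε₁ * 2 ^ c') ^ 2 * 2 ^ k else 0) =
      (gp F Y ε₁ W b t m M L).card * ((Ab k ε₁ * 2 ^ c') ^ 2 * 2 ^ k) := by
    rw [← sum_filter, sum_const, nsmul_eq_mul]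
    congr 2
    congr 1
    ext K
    rw [mem_filter]
    constructor
    · exact fun h => h.2
    · intro h
      refine ⟨?_, h⟩
      unfold gp at h
      exact (mem_filter.1 h).1
  rw [hsum] at hup
  have herr2 : ∑ i : Fin (2 ^ k), Ab k ε₁ * ∑ U, 5 ^ nc U * Rr i U ≤ X / 8 := by
    calc ∑ i : Fin (2 ^ k), Ab k ε₁ * ∑ U, 5 ^ nc U * Rr i U ≤
        ∑ _i : Fin (2 ^ k), Ab k ε₁ * (X / (8 * 2 ^ k * Ab k ε₁)) :=
          sum_le_sum fun i _ => mul_le_mul_of_nonneg_left (herr i) hAb0.le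
      _ = X / 8 := by
          rw [sum_const, card_univ, Fintype.card_fin, nsmul_eq_mul]
          push_cast
          field_simp
  have h1 := hasm.trans (add_le_add hup herr2)
  have h2 : 2 * X ≤ 2 * (X * If (mus Gi Y ε₁ υ) (ls Gi Y ε₁ υ) R k) := by nlinarith
  rw [div_mul_eq_mul_div, div_le_iff₀ (by positivity), one_mul]
  calc X ≤ (gp F Y ε₁ W b t m M L).card * ((Ab k ε₁ * 2 ^ c') ^ 2 * 2 ^ k) := by linarith
    _ = _ := by ring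

end Pool.Agent.R498.MP
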