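import Pool.Agent.R498.MP.PA8
import Pool.Agent.W378.DC.MP

/-!
Mertens for the identity; the discarded primes.
-/

set_option autoImplicit false
set_option linter.unusedSectionVars false

namespace Pool.Agent.R498.MP

open Finset Filter
open Pool.Agent.R498.MT
open Pool.Agent.Y677.RSZ (rt Sys rhoT per_mod ev_log)
open Pool.Agent.Y852.RSZ (OmC)
open Pool.Agent.TH423.SH (PS PIj)
open Pool.Agent.W23.DC
open Pool.Agent.Y882
open Pool.Agent.Y882.PX
open Pool.Agent.Y882.KW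
open Pool.Agent.TH423.SH.PSUa (ee ee_nonneg)

theorem mer_Gi (ε₁ υ η : ℝ) (hε : 0 < ε₁) (hυ : υ ≤ 1) (hη : 0 < η) : ∃ Y0 : ℕ, ∀ Y : ℕ, Y0 ≤ Y →
      Mer (pr Y ε₁ υ) (tt Y) (fun p => (rt Gi p : ℝ) / p) ε₁ υ η := by
  classical
  obtain ⟨Y0, hY0⟩ := Pool.Agent.W378.DC.MP ε₁ (η / 2) hε (by linarith)
  have ev : ∀ᶠ Y : ℕ in atTop, 8 / η + 2 ≤ (Y : ℝ) ^ ε₁ :=
    ((tendsto_rpow_atTop hε).comp tendsto_natCast_atTop_atTop).eventually_ge_atTop _
  obtain ⟨Y1, hY1⟩ := eventually_atTop.1 (ev.and (eventually_ge_atTop 3))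
  refine ⟨max Y0 Y1, fun Y hY => ?_⟩
  have h := hY0 Y ((le_max_left _ _).trans hY)
  obtain ⟨h1, h3⟩ := hY1 Y ((le_max_right _ _).trans hY)
  intro a b ha hab hb
  have h2 := h a b ha hab (hb.trans hυ)
  have e0 : (pr Y ε₁ υ).filter (fun p => a ≤ tt Y p ∧ tt Y p < b) = pr Y a b := by
    ext p
    unfold pr
    rw [mem_filter, mem_filter, mem_filter]
    constructor
    · rintro ⟨⟨g1, g2, _, _⟩, g5, g6⟩
      exact ⟨g1, g2, g5, g6⟩
    · rintro ⟨g1, g2, g5, g6⟩
      exact ⟨⟨g1, g2, by linarith, by linarith⟩, g5, g6⟩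
  have hη8 : (0 : ℝ) < 8 / η := by positivity
  have hR0 : (0 : ℝ) < (Y : ℝ) ^ ε₁ := by linarith
  have hmem : ∀ p ∈ pr Y a b, p.Prime ∧ (Y : ℝ) ^ ε₁ ≤ p := by
    intro p hp
    rw [← e0, mem_filter] at hp
    have := pr_mem Y p ε₁ υ (by omega) hp.1
    exact ⟨this.1, this.2.1⟩
  rw [e0]
  have e1 : ∑ p ∈ pr Y a b, (rt Gi p : ℝ) / p = ∑ p ∈ pr Y a b, 1 / ((p : ℝ) - 1) -
      ∑ p ∈ pr Y a b, 1 / ((p : ℝ) * (p - 1)) := by
    rw [← sum_sub_distrib]
    refine sum_congr rfl fun p hp => ?_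
    have hp1 := (hmem p hp).1
    rw [Gi_rt p hp1]
    have h4 : (2 : ℝ) ≤ p := by exact_mod_cast hp1.two_le
    have h5 : (p : ℝ) - 1 ≠ 0 := by linarith
    have h6 : (p : ℝ) ≠ 0 := by linarith
    field_simp
    push_cast
    ring
  have e2 : 0 ≤ ∑ p ∈ pr Y a b, 1 / ((p : ℝ) * (p - 1)) := by
    apply sum_nonneg
    intro p hp
    have h4 : (2 : ℝ) ≤ p := by exact_mod_cast (hmem p hp).1.two_le
    have h5 : (0 : ℝ) < (p : ℝ) - 1 := by linarith
    positivity
  have e3 : ∑ p ∈ pr Y a b, 1 / ((p : ℝ) * (p - 1)) ≤ η / 2 := by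
    calc ∑ p ∈ pr Y a b, 1 / ((p : ℝ) * (p - 1)) ≤ ∑ p ∈ pr Y a b, 2 * (1 / (p : ℝ) ^ 2) := by
          apply sum_le_sum
          intro p hp
          have h4 : (2 : ℝ) ≤ p := by exact_mod_cast (hmem p hp).1.two_le
          rw [mul_one_div, div_le_div_iff₀ (by nlinarith) (by positivity)]
          nlinarith
      _ = 2 * ∑ p ∈ pr Y a b, 1 / (p : ℝ) ^ 2 := by rw [mul_sum]
      _ ≤ 2 * (2 / (Y : ℝ) ^ ε₁) := by
          apply mul_le_mul_of_nonneg_left _ (by norm_num)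
          exact Pool.Agent.Y882.MG.tail_sq _ _ (by linarith) (fun q hq => (hmem q hq).2)
      _ ≤ η / 2 := by
          rw [← mul_div_assoc, div_le_iff₀ hR0]
          have h4 : 8 / η * η = 8 := by field_simp
          have h5 : 8 / η * η ≤ (Y : ℝ) ^ ε₁ * η := mul_le_mul_of_nonneg_right (by linarith) hη.le
          linarith
  rw [e1]
  rw [abs_le] at h2 ⊢
  constructor <;> linarith [h2.1, h2.2]

open Classical in
theorem VpP_up (F : ℤ → ℤ) (W b β z : ℕ) {m : ℕ} (t : Fin m → ℕ) (Δ : ℕ) (hΔ : 1 ≤ Δ)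
    (hΔp : ∀ p : ℕ, p.Prime → ∀ j, ∀ c : ℕ, p ∣ W * c + β →
      (p : ℤ) ∣ F ((W * (c + t j) + b : ℕ) : ℤ) → p ∣ Δ)
    (hsm : ∀ p ∈ PS W z, rhoT F W b t p + 1 ≤ p) :
    0 ≤ VpP F W b β z t ∧ VpP F W b β z t ≤ Δ * Vp F W b z t := by
  have hfac : ∀ p ∈ PS W z, 0 ≤ 1 - ((OmP F W b β t p).card : ℝ) / ((p : ℝ) - 1) ∧
      1 - ((OmP F W b β t p).card : ℝ) / ((p : ℝ) - 1) ≤
        (if p ∣ Δ then (p : ℝ) else 1) * (1 - (rhoT F W b t p : ℝ) / p) ∧
      0 ≤ 1 - (rhoT F W b t p : ℝ) / p := by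
    intro p hp
    have h1 := hsm p hp
    unfold PS at hp
    rw [mem_filter] at hp
    have hp2 : (2 : ℝ) ≤ p := by exact_mod_cast hp.2.1.two_le
    have hp1 : (0 : ℝ) < (p : ℝ) - 1 := by linarith
    have hle : (OmP F W b β t p).card ≤ rhoT F W b t p := by
      unfold OmP rhoT OmC
      exact card_filter_le _ _
    have h2 : ((OmP F W b β t p).card : ℝ) ≤ rhoT F W b t p := by exact_mod_cast hle
    have h3 : (rhoT F W b t p : ℝ) + 1 ≤ p := by exact_mod_cast h1
    have h4 : (0 : ℝ) ≤ (OmP F W b β t p).card := Nat.cast_nonneg _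
    refine ⟨?_, ?_, ?_⟩
    · rw [sub_nonneg, div_le_one hp1]
      linarith
    · split_ifs with hd
      · have h5 : (1 : ℝ) - ((OmP F W b β t p).card : ℝ) / ((p : ℝ) - 1) ≤ 1 := by
          have : 0 ≤ ((OmP F W b β t p).card : ℝ) / ((p : ℝ) - 1) := by positivity
          linarith
        refine h5.trans ?_
        have h6 : (p : ℝ) * (1 - (rhoT F W b t p : ℝ) / p) = p - rhoT F W b t p := by
          field_simp
        rw [h6]
        linarith
      · rw [one_mul]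
        have h5 : (OmP F W b β t p).card = rhoT F W b t p := by
          have h6 : OmP F W b β t p = OmC F W b t p := by
            unfold OmP
            apply filter_true_of_mem
            intro c hc h7
            unfold OmC at hc
            rw [mem_filter] at hc
            obtain ⟨_, j, hj⟩ := hc
            exact hd (hΔp p hp.2.1 j c h7 hj)
          rw [h6]
          unfold OmC rhoT
          rfl
        rw [h5]
        have h7 : (rhoT F W b t p : ℝ) / p ≤ (rhoT F W b t p : ℝ) / ((p : ℝ) - 1) :=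
          div_le_div_of_nonneg_left (Nat.cast_nonneg _) hp1 (by linarith)
        linarith
    · rw [sub_nonneg, div_le_one (by linarith)]
      linarith
  constructor
  · exact prod_nonneg fun p hp => (hfac p hp).1
  · unfold VpP Vp
    refine (prod_le_prod (fun p hp => (hfac p hp).1) (fun p hp => (hfac p hp).2.1)).trans ?_
    rw [prod_mul_distrib]
    apply mul_le_mul_of_nonneg_right _ (prod_nonneg fun p hp => (hfac p hp).2.2)
    rw [← prod_filter]
    have h1 : ∏ p ∈ (PS W z).filter (fun p => p ∣ Δ), p ∣ Δ := by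
      apply Finset.prod_primes_dvd
      · intro p hp
        rw [mem_filter] at hp
        have := hp.1
        unfold PS at this
        rw [mem_filter] at this
        exact this.2.1.prime
      · intro p hp
        exact (mem_filter.1 hp).2
    have h2 := Nat.le_of_dvd (by omega) h1
    have h3 : ((∏ p ∈ (PS W z).filter (fun p => p ∣ Δ), p : ℕ) : ℝ) ≤ Δ := by exact_mod_cast h2
    push_cast at h3
    exact h3

/-- primes in a long interval, upper bound -/
theorem pi_up : ∃ Y₀ : ℕ, ∀ Y : ℕ, Y₀ ≤ Y → ∀ u v : ℕ, Y ≤ 2 * u → v ≤ 3 * Y →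
    8 * u + Y ≤ 8 * v → H343E.pi1 v - H343E.pi1 u ≤ 2 * ((v : ℝ) - u) / Real.log Y := by
  classical
  obtain ⟨x₀, h⟩ := Pool.Agent.TH423.SH.pai 1 le_rfl (1 / 2) (1 / 8) (by norm_num) (by norm_num)
  obtain ⟨Y₀, hY₀⟩ := exists_nat_ge (max x₀ 2)
  refine ⟨Y₀, fun Y hY u v h1 h2 h3 => ?_⟩
  have hYr : (Y₀ : ℝ) ≤ Y := by exact_mod_cast hY
  have h4 := h Y (((le_max_left _ _).trans hY₀).trans hYr) u v 0
    (by
      have : (Y : ℝ) ≤ 2 * u := by exact_mod_cast h1
      linarith)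
    (by exact_mod_cast h2)
    (by
      have : (8 * u + Y : ℝ) ≤ 8 * v := by exact_mod_cast h3
      linarith) (Nat.coprime_one_right 0)
  have hlog : 0 < Real.log Y := Real.log_pos (by
    have := ((le_max_right x₀ 2).trans hY₀).trans hYr
    linarith)
  have huv : (u : ℝ) ≤ v := by
    have : (8 * u + Y : ℝ) ≤ 8 * v := by exact_mod_cast h3
    have : (0 : ℝ) ≤ Y := Nat.cast_nonneg Y
    linarith
  have h5 : (((Ioc u v).filter (fun q => q.Prime ∧ q % 1 = 0 % 1)).card : ℝ) =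
      H343E.pi1 v - H343E.pi1 u := by
    unfold H343E.pi1
    rw [← Pool.Agent.TH423.SH.PSUa.cnt _ u v (by omega)]
    congr 2
    apply filter_congr
    intro q _
    simp [Nat.mod_one]
  rw [abs_le] at h4
  have h6 := h4.2
  rw [Nat.totient_one] at h6
  push_cast at h6
  rw [one_mul] at h6
  have h8 : 0 ≤ ((v : ℝ) - u) / Real.log Y := div_nonneg (by linarith) hlog.le
  rw [← h5, mul_div_assoc]
  have h7 : (((Ioc u v).filter (fun q => q.Prime ∧ q % 1 = 0 % 1)).card : ℝ) =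
      (((Ioc u v).filter (fun q => q.Prime ∧ q % 1 = 0 % 1)).card : ℝ) := rfl
  linarith

end Pool.Agent.R498.MP
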