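import Pool.Agent.R498.MP.PA11

/-!
Uniform versions: systems with periodicity and a bounded number of roots only.
-/

set_option autoImplicit false
set_option linter.unusedSectionVars false

namespace Pool.Agent.R498.MP

open Finset
open Pool.Agent.TH423.SH Pool.Agent.TH423.SH.FLIP
open Pool.Agent.Y677.RSZ (rt Sys rhoT per_mod)
open Pool.Agent.Y852.RSZ
open Pool.Agent.R498.MT (Vp)
open Pool.Agent.Y882.PX (V_low)

/-- periodicity modulo every prime, with at most `g` roots and not all classes -/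
structure SysW (g : ℕ) (F : ℤ → ℤ) : Prop where
  per : ∀ p : ℕ, p.Prime → ∀ n : ℤ, (p : ℤ) ∣ F (n + p) - F n
  root : ∀ p : ℕ, p.Prime → rt F p ≤ g ∧ rt F p < p

theorem card_OmC_leW {g : ℕ} {F : ℤ → ℤ} (hF : SysW g F) (W b : ℕ) {m : ℕ} (t : Fin m → ℕ) {p : ℕ}
    (hp : p.Prime) (hW : ¬ p ∣ W) : (OmC F W b t p).card ≤ g * m := by
  classical
  have h1 : OmC F W b t p ⊆ univ.biUnion (fun i : Fin m =>
      (range p).filter (fun r : ℕ => (p : ℤ) ∣ F ((W * (r + t i) + b : ℕ) : ℤ))) := by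
    intro r hr
    unfold OmC at hr
    rw [mem_filter] at hr
    obtain ⟨hr1, i, hi⟩ := hr
    rw [mem_biUnion]
    exact ⟨i, mem_univ i, mem_filter.2 ⟨hr1, hi⟩⟩
  refine (card_le_card h1).trans (card_biUnion_le.trans ?_)
  have h2 : ∀ i ∈ (univ : Finset (Fin m)),
      ((range p).filter (fun r : ℕ => (p : ℤ) ∣ F ((W * (r + t i) + b : ℕ) : ℤ))).card ≤ g :=
    fun i _ => (card_one_le hp (hF.per p hp) W b (t i) hW).trans (hF.root p hp).1
  calc ∑ i : Fin m, ((range p).filter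
        (fun r : ℕ => (p : ℤ) ∣ F ((W * (r + t i) + b : ℕ) : ℤ))).card
      ≤ ∑ _i : Fin m, g := sum_le_sum h2
    _ = g * m := by simp [mul_comm]


theorem mod_OmCW {g : ℕ} {F : ℤ → ℤ} (hF : SysW g F) (W b : ℕ) {m : ℕ} (t : Fin m → ℕ) {p : ℕ}
    (hp : p.Prime) (K : ℕ) :
    K % p ∉ OmC F W b t p ↔ ∀ i, ¬ (p : ℤ) ∣ F ((W * (K + t i) + b : ℕ) : ℤ) := by
  unfold OmC
  rw [mem_filter, mem_range]
  have h1 : K % p < p := Nat.mod_lt _ hp.pos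
  simp only [h1, true_and, not_exists]
  refine forall_congr' fun i => not_congr ?_
  have h2 : W * (K % p + t i) + b ≡ W * (K + t i) + b [MOD p] := by
    refine Nat.ModEq.add_right b ?_
    exact ((Nat.mod_modEq K p).add_right (t i)).mul_left W
  exact per_dvd (hF.per p hp) (Nat.modEq_iff_dvd.1 h2.symm)

theorem c1zW : ∃ C : ℕ, 1 ≤ C ∧ ∀ g m b₀ W : ℕ, C * (g * m + 1) ≤ b₀ → 1 ≤ W →
  (∀ p : ℕ, p.Prime → p ≤ C * (g * m + 1) → p ∣ W) → ∀ F : ℤ → ℤ, SysW g F →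
  ∀ (t : Fin m → ℕ) (b J z D a M L : ℕ), z ≤ 2 ^ 2 ^ J → 1 ≤ D → (∀ p ∈ PS W z, ¬ p ∣ D) →
  ∀ s : Finset ℕ, (∀ K, K ∈ s ↔ (K ∈ Ioc M (M + L) ∧ (K % D = a % D ∧
        ∀ p ∈ PS W z, ∀ i, ¬ (p : ℤ) ∣ F ((W * (K + t i) + b : ℕ) : ℤ)))) →
  |(s.card : ℝ) - (L : ℝ) / D * ∏ p ∈ PS W z, (1 - (rhoT F W b t p : ℝ) / p)| ≤
    (1 / 2 : ℝ) ^ b₀ * ((L : ℝ) / D * ∏ p ∈ PS W z, (1 - (rhoT F W b t p : ℝ) / p)) +
      ((2 : ℝ) ^ 2 ^ J) ^ (C * b₀) := by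
  classical
  obtain ⟨C0, hC0, hF⟩ := fll
  refine ⟨2 * C0 + 4, by omega, ?_⟩
  intro g m b W hb hW hWp F hSys t b' J z q a M L hzJ hq hPq
  set κ := g * m with hκ
  set P := PS W z with hP
  have hPmem0 : ∀ p ∈ P, ¬ p ∣ W := by
    intro p hp
    rw [hP, PS, mem_filter, mem_Icc] at hp
    exact hp.2.2
  have hPmem : ∀ p ∈ P, p.Prime ∧ (2 * C0 + 4) * (κ + 1) < p ∧ p ≤ 2 ^ 2 ^ J := by
    intro p hp
    rw [hP, PS, mem_filter, mem_Icc] at hp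
    refine ⟨hp.2.1, ?_, hp.1.2.trans hzJ⟩
    by_contra hcon
    exact hp.2.2 (hWp p hp.2.1 (not_lt.1 hcon))
  have hOm : ∀ p ∈ P, (OmC F W b' t p).card ≤ κ ∧ ∀ c ∈ OmC F W b' t p, c < p := by
    intro p hp
    refine ⟨card_OmC_leW hSys W b' t (hPmem p hp).1 (hPmem0 p hp), ?_⟩
    intro c hc
    unfold OmC at hc
    exact mem_range.1 (mem_filter.1 hc).1
  have hC : C0 * (κ + 1) ≤ (2 * C0 + 4) * (κ + 1) := Nat.mul_le_mul_right _ (by omega)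
  have hq' : (0 : ℝ) < q := by exact_mod_cast hq
  have hA : 0 ≤ (L : ℝ) / q := div_nonneg (Nat.cast_nonneg L) hq'.le
  have h1 := hF κ b J ((2 * C0 + 4) * (κ + 1)) P (fun p => 1 / (p : ℝ)) (OmC F W b' t)
    (hC.trans hb) hC hPmem (fun p hp => (hOm p hp).1)
    (by
      intro p hp
      have hp2 : (2 : ℝ) ≤ p := by exact_mod_cast (hPmem p hp).1.two_le
      refine ⟨by positivity, ?_⟩
      apply one_div_le_one_div_of_le (by linarith)
      linarith)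
    ((Ioc M (M + L)).filter (fun n => n % q = a % q)) (fun _ => 1) ((L : ℝ) / q) (fun _ => 1)
    (fun _ _ => zero_le_one) hA (fun _ => zero_le_one)
    (by
      intro T hT _ c hc
      obtain ⟨r, hr⟩ := crt_set q a c T (fun p hp => ⟨(hPmem p (hT hp)).1, hPq p (hT hp)⟩)
        (fun p hp => (hOm p (hT hp)).2 _ (hc p hp))
      rw [sum_const, nsmul_eq_mul, mul_one, filter_filter]
      have e1 : (Ioc M (M + L)).filter (fun n => n % q = a % q ∧ ∀ p ∈ T, n % p = c p) =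
          (Ioc M (M + L)).filter (fun n => n ≡ r [MOD q * ∏ p ∈ T, p]) :=
        filter_congr fun n _ => hr n
      have hpos : 0 < q * ∏ p ∈ T, p :=
        Nat.mul_pos hq (Finset.prod_pos fun p hp => (hPmem p (hT hp)).1.pos)
      have h2 := cnt_Ioc M (M + L) (q * ∏ p ∈ T, p) r (by omega) hpos
      rw [e1]
      have e2 : (((M + L : ℕ) : ℝ) - M) / ((q * ∏ p ∈ T, p : ℕ) : ℝ) =
          (L : ℝ) / q * ∏ p ∈ T, 1 / (p : ℝ) := by
        push_cast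
        rw [← div_div, div_eq_mul_inv _ (∏ p ∈ T, (p : ℝ)), ← prod_inv_distrib,
          show ((M : ℝ) + L - M) = L by ring]
        simp only [one_div]
      rw [e2] at h2
      exact h2)
  have e3 : ∏ p ∈ P, (1 - ((OmC F W b' t p).card : ℝ) * (1 / (p : ℝ))) =
      ∏ p ∈ P, (1 - (rhoT F W b' t p : ℝ) / p) := by
    apply prod_congr rfl
    intro p _
    rw [mul_one_div]
    unfold OmC rhoT
    rfl
  rw [e3, sum_const, nsmul_eq_mul, mul_one, filter_filter] at h1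
  have e4 : (Ioc M (M + L)).filter (fun n => n % q = a % q ∧ ∀ p ∈ P, n % p ∉ OmC F W b' t p) =
      (Ioc M (M + L)).filter (fun K => K % q = a % q ∧
        ∀ p ∈ P, ∀ i, ¬ (p : ℤ) ∣ F ((W * (K + t i) + b' : ℕ) : ℤ)) := by
    refine filter_congr fun n _ => ?_
    refine and_congr Iff.rfl ?_
    constructor
    · intro h p hp
      exact (mod_OmCW hSys W b' t (hPmem p hp).1 n).1 (h p hp)
    · intro h p hp
      exact (mod_OmCW hSys W b' t (hPmem p hp).1 n).2 (h p hp)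
  rw [e4] at h1
  set Y : ℕ := (2 ^ 2 ^ J) ^ (C0 * b) with hY
  suffices hs : ((J : ℝ) + 2) * ∑ T ∈ P.powerset.filter (fun T : Finset ℕ => ∏ p ∈ T, p ≤ Y),
      (κ : ℝ) ^ T.card * 1 ≤ ((2 : ℝ) ^ 2 ^ J) ^ ((2 * C0 + 4) * b) by
    have hgen : ∀ s : Finset ℕ, (∀ K, K ∈ s ↔ (K ∈ Ioc M (M + L) ∧ (K % q = a % q ∧
        ∀ p ∈ P, ∀ i, ¬ (p : ℤ) ∣ F ((W * (K + t i) + b' : ℕ) : ℤ)))) →
        |(s.card : ℝ) - (L : ℝ) / q * ∏ p ∈ P, (1 - (rhoT F W b' t p : ℝ) / p)| ≤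
          (1 / 2 : ℝ) ^ b * ((L : ℝ) / q * ∏ p ∈ P, (1 - (rhoT F W b' t p : ℝ) / p)) +
            ((2 : ℝ) ^ 2 ^ J) ^ ((2 * C0 + 4) * b) := by
      intro s hs'
      have e5 : s = (Ioc M (M + L)).filter (fun K => K % q = a % q ∧
          ∀ p ∈ P, ∀ i, ¬ (p : ℤ) ∣ F ((W * (K + t i) + b' : ℕ) : ℤ)) := by
        ext K
        rw [hs' K, mem_filter]
      rw [e5]
      exact h1.trans (add_le_add le_rfl hs)
    exact hgen
  have hterm : ∀ T ∈ P.powerset.filter (fun T : Finset ℕ => ∏ p ∈ T, p ≤ Y),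
      ((κ : ℝ) ^ T.card * 1) ≤ (Y : ℝ) := by
    intro T hT
    rw [mem_filter, mem_powerset] at hT
    rw [mul_one]
    have h2 : κ ^ T.card ≤ ∏ p ∈ T, p := by
      rw [← prod_const]
      apply prod_le_prod'
      intro p hp
      have h3 := (hPmem p (hT.1 hp)).2.1
      have h4 : κ + 1 ≤ (2 * C0 + 4) * (κ + 1) := Nat.le_mul_of_pos_left _ (by omega)
      omega
    exact_mod_cast h2.trans hT.2
  have hJ : (J : ℝ) + 2 ≤ ((2 : ℝ) ^ 2 ^ J) ^ 2 := by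
    have h2 : J + 2 ≤ (2 ^ 2 ^ J) ^ 2 := by
      have h3 : J < 2 ^ J := Nat.lt_two_pow_self
      have h4 : 2 ^ J < 2 ^ 2 ^ J := Nat.lt_two_pow_self
      have h5 : 2 ≤ 2 ^ 2 ^ J := by
        calc 2 = 2 ^ 1 := rfl
          _ ≤ 2 ^ 2 ^ J := Nat.pow_le_pow_right (by norm_num) (Nat.one_le_two_pow)
      nlinarith
    exact_mod_cast h2
  have hb4 : 4 ≤ 4 * b := by
    have : 1 ≤ (2 * C0 + 4) * (κ + 1) := Nat.mul_pos (by omega) (by omega)
    omega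
  have hone : (1 : ℝ) ≤ (2 : ℝ) ^ 2 ^ J := one_le_pow₀ (by norm_num)
  calc ((J : ℝ) + 2) * ∑ T ∈ P.powerset.filter (fun T : Finset ℕ => ∏ p ∈ T, p ≤ Y),
        (κ : ℝ) ^ T.card * 1
      ≤ ((J : ℝ) + 2) * ((Y : ℝ) ^ 2) := by
        apply mul_le_mul_of_nonneg_left _ (by positivity)
        calc ∑ T ∈ P.powerset.filter (fun T : Finset ℕ => ∏ p ∈ T, p ≤ Y), (κ : ℝ) ^ T.card * 1
            ≤ ∑ _T ∈ P.powerset.filter (fun T : Finset ℕ => ∏ p ∈ T, p ≤ Y), (Y : ℝ) :=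
              sum_le_sum hterm
          _ = ((P.powerset.filter (fun T : Finset ℕ => ∏ p ∈ T, p ≤ Y)).card : ℝ) * Y := by
              rw [sum_const, nsmul_eq_mul]
          _ ≤ (Y : ℝ) * Y := by
              apply mul_le_mul_of_nonneg_right _ (by positivity)
              exact_mod_cast Pool.Agent.TH423.SH.FLIP.card_le P (fun p hp => (hPmem p hp).1) Y
          _ = (Y : ℝ) ^ 2 := by ring
    _ ≤ ((2 : ℝ) ^ 2 ^ J) ^ 2 * (Y : ℝ) ^ 2 := by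
        apply mul_le_mul_of_nonneg_right hJ (by positivity)
    _ = ((2 : ℝ) ^ 2 ^ J) ^ (2 + 2 * (C0 * b)) := by
        rw [hY]
        push_cast
        rw [pow_add, mul_comm 2 (C0 * b), pow_mul _ (C0 * b) 2]
    _ ≤ ((2 : ℝ) ^ 2 ^ J) ^ ((2 * C0 + 4) * b) := by
        apply pow_le_pow_right₀ hone
        have : (2 * C0 + 4) * b = 2 * (C0 * b) + 4 * b := by ring
        omega



theorem Vp_lowW (g m : ℕ) : ∃ c : ℝ, 0 < c ∧ ∀ (F : ℤ → ℤ), SysW g F → ∀ (W b J z : ℕ)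
    (t : Fin m → ℕ), (∀ p : ℕ, p.Prime → p ≤ g * m + 1 → p ∣ W) → z < 2 ^ 2 ^ J →
    c * (1 / 2 ^ J) ^ (2 * (g * m)) ≤ Vp F W b z t := by
  obtain ⟨c, hc, H⟩ := V_low (g * m)
  refine ⟨c, hc, fun F hF W b J z t hW hz => ?_⟩
  have hr : ∀ p ∈ PS W z, p.Prime ∧ p ≤ z ∧ ¬ p ∣ W ∧ rhoT F W b t p ≤ g * m ∧ g * m + 1 < p := by
    intro p hp
    unfold PS at hp
    rw [mem_filter, mem_Icc] at hp
    obtain ⟨⟨h1, h2⟩, h3, h4⟩ := hp
    refine ⟨h3, h2, h4, ?_, ?_⟩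
    · have := Pool.Agent.Y833.RSZ.rhoT_le h3 (hF.per p h3) W b t h4
      refine this.trans ?_
      rw [mul_comm g m]
      exact Nat.mul_le_mul_left _ (hF.root p h3).1
    · by_contra hcon
      exact h4 (hW p h3 (not_lt.1 hcon))
  apply H J (PS W z) (fun p => (rhoT F W b t p : ℝ))
  · intro p hp
    obtain ⟨h1, h2, -, -, -⟩ := hr p hp
    exact ⟨h1, by omega⟩
  · intro p hp
    obtain ⟨-, -, -, h4, -⟩ := hr p hp
    exact_mod_cast h4
  · intro p hp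
    obtain ⟨-, -, -, h4, h5⟩ := hr p hp
    have h6 : rhoT F W b t p + 1 ≤ p := by omega
    have h7 : ((rhoT F W b t p : ℕ) : ℝ) + 1 ≤ p := by exact_mod_cast h6
    linarith


end Pool.Agent.R498.MP
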