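import Pool.Agent.R498.MP.PU3

/-!
The discarded primes, uniformly in the system.
-/

set_option autoImplicit false
set_option linter.unusedSectionVars false

namespace Pool.Agent.R498.MP

open Finset Filter
open Pool.Agent.R498.MT
open Pool.Agent.Y677.RSZ (rt Sys rhoT per_mod ev_log)
open Pool.Agent.Y852.RSZ (OmC)
open Pool.Agent.TH423.SH (PS PIj)
open Pool.Agent.W23.DC
open Pool.Agent.Y882
open Pool.Agent.Y882.PX
open Pool.Agent.Y882.KW
open Pool.Agent.TH423.SH.PSUa (ee ee_nonneg)

/-- a product over odd numbers -/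
theorem prod_odd (T : Finset ℕ) : (∀ p ∈ T, 3 ≤ p ∧ p % 2 = 1) →
    (∏ p ∈ T, (p : ℝ) / ((p : ℝ) - 1)) ^ 2 ≤ 2 * (T.card : ℝ) + 1 := by
  refine Finset.induction_on_max T ?_ ?_
  · intro _
    simp
  · intro a s has ih h
    have hs : ∀ p ∈ s, 3 ≤ p ∧ p % 2 = 1 := fun p hp => h p (mem_insert_of_mem hp)
    have ha := h a (mem_insert_self a s)
    have hnot : a ∉ s := fun h => lt_irrefl _ (has a h)
    rw [prod_insert hnot, card_insert_of_notMem hnot, mul_pow]
    have ih' := ih hs
    -- the size of `a`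
    have hcard : 2 * s.card + 3 ≤ a := by
      have h1 : s ⊆ (Finset.range (a / 2)).image (fun i => 2 * i + 1) \ {1} := by
        intro p hp
        have h2 := has p hp
        have h3 := hs p hp
        rw [Finset.mem_sdiff, mem_image, mem_singleton]
        refine ⟨⟨p / 2, ?_, ?_⟩, by omega⟩
        · rw [mem_range]
          omega
        · omega
      have h4 := card_le_card h1
      have h5 : ({1} : Finset ℕ) ⊆ (Finset.range (a / 2)).image (fun i => 2 * i + 1) := by
        rw [singleton_subset_iff, mem_image]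
        exact ⟨0, by rw [mem_range]; omega, rfl⟩
      rw [card_sdiff_of_subset h5, card_singleton] at h4
      have h6 := card_image_le (s := Finset.range (a / 2)) (f := fun i => 2 * i + 1)
      rw [card_range] at h6
      omega
    obtain ⟨n, hn⟩ : ∃ n : ℝ, n = (s.card : ℝ) := ⟨_, rfl⟩
    have hn0 : 0 ≤ n := by rw [hn]; positivity
    have har : 2 * n + 3 ≤ (a : ℝ) := by
      rw [hn]
      exact_mod_cast hcard
    rw [← hn] at ih'
    have ha1 : (0 : ℝ) < (a : ℝ) - 1 := by linarith
    have h7 : (a : ℝ) / ((a : ℝ) - 1) ≤ (2 * n + 3) / (2 * n + 2) := by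
      rw [div_le_div_iff₀ ha1 (by linarith)]
      nlinarith
    have h8 : 0 ≤ (a : ℝ) / ((a : ℝ) - 1) := by
      apply div_nonneg <;> linarith
    have h9 : ((a : ℝ) / ((a : ℝ) - 1)) ^ 2 ≤ ((2 * n + 3) / (2 * n + 2)) ^ 2 :=
      pow_le_pow_left₀ h8 h7 2
    have h10 : ((2 * n + 3) / (2 * n + 2)) ^ 2 * (2 * n + 1) ≤ 2 * n + 3 := by
      rw [div_pow, div_mul_eq_mul_div, div_le_iff₀ (by positivity)]
      nlinarith [sq_nonneg n]
    calc ((a : ℝ) / ((a : ℝ) - 1)) ^ 2 * (∏ p ∈ s, (p : ℝ) / ((p : ℝ) - 1)) ^ 2 ≤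
          ((2 * n + 3) / (2 * n + 2)) ^ 2 * (2 * n + 1) :=
          mul_le_mul h9 ih' (sq_nonneg _) (by positivity)
      _ ≤ 2 * n + 3 := h10
      _ = 2 * ((s.card + 1 : ℕ) : ℝ) + 1 := by
          rw [hn]
          push_cast
          ring

theorem card_OmC_pred (F : ℤ → ℤ) (W b β : ℕ) {m : ℕ} (t : Fin m → ℕ) (p : ℕ) (hp : p.Prime)
    (hW : ¬ p ∣ W) : rhoT F W b t p ≤ (OmP F W b β t p).card + 1 := by
  classical
  have h1 : (OmC F W b t p).card = rhoT F W b t p := by
    unfold OmC rhoT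
    rfl
  rw [← h1]
  have h2 : (OmC F W b t p).card = (OmP F W b β t p).card +
      ((OmC F W b t p).filter (fun c => p ∣ W * c + β)).card := by
    unfold OmP
    rw [← Finset.card_filter_add_card_filter_not (s := OmC F W b t p) (fun c => ¬ p ∣ W * c + β)]
    congr 2
    apply filter_congr
    intro c _
    rw [not_not]
  have h3 : ((OmC F W b t p).filter (fun c => p ∣ W * c + β)).card ≤ 1 := by
    rw [card_le_one]
    intro c hc c' hc'
    rw [mem_filter] at hc hc'
    have g1 : c < p := by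
      have := hc.1
      unfold OmC at this
      exact mem_range.1 (mem_filter.1 this).1
    have g2 : c' < p := by
      have := hc'.1
      unfold OmC at this
      exact mem_range.1 (mem_filter.1 this).1
    have h4 : W * c ≡ W * c' [MOD p] := by
      apply Nat.ModEq.add_right_cancel' β
      exact ((Nat.modEq_zero_iff_dvd).2 hc.2).trans ((Nat.modEq_zero_iff_dvd).2 hc'.2).symm
    have h5 : c ≡ c' [MOD p] := by
      apply Nat.ModEq.cancel_left_of_coprime _ h4
      exact (Nat.Prime.coprime_iff_not_dvd hp).2 hW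
    exact Nat.ModEq.eq_of_lt_of_lt h5 g1 g2
  omega

theorem VpP_upW (F : ℤ → ℤ) (W b β z : ℕ) {m : ℕ} (t : Fin m → ℕ) (Δ : ℕ) (hΔ : 1 ≤ Δ)
    (hW2 : 2 ∣ W)
    (hΔp : ∀ p : ℕ, p.Prime → ∀ j, ∀ c : ℕ, p ∣ W * c + β →
      (p : ℤ) ∣ F ((W * (c + t j) + b : ℕ) : ℤ) → p ∣ Δ)
    (hsm : ∀ p ∈ PS W z, rhoT F W b t p + 1 ≤ p) :
    0 ≤ VpP F W b β z t ∧
      VpP F W b β z t ≤ Real.sqrt (2 * Real.logb 2 Δ + 1) * Vp F W b z t := by
  have hfac : ∀ p ∈ PS W z, 0 ≤ 1 - ((OmP F W b β t p).card : ℝ) / ((p : ℝ) - 1) ∧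
      1 - ((OmP F W b β t p).card : ℝ) / ((p : ℝ) - 1) ≤
        (if p ∣ Δ then (p : ℝ) / ((p : ℝ) - 1) else 1) * (1 - (rhoT F W b t p : ℝ) / p) ∧
      0 ≤ 1 - (rhoT F W b t p : ℝ) / p := by
    intro p hp
    have h1 := hsm p hp
    unfold PS at hp
    rw [mem_filter] at hp
    have hp2 : (2 : ℝ) ≤ p := by exact_mod_cast hp.2.1.two_le
    have hp1 : (0 : ℝ) < (p : ℝ) - 1 := by linarith
    have hle : (OmP F W b β t p).card ≤ rhoT F W b t p := by
      unfold OmP rhoT OmC
      exact card_filter_le _ _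
    have h2 : ((OmP F W b β t p).card : ℝ) ≤ rhoT F W b t p := by exact_mod_cast hle
    have h3 : (rhoT F W b t p : ℝ) + 1 ≤ p := by exact_mod_cast h1
    have h4 : (0 : ℝ) ≤ (OmP F W b β t p).card := Nat.cast_nonneg _
    refine ⟨?_, ?_, ?_⟩
    · rw [sub_nonneg, div_le_one hp1]
      linarith
    · split_ifs with hd
      · have h5 := card_OmC_pred F W b β t p hp.2.1 hp.2.2
        have h6 : (rhoT F W b t p : ℝ) ≤ (OmP F W b β t p).card + 1 := by exact_mod_cast h5
        have h7 : (p : ℝ) / ((p : ℝ) - 1) * (1 - (rhoT F W b t p : ℝ) / p) =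
            (p - rhoT F W b t p) / ((p : ℝ) - 1) := by
          field_simp
        have h8 : 1 - ((OmP F W b β t p).card : ℝ) / ((p : ℝ) - 1) =
            ((p : ℝ) - 1 - (OmP F W b β t p).card) / ((p : ℝ) - 1) := by
          field_simp
        rw [h7, h8]
        apply div_le_div_of_nonneg_right _ hp1.le
        linarith
      · rw [one_mul]
        have h5 : (OmP F W b β t p).card = rhoT F W b t p := by
          have h6 : OmP F W b β t p = OmC F W b t p := by
            unfold OmP
            apply filter_true_of_mem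
            intro c hc h7
            unfold OmC at hc
            rw [mem_filter] at hc
            obtain ⟨_, j, hj⟩ := hc
            exact hd (hΔp p hp.2.1 j c h7 hj)
          rw [h6]
          unfold OmC rhoT
          rfl
        rw [h5]
        have h7 : (rhoT F W b t p : ℝ) / p ≤ (rhoT F W b t p : ℝ) / ((p : ℝ) - 1) :=
          div_le_div_of_nonneg_left (Nat.cast_nonneg _) hp1 (by linarith)
        linarith
    · rw [sub_nonneg, div_le_one (by linarith)]
      linarith
  constructor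
  · exact prod_nonneg fun p hp => (hfac p hp).1
  · unfold VpP Vp
    refine (prod_le_prod (fun p hp => (hfac p hp).1) (fun p hp => (hfac p hp).2.1)).trans ?_
    rw [prod_mul_distrib]
    apply mul_le_mul_of_nonneg_right _ (prod_nonneg fun p hp => (hfac p hp).2.2)
    rw [← prod_filter]
    obtain ⟨T, hT⟩ : ∃ T, T = (PS W z).filter (fun p => p ∣ Δ) := ⟨_, rfl⟩
    rw [← hT]
    have hTm : ∀ p ∈ T, p.Prime ∧ ¬ p ∣ W ∧ p ∣ Δ := by
      intro p hp
      rw [hT, mem_filter] at hp
      have := hp.1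
      unfold PS at this
      rw [mem_filter] at this
      exact ⟨this.2.1, this.2.2, hp.2⟩
    have h1 : ∏ p ∈ T, p ∣ Δ := by
      apply Finset.prod_primes_dvd
      · intro p hp
        exact (hTm p hp).1.prime
      · intro p hp
        exact (hTm p hp).2.2
    have h2 := Nat.le_of_dvd (by omega) h1
    have h3 : 2 ^ T.card ≤ ∏ p ∈ T, p := by
      rw [← prod_const]
      exact prod_le_prod' fun p hp => (hTm p hp).1.two_le
    have h4 : (2 : ℝ) ^ T.card ≤ Δ := by exact_mod_cast h3.trans h2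
    have h5 : (T.card : ℝ) ≤ Real.logb 2 Δ := by
      rw [Real.le_logb_iff_rpow_le (by norm_num) (by exact_mod_cast hΔ)]
      rw [Real.rpow_natCast]
      exact h4
    have h6 := prod_odd T (fun p hp => by
      obtain ⟨g1, g2, -⟩ := hTm p hp
      have g3 : p ≠ 2 := fun h => g2 (h ▸ hW2)
      have g4 := g1.two_le
      have g5 := g1.eq_one_or_self_of_dvd 2
      refine ⟨by omega, ?_⟩
      rcases Nat.mod_two_eq_zero_or_one p with h | h
      · have := g5 (Nat.dvd_of_mod_eq_zero h)
        omega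
      · exact h)
    apply Real.le_sqrt_of_sq_le
    linarith

end Pool.Agent.R498.MP
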