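import Pool.Agent.R498.MP.PU4

/-!
The discarded primes, uniformly in the system.
-/

set_option autoImplicit false
set_option linter.unusedSectionVars false

namespace Pool.Agent.R498.MP

open Finset Filter
open Pool.Agent.R498.MT
open Pool.Agent.Y677.RSZ (rt Sys rhoT per_mod ev_log)
open Pool.Agent.Y852.RSZ (OmC)
open Pool.Agent.TH423.SH (PS PIj)
open Pool.Agent.W23.DC
open Pool.Agent.Y882
open Pool.Agent.Y882.PX
open Pool.Agent.Y882.KW
open Pool.Agent.TH423.SH.PSUa (ee ee_nonneg)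

/-- the count of the primes, for weak systems -/
def CPstW (C : ℕ) : Prop := ∀ g m b₀ W : ℕ, C * (g * m + 1) ≤ b₀ → 1 ≤ W →
  (∀ p : ℕ, p.Prime → p ≤ C * (g * m + 1) → p ∣ W) → ∀ F : ℤ → ℤ, SysW g F →
  ∀ (t : Fin m → ℕ) (b J z D a M L β : ℕ), z ≤ 2 ^ 2 ^ J → 1 ≤ D → (∀ p ∈ PS W z, ¬ p ∣ D) →
  D.Coprime W → β.Coprime W → (W * a + β).Coprime D → z < W * M + β →
  ∀ s : Finset ℕ, (∀ K, K ∈ s ↔ (K ∈ Ioc M (M + L) ∧ (K % D = a % D ∧ (W * K + β).Prime ∧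
        ∀ p ∈ PS W z, ∀ i, ¬ (p : ℤ) ∣ F ((W * (K + t i) + b : ℕ) : ℤ)))) →
  |(s.card : ℝ) - (H343E.pi1 (W * (M + L) + β) - H343E.pi1 (W * M + β)) /
      ((Nat.totient W : ℝ) * Nat.totient D) * VpP F W b β z t| ≤
    (1 / 2 : ℝ) ^ b₀ * ((H343E.pi1 (W * (M + L) + β) - H343E.pi1 (W * M + β)) /
      ((Nat.totient W : ℝ) * Nat.totient D) * VpP F W b β z t) +
      erP (g * m) C b₀ W J z D (W * M + β) (W * (M + L) + β)

theorem cPW' : ∃ C : ℕ, 1 ≤ C ∧ CPstW C := cPW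

/-- numerical conditions for the discarded primes -/
theorem numsD (W n A β : ℕ) (η : ℝ) (hη : 0 < η) : ∀ᶠ Y : ℕ in atTop,
    4 * W * Real.sqrt (2 * (2 * (A * n) * Real.log Y) + 1) + 8 * W ≤ η * Real.log Y ∧
      (2 : ℝ) ≤ (Y : ℝ) ^ (1 / 2 : ℝ) ∧ β + 3 ≤ Y := by
  obtain ⟨Q, hQ⟩ : ∃ Q : ℝ, Q = 4 * (A * n) + 1 := ⟨_, rfl⟩
  have hQ0 : 0 ≤ Q := by rw [hQ]; positivity
  have v1 : ∀ᶠ Y : ℕ in atTop, max 1 (((4 * W * Real.sqrt Q + 8 * W) / η) ^ 2) ≤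
      Real.log (Y : ℝ) :=
    (Real.tendsto_log_atTop.comp tendsto_natCast_atTop_atTop).eventually_ge_atTop _
  have v2 : ∀ᶠ Y : ℕ in atTop, (2 : ℝ) ≤ (Y : ℝ) ^ (1 / 2 : ℝ) :=
    ((tendsto_rpow_atTop (by norm_num)).comp tendsto_natCast_atTop_atTop).eventually_ge_atTop _
  filter_upwards [v1, v2, eventually_ge_atTop (β + 3)] with Y e1 e2 e3
  refine ⟨?_, e2, e3⟩
  have e4 := (le_max_left _ _).trans e1
  have e5 := (le_max_right _ _).trans e1
  obtain ⟨u, hu⟩ : ∃ u : ℝ, u = Real.sqrt (Real.log Y) := ⟨_, rfl⟩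
  have hu0 : 0 ≤ u := by rw [hu]; exact Real.sqrt_nonneg _
  have huu : u * u = Real.log Y := by
    rw [hu]
    exact Real.mul_self_sqrt (by linarith)
  have hu1 : 1 ≤ u := by
    rw [hu]
    exact Real.one_le_sqrt.2 e4
  have hu2 : (4 * W * Real.sqrt Q + 8 * W) / η ≤ u := by
    rw [hu]
    exact Real.le_sqrt_of_sq_le e5
  have h1 : Real.sqrt (2 * (2 * (A * n) * Real.log Y) + 1) ≤ Real.sqrt Q * u := by
    rw [hu, ← Real.sqrt_mul hQ0]
    apply Real.sqrt_le_sqrt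
    rw [hQ]
    nlinarith
  have h2 : 4 * W * Real.sqrt (2 * (2 * (A * n) * Real.log Y) + 1) + 8 * W ≤
      (4 * W * Real.sqrt Q + 8 * W) * u := by
    have h3 : (0 : ℝ) ≤ 4 * W := by positivity
    have h4 := mul_le_mul_of_nonneg_left h1 h3
    have h5 : (8 * W : ℝ) ≤ 8 * W * u := by
      have : (0 : ℝ) ≤ 8 * W := by positivity
      nlinarith
    nlinarith
  have h6 : 4 * W * Real.sqrt Q + 8 * W ≤ η * u := by
    rw [div_le_iff₀ hη] at hu2
    linarith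
  have h7 := mul_le_mul_of_nonneg_right h6 hu0
  rw [mul_assoc η, huu] at h7
  linarith

open Classical in
/-- **The discarded primes, uniformly.** -/
theorem discW (C : ℕ) (hC1 : 1 ≤ C) (hC : CPstW C) (g n b₀ W a : ℕ) (hb : C * (g * n + 1) ≤ b₀)
    (hW : 1 ≤ W) (hW2 : 2 ∣ W) (hWp : ∀ p : ℕ, p.Prime → p ≤ C * (g * n + 1) → p ∣ W)
    (t : Fin n → ℕ) (b β : ℕ) (ε₁ : ℝ)
    (hε : 0 < ε₁) (hεb : 2 * ε₁ * (C * b₀) ≤ 1 / 12) (η : ℝ) (hη : 0 < η) (A : ℕ) :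
    ∃ Y₀ : ℕ, ∀ F : ℤ → ℤ, SysW g F → ∀ Y : ℕ, Y₀ ≤ Y →
      (∀ j, F (((W * t j + b : ℕ) : ℤ) - (β : ℤ)) ≠ 0 ∧
        (F (((W * t j + b : ℕ) : ℤ) - (β : ℤ))).natAbs ≤ Y ^ A) →
      ∀ M L z : ℕ, Win W Y M L → (z : ℝ) < (Y : ℝ) ^ ε₁ →
      0 < Vp F W b z t → 1 ≤ Real.log Y ^ a * Vp F W b z t → ∀ s : Finset ℕ,
      (∀ K ∈ s, K ∈ Ioc M (M + L) ∧ (W * K + β).Prime ∧
        ∀ p ∈ PS W z, ∀ i, ¬ (p : ℤ) ∣ F ((W * (K + t i) + b : ℕ) : ℤ)) →
      (s.card : ℝ) ≤ η * (L * Vp F W b z t) := by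
  have hb1 : 1 ≤ b₀ := by
    have : 1 ≤ C * (g * n + 1) := Nat.mul_pos hC1 (by omega)
    omega
  have hCb : 1 ≤ C * b₀ := Nat.mul_pos hC1 hb1
  have hCbr : (1 : ℝ) ≤ (C : ℝ) * b₀ := by exact_mod_cast hCb
  have hε24 : ε₁ ≤ 1 / 24 := by nlinarith
  obtain ⟨Y1, hY1⟩ := pi_up
  obtain ⟨Y2, hY2⟩ := exJ ε₁ hε
  obtain ⟨Y3, hY3⟩ := err_slot W (g * n) (g * n + 5) C b₀ 1 (a + 1) hW (by omega) (by omega)
    (by omega) hCb ε₁ (1 / 8) 0 le_rfl hεb (by norm_num)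
  obtain ⟨Y4, hY4⟩ := eventually_atTop.1 (numsD W n A β η hη)
  refine ⟨max (max Y1 Y2) (max Y3 Y4), ?_⟩
  intro F hF Y hY hβ M L z hwin hz hV0 hV1 s hs
  -- the primes with a common value
  set Δ : ℕ := ∏ j, (F (((W * t j + b : ℕ) : ℤ) - (β : ℤ))).natAbs with hΔ
  have hΔ1 : 1 ≤ Δ := by
    rw [hΔ]
    exact Finset.prod_pos fun j _ => Int.natAbs_pos.2 (hβ j).1
  have hΔp : ∀ p : ℕ, p.Prime → ∀ j, ∀ c : ℕ, p ∣ W * c + β →
      (p : ℤ) ∣ F ((W * (c + t j) + b : ℕ) : ℤ) → p ∣ Δ := by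
    intro p hp j c h1 h2
    have h3 : (p : ℤ) ∣ F (((W * t j + b : ℕ) : ℤ) - (β : ℤ)) := by
      refine (Pool.Agent.Y852.RSZ.per_dvd (hF.per p hp) ?_).1 h2
      have e : ((W * (c + t j) + b : ℕ) : ℤ) - (((W * t j + b : ℕ) : ℤ) - (β : ℤ)) =
          ((W * c + β : ℕ) : ℤ) := by
        push_cast
        ring
      rw [e]
      exact Int.natCast_dvd_natCast.2 h1
    rw [hΔ]
    exact (Int.natCast_dvd.1 h3).trans (dvd_prod_of_mem _ (mem_univ j))
  have hY1' := hY1 Y (((le_max_left _ _).trans (le_max_left _ _)).trans hY)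
  obtain ⟨J, hJ1, hJ2⟩ := hY2 Y (((le_max_right _ _).trans (le_max_left _ _)).trans hY)
  have hY3' := hY3 Y (((le_max_left _ _).trans (le_max_right _ _)).trans hY)
  obtain ⟨e1, e2, e3⟩ := hY4 Y (((le_max_right _ _).trans (le_max_right _ _)).trans hY)
  obtain ⟨w1, w2, w3, w4, w5⟩ := hwin
  have hYr : (3 : ℝ) ≤ Y := by exact_mod_cast (by omega : 3 ≤ Y)
  have hY0 : (0 : ℝ) < Y := by linarith
  have hYone : (1 : ℝ) ≤ Y := by linarith
  have hlY : 0 < Real.log Y := Real.log_pos (by linarith)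
  have hWr : (1 : ℝ) ≤ W := by exact_mod_cast hW
  obtain ⟨X, hX⟩ : ∃ X : ℝ, X = (L : ℝ) * Vp F W b z t := ⟨_, rfl⟩
  have hX0 : 0 ≤ X := by rw [hX]; positivity
  rw [← hX]
  by_cases hco : β.Coprime W
  swap
  · -- no primes
    have hemp : s = ∅ := by
      rw [eq_empty_iff_forall_notMem]
      intro K hK
      obtain ⟨h1, h2, -⟩ := hs K hK
      rw [mem_Ioc] at h1
      obtain ⟨p, hp, hpd⟩ := Nat.Prime.not_coprime_iff_dvd.1 hco
      have h3 : p ∣ W * K + β := (hpd.2.mul_right K).add hpd.1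
      have h4 := (Nat.prime_dvd_prime_iff_eq hp h2).1 h3
      have h5 := Nat.le_of_dvd hW hpd.2
      have h6 : W * (M + 1) ≤ W * K := Nat.mul_le_mul_left _ (by omega)
      have h7 : W * (M + 1) = W * M + W := by ring
      omega
    rw [hemp, card_empty]
    push_cast
    positivity
  -- the count
  have hzJ : z ≤ 2 ^ 2 ^ J := by
    have : (z : ℝ) < 2 ^ 2 ^ J := hz.trans_le hJ1
    have h2 : z < 2 ^ 2 ^ J := by exact_mod_cast this
    exact h2.le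
  have hzM : z < W * M + β := by
    have h1 : (Y : ℝ) ^ ε₁ ≤ (Y : ℝ) ^ (1 / 2 : ℝ) :=
      Real.rpow_le_rpow_of_exponent_le hYone (by linarith)
    have h2 : (Y : ℝ) = (Y : ℝ) ^ (1 / 2 : ℝ) * (Y : ℝ) ^ (1 / 2 : ℝ) := by
      rw [← Real.rpow_add hY0]
      norm_num
    have h3 : 2 * (Y : ℝ) ^ (1 / 2 : ℝ) ≤ Y := by nlinarith
    have h4 : (Y : ℝ) ≤ 2 * (W * M : ℕ) := by exact_mod_cast w1
    have h5 : (z : ℝ) < ((W * M : ℕ) : ℝ) := by linarith
    have h6 : z < W * M := by exact_mod_cast h5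
    omega
  have hcnt := hC g n b₀ W hb hW hWp F hF t b J z 1 0 M L β hzJ le_rfl
    (fun p hp h => by
      unfold PS at hp
      rw [mem_filter] at hp
      exact hp.2.1.one_lt.ne' (Nat.dvd_one.1 h)) (Nat.coprime_one_left W) hco
    (Nat.coprime_one_right _) hzM
    ((Ioc M (M + L)).filter (fun K => K % 1 = 0 % 1 ∧ (W * K + β).Prime ∧
        ∀ p ∈ PS W z, ∀ i, ¬ (p : ℤ) ∣ F ((W * (K + t i) + b : ℕ) : ℤ)))
    (fun K => by rw [mem_filter])
  have hsub : s ⊆ (Ioc M (M + L)).filter (fun K => K % 1 = 0 % 1 ∧ (W * K + β).Prime ∧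
        ∀ p ∈ PS W z, ∀ i, ¬ (p : ℤ) ∣ F ((W * (K + t i) + b : ℕ) : ℤ)) := by
    intro K hK
    obtain ⟨h1, h2, h3⟩ := hs K hK
    rw [mem_filter]
    exact ⟨h1, by simp [Nat.mod_one], h2, h3⟩
  have hcard : (s.card : ℝ) ≤ (((Ioc M (M + L)).filter (fun K => K % 1 = 0 % 1 ∧
      (W * K + β).Prime ∧
      ∀ p ∈ PS W z, ∀ i, ¬ (p : ℤ) ∣ F ((W * (K + t i) + b : ℕ) : ℤ))).card : ℝ) := by
    exact_mod_cast card_le_card hsub
  have hπ := hY1' (W * M + β) (W * (M + L) + β) (by omega) (by omega) (by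
    have : W * (M + L) = W * M + W * L := by ring
    omega)
  have hxx : (((W * (M + L) + β : ℕ) : ℝ) - ((W * M + β : ℕ) : ℝ)) = W * L := by
    push_cast
    ring
  rw [hxx] at hπ
  have hπ0 : 0 ≤ H343E.pi1 (W * (M + L) + β) - H343E.pi1 (W * M + β) := by
    unfold H343E.pi1
    rw [← Pool.Agent.TH423.SH.PSUa.cnt _ (W * M + β) (W * (M + L) + β) (by
      have : W * M ≤ W * (M + L) := Nat.mul_le_mul_left _ (by omega)
      omega)]
    exact Nat.cast_nonneg _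
  have hsm : ∀ p ∈ PS W z, rhoT F W b t p + 1 ≤ p := by
    intro p hp
    unfold PS at hp
    rw [mem_filter] at hp
    have h1 := Pool.Agent.Y833.RSZ.rhoT_le hp.2.1 (hF.per p hp.2.1) W b t hp.2.2
    have h2 : n * rt F p ≤ n * g := Nat.mul_le_mul_left _ (hF.root p hp.2.1).1
    have h3 : g * n + 1 < p := by
      by_contra hcon
      apply hp.2.2
      apply hWp p hp.2.1
      have h4 : g * n + 1 ≤ C * (g * n + 1) := Nat.le_mul_of_pos_left _ hC1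
      omega
    have h4 : n * g = g * n := mul_comm _ _
    omega
  obtain ⟨v1, v2'⟩ := VpP_upW F W b β z t Δ hΔ1 hW2 hΔp hsm
  obtain ⟨Q, hQ⟩ : ∃ Q : ℝ, Q = Real.sqrt (2 * (2 * (A * n) * Real.log Y) + 1) := ⟨_, rfl⟩
  have hQ0 : 0 ≤ Q := by rw [hQ]; exact Real.sqrt_nonneg _
  have hΔY : Δ ≤ Y ^ (A * n) := by
    rw [hΔ, pow_mul]
    calc ∏ j, (F (((W * t j + b : ℕ) : ℤ) - (β : ℤ))).natAbs ≤ ∏ _j : Fin n, Y ^ A :=
          prod_le_prod' fun j _ => (hβ j).2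
      _ = (Y ^ A) ^ n := by rw [prod_const, card_univ, Fintype.card_fin]
  have hQle : Real.sqrt (2 * Real.logb 2 Δ + 1) ≤ Q := by
    rw [hQ]
    apply Real.sqrt_le_sqrt
    have g1 : Real.logb 2 Δ ≤ 2 * (A * n) * Real.log Y := by
      have hΔr : (0 : ℝ) < Δ := by exact_mod_cast hΔ1
      have g2 : Real.log Δ ≤ (A * n) * Real.log Y := by
        have g3 : (Δ : ℝ) ≤ (Y : ℝ) ^ (A * n) := by exact_mod_cast hΔY
        have g4 := Real.log_le_log hΔr g3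
        rw [Real.log_pow] at g4
        push_cast at g4
        exact g4
      have g5 : (1 / 2 : ℝ) ≤ Real.log 2 := by
        have := Real.log_two_gt_d9
        linarith
      unfold Real.logb
      rw [div_le_iff₀ (by linarith)]
      have g6 : 0 ≤ (A * n : ℝ) * Real.log Y := by positivity
      nlinarith
    linarith
  have v2 : VpP F W b β z t ≤ Q * Vp F W b z t :=
    v2'.trans (mul_le_mul_of_nonneg_right hQle hV0.le)
  -- the error
  have herr : erP (g * n) C b₀ W J z 1 (W * M + β) (W * (M + L) + β) ≤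
      Y / Real.log Y ^ (a + 1) := by
    have h1 := hY3' z J (W * M + β) (W * (M + L) + β) (by
      have : W * M ≤ W * (M + L) := Nat.mul_le_mul_left _ (by omega)
      omega) (by omega) (by omega) hz hJ2
    refine le_trans ?_ h1
    have h2 := single_le_sum (f := fun T : Pg Gi Y ε₁ (1 / 8) → Option (Fin 1) => 5 ^ nc T *
      (if lt (ls Gi Y ε₁ (1 / 8)) T ≤ 2 * 0 then
        erP (g * n) C b₀ W J z (DT (fun s : Pg Gi Y ε₁ (1 / 8) => (s : ℕ)) T) (W * M + β)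
          (W * (M + L) + β) else 0)) (s := univ)
      (fun T _ => mul_nonneg (by positivity) (by
        split_ifs
        · exact erP_nonneg _ _ _ _ _ _ _ _ _
        · exact le_rfl)) (mem_univ (fun _ => none))
    refine le_trans (le_of_eq ?_) h2
    have h3 : nc (fun _ : Pg Gi Y ε₁ (1 / 8) => (none : Option (Fin 1))) = 0 := by simp [nc]
    have h4 : lt (ls Gi Y ε₁ (1 / 8)) (fun _ => (none : Option (Fin 1))) ≤ 2 * 0 := by simp [lt]
    have h5 : DT (fun s : Pg Gi Y ε₁ (1 / 8) => (s : ℕ)) (fun _ => (none : Option (Fin 1))) = 1 := by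
      simp [DT]
    rw [h3, if_pos h4, h5, pow_zero, one_mul]
  set π := H343E.pi1 (W * (M + L) + β) - H343E.pi1 (W * M + β) with hπd
  set VP := VpP F W b β z t with hVP
  have hφ : (1 : ℝ) ≤ (Nat.totient W : ℝ) * Nat.totient 1 := by
    rw [Nat.totient_one]
    push_cast
    rw [mul_one]
    exact_mod_cast Nat.totient_pos.2 (by omega)
  have hXβ : π / ((Nat.totient W : ℝ) * Nat.totient 1) * VP ≤
      2 * (W * L) / Real.log Y * (Q * Vp F W b z t) := by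
    have h1 : π / ((Nat.totient W : ℝ) * Nat.totient 1) ≤ π := div_le_self hπ0 hφ
    exact mul_le_mul (h1.trans hπ) v2 v1 (by positivity)
  have hXβ0 : 0 ≤ π / ((Nat.totient W : ℝ) * Nat.totient 1) * VP := by positivity
  have hhalf : (1 / 2 : ℝ) ^ b₀ ≤ 1 := pow_le_one₀ (by norm_num) (by norm_num)
  rw [abs_le] at hcnt
  have hc2 := hcnt.2
  have h1 : (s.card : ℝ) ≤ 2 * (2 * (W * L) / Real.log Y * (Q * Vp F W b z t)) +
      Y / Real.log Y ^ (a + 1) := by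
    have h2 : (1 / 2 : ℝ) ^ b₀ * (π / ((Nat.totient W : ℝ) * Nat.totient 1) * VP) ≤
        1 * (π / ((Nat.totient W : ℝ) * Nat.totient 1) * VP) :=
      mul_le_mul_of_nonneg_right hhalf hXβ0
    linarith
  have h2 : (Y : ℝ) / Real.log Y ^ (a + 1) ≤ 8 * W * X / Real.log Y := by
    rw [div_le_div_iff₀ (by positivity) hlY]
    have h3 : (Y : ℝ) ≤ 8 * (W * L) := by exact_mod_cast w4
    have h4 : (Y : ℝ) * 1 ≤ (8 * (W * L)) * (Real.log Y ^ a * Vp F W b z t) :=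
      mul_le_mul h3 hV1 (by norm_num) (by positivity)
    have h5 : (Y : ℝ) * Real.log Y ≤ ((8 * (W * L)) * (Real.log Y ^ a * Vp F W b z t)) *
        Real.log Y := by
      apply mul_le_mul_of_nonneg_right _ hlY.le
      linarith
    refine h5.trans (le_of_eq ?_)
    rw [hX, pow_succ]
    ring
  have h3 : 2 * (2 * (W * L) / Real.log Y * (Q * Vp F W b z t)) = 4 * W * Q * X / Real.log Y := by
    rw [hX]
    ring
  have h4 : 4 * W * Q * X / Real.log Y + 8 * W * X / Real.log Y =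
      (4 * W * Q + 8 * W) / Real.log Y * X := by ring
  have h5 : (4 * W * Q + 8 * W) / Real.log Y ≤ η := by
    rw [div_le_iff₀ hlY]
    rw [← hQ] at e1
    exact e1
  have h6 := mul_le_mul_of_nonneg_right h5 hX0
  linarith


end Pool.Agent.R498.MP
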