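import Pool.Agent.R498.MP.PU7
import Pool.Agent.R498.MP.Lin

/-!
Strings of primes `p` with almost prime `f(p)`, uniformly in the polynomial `f`.
-/

set_option autoImplicit false

namespace Pool.Agent.R498.MP

open Finset Filter Polynomial
open Pool.Agent.Y677.RSZ (rt)

/-- polynomials of bounded degree without fixed prime divisor -/
theorem sysW_poly (P : ℤ[X]) (g : ℕ) (hdeg : P.natDegree ≤ g)
    (hadm : ∀ p : ℕ, p.Prime → ∃ n : ℤ, ¬ (p : ℤ) ∣ P.eval n) :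
    SysW g (fun n => P.eval n) := by
  classical
  have hper : ∀ p : ℕ, p.Prime → ∀ n : ℤ, (p : ℤ) ∣ P.eval (n + p) - P.eval n := by
    intro p _ n
    have h1 := sub_dvd_eval_sub (n + p) n P
    rwa [add_sub_cancel_left] at h1
  refine ⟨hper, ?_⟩
  intro p hp
  have : Fact p.Prime := ⟨hp⟩
  obtain ⟨n, hn⟩ := hadm p hp
  obtain ⟨Q, hQ⟩ : ∃ Q : (ZMod p)[X], Q = P.map (Int.castRingHom (ZMod p)) := ⟨_, rfl⟩
  have hev : ∀ x : ℤ, Q.eval (x : ZMod p) = ((P.eval x : ℤ) : ZMod p) := by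
    intro x
    rw [hQ]
    simp
  have hQ0 : Q ≠ 0 := by
    intro h
    apply hn
    rw [← ZMod.intCast_zmod_eq_zero_iff_dvd, ← hev n, h, eval_zero]
  constructor
  · have h1 : ((range p).filter (fun r : ℕ => (p : ℤ) ∣ P.eval (r : ℤ))).card ≤
        Q.roots.toFinset.card := by
      apply card_le_card_of_injOn (fun r : ℕ => (r : ZMod p))
      · intro r hr
        have hr' := mem_filter.1 (Finset.mem_coe.1 hr)
        rw [Finset.mem_coe, Multiset.mem_toFinset, mem_roots hQ0, IsRoot.def]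
        have h2 := hev (r : ℤ)
        rw [Int.cast_natCast] at h2
        rw [h2, ZMod.intCast_zmod_eq_zero_iff_dvd]
        exact hr'.2
      · intro r hr r' hr' hrr
        have h2 := mem_filter.1 (Finset.mem_coe.1 hr)
        have h3 := mem_filter.1 (Finset.mem_coe.1 hr')
        rw [mem_range] at h2 h3
        have h4 : r ≡ r' [MOD p] := (ZMod.natCast_eq_natCast_iff _ _ _).1 hrr
        exact Nat.ModEq.eq_of_lt_of_lt h4 h2.1 h3.1
    have h2 : Q.roots.toFinset.card ≤ Q.natDegree :=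
      (Multiset.toFinset_card_le _).trans (card_roots' Q)
    have h3 : Q.natDegree ≤ P.natDegree := by
      rw [hQ]
      exact natDegree_map_le
    unfold rt
    exact h1.trans (h2.trans (h3.trans hdeg))
  · unfold rt
    have h1 : (range p).filter (fun r : ℕ => (p : ℤ) ∣ P.eval (r : ℤ)) ⊂ range p := by
      rw [Finset.filter_ssubset]
      refine ⟨(n % p).toNat, ?_, ?_⟩
      · rw [mem_range]
        have h2 := Int.emod_lt_of_pos n (show (0 : ℤ) < p by exact_mod_cast hp.pos)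
        have h3 := Int.emod_nonneg n (show (p : ℤ) ≠ 0 by exact_mod_cast hp.ne_zero)
        omega
      · intro h2
        apply hn
        have h3 := Int.emod_nonneg n (show (p : ℤ) ≠ 0 by exact_mod_cast hp.ne_zero)
        rw [Int.toNat_of_nonneg h3] at h2
        have h4 : (p : ℤ) ∣ P.eval n - P.eval (n % p) :=
          (Int.dvd_self_sub_emod).trans (sub_dvd_eval_sub n (n % p) P)
        have h5 := dvd_add h4 h2
        rwa [sub_add_cancel] at h5
    have h2 := card_lt_card h1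
    rwa [card_range] at h2

/-- `n ≠ 0` with at most `r` prime factors, all at least `w` -/
def APZ (r : ℕ) (w : ℝ) (n : ℤ) : Prop :=
  n ≠ 0 ∧ n.natAbs.primeFactorsList.length ≤ r ∧ ∀ p : ℕ, p.Prime → (p : ℤ) ∣ n → w ≤ p

/-- **Runs of primes in a residue class with almost prime values, uniformly in the polynomial.** -/
theorem stringsU (D q : ℕ) (hq : Squarefree q) (m : ℕ) :
    ∃ (K B : ℕ) (δ : ℝ), 0 < δ ∧ ∀ A : ℕ, ∃ r : ℕ, ∀ S : Finset ℕ, K ≤ S.card →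
      ∀ᶠ N : ℕ in atTop, ∀ f : ℤ[X], f.natDegree ≤ D →
      (∀ p : ℕ, p.Prime → ∃ n : ℤ, ¬ (p : ℤ) ∣ n * f.eval n) →
      (∀ x : ℤ, |x| ≤ 2 * N → |f.eval x| ≤ (N : ℤ) ^ A) →
      ∀ a : ℕ, (∀ p : ℕ, p.Prime → p ∣ q → ¬ (p : ℤ) ∣ (a : ℤ) * f.eval (a : ℤ)) →
      ∃ H ⊆ S, m ≤ H.card ∧ ∃ T : Finset ℕ, (N : ℝ) ≤ Real.log N ^ B * T.card ∧
        ∀ n ∈ T, N < n ∧ n + S.sup id ≤ 2 * N ∧
          (∀ h ∈ H, (n + h).Prime ∧ n + h ≡ a [MOD q] ∧
            APZ r ((N : ℝ) ^ δ) (f.eval ((n + h : ℕ) : ℤ))) ∧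
          ∀ y ≤ S.sup id, y ∉ H → (∀ h ∈ S, h ≠ y → f.eval ((h : ℤ) - y) ≠ 0) →
            ¬ (n + y).Prime := by
  classical
  obtain ⟨K, B, δ, hδ, hmain⟩ := runsU (D + 1 + q) (by omega) q hq (by omega) m
  refine ⟨K, B, δ, hδ, fun A => ?_⟩
  obtain ⟨r, hr⟩ := exists_nat_ge ((A : ℝ) / δ)
  refine ⟨r, fun S hS => ?_⟩
  -- the sets of the other places
  have hev1 : ∀ᶠ N : ℕ in atTop, ∀ E ∈ (Finset.range (S.sup id + 1)).powerset,
      ∀ F : ℤ → ℤ, SysW (D + 1 + q) F →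
      (∀ p : ℕ, p.Prime → ∀ n : ℤ, (p : ℤ) ∣ n → (p : ℤ) ∣ F n) →
      (∀ h ∈ S, ∀ y ∈ E, y ≠ h → F ((h : ℤ) - y) ≠ 0 ∧
        (F ((h : ℤ) - y)).natAbs ≤ N ^ (A + 1)) →
      ∀ a₀ : ℕ, (∀ p : ℕ, p.Prime → p ∣ q → ¬ (p : ℤ) ∣ F (a₀ : ℤ)) →
      ∃ H ⊆ S, m < H.card ∧ ∃ T : Finset ℕ, (N : ℝ) ≤ Real.log N ^ B * T.card ∧
        ∀ n ∈ T, N < n ∧ n + S.sup id ≤ 2 * N ∧
          (∀ h ∈ H, (n + h).Prime ∧ n + h ≡ a₀ [MOD q]) ∧
          (∀ h ∈ H, ∀ p : ℕ, p.Prime → (p : ℤ) ∣ F ((n + h : ℕ) : ℤ) → (N : ℝ) ^ δ ≤ p) ∧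
          ∀ y ∈ E, y ∉ H → ¬ (n + y).Prime := by
    rw [Finset.eventually_all]
    intro E _
    exact hmain S hS E (S.sup id) (A + 1)
  have hev2 : ∀ᶠ N : ℕ in atTop, (3 : ℝ) ≤ (N : ℝ) ^ δ :=
    ((tendsto_rpow_atTop hδ).comp tendsto_natCast_atTop_atTop).eventually_ge_atTop _
  filter_upwards [hev1, hev2, eventually_ge_atTop (S.sup id + 3)] with N hN hN3 hNS
  intro f hfD hadm hfA a ha
  have hNr : (3 : ℝ) ≤ N := by exact_mod_cast (by omega : 3 ≤ N)
  have hev : ∀ n : ℤ, (X * f : ℤ[X]).eval n = n * f.eval n := fun n => by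
    rw [eval_mul, eval_X]
  have hsys : SysW (D + 1 + q) (fun n => (X * f : ℤ[X]).eval n) := by
    apply sysW_poly
    · have h1 : (X * f : ℤ[X]).natDegree ≤ 1 + f.natDegree := by
        refine natDegree_mul_le.trans ?_
        rw [natDegree_X]
      omega
    · intro p hp
      obtain ⟨n, hn⟩ := hadm p hp
      exact ⟨n, by rwa [hev]⟩
  obtain ⟨H, hH, hHm, T, hT, hmem⟩ := hN ((Finset.range (S.sup id + 1)).filter
    (fun y => ∀ h ∈ S, h ≠ y → f.eval ((h : ℤ) - y) ≠ 0))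
    (Finset.mem_powerset.2 (Finset.filter_subset _ _)) (fun n => (X * f : ℤ[X]).eval n) hsys
    (fun p _ n hd => by
      rw [hev]
      exact hd.mul_right _) (by
      intro h hh y hy hyh
      rw [hev]
      rw [mem_filter, mem_range] at hy
      have h1 : (h : ℤ) - y ≠ 0 := by
        intro h2
        apply hyh
        have : (h : ℤ) = y := by linarith
        exact_mod_cast this.symm
      refine ⟨mul_ne_zero h1 (hy.2 h hh hyh.symm), ?_⟩
      have hhS : h ≤ S.sup id := Finset.le_sup (f := id) hh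
      have h2 : |(h : ℤ) - y| ≤ N := by
        rw [abs_le]
        constructor <;> omega
      have h3 := hfA ((h : ℤ) - y) (by linarith [abs_nonneg ((h : ℤ) - y)])
      have h4 : |((h : ℤ) - y) * f.eval ((h : ℤ) - y)| ≤ (N : ℤ) ^ (A + 1) := by
        rw [abs_mul, pow_succ, mul_comm ((N : ℤ) ^ A)]
        exact mul_le_mul h2 h3 (abs_nonneg _) (by positivity)
      have h5 : (((((h : ℤ) - y) * f.eval ((h : ℤ) - y)).natAbs : ℕ) : ℤ) ≤ ((N ^ (A + 1) : ℕ) : ℤ) := by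
        rw [Int.natCast_natAbs]
        push_cast
        exact h4
      exact_mod_cast h5) a (fun p hp hpq => by
      rw [hev]
      exact ha p hp hpq)
  refine ⟨H, hH, hHm.le, T, hT, fun n hn => ?_⟩
  obtain ⟨h1, h2, h3, h4, h5⟩ := hmem n hn
  refine ⟨h1, h2, fun h hh => ?_, fun y hy hyH hyf => h5 y ?_ hyH⟩
  · have h9' : ∀ p : ℕ, p.Prime → (p : ℤ) ∣ f.eval ((n + h : ℕ) : ℤ) → (N : ℝ) ^ δ ≤ p := by
      intro p hp hpd
      apply h4 h hh p hp
      rw [hev]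
      exact hpd.mul_left _
    have hhS : h ≤ S.sup id := Finset.le_sup (f := id) (hH hh)
    have hbd := hfA ((n + h : ℕ) : ℤ) (by
      rw [abs_of_nonneg (by positivity)]
      exact_mod_cast (by omega : n + h ≤ 2 * N))
    -- the value is not zero
    have hne : f.eval ((n + h : ℕ) : ℤ) ≠ 0 := by
      intro h0
      have h6 := h9' 2 Nat.prime_two (by rw [h0]; exact dvd_zero _)
      push_cast at h6
      linarith
    refine ⟨(h3 h hh).1, (h3 h hh).2, hne, ?_, h9'⟩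
    have h10 : ((f.eval ((n + h : ℕ) : ℤ)).natAbs : ℝ) ≤ (N : ℝ) ^ ((A : ℕ) : ℝ) := by
      rw [Real.rpow_natCast]
      have h5 : (((f.eval ((n + h : ℕ) : ℤ)).natAbs : ℕ) : ℤ) ≤ ((N ^ A : ℕ) : ℤ) := by
        rw [Int.natCast_natAbs]
        push_cast
        exact hbd
      have h6 : (f.eval ((n + h : ℕ) : ℤ)).natAbs ≤ N ^ A := by exact_mod_cast h5
      exact_mod_cast h6
    have h13 := Pool.Agent.R498.MT.omega_le N (f.eval ((n + h : ℕ) : ℤ)).natAbs δ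
      ((A : ℕ) : ℝ) (by omega) hδ (by rwa [Int.natAbs_ne_zero])
      (fun p hp hpd => h9' p hp (Int.natCast_dvd.2 hpd)) h10
    exact_mod_cast h13.trans hr
  · rw [mem_filter]
    exact ⟨Finset.mem_range.2 (by omega), hyf⟩

end Pool.Agent.R498.MP
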