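import Pool.Agent.R498.MP.PA13

/-!
Strings of consecutive primes `p` with rough `f(p)`, in narrow progressions: the usable form.
-/

set_option autoImplicit false

namespace Pool.Agent.R498.MP

open Finset Filter Polynomial
open Pool.Agent.Y677.RSZ (Sys poly_all)

/-- **Strings of consecutive primes with rough values in narrow progressions**, the shifts being
taken from an arbitrary large set. -/
theorem stringsS (f : ℤ[X]) (hz : ∀ n : ℤ, n ≠ 0 → f.eval n ≠ 0)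
    (hadm : ∀ p : ℕ, p.Prime → ∃ n : ℤ, ¬ (p : ℤ) ∣ n * f.eval n) (m : ℕ) :
    ∃ (K : ℕ) (δ : ℝ), 0 < δ ∧ ∀ S : Finset ℕ, K ≤ S.card → ∀ l : ℕ,
      ∃ B : ℕ, ∀ᶠ N : ℕ in atTop, ∃ H ⊆ S, m ≤ H.card ∧ ∃ n d : ℕ, N < n ∧
        n + l * d + S.sup id ≤ 2 * N ∧ 1 ≤ d ∧ (d : ℝ) ≤ Real.log N ^ B ∧ ∀ j < l,
          (∀ y ≤ S.sup id, (n + j * d + y).Prime ↔ y ∈ H) ∧
          ∀ h ∈ H, ∀ p : ℕ, p.Prime → (p : ℤ) ∣ f.eval ((n + j * d + h : ℕ) : ℤ) →
            (N : ℝ) ^ δ ≤ p := by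
  have hf : f ≠ 0 := by
    intro h
    apply hz 1 one_ne_zero
    rw [h, eval_zero]
  have hP : (X * f : ℤ[X]) ≠ 0 := mul_ne_zero X_ne_zero hf
  have hev : ∀ n : ℤ, (X * f : ℤ[X]).eval n = n * f.eval n := fun n => by
    rw [eval_mul, eval_X]
  obtain ⟨g, hg⟩ := poly_all (X * f) hP (fun p hp => by
    obtain ⟨n, hn⟩ := hadm p hp
    exact ⟨n, by rwa [hev]⟩)
  obtain ⟨K₀, δ, hδ, hmain⟩ := prime_runs (X * f) hP (g + 1) (by omega)
    (Pool.Agent.Y677.RSZ.Sys.mono hg (by omega)) (fun p _ n hd => by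
      rw [hev]
      exact hd.mul_right _) m
  refine ⟨K₀, δ, hδ, fun S hS l => ?_⟩
  obtain ⟨B, hB⟩ := hmain S hS (Finset.range (S.sup id + 1)) (by
    intro h _ y _ hyh
    rw [hev]
    have h1 : (h : ℤ) - y ≠ 0 := by
      intro h2
      apply hyh
      have : (h : ℤ) = y := by linarith
      exact_mod_cast this.symm
    exact mul_ne_zero h1 (hz _ h1)) (S.sup id) (l + 2) (by omega)
  refine ⟨B, ?_⟩
  filter_upwards [hB] with N hN
  obtain ⟨H, hH, hHm, n, d, h1, h2, h3, h4, h5⟩ := hN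
  refine ⟨H, hH, hHm.le, n, d, h1, ?_, h3, h4, fun j hj => ?_⟩
  · have e : l + 2 - 1 = l + 1 := by omega
    rw [e] at h2
    have : (l + 1) * d = l * d + d := by ring
    omega
  · obtain ⟨g1, g2, g3⟩ := h5 j (by omega)
    refine ⟨fun y hy => ⟨fun hp => ?_, fun hyH => g1 y hyH⟩, ?_⟩
    · by_contra hcon
      exact g3 y (Finset.mem_range.2 (by omega)) hcon hp
    · intro h hh p hp hpd
      apply g2 h hh p hp
      rw [hev]
      exact hpd.mul_left _

end Pool.Agent.R498.MP
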