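import Pool.Agent.R498.MP.Str
import Pool.Agent.R498.MT.Inst

/-!
Strings of consecutive primes `p` with almost prime `f(p)`, in narrow progressions.
-/

set_option autoImplicit false

namespace Pool.Agent.R498.MP

open Finset Filter Polynomial

/-- **Strings of consecutive primes with almost prime values in narrow progressions**, the shifts
being taken from an arbitrary large set. -/
theorem stringsR (f : ℤ[X]) (hz : ∀ n : ℤ, n ≠ 0 → f.eval n ≠ 0)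
    (hadm : ∀ p : ℕ, p.Prime → ∃ n : ℤ, ¬ (p : ℤ) ∣ n * f.eval n) (m : ℕ) :
    ∃ (K r : ℕ) (δ : ℝ), 0 < δ ∧ ∀ S : Finset ℕ, K ≤ S.card → ∀ l : ℕ,
      ∃ B : ℕ, ∀ᶠ N : ℕ in atTop, ∃ H ⊆ S, m ≤ H.card ∧ ∃ n d : ℕ, N < n ∧
        n + l * d + S.sup id ≤ 2 * N ∧ 1 ≤ d ∧ (d : ℝ) ≤ Real.log N ^ B ∧ ∀ j < l,
          (∀ y ≤ S.sup id, (n + j * d + y).Prime ↔ y ∈ H) ∧
          ∀ h ∈ H, (f.eval ((n + j * d + h : ℕ) : ℤ)).natAbs.primeFactorsList.length ≤ r ∧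
            ∀ p : ℕ, p.Prime → (p : ℤ) ∣ f.eval ((n + j * d + h : ℕ) : ℤ) →
            (N : ℝ) ^ δ ≤ p := by
  obtain ⟨K, δ, hδ, hmain⟩ := stringsS f hz hadm m
  obtain ⟨Kf, D, hKD⟩ := Pool.Agent.W123.RU.Poly.eval_bound f
  obtain ⟨r, hr⟩ := exists_nat_ge ((2 * D + 1 : ℝ) / δ)
  refine ⟨K, r, δ, hδ, fun S hS l => ?_⟩
  obtain ⟨B, hB⟩ := hmain S hS l
  refine ⟨B, ?_⟩
  filter_upwards [hB, eventually_ge_atTop (Kf + 3)] with N hN hNK
  obtain ⟨H, hH, hHm, n, d, h1, h2, h3, h4, h5⟩ := hN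
  refine ⟨H, hH, hHm, n, d, h1, h2, h3, h4, fun j hj => ?_⟩
  obtain ⟨g1, g2⟩ := h5 j hj
  refine ⟨g1, fun h hh => ⟨?_, g2 h hh⟩⟩
  have hx : n + j * d + h ≤ 2 * N := by
    have h6 : h ≤ S.sup id := Finset.le_sup (f := id) (hH hh)
    have h7 : j * d ≤ l * d := Nat.mul_le_mul_right _ hj.le
    omega
  have hNr : (3 : ℝ) ≤ N := by
    have : 3 ≤ N := by omega
    exact_mod_cast this
  have hKr : (Kf : ℝ) ≤ N := by
    have : Kf ≤ N := by omega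
    exact_mod_cast this
  have hxr : ((n + j * d + h : ℕ) : ℝ) ≤ 2 * N := by exact_mod_cast hx
  have h8 := hKD ((n + j * d + h : ℕ) : ℤ)
  have h9 : ((f.eval ((n + j * d + h : ℕ) : ℤ)).natAbs : ℝ) =
      |((f.eval ((n + j * d + h : ℕ) : ℤ) : ℤ) : ℝ)| := by
    rw [← Int.cast_abs, Int.abs_eq_natAbs]
    simp
  have h10 : ((f.eval ((n + j * d + h : ℕ) : ℤ)).natAbs : ℝ) ≤ (N : ℝ) ^ ((2 * D + 1 : ℕ) : ℝ) := by
    rw [h9]
    refine h8.trans ?_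
    rw [Real.rpow_natCast, pow_succ, pow_mul, mul_comm]
    have h11 : 1 + |(((n + j * d + h : ℕ) : ℤ) : ℝ)| ≤ (N : ℝ) ^ 2 := by
      rw [Int.cast_natCast, abs_of_nonneg (Nat.cast_nonneg _)]
      nlinarith
    have h12 : (0 : ℝ) ≤ 1 + |(((n + j * d + h : ℕ) : ℤ) : ℝ)| := by positivity
    gcongr
  have h13 := Pool.Agent.R498.MT.omega_le N (f.eval ((n + j * d + h : ℕ) : ℤ)).natAbs δ
    ((2 * D + 1 : ℕ) : ℝ) (by omega) hδ (by
      rw [Int.natAbs_ne_zero]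
      apply hz
      have : 0 < n + j * d + h := by omega
      exact_mod_cast this.ne') (fun p hp hpd => g2 h hh p hp (Int.natCast_dvd.2 hpd)) h10
  have h14 : ((2 * D + 1 : ℕ) : ℝ) / δ ≤ r := by
    push_cast
    exact hr
  exact_mod_cast h13.trans h14

end Pool.Agent.R498.MP
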