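import Pool.Agent.R498.MP.Gold
import Pool.Agent.R498.MP.LinC

/-!
Primes `p` in strings with almost prime linear forms `a_i p + b_i`, uniformly in the coefficients.
-/

set_option autoImplicit false

namespace Pool.Agent.R498.MP

open Finset Filter Polynomial

/-- the product of the forms -/
noncomputable def LF {k : ℕ} (a b : Fin k → ℤ) : ℤ[X] := ∏ i, (C (a i) * X + C (b i))

theorem LF_eval {k : ℕ} (a b : Fin k → ℤ) (x : ℤ) : (LF a b).eval x = ∏ i, (a i * x + b i) := by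
  unfold LF
  rw [eval_prod]
  apply prod_congr rfl
  intro i _
  simp

theorem LF_deg {k : ℕ} (a b : Fin k → ℤ) : (LF a b).natDegree ≤ k := by
  unfold LF
  refine (natDegree_prod_le _ _).trans ?_
  calc ∑ i : Fin k, (C (a i) * X + C (b i) : ℤ[X]).natDegree ≤ ∑ _i : Fin k, 1 :=
        sum_le_sum fun i _ => natDegree_linear_le
    _ = k := by simp

theorem LF_bd {k : ℕ} (a b : Fin k → ℤ) (N A : ℕ) (hN : 3 ≤ N)
    (hab : ∀ i, |a i| ≤ (N : ℤ) ^ A ∧ |b i| ≤ (N : ℤ) ^ A) (x : ℤ) (hx : |x| ≤ 2 * N) :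
    |(LF a b).eval x| ≤ (N : ℤ) ^ ((A + 2) * k) := by
  rw [LF_eval, abs_prod]
  have h1 : ∀ i, |a i * x + b i| ≤ (N : ℤ) ^ (A + 2) := by
    intro i
    obtain ⟨h2, h3⟩ := hab i
    have h4 : |a i * x + b i| ≤ |a i| * |x| + |b i| := by
      refine (abs_add_le _ _).trans ?_
      rw [abs_mul]
    have h5 : (3 : ℤ) ≤ N := by exact_mod_cast hN
    have h6 : (0 : ℤ) ≤ (N : ℤ) ^ A := by positivity
    have h7 : |a i| * |x| ≤ (N : ℤ) ^ A * (2 * N) := mul_le_mul h2 hx (abs_nonneg _) h6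
    have h8 : (N : ℤ) ^ (A + 2) = (N : ℤ) ^ A * (N * N) := by ring
    rw [h8]
    have h9 : (2 * (N : ℤ) + 1) ≤ N * N := by nlinarith
    have h10 := mul_le_mul_of_nonneg_left h9 h6
    nlinarith
  calc ∏ i, |a i * x + b i| ≤ ∏ _i : Fin k, (N : ℤ) ^ (A + 2) :=
        prod_le_prod (fun i _ => abs_nonneg _) (fun i _ => h1 i)
    _ = (N : ℤ) ^ ((A + 2) * k) := by
        rw [prod_const, card_univ, Fintype.card_fin, ← pow_mul]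

/-- **Strings of primes with almost prime linear forms, uniformly in the coefficients.** -/
theorem linU (k q : ℕ) (hq : Squarefree q) (m : ℕ) :
    ∃ (K B : ℕ) (δ : ℝ), 0 < δ ∧ ∀ A : ℕ, ∃ r : ℕ, ∀ S : Finset ℕ, K ≤ S.card →
      ∀ᶠ N : ℕ in atTop, ∀ a b : Fin k → ℤ,
      (∀ i, |a i| ≤ (N : ℤ) ^ A ∧ |b i| ≤ (N : ℤ) ^ A) →
      (∀ p : ℕ, p.Prime → ∃ n : ℤ, ¬ (p : ℤ) ∣ n * ∏ i, (a i * n + b i)) →
      ∀ c : ℕ, IsCoprime ((c : ℤ) * ∏ i, (a i * (c : ℤ) + b i)) (q : ℤ) →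
      ∃ H ⊆ S, m ≤ H.card ∧ ∃ T : Finset ℕ, (N : ℝ) ≤ Real.log N ^ B * T.card ∧
        ∀ n ∈ T, N < n ∧ n + S.sup id ≤ 2 * N ∧
          (∀ h ∈ H, (n + h).Prime ∧ n + h ≡ c [MOD q] ∧
            ∀ i, APZ r ((N : ℝ) ^ δ) (a i * ((n + h : ℕ) : ℤ) + b i)) ∧
          ∀ y ≤ S.sup id, y ∉ H → (∀ h ∈ S, h ≠ y → ∀ i, a i * ((h : ℤ) - y) + b i ≠ 0) →
            ¬ (n + y).Prime := by
  obtain ⟨K, B, δ, hδ, hmain⟩ := stringsU k q hq m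
  refine ⟨K, B, δ, hδ, fun A => ?_⟩
  obtain ⟨r, hr⟩ := hmain ((A + 2) * k)
  refine ⟨r, fun S hS => ?_⟩
  filter_upwards [hr S hS, eventually_ge_atTop 3] with N hN hN3
  intro a b hab hadm c hc
  obtain ⟨H, hH, hHm, T, hT, hmem⟩ := hN (LF a b) (LF_deg a b) (fun p hp => by
      obtain ⟨n, hn⟩ := hadm p hp
      exact ⟨n, by rwa [LF_eval]⟩) (LF_bd a b N A hN3 hab) c (fun p hp hpq => by
      rw [LF_eval]
      exact cop_to _ q hc p hp hpq)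
  refine ⟨H, hH, hHm, T, hT, fun n hn => ?_⟩
  obtain ⟨g1, g2, g3, g4⟩ := hmem n hn
  refine ⟨g1, g2, fun h hh => ?_, fun y hy hyH hyF => g4 y hy hyH (fun h hh hhy => ?_)⟩
  · obtain ⟨k1, k2, k3⟩ := g3 h hh
    refine ⟨k1, k2, fun i => ?_⟩
    rw [LF_eval] at k3
    exact AP_dvd _ _ _ _ k3 (dvd_prod_of_mem _ (mem_univ i))
  · rw [LF_eval, prod_ne_zero_iff]
    intro i _
    exact hyF h hh hhy i

/-- **Primes with index in a class with almost prime linear forms, uniformly in the coefficients.** -/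
theorem lin_indexU (k q : ℕ) (hq : Squarefree q) (u r : ℕ) (hu : 1 ≤ u) :
    ∃ (C : ℕ) (δ : ℝ), 0 < δ ∧ ∀ A : ℕ, ∃ R : ℕ, ∀ b₀ : ℕ, ∀ᶠ N : ℕ in atTop,
      ∀ a b : Fin k → ℤ, (∀ i, |a i| ≤ (N : ℤ) ^ A ∧ |b i| ≤ (N : ℤ) ^ A) →
      (∀ p : ℕ, p.Prime → ∃ n : ℤ, ¬ (p : ℤ) ∣ n * ∏ i, (a i * n + b i)) →
      (∀ i, ∀ d : ℤ, d ≠ 0 → a i * d + b i ≠ 0) →
      ∀ c : ℕ, IsCoprime ((c : ℤ) * ∏ i, (a i * (c : ℤ) + b i)) (q : ℤ) →
      ∃ t : ℕ, 0 < t ∧ N < pr' (u * t + b₀) ∧ pr' (u * (t + r) + b₀) ≤ 2 * N ∧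
      pr' (u * (t + r) + b₀) ≤ pr' (u * t + b₀) + C ∧
      ∀ j ≤ r, pr' (u * (t + j) + b₀) ≡ c [MOD q] ∧
        ∀ i, APZ R ((N : ℝ) ^ δ) (a i * ((pr' (u * (t + j) + b₀) : ℕ) : ℤ) + b i) := by
  obtain ⟨C, δ, hδ, hmain⟩ := indexU k q hq u r hu
  refine ⟨C, δ, hδ, fun A => ?_⟩
  obtain ⟨R, hR⟩ := hmain ((A + 2) * k)
  refine ⟨R, fun b₀ => ?_⟩
  filter_upwards [hR (u + b₀ - 1), eventually_ge_atTop 3] with N hN hN3
  intro a b hab hadm hnz c hc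
  obtain ⟨t, h1, h2, h3, h4⟩ := hN (LF a b) (LF_deg a b) (fun p hp => by
      obtain ⟨n, hn⟩ := hadm p hp
      exact ⟨n, by rwa [LF_eval]⟩) (LF_bd a b N A hN3 hab) (fun x hx0 _ => by
      rw [LF_eval, prod_ne_zero_iff]
      intro i _
      exact hnz i x hx0) c (fun p hp hpq => by
      rw [LF_eval]
      exact cop_to _ q hc p hp hpq)
  have e : ∀ i, pr' (u * (t + 1 + i) + b₀) = Nat.nth Nat.Prime (u * (t + i) + (u + b₀ - 1)) := by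
    intro i
    unfold pr'
    congr 1
    have : u * (t + 1 + i) = u * (t + i) + u := by ring
    omega
  have e0 : pr' (u * (t + 1) + b₀) = Nat.nth Nat.Prime (u * t + (u + b₀ - 1)) := by
    have := e 0
    simpa using this
  refine ⟨t + 1, by omega, ?_, ?_, ?_, fun j hj => ?_⟩
  · rw [e0]; exact h1
  · rw [e r]; exact h2
  · rw [e0, e r]; exact h3
  · rw [e j]
    obtain ⟨g1, g2⟩ := h4 j hj
    refine ⟨g1, fun i => ?_⟩
    rw [LF_eval] at g2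
    exact AP_dvd _ _ _ _ g2 (dvd_prod_of_mem _ (mem_univ i))

theorem nat_cop {k : ℕ} (a b : Fin k → ℕ) (q c : ℕ) (h : Nat.Coprime (c * ∏ i, (a i * c + b i)) q) :
    IsCoprime ((c : ℤ) * ∏ i, (((a i : ℕ) : ℤ) * (c : ℤ) + ((b i : ℕ) : ℤ))) (q : ℤ) := by
  have h1 := Nat.isCoprime_iff_coprime.2 h
  push_cast at h1
  exact h1

/-- **Forms with natural coefficients.** -/
theorem natlinU (k q : ℕ) (hq : Squarefree q) (m : ℕ) :
    ∃ (K B : ℕ) (δ : ℝ), 0 < δ ∧ ∀ A : ℕ, ∃ r : ℕ, ∀ S : Finset ℕ, K ≤ S.card →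
      ∀ᶠ N : ℕ in atTop, ∀ a b : Fin k → ℕ, (∀ i, a i ≤ N ^ A ∧ b i ≤ N ^ A) →
      (∀ p : ℕ, p.Prime → ∃ n : ℕ, ¬ p ∣ n * ∏ i, (a i * n + b i)) →
      ∀ c : ℕ, Nat.Coprime (c * ∏ i, (a i * c + b i)) q →
      ∃ H ⊆ S, m ≤ H.card ∧ ∃ T : Finset ℕ, (N : ℝ) ≤ Real.log N ^ B * T.card ∧
        ∀ n ∈ T, N < n ∧ n + S.sup id ≤ 2 * N ∧
          (∀ h ∈ H, (n + h).Prime ∧ n + h ≡ c [MOD q] ∧
            ∀ i, APN r ((N : ℝ) ^ δ) (a i * (n + h) + b i)) ∧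
          ∀ y ≤ S.sup id, y ∉ H → (∀ h ∈ S, h ≠ y → ∀ i, a i * h + b i ≠ a i * y) →
            ¬ (n + y).Prime := by
  obtain ⟨K, B, δ, hδ, hmain⟩ := linU k q hq m
  refine ⟨K, B, δ, hδ, fun A => ?_⟩
  obtain ⟨r, hr⟩ := hmain A
  refine ⟨r, fun S hS => ?_⟩
  filter_upwards [hr S hS] with N hN
  intro a b hab hadm c hc
  obtain ⟨H, hH, hHm, T, hT, hmem⟩ := hN (fun i => ((a i : ℕ) : ℤ)) (fun i => ((b i : ℕ) : ℤ))
    (fun i => by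
      rw [Nat.abs_cast, Nat.abs_cast]
      exact ⟨by exact_mod_cast (hab i).1, by exact_mod_cast (hab i).2⟩)
    (fun p hp => by
      obtain ⟨n, hn⟩ := hadm p hp
      refine ⟨n, fun h => hn ?_⟩
      exact_mod_cast h) c (nat_cop a b q c hc)
  refine ⟨H, hH, hHm, T, hT, fun n hn => ?_⟩
  obtain ⟨g1, g2, g3, g4⟩ := hmem n hn
  refine ⟨g1, g2, fun h hh => ?_, fun y hy hyH hyF => g4 y hy hyH (fun h hh hhy i h0 => ?_)⟩
  · obtain ⟨k1, k2, k3⟩ := g3 h hh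
    refine ⟨k1, k2, fun i => ?_⟩
    have h5 := k3 i
    have e : ((a i : ℕ) : ℤ) * ((n + h : ℕ) : ℤ) + ((b i : ℕ) : ℤ) =
        ((a i * (n + h) + b i : ℕ) : ℤ) := by push_cast; ring
    rw [e] at h5
    exact APZ_nat _ _ _ h5
  · apply hyF h hh hhy i
    have : ((a i : ℕ) : ℤ) * h + b i = a i * y := by linarith
    exact_mod_cast this

/-- indices, natural coefficients -/
theorem natlin_indexU (k q : ℕ) (hq : Squarefree q) (u r : ℕ) (hu : 1 ≤ u) :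
    ∃ (C : ℕ) (δ : ℝ), 0 < δ ∧ ∀ A : ℕ, ∃ R : ℕ, ∀ b₀ : ℕ, ∀ᶠ N : ℕ in atTop,
      ∀ a b : Fin k → ℕ, (∀ i, a i ≤ N ^ A ∧ b i ≤ N ^ A) →
      (∀ p : ℕ, p.Prime → ∃ n : ℕ, ¬ p ∣ n * ∏ i, (a i * n + b i)) →
      (∀ i, ¬ a i ∣ b i ∨ b i = 0 ∧ 0 < a i) →
      ∀ c : ℕ, Nat.Coprime (c * ∏ i, (a i * c + b i)) q →
      ∃ t : ℕ, 0 < t ∧ N < pr' (u * t + b₀) ∧ pr' (u * (t + r) + b₀) ≤ 2 * N ∧
      pr' (u * (t + r) + b₀) ≤ pr' (u * t + b₀) + C ∧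
      ∀ j ≤ r, pr' (u * (t + j) + b₀) ≡ c [MOD q] ∧
        ∀ i, APN R ((N : ℝ) ^ δ) (a i * pr' (u * (t + j) + b₀) + b i) := by
  obtain ⟨C, δ, hδ, hmain⟩ := lin_indexU k q hq u r hu
  refine ⟨C, δ, hδ, fun A => ?_⟩
  obtain ⟨R, hR⟩ := hmain A
  refine ⟨R, fun b₀ => ?_⟩
  filter_upwards [hR b₀] with N hN
  intro a b hab hadm hnz c hc
  obtain ⟨t, h0, h1, h2, h3, h4⟩ := hN (fun i => ((a i : ℕ) : ℤ)) (fun i => ((b i : ℕ) : ℤ))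
    (fun i => by
      rw [Nat.abs_cast, Nat.abs_cast]
      exact ⟨by exact_mod_cast (hab i).1, by exact_mod_cast (hab i).2⟩)
    (fun p hp => by
      obtain ⟨n, hn⟩ := hadm p hp
      refine ⟨n, fun h => hn ?_⟩
      exact_mod_cast h) (fun i d hd h5 => by
      rcases hnz i with h6 | ⟨h6, h7⟩
      · apply h6
        have h7 : ((a i : ℕ) : ℤ) ∣ ((b i : ℕ) : ℤ) := ⟨-d, by linarith⟩
        exact_mod_cast h7
      · rw [h6] at h5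
        simp only [Nat.cast_zero, add_zero] at h5
        rcases mul_eq_zero.1 h5 with h8 | h8
        · have : a i = 0 := by exact_mod_cast h8
          omega
        · exact hd h8) c (nat_cop a b q c hc)
  refine ⟨t, h0, h1, h2, h3, fun j hj => ?_⟩
  obtain ⟨g1, g2⟩ := h4 j hj
  refine ⟨g1, fun i => ?_⟩
  have h5 := g2 i
  have e : ((a i : ℕ) : ℤ) * ((pr' (u * (t + j) + b₀) : ℕ) : ℤ) + ((b i : ℕ) : ℤ) =
      ((a i * pr' (u * (t + j) + b₀) + b i : ℕ) : ℤ) := by push_cast; ring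
  rw [e] at h5
  exact APZ_nat _ _ _ h5

end Pool.Agent.R498.MP
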