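import Pool.Agent.R498.MP.Gold
import Pool.Agent.R498.MP.LinC

/-!
Primes `p` in strings with almost prime `F_i(p)` and `M - G(p)`, for every large `M`.
-/

set_option autoImplicit false

namespace Pool.Agent.R498.MP

open Finset Filter Polynomial

theorem APZ_dvd (r : ℕ) (w : ℝ) (a b : ℤ) (h : APZ r w b) (hab : a ∣ b) : APZ r w a :=
  AP_dvd r w a b h hab

/-- bounds for a fixed polynomial -/
theorem poly_bd (P : ℤ[X]) : ∃ E : ℕ, ∀ᶠ N : ℕ in atTop, ∀ x : ℤ, |x| ≤ 2 * N →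
    |P.eval x| ≤ (N : ℤ) ^ E := by
  obtain ⟨K, D, hKD⟩ := Pool.Agent.W123.RU.Poly.eval_bound P
  refine ⟨2 * D + 1, ?_⟩
  filter_upwards [eventually_ge_atTop (K + 3)] with N hN x hx
  have h1 := hKD x
  have hNr : (3 : ℝ) ≤ N := by exact_mod_cast (by omega : 3 ≤ N)
  have hKr : (K : ℝ) ≤ N := by exact_mod_cast (by omega : K ≤ N)
  have h2 : |(x : ℝ)| ≤ 2 * N := by
    have : ((|x| : ℤ) : ℝ) ≤ ((2 * N : ℤ) : ℝ) := by exact_mod_cast hx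
    push_cast at this
    exact this
  have h3 : 1 + |(x : ℝ)| ≤ (N : ℝ) ^ 2 := by nlinarith
  have h4 : |((P.eval x : ℤ) : ℝ)| ≤ (N : ℝ) ^ (2 * D + 1) := by
    refine h1.trans ?_
    rw [pow_succ, pow_mul, mul_comm]
    have h12 : (0 : ℝ) ≤ 1 + |(x : ℝ)| := by positivity
    gcongr
  have h5 : ((|P.eval x| : ℤ) : ℝ) ≤ (((N : ℤ) ^ (2 * D + 1) : ℤ) : ℝ) := by
    push_cast
    exact h4
  exact_mod_cast h5

/-- **Strings of primes with almost prime `F_i(p)` and `M - G(p)`, for every large `M`.** -/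
theorem hn_runs {g : ℕ} (F : Fin g → ℤ[X]) (G : ℤ[X])
    (q : ℕ) (hq : Squarefree q) (m : ℕ) :
    ∃ (K B : ℕ) (δ : ℝ), 0 < δ ∧ ∀ A : ℕ, ∃ r : ℕ, ∀ S : Finset ℕ, K ≤ S.card →
      ∀ᶠ M : ℕ in atTop, ∀ N : ℕ, M ≤ N ^ A →
      (∀ p : ℕ, p.Prime → ∃ n : ℤ, ¬ (p : ℤ) ∣ n * (∏ i, (F i).eval n) * ((M : ℤ) - G.eval n)) →
      ∀ c : ℕ, IsCoprime ((c : ℤ) * (∏ i, (F i).eval (c : ℤ)) * ((M : ℤ) - G.eval (c : ℤ))) (q : ℤ) →
      ∃ H ⊆ S, m ≤ H.card ∧ ∃ T : Finset ℕ, (N : ℝ) ≤ Real.log N ^ B * T.card ∧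
        ∀ n ∈ T, N < n ∧ n + S.sup id ≤ 2 * N ∧
          (∀ h ∈ H, (n + h).Prime ∧ n + h ≡ c [MOD q] ∧
            (∀ i, APZ r ((N : ℝ) ^ δ) ((F i).eval ((n + h : ℕ) : ℤ))) ∧
            APZ r ((N : ℝ) ^ δ) ((M : ℤ) - G.eval ((n + h : ℕ) : ℤ))) ∧
          ∀ y ≤ S.sup id, y ∉ H → (∀ h ∈ S, h ≠ y → ∀ i, (F i).eval ((h : ℤ) - y) ≠ 0) →
            ¬ (n + y).Prime := by
  classical
  obtain ⟨P, hP⟩ : ∃ P : ℤ[X], P = ∏ i, F i := ⟨_, rfl⟩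
  have hPev : ∀ x : ℤ, P.eval x = ∏ i, (F i).eval x := fun x => by rw [hP, eval_prod]
  obtain ⟨K, B, δ, hδ, hmain⟩ := stringsU (P.natDegree + G.natDegree) q hq m
  refine ⟨K, B, δ, hδ, fun A => ?_⟩
  obtain ⟨E1, hE1⟩ := poly_bd P
  obtain ⟨E2, hE2⟩ := poly_bd G
  obtain ⟨r, hr⟩ := hmain (E1 + (A + E2 + 1))
  refine ⟨r, fun S hS => ?_⟩
  have hgd : ∀ᶠ M : ℕ in atTop, ∀ d ∈ Finset.Icc (-((S.sup id : ℕ) : ℤ)) ((S.sup id : ℕ) : ℤ),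
      (M : ℤ) - G.eval d ≠ 0 := by
    rw [Finset.eventually_all]
    intro d _
    filter_upwards [eventually_gt_atTop (G.eval d).natAbs] with M hM h
    have h1 : (M : ℤ) = G.eval d := by linarith
    have h2 : (G.eval d).natAbs = M := by rw [← h1, Int.natAbs_natCast]
    omega
  have key : ∀ᶠ N : ℕ in atTop, ∀ M : ℕ, M ≤ N ^ A →
      (∀ d ∈ Finset.Icc (-((S.sup id : ℕ) : ℤ)) ((S.sup id : ℕ) : ℤ), (M : ℤ) - G.eval d ≠ 0) →
      (∀ p : ℕ, p.Prime → ∃ n : ℤ, ¬ (p : ℤ) ∣ n * (∏ i, (F i).eval n) * ((M : ℤ) - G.eval n)) →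
      ∀ c : ℕ, IsCoprime ((c : ℤ) * (∏ i, (F i).eval (c : ℤ)) * ((M : ℤ) - G.eval (c : ℤ))) (q : ℤ) →
      ∃ H ⊆ S, m ≤ H.card ∧ ∃ T : Finset ℕ, (N : ℝ) ≤ Real.log N ^ B * T.card ∧
        ∀ n ∈ T, N < n ∧ n + S.sup id ≤ 2 * N ∧
          (∀ h ∈ H, (n + h).Prime ∧ n + h ≡ c [MOD q] ∧
            (∀ i, APZ r ((N : ℝ) ^ δ) ((F i).eval ((n + h : ℕ) : ℤ))) ∧
            APZ r ((N : ℝ) ^ δ) ((M : ℤ) - G.eval ((n + h : ℕ) : ℤ))) ∧
          ∀ y ≤ S.sup id, y ∉ H → (∀ h ∈ S, h ≠ y → ∀ i, (F i).eval ((h : ℤ) - y) ≠ 0) →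
            ¬ (n + y).Prime := by
    filter_upwards [hr S hS, hE1, hE2, eventually_ge_atTop 2] with N hN h1 h2 hN2
    intro M hM hnz hadm c hc
    have hev : ∀ x : ℤ, (P * (C (M : ℤ) - G)).eval x = (∏ i, (F i).eval x) * (M - G.eval x) := by
      intro x
      rw [eval_mul, hPev]
      simp
    obtain ⟨H, hH, hHm, T, hT, hmem⟩ := hN (P * (C (M : ℤ) - G)) (by
      refine natDegree_mul_le.trans ?_
      have := natDegree_sub_le (C (M : ℤ)) G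
      rw [natDegree_C] at this
      have h3 : max 0 G.natDegree = G.natDegree := by simp
      omega) (by
      intro p hp
      obtain ⟨n, hn⟩ := hadm p hp
      refine ⟨n, ?_⟩
      rw [hev, ← mul_assoc]
      exact hn) (by
      intro x hx
      rw [hev, ← hPev, abs_mul, pow_add]
      apply mul_le_mul (h1 x hx) _ (abs_nonneg _) (by positivity)
      have h3 : |(M : ℤ) - G.eval x| ≤ M + |G.eval x| := by
        refine (abs_sub _ _).trans ?_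
        rw [Nat.abs_cast]
      have h4 := h2 x hx
      have h5 : (M : ℤ) ≤ (N : ℤ) ^ A := by exact_mod_cast hM
      have h6 : (1 : ℤ) ≤ (N : ℤ) ^ A := one_le_pow₀ (by exact_mod_cast (by omega : 1 ≤ N))
      have h7 : (1 : ℤ) ≤ (N : ℤ) ^ E2 := one_le_pow₀ (by exact_mod_cast (by omega : 1 ≤ N))
      have h8 : (2 : ℤ) ≤ N := by exact_mod_cast hN2
      have h9 : (N : ℤ) ^ (A + E2 + 1) = (N : ℤ) ^ A * (N : ℤ) ^ E2 * N := by ring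
      rw [h9]
      have h10 : (N : ℤ) ^ A + (N : ℤ) ^ E2 ≤ 2 * ((N : ℤ) ^ A * (N : ℤ) ^ E2) := by
        nlinarith
      have h11 : (0 : ℤ) ≤ (N : ℤ) ^ A * (N : ℤ) ^ E2 := by positivity
      nlinarith) c (by
      intro p hp hpq h
      rw [hev, ← mul_assoc] at h
      exact cop_to _ q hc p hp hpq h)
    refine ⟨H, hH, hHm, T, hT, fun n hn => ?_⟩
    obtain ⟨g1, g2, g3, g4⟩ := hmem n hn
    refine ⟨g1, g2, fun h hh => ?_, fun y hy hyH hyF => g4 y hy hyH (fun h hh hhy => ?_)⟩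
    · obtain ⟨k1, k2, k3⟩ := g3 h hh
      refine ⟨k1, k2, fun i => ?_, ?_⟩
      · refine APZ_dvd _ _ _ _ k3 ?_
        rw [hev]
        exact (dvd_prod_of_mem (fun i => (F i).eval ((n + h : ℕ) : ℤ)) (mem_univ i)).mul_right _
      · refine APZ_dvd _ _ _ _ k3 ?_
        rw [hev]
        exact dvd_mul_left _ _
    · rw [hev]
      apply mul_ne_zero
      · rw [prod_ne_zero_iff]
        intro i _
        exact hyF h hh hhy i
      · apply hnz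
        rw [Finset.mem_Icc]
        have h5 : h ≤ S.sup id := Finset.le_sup (f := id) hh
        constructor <;> omega
  have key2 := swap_ev A (fun N M => (∀ d ∈ Finset.Icc (-((S.sup id : ℕ) : ℤ)) ((S.sup id : ℕ) : ℤ),
      (M : ℤ) - G.eval d ≠ 0) →
      (∀ p : ℕ, p.Prime → ∃ n : ℤ, ¬ (p : ℤ) ∣ n * (∏ i, (F i).eval n) * ((M : ℤ) - G.eval n)) →
      ∀ c : ℕ, IsCoprime ((c : ℤ) * (∏ i, (F i).eval (c : ℤ)) * ((M : ℤ) - G.eval (c : ℤ))) (q : ℤ) →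
      ∃ H ⊆ S, m ≤ H.card ∧ ∃ T : Finset ℕ, (N : ℝ) ≤ Real.log N ^ B * T.card ∧
        ∀ n ∈ T, N < n ∧ n + S.sup id ≤ 2 * N ∧
          (∀ h ∈ H, (n + h).Prime ∧ n + h ≡ c [MOD q] ∧
            (∀ i, APZ r ((N : ℝ) ^ δ) ((F i).eval ((n + h : ℕ) : ℤ))) ∧
            APZ r ((N : ℝ) ^ δ) ((M : ℤ) - G.eval ((n + h : ℕ) : ℤ))) ∧
          ∀ y ≤ S.sup id, y ∉ H → (∀ h ∈ S, h ≠ y → ∀ i, (F i).eval ((h : ℤ) - y) ≠ 0) →
            ¬ (n + y).Prime) key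
  filter_upwards [key2, hgd] with M hM1 hM2 N hMN
  exact hM1 N hMN hM2

end Pool.Agent.R498.MP
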